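import Pool.Agent.Lib.MP_d89457_lc.NB.Spec

/-!
# MP_d89457_lc, NB: module BAS (Namba trees in the Boolean completion)
-/

set_option autoImplicit false

namespace Pool.Agent.Lib.MPd89457.NB

open Cardinal

namespace BASM

variable {Ω B : Type} [CompleteBooleanAlgebra B] {e : Nam Ω → B}

theorem ev_eq {T : Set (List Ω)} {s : List Ω} (hT : IsNam T s) : ev e T = e ⟨T, ⟨s, hT⟩⟩ := by
  have h : ∃ s, IsNam T s := ⟨s, hT⟩
  unfold ev
  exact dif_pos h

theorem le_of_subset {T T' : Set (List Ω)} (h : ∃ s, IsNam T s) (h' : ∃ s, IsNam T' s)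
    (hs : T ⊆ T') : (⟨T, h⟩ : Nam Ω) ≤ ⟨T', h'⟩ := hs

theorem subset_of_le {p q : Nam Ω} (h : p ≤ q) : p.1 ⊆ q.1 := h

theorem mono (he : IsBC e) {T T' : Set (List Ω)} {s s' : List Ω} (hT : IsNam T s)
    (hT' : IsNam T' s') (h : T ⊆ T') : ev e T ≤ ev e T' := by
  rw [ev_eq hT, ev_eq hT']
  exact he.mono _ _ (le_of_subset _ _ h)

theorem pos (he : IsBC e) {T : Set (List Ω)} {s : List Ω} (hT : IsNam T s) : ev e T ≠ ⊥ := by
  rw [ev_eq hT]
  exact he.pos _

theorem below (hTRE : SpecTRE) (he : IsBC e) {T : Set (List Ω)} {s : List Ω} {x : B} (k : ℕ)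
    (hT : IsNam T s) (hx : ev e T ⊓ x ≠ ⊥) :
    ∃ (R : Set (List Ω)) (u : List Ω), IsNam R u ∧ R ⊆ T ∧ s <:+ u ∧ k ≤ u.length ∧
      ev e R ≤ x := by
  obtain ⟨p, hp⟩ := he.dense _ hx
  have hpT : e p ≤ e ⟨T, ⟨s, hT⟩⟩ := by
    exact (hp.trans inf_le_left).trans (le_of_eq (ev_eq hT))
  have hcomp : ∃ r, r ≤ p ∧ r ≤ (⟨T, ⟨s, hT⟩⟩ : Nam Ω) := by
    by_contra hcon
    have h1 := he.disj _ _ hcon
    rw [inf_eq_left.2 hpT] at h1
    exact he.pos p h1
  obtain ⟨r, hrp, hrT⟩ := hcomp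
  obtain ⟨v, hv⟩ := r.2
  have hRp : r.1 ⊆ p.1 := subset_of_le hrp
  have hRT : r.1 ⊆ T := subset_of_le hrT
  obtain ⟨u, hu, hvu, hlen⟩ := hTRE.long Ω r.1 v v (max k (s.length + 1)) hv hv.1
    (List.suffix_refl v)
  have hsu : s <:+ u := by
    rcases hT.2.2.1 u (hRT hu) with h | h
    · exfalso
      have h1 := h.length_le
      have h2 : s.length + 1 ≤ u.length := (le_max_right _ _).trans hlen
      omega
    · exact h
  have hR := hTRE.res Ω r.1 v u hv hu hvu
  have hsub : res r.1 u ⊆ r.1 := fun w hw => hw.1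
  refine ⟨res r.1 u, u, hR, hsub.trans hRT, hsu, (le_max_left _ _).trans hlen, ?_⟩
  rw [ev_eq hR]
  have h1 : e ⟨res r.1 u, ⟨u, hR⟩⟩ ≤ e p := he.mono _ _ (hsub.trans hRp)
  exact h1.trans (hp.trans inf_le_right)

end BASM

open BASM in
theorem specBAS (hTRE : SpecTRE) : SpecBAS where
  mono := by
    intro Ω B _ e he T T' s s' hT hT' h
    exact mono he hT hT' h
  pos := by
    intro Ω B _ e he T s hT
    exact pos he hT
  below := by
    intro Ω B _ e he T s x k hT hx
    exact below hTRE he k hT hx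
  den := by
    intro Ω B _ e he T s x k hT h
    by_contra hcon
    have h1 : ev e T ⊓ xᶜ ≠ ⊥ := by
      intro h2
      exact hcon (disjoint_compl_right_iff.1 (disjoint_iff.2 h2))
    obtain ⟨R, u, hR, hRT, hsu, hlen, hle⟩ := below hTRE he k hT h1
    apply h R u hR hRT hsu hlen
    exact disjoint_iff.1 (disjoint_compl_left.mono_left hle)
  dis := by
    intro Ω B _ e he T T' s s' t t' hT hT' ht ht' hne
    rw [ev_eq hT, ev_eq hT']
    apply he.disj
    rintro ⟨r, hr, hr'⟩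
    obtain ⟨v, hv⟩ := r.2
    have h1 : r.1 ⊆ T := subset_of_le hr
    have h2 : r.1 ⊆ T' := subset_of_le hr'
    obtain ⟨u, hu, hvu, hlen⟩ := hTRE.long Ω r.1 v v (t.length + t'.length + 1) hv hv.1
      (List.suffix_refl v)
    have h3 : t <:+ u := by
      rcases ht u (h1 hu) with h | h
      · exfalso
        have := h.length_le
        omega
      · exact h
    have h4 : t' <:+ u := by
      rcases ht' u (h2 hu) with h | h
      · exfalso
        have := h.length_le
        omega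
      · exact h
    exact hne (List.suffix_or_suffix_of_suffix h3 h4)

end Pool.Agent.Lib.MPd89457.NB
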