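import Pool.Agent.Lib.MP_d89457_lc.NB.SpecM

/-!
# MP_d89457_lc: CH and a simplified morass refute BFA(N): final step
-/

set_option autoImplicit false

namespace Pool.Agent.Lib.MPd89457.NB

open Cardinal

namespace MFNM

variable {O Ω : Type} [LinearOrder O] [LinearOrder Ω] {φ : O → O} {F : O → O → Set (O → O)}
  {G : O → Set (O → Ω)} {y : Ω → O → O}

theorem inj (hD : Der φ F G y) (hO : Nonempty O) : Function.Injective y := by
  intro i j h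
  obtain ⟨η, -, f, -, h1, h2⟩ := hD.dir i j hO.some
  calc i = f (y i η) := h1.symm
    _ = f (y j η) := by rw [h]
    _ = j := h2

theorem thin (hD : Der φ F G y) (hO : IsO1 O) : Thin (Set.range y) := by
  intro ξ
  refine ⟨Set.range (fun τ : {τ : O // ∃ i, y i ξ = τ} => y τ.2.choose), ?_, ?_⟩
  · refine mk_range_le.trans ?_
    rw [← hO.1]
    exact mk_subtype_le _
  · rintro _ ⟨i, rfl⟩
    refine ⟨_, ⟨⟨y i ξ, i, rfl⟩, rfl⟩, ?_⟩
    intro ζ hζ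
    have h : ∃ j, y j ξ = y i ξ := ⟨i, rfl⟩
    exact hD.tree ζ ξ hζ i h.choose h.choose_spec.symm

theorem core (hD : Der φ F G y) (hO : IsO1 O) (hΩ : IsO2 Ω) (hMBD : SpecMBD) (S : O → Set O)
    (hS : ∀ (ξ₀ : O) (A : Set O), (∀ a ∈ A, a < φ ξ₀) → A.Infinite →
      ∃ ζ, ∀ ξ, ζ < ξ → ξ₀ < ξ → ∀ g ∈ F ξ₀ ξ, (∃ a ∈ A, g a ∈ S ξ) ∧ ∃ a ∈ A, g a ∉ S ξ)
    (i : ℕ → Ω) (hi : Function.Injective i) :
    ∃ ζ, ∀ ξ, ζ < ξ → (∃ n, y (i n) ξ ∈ S ξ) ∧ ∃ n, y (i n) ξ ∉ S ξ := by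
  obtain ⟨ξ₀, f, hf, hA⟩ := hMBD O Ω hO hΩ φ F G y hD (Set.range i) (Set.countable_range i)
  have h1 : ∀ n, f (y (i n) ξ₀) = i n := fun n => hA _ ⟨n, rfl⟩
  have h2 : Function.Injective (fun n => y (i n) ξ₀) := by
    intro m n h
    apply hi
    have h' : f (y (i m) ξ₀) = f (y (i n) ξ₀) := congrArg f h
    rwa [h1, h1] at h'
  obtain ⟨ζ, hζ⟩ := hS ξ₀ (Set.range fun n => y (i n) ξ₀)
    (by rintro _ ⟨n, rfl⟩; exact hD.lt _ _) (Set.infinite_range_of_injective h2)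
  refine ⟨max ζ ξ₀, fun ξ hξ => ?_⟩
  have hξ1 : ζ < ξ := lt_of_le_of_lt (le_max_left _ _) hξ
  have hξ2 : ξ₀ < ξ := lt_of_le_of_lt (le_max_right _ _) hξ
  obtain ⟨g, hg, hg'⟩ := hD.up ξ₀ ξ hξ2 f hf
  have h3 : ∀ n, y (i n) ξ = g (y (i n) ξ₀) := by
    intro n
    have h4 := hg' (y (i n) ξ₀) (hD.lt _ _)
    rwa [h1] at h4
  obtain ⟨⟨a, ⟨m, rfl⟩, ha⟩, b, ⟨n, rfl⟩, hb⟩ := hζ ξ hξ1 hξ2 g hg
  exact ⟨⟨m, by rw [h3]; exact ha⟩, n, by rw [h3]; exact hb⟩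

theorem countable_of_bound (hO : IsO1 O) (P : O → Prop) (ζ : O) (h : ∀ ξ, ζ < ξ → ¬ P ξ) :
    {ξ | P ξ}.Countable := by
  refine (hO.2 ζ).mono ?_
  intro ξ hξ
  by_contra h1
  exact h ξ (not_le.1 h1) hξ

end MFNM

/-- **MFN** -/
theorem specMFN (hZTH : SpecZTH) (hMDE : SpecMDE) (hKCL : SpecKCL) (hMCO : SpecMCO)
    (hMBD : SpecMBD) : SpecMFN := by
  intro hCH O Ω _ _ _ _ hO hΩ φ F G hM B _ e he hBFA
  obtain ⟨y, hD⟩ := hMDE O Ω φ F G hM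
  obtain ⟨S, hS⟩ := hMCO hCH O hO φ F (fun α β h f hf x hx => (hM.inc α β h f hf x hx).2) hM.cnt
  have hne : Nonempty O := by
    rw [← mk_ne_zero_iff, hO.1]
    exact (aleph_pos 1).ne'
  have hinj := MFNM.inj hD hne
  have hY : ℵ_ 2 ≤ #(Set.range y) := by
    rw [mk_range_eq y hinj, hΩ.1]
  have hcore := MFNM.core hD hO hΩ hMBD S hS
  rcases hZTH Ω B e hΩ.1 he O O hO hBFA (Set.range y) (fun ξ x => x ∈ S ξ) hY
    (MFNM.thin hD hO) with ⟨q, hq, hqY, hu⟩ | ⟨q, hq, hqY, hu⟩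
  · choose i hi using hqY
    have hi' : Function.Injective i := by
      intro m n h
      apply hq
      rw [← hi m, ← hi n, h]
    obtain ⟨ζ, hζ⟩ := hcore i hi'
    apply hu
    refine MFNM.countable_of_bound hO _ ζ ?_
    intro ξ hξ hP
    obtain ⟨n, hn⟩ := (hζ ξ hξ).2
    apply hn
    rw [hi n]
    exact hP n
  · have hqY' : ∀ n, ∃ i, y i = q n := fun n => hKCL O Ω hO hΩ φ F G y hD (q n) (hqY n)
    choose i hi using hqY'
    have hi' : Function.Injective i := by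
      intro m n h
      apply hq
      rw [← hi m, ← hi n, h]
    obtain ⟨ζ, hζ⟩ := hcore i hi'
    apply hu
    refine MFNM.countable_of_bound hO _ ζ ?_
    intro ξ hξ hP
    obtain ⟨n, hn⟩ := (hζ ξ hξ).1
    apply hP n
    rw [← hi n]
    exact hn

end Pool.Agent.Lib.MPd89457.NB
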