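import Pool.Agent.Lib.MP_d89457_lc.NB.SpecQ
import Pool.Agent.Lib.MP_d89457_lc.NB.MFN

/-!
# MP_d89457_lc, module BBA: BFA(N) and a morass give dominating ladders
-/

set_option autoImplicit false

namespace Pool.Agent.Lib.MPd89457.NB

open Cardinal

namespace BBAM

/-- the colouring -/
def KK {O : Type} (c : O → O → ℕ) (h : O → ℕ → ℕ) (ξ : O) : List O → Prop
  | t :: s :: _ => c ξ t ≤ h ξ (c ξ s)
  | _ => False

theorem finite_of {O : Type} (k : ℕ) (v : ℕ → O) (hv : Set.InjOn v (Set.Ici k)) (S : Set O)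
    (hS : S.Finite) : ∃ n₀, ∀ n ≥ n₀, k ≤ n ∧ v n ∉ S := by
  have h1 : {n | k ≤ n ∧ v n ∈ S}.Finite :=
    Set.Finite.of_injOn (f := v) (t := S) (fun n hn => hn.2)
      (hv.mono fun n hn => hn.1) hS
  obtain ⟨b, hb⟩ := h1.bddAbove
  refine ⟨max k (b + 1), fun n hn => ⟨(le_max_left _ _).trans hn, fun h => ?_⟩⟩
  have h2 : k ≤ n := (le_max_left _ _).trans hn
  have h3 : n ≤ b := hb ⟨h2, h⟩
  have h4 : b + 1 ≤ n := (le_max_right _ _).trans hn
  omega

end BBAM

/-- **BBA** -/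
theorem specBBA (hZTP : SpecZTP) (hMDE : SpecMDE) (hKCL : SpecKCL) (hMBD : SpecMBD)
    (hCEL : SpecCEL) (hCES : SpecCES) (hCER : SpecCER) : SpecBBA := by
  intro O Ω _ _ _ _ hO hΩ φ F G hM B _ e he hBFA h
  obtain ⟨y, hD⟩ := hMDE O Ω φ F G hM
  obtain ⟨c, hc⟩ := hCER O φ F (fun ξ e' he' => by
    by_cases hl : Lim ξ
    · exact hCEL O Ω hO φ F G hM ξ hl e' he'
    · exact hCES O Ω hO φ F G hM ξ hl e' he')
  have hne : Nonempty O := by
    rw [← mk_ne_zero_iff, hO.1]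
    exact (aleph_pos 1).ne'
  have hinj := MFNM.inj hD hne
  have hY : ℵ_ 2 ≤ #(Set.range y) := by
    rw [mk_range_eq y hinj, hΩ.1]
  rcases hZTP Ω B e hΩ.1 he O O hO hBFA (Set.range y) (BBAM.KK c h) hY (MFNM.thin hD hO) with
    ⟨t, A, -, hAY, hA, hq⟩ | ⟨z, k, hz1, hz2, hz3⟩
  · exfalso
    have hAinf : A.Infinite := by
      rw [← Set.infinite_coe_iff, Cardinal.infinite_iff, hA]
      exact aleph0_le_aleph 2
    have hqA : ∀ n, (hAinf.natEmbedding A n : O → O) ∈ A := fun n => (hAinf.natEmbedding A n).2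
    have hqi : Function.Injective fun n => (hAinf.natEmbedding A n : O → O) := by
      intro m n hmn
      exact (hAinf.natEmbedding A).injective (Subtype.ext hmn)
    generalize hqd : (fun n => (hAinf.natEmbedding A n : O → O)) = q at hqi
    have hqA' : ∀ n, q n ∈ A := by
      intro n
      rw [← hqd]
      exact hqA n
    have hi : ∀ n, ∃ i, y i = q n := fun n => hAY (hqA' n)
    choose i hi using hi
    have hii : Function.Injective i := by
      intro m n hmn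
      apply hqi
      rw [← hi m, ← hi n, hmn]
    obtain ⟨ξ₀, f, hf, hfA⟩ := hMBD O Ω hO hΩ φ F G y hD (Set.range i) (Set.countable_range i)
    have h1 : ∀ n, f (y (i n) ξ₀) = i n := fun n => hfA _ ⟨n, rfl⟩
    apply hq q hqA'
    refine MFNM.countable_of_bound hO _ ξ₀ ?_
    intro ξ hξ hP
    have hsep : Function.Injective fun n => q n ξ := by
      intro m n hmn
      apply hii
      have h2 : y (i m) ξ = y (i n) ξ := by
        rw [hi m, hi n]
        exact hmn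
      have h3 := hD.tree ξ₀ ξ hξ.le (i m) (i n) h2
      rw [← h1 m, ← h1 n, h3]
    cases t with
    | nil => exact hP 0
    | cons s r =>
      have h4 : (Set.range fun n => q n ξ) ⊆ {x | x < φ ξ ∧ c ξ x ≤ h ξ (c ξ (s ξ))} := by
        rintro _ ⟨n, rfl⟩
        refine ⟨?_, hP n⟩
        show q n ξ < φ ξ
        rw [← hi n]
        exact hD.lt _ _
      exact Set.infinite_range_of_injective hsep (((hc ξ).1 _).subset h4)
  · have hi : ∀ n, ∃ i, y i = z n := fun n => hKCL O Ω hO hΩ φ F G y hD (z n) (hz2 n)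
    choose i hi using hi
    obtain ⟨ξ₀, f, hf, hfA⟩ := hMBD O Ω hO hΩ φ F G y hD (Set.range i) (Set.countable_range i)
    have h1 : ∀ n, f (y (i n) ξ₀) = i n := fun n => hfA _ ⟨n, rfl⟩
    have hv : Set.InjOn (fun n => y (i n) ξ₀) (Set.Ici k) := by
      intro a ha b hb hab
      have h2 : i a = i b := by
        rw [← h1 a, ← h1 b]
        exact congrArg f hab
      have h3 : z a = z b := by
        rw [← hi a, ← hi b, h2]
      rcases lt_trichotomy a b with hlt | heq | hgt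
      · exact absurd h3.symm (hz1 b hb a hlt)
      · exact heq
      · exact absurd h3 (hz1 a ha b hgt)
    refine ⟨fun n => c ξ₀ (y (i n) ξ₀),
      {ξ | ∀ n ≥ k, ¬ BBAM.KK c h ξ (br (fun j => z j ξ) (n + 1))} \ Set.Iic ξ₀, ?_, ?_, ?_⟩
    · intro hcon
      apply hz3
      refine (hcon.union (hO.2 ξ₀)).mono ?_
      intro ξ hξ
      by_cases h2 : ξ ∈ Set.Iic ξ₀
      · exact Or.inr h2
      · exact Or.inl ⟨hξ, h2⟩
    · intro N
      obtain ⟨n₀, hn₀⟩ := BBAM.finite_of k (fun n => y (i n) ξ₀) hv _ ((hc ξ₀).1 N)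
      refine ⟨n₀, fun n hn => ?_⟩
      by_contra hlt
      exact (hn₀ n hn).2 ⟨hD.lt _ _, (not_le.1 hlt).le⟩
    · rintro ξ ⟨hξ, hξ2⟩
      have hξ0 : ξ₀ < ξ := not_le.1 hξ2
      obtain ⟨g, hg, hg'⟩ := hD.up ξ₀ ξ hξ0 f hf
      have h3 : ∀ n, z n ξ = g (y (i n) ξ₀) := by
        intro n
        have h4 := hg' (y (i n) ξ₀) (hD.lt _ _)
        rw [h1] at h4
        rw [← hi n]
        exact h4
      obtain ⟨n₀, hn₀⟩ := BBAM.finite_of k (fun n => y (i n) ξ₀) hv _ ((hc ξ).2 ξ₀ hξ0 g hg)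
      have h5 : ∀ n ≥ n₀, c ξ (z n ξ) = c ξ₀ (y (i n) ξ₀) := by
        intro n hn
        by_contra hcon
        refine (hn₀ n hn).2 ⟨hD.lt _ _, ?_⟩
        rw [← h3 n]
        exact hcon
      refine ⟨n₀, fun n hn => ?_⟩
      have h6 : ¬ c ξ (z (n + 1) ξ) ≤ h ξ (c ξ (z n ξ)) :=
        hξ (n + 1) (((hn₀ n hn).1).trans (Nat.le_succ n))
      rw [h5 n hn, h5 (n + 1) (by omega)] at h6
      exact not_le.1 h6

end Pool.Agent.Lib.MPd89457.NB
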