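import Pool.Agent.Lib.MP_d89457_lc.NB.SpecQ

/-!
# MP_d89457_lc, module BBB

The sequences of LadH give dominating functions.
-/

set_option autoImplicit false

namespace Pool.Agent.Lib.MPd89457.NB

open Cardinal

namespace BBBM

/-- one step of the recursion -/
def stp {O : Type} [LinearOrder O] (h : O → ℕ → ℕ) (s : O → ℕ → O) (ξ : O)
    (rec : ∀ η : O, η < ξ → ℕ → ℕ) (n : ℕ) : ℕ :=
  ∑ i ∈ Finset.range (n + 1), (h ξ i +
    ∑ j ∈ Finset.range (n + 1), if hlt : s ξ j < ξ then rec (s ξ j) hlt i else 0)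

theorem stp_mono {O : Type} [LinearOrder O] (h : O → ℕ → ℕ) (s : O → ℕ → O) (ξ : O)
    (rec : ∀ η : O, η < ξ → ℕ → ℕ) : Monotone (stp h s ξ rec) := by
  intro a b hab
  unfold stp
  have hsub : Finset.range (a + 1) ⊆ Finset.range (b + 1) :=
    Finset.range_subset_range.2 (by omega)
  refine le_trans (Finset.sum_le_sum (fun i _ => ?_)) (Finset.sum_le_sum_of_subset hsub)
  exact Nat.add_le_add_left (Finset.sum_le_sum_of_subset hsub) _

theorem stp_self {O : Type} [LinearOrder O] (h : O → ℕ → ℕ) (s : O → ℕ → O) (ξ : O)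
    (rec : ∀ η : O, η < ξ → ℕ → ℕ) (n : ℕ) : h ξ n ≤ stp h s ξ rec n := by
  unfold stp
  have h1 := Finset.single_le_sum (s := Finset.range (n + 1)) (f := fun i => h ξ i +
    ∑ j ∈ Finset.range (n + 1), if hlt : s ξ j < ξ then rec (s ξ j) hlt i else 0)
    (fun i _ => Nat.zero_le _) (Finset.mem_range.2 (Nat.lt_succ_self n))
  exact le_trans (Nat.le_add_right _ _) h1

theorem stp_rec {O : Type} [LinearOrder O] (h : O → ℕ → ℕ) (s : O → ℕ → O) (ξ : O)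
    (rec : ∀ η : O, η < ξ → ℕ → ℕ) (j : ℕ) (hj : s ξ j < ξ) (n : ℕ) (hn : j ≤ n) :
    rec (s ξ j) hj n ≤ stp h s ξ rec n := by
  unfold stp
  have h1 := Finset.single_le_sum (s := Finset.range (n + 1)) (f := fun i => h ξ i +
    ∑ j ∈ Finset.range (n + 1), if hlt : s ξ j < ξ then rec (s ξ j) hlt i else 0)
    (fun i _ => Nat.zero_le _) (Finset.mem_range.2 (Nat.lt_succ_self n))
  have h2 := Finset.single_le_sum (s := Finset.range (n + 1))
    (f := fun j => if hlt : s ξ j < ξ then rec (s ξ j) hlt n else 0)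
    (fun i _ => Nat.zero_le _) (Finset.mem_range.2 (Nat.lt_succ_of_le hn))
  refine le_trans ?_ h1
  refine le_trans ?_ (Nat.le_add_left _ _)
  refine le_trans ?_ h2
  simp only [dif_pos hj]
  exact le_refl _

theorem exH {O : Type} [LinearOrder O] [WellFoundedLT O] (hc : ∀ ξ : O, (Set.Iic ξ).Countable)
    (h : O → ℕ → ℕ) : ∃ H : O → ℕ → ℕ, (∀ ξ, Monotone (H ξ)) ∧ (∀ ξ n, h ξ n ≤ H ξ n) ∧
      ∀ ξ, ∀ η < ξ, ∃ N, ∀ n ≥ N, H η n ≤ H ξ n := by
  have hs : ∀ ξ : O, ∃ s : ℕ → O, Set.Iic ξ = Set.range s := fun ξ =>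
    (hc ξ).exists_eq_range ⟨ξ, Set.mem_Iic.2 (le_refl ξ)⟩
  choose s hs using hs
  have hwf : WellFounded (fun a b : O => a < b) := wellFounded_lt
  obtain ⟨H, hH⟩ : ∃ H : O → ℕ → ℕ, ∀ ξ, H ξ = stp h s ξ (fun η _ => H η) :=
    ⟨hwf.fix (C := fun _ => ℕ → ℕ) (stp h s), fun ξ => hwf.fix_eq (C := fun _ => ℕ → ℕ) (stp h s) ξ⟩
  refine ⟨H, fun ξ => ?_, fun ξ n => ?_, fun ξ η hη => ?_⟩
  · rw [hH ξ]
    exact stp_mono h s ξ _
  · rw [hH ξ]
    exact stp_self h s ξ _ n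
  · have hm : η ∈ Set.range (s ξ) := by
      rw [← hs ξ]
      exact Set.mem_Iic.2 (le_of_lt hη)
    obtain ⟨j, hj⟩ := hm
    subst hj
    refine ⟨j, fun n hn => ?_⟩
    have h1 := stp_rec h s ξ (fun η _ => H η) j hη n hn
    rw [← hH ξ] at h1
    exact h1

end BBBM

open BBBM in
theorem specBBB : SpecBBB := by
  classical
  intro O _ _ hO hL h
  obtain ⟨H, hmono, hge, hdom⟩ := exH hO.2 h
  obtain ⟨m, I, hI, hm, hI2⟩ := hL H
  have hex : ∀ j : ℕ, ∃ n, j ≤ m n := fun j => by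
    obtain ⟨n₀, hn₀⟩ := hm j
    exact ⟨n₀, hn₀ n₀ (le_refl _)⟩
  refine ⟨fun j => m (Nat.find (hex j) + 1), fun η => ?_⟩
  obtain ⟨ξ, hξ, hηξ⟩ : ∃ ξ ∈ I, η ≤ ξ := by
    by_contra hcon
    apply hI
    refine (hO.2 η).mono (fun ξ hξ => ?_)
    by_contra hlt
    exact hcon ⟨ξ, hξ, le_of_lt (not_le.1 hlt)⟩
  obtain ⟨N1, hN1⟩ : ∃ N, ∀ n ≥ N, H η n ≤ H ξ n := by
    rcases lt_or_eq_of_le hηξ with hlt | heq
    · exact hdom ξ η hlt
    · subst heq
      exact ⟨0, fun _ _ => le_refl _⟩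
  obtain ⟨N2, hN2⟩ := hI2 ξ hξ
  refine ⟨max N1 (∑ i ∈ Finset.range N2, m i + 1), fun k hk => ?_⟩
  have hk1 : N1 ≤ k := le_trans (le_max_left _ _) hk
  have hk2 : ∑ i ∈ Finset.range N2, m i + 1 ≤ k := le_trans (le_max_right _ _) hk
  have hspec : k ≤ m (Nat.find (hex k)) := Nat.find_spec (hex k)
  have hfind : N2 ≤ Nat.find (hex k) := by
    by_contra hlt
    have hlt' : Nat.find (hex k) < N2 := not_le.1 hlt
    have h1 : m (Nat.find (hex k)) ≤ ∑ i ∈ Finset.range N2, m i :=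
      Finset.single_le_sum (f := m) (fun i _ => Nat.zero_le _) (Finset.mem_range.2 hlt')
    omega
  have h1 : h η k ≤ H η k := hge η k
  have h2 : H η k ≤ H ξ k := hN1 k hk1
  have h3 : H ξ k ≤ H ξ (m (Nat.find (hex k))) := hmono ξ hspec
  have h4 := hN2 (Nat.find (hex k)) hfind
  exact le_trans h1 (le_trans h2 (le_trans h3 (le_of_lt h4)))

end Pool.Agent.Lib.MPd89457.NB
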