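import Pool.Agent.Lib.MP_d89457_lc.NB.Spec

/-!
# MP_d89457_lc, module BCD: codes for the elements of the Borel algebra below a fused tree
-/

set_option autoImplicit false

namespace Pool.Agent.Lib.MPd89457.NB

open Cardinal

namespace BCDM

variable {Ω : Type}

/-- two initial segments of a sequence are comparable -/
theorem comp_of_suffix {a b c : List Ω} (ha : a <:+ c) (hb : b <:+ c) : a <:+ b ∨ b <:+ a :=
  List.suffix_or_suffix_of_suffix ha hb

/-- the nodes of a tree with stem `u` are comparable with all initial segments of `u` -/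
theorem comp_node {R : Set (List Ω)} {u t : List Ω} (hR : IsNam R u) (ht : t <:+ u) :
    ∀ v ∈ R, v <:+ t ∨ t <:+ v := by
  intro v hv
  rcases hR.2.2.1 v hv with h | h
  · exact comp_of_suffix h ht
  · exact Or.inr (ht.trans h)

theorem sub_res {R T : Set (List Ω)} {u t : List Ω} (hR : IsNam R u) (hRT : R ⊆ T)
    (ht : t <:+ u) : R ⊆ res T t := fun v hv => ⟨hRT hv, comp_node hR ht v hv⟩

theorem res_sub (T : Set (List Ω)) (t : List Ω) : res T t ⊆ T := fun _ h => h.1

theorem res_mono {T : Set (List Ω)} {v t : List Ω} (h : v <:+ t) : res T t ⊆ res T v := by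
  intro w hw
  refine ⟨hw.1, ?_⟩
  rcases hw.2 with h1 | h1
  · exact comp_of_suffix h1 h
  · exact Or.inr (h.trans h1)

theorem exists_init (u : List Ω) (n : ℕ) (hn : n ≤ u.length) :
    ∃ t : List Ω, t <:+ u ∧ t.length = n := by
  refine ⟨u.drop (u.length - n), List.drop_suffix _ _, ?_⟩
  rw [List.length_drop]
  omega

variable {B : Type} [CompleteBooleanAlgebra B] {e : Nam Ω → B}

/-- the main step, for one cell -/
theorem cell_le (hTRE : SpecTRE) (hBAS : SpecBAS) (hΩ : #Ω = ℵ_ 2) (he : IsBC e)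
    (W : ℕ → Set B) (hW : ∀ n, MaxAnti (W n)) (T : Set (List Ω)) (y : List Ω → B)
    (hT : IsNam T []) (hy : ∀ t ∈ T, y t ∈ W t.length ∧ ev e (res T t) ≤ y t)
    (a : B) (m : B) (hm : Cell e W m) (hma : m ≤ a) :
    ev e T ⊓ m ≤ (Cod.or fun n => Cod.lev n {t | ev e (res T t) ≤ a}).val e T := by
  set v : B := (Cod.or fun n => Cod.lev n {t | ev e (res T t) ≤ a}).val e T with hv
  by_contra hcon
  have hx : ev e T ⊓ (m ⊓ vᶜ) ≠ ⊥ := by
    intro h0
    apply hcon
    rw [← inf_assoc] at h0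
    exact disjoint_compl_right_iff.1 (disjoint_iff.2 h0)
  obtain ⟨t0, w, hw, hmeq⟩ := hm
  obtain ⟨R, u, hR, hRT, -, hlen, hRx⟩ := hBAS.below Ω B e he T [] (m ⊓ vᶜ) t0.length hT hx
  have hRpos := hBAS.pos Ω B e he R u hR
  have hRm : ev e R ≤ m := hRx.trans inf_le_left
  have hRv : ev e R ≤ vᶜ := hRx.trans inf_le_right
  have hfull : IsNam (Set.univ : Set (List Ω)) [] := hTRE.full Ω hΩ
  have hresu : IsNam (res Set.univ t0) t0 :=
    hTRE.res Ω Set.univ [] t0 hfull (Set.mem_univ _) (List.nil_suffix)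
  have hR0 : ev e R ≤ ev e (res Set.univ t0) := by
    rw [hmeq] at hRm
    exact hRm.trans inf_le_left
  have hRw : ∀ i : Fin t0.length, ev e R ≤ w i := by
    intro i
    rw [hmeq] at hRm
    exact (hRm.trans inf_le_right).trans (iInf_le _ i)
  -- `t0` is an initial segment of `u`
  have ht0u : t0 <:+ u := by
    obtain ⟨t1, ht1, hl1⟩ := exists_init u t0.length hlen
    have heq : t1 = t0 := by
      by_contra hne
      have hnc : ¬ (t1 <:+ t0 ∨ t0 <:+ t1) := by
        rintro (h | h)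
        · exact hne (h.eq_of_length hl1)
        · exact hne (h.eq_of_length hl1.symm).symm
      have hd := hBAS.dis Ω B e he R (res Set.univ t0) u t0 t1 t0 hR hresu (comp_node hR ht1)
        (fun z hz => hz.2) hnc
      exact hRpos (le_bot_iff.1 ((le_inf le_rfl hR0).trans hd.le))
    rw [← heq]
    exact ht1
  have ht0T : t0 ∈ T := hT.2.1 u (hRT hR.1) t0 ht0u
  have hrest0 : IsNam (res T t0) t0 := hTRE.res Ω T [] t0 hT ht0T (List.nil_suffix)
  -- the chosen elements
  have hwy : ∀ i : Fin t0.length, ev e (res T t0) ≤ w i := by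
    intro i
    obtain ⟨vi, hvi, hli⟩ := exists_init t0 i i.2.le
    have hviT : vi ∈ T := hT.2.1 t0 ht0T vi hvi
    have hresvi : IsNam (res T vi) vi := hTRE.res Ω T [] vi hT hviT (List.nil_suffix)
    obtain ⟨hyW, hyle⟩ := hy vi hviT
    rw [hli] at hyW
    have h1 : ev e R ≤ ev e (res T vi) :=
      hBAS.mono Ω B e he R (res T vi) u vi hR hresvi (sub_res hR hRT (hvi.trans ht0u))
    have heq : y vi = w i := by
      by_contra hne
      have hbot := (hW i).2.1 (y vi) hyW (w i) (hw i i.2) hne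
      exact hRpos (le_bot_iff.1 ((le_inf (h1.trans hyle) (hRw i)).trans hbot.le))
    rw [← heq]
    exact (hBAS.mono Ω B e he (res T t0) (res T vi) t0 vi hrest0 hresvi (res_mono hvi)).trans hyle
  have hle : ev e (res T t0) ≤ m := by
    rw [hmeq]
    refine le_inf (hBAS.mono Ω B e he (res T t0) (res Set.univ t0) t0 t0 hrest0 hresu
      (fun z hz => ⟨Set.mem_univ _, hz.2⟩)) (le_iInf hwy)
  have hval : ev e (res T t0) ≤ v := by
    have h1 : ev e (res T t0) ≤
        sSup {x | ∃ t, t ∈ T ∧ t.length = t0.length ∧ t ∈ {t | ev e (res T t) ≤ a} ∧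
          x = ev e (res T t)} :=
      le_sSup ⟨t0, ht0T, rfl, hle.trans hma, rfl⟩
    have h2 : sSup {x | ∃ t, t ∈ T ∧ t.length = t0.length ∧ t ∈ {t | ev e (res T t) ≤ a} ∧
          x = ev e (res T t)} ≤ v :=
      le_iSup (fun n => (Cod.lev n {t | ev e (res T t) ≤ a}).val e T) t0.length
    exact h1.trans h2
  have hRt0 : ev e R ≤ ev e (res T t0) :=
    hBAS.mono Ω B e he R (res T t0) u t0 hR hrest0 (sub_res hR hRT ht0u)
  have hfin : ev e R ≤ v ⊓ vᶜ := le_inf (hRt0.trans hval) hRv
  rw [inf_compl_eq_bot] at hfin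
  exact hRpos (le_bot_iff.1 hfin)

end BCDM

open BCDM in
/-- **BCD.** Every element of the Borel algebra has a code below the fused tree. -/
theorem specBCD (hTRE : SpecTRE) (hBAS : SpecBAS) (hVAL : SpecVAL) : SpecBCD := by
  intro Ω B _ e hΩ he W hW T y hT hy a ha
  induction ha with
  | opn S h =>
    refine ⟨Cod.or fun n => Cod.lev n {t | ev e (res T t) ≤ sSup S}, le_antisymm ?_ ?_⟩
    · refine iSup_le fun n => sSup_le ?_
      rintro x ⟨t, htT, -, hta, rfl⟩
      have hres : IsNam (res T t) t := hTRE.res Ω T [] t hT htT (List.nil_suffix)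
      exact le_inf (hBAS.mono Ω B e he (res T t) T t [] hres hT (res_sub T t)) hta
    · rw [inf_sSup_eq]
      exact iSup₂_le fun m hm =>
        cell_le hTRE hBAS hΩ he W hW T y hT hy (sSup S) m (h m hm) (le_sSup hm)
  | compl a h ih =>
    obtain ⟨c, hc⟩ := ih
    refine ⟨c.neg, ?_⟩
    rw [hVAL.neg Ω B e he T hT c, hc, compl_inf, inf_sup_left, inf_compl_eq_bot, bot_sup_eq]
  | sup a h ih =>
    choose c hc using ih
    refine ⟨Cod.or c, ?_⟩
    rw [inf_iSup_eq]
    exact iSup_congr hc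

end Pool.Agent.Lib.MPd89457.NB
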