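import Pool.Agent.Lib.MP_d89457_lc.NB.SpecN

/-!
# MP_d89457_lc, module CEL: coherent finite-to-one functions, the limit step
-/

set_option autoImplicit false

namespace Pool.Agent.Lib.MPd89457.NB

open Cardinal

namespace CELM

variable {O Ω : Type} [LinearOrder O] [LinearOrder Ω]

theorem inj {φ : O → O} {F : O → O → Set (O → O)} {G : O → Set (O → Ω)} (hM : Mor φ F G)
    {α β : O} (hαβ : α < β) {f : O → O} (hf : f ∈ F α β) {x y : O} (hx : x < φ α) (hy : y < φ α)
    (h : f x = f y) : x = y := by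
  rcases lt_trichotomy x y with h1 | h1 | h1
  · exact absurd h (ne_of_lt ((hM.inc α β hαβ f hf y hy).2 x h1))
  · exact h1
  · exact absurd h.symm (ne_of_lt ((hM.inc α β hαβ f hf x hx).2 y h1))

/-- the maps between the chosen levels -/
theorem link {φ : O → O} {F : O → O → Set (O → O)} {G : O → Set (O → Ω)} (hM : Mor φ F G)
    {β : ℕ → O} {g : ℕ → O → O} (h2 : ∀ k, β k < β (k + 1))
    (h3 : ∀ k, ∃ h ∈ F (β k) (β (k + 1)), ∀ x < φ (β k), g k x = g (k + 1) (h x)) (k : ℕ) :
    ∀ m, k < m → β k < β m ∧ ∃ h ∈ F (β k) (β m), ∀ x < φ (β k), g k x = g m (h x) := by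
  intro m hm
  induction m with
  | zero => omega
  | succ m ih =>
    rcases Nat.lt_or_ge k m with h | h
    · obtain ⟨hlt, h₁, hF₁, he₁⟩ := ih h
      obtain ⟨h₂, hF₂, he₂⟩ := h3 m
      obtain ⟨f, hf, hfe⟩ := hM.com (β k) (β m) (β (m + 1)) hlt (h2 m) h₁ hF₁ h₂ hF₂
      refine ⟨hlt.trans (h2 m), f, hf, fun x hx => ?_⟩
      rw [he₁ x hx, hfe x hx]
      exact he₂ _ (hM.inc (β k) (β m) hlt h₁ hF₁ x hx).1
    · have : k = m := by omega
      subst this
      exact ⟨h2 k, h3 k⟩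

end CELM

open CELM in
theorem specCEL (hCEQ : SpecCEQ) : SpecCEL := by
  intro O Ω _ _ _ hO φ F G hM ξ hξ e he
  obtain ⟨β, g, h1, h2, h3, h4⟩ := hCEQ O Ω hO φ F G hM ξ hξ
  have hlink := fun k m hkm => link hM h2 h3 k m hkm
  -- every point is reached
  have hcov : ∀ x < φ ξ, ∃ k, ∃ u < φ (β k), g k u = x := by
    intro x hx
    obtain ⟨β', hβ', f, hf, y, hy, hfy⟩ := hM.cov ξ hξ.1 x hx
    obtain ⟨k, hk, h, hh, he'⟩ := h4 β' hβ' f hf
    exact ⟨k, h y, (hM.inc β' (β k) hk h hh y hy).1, by rw [← he' y hy, hfy]⟩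
  have hch : ∀ x, ∃ (k : ℕ) (u : O), x < φ ξ → u < φ (β k) ∧ g k u = x ∧
      ∀ j < k, ∀ v < φ (β j), g j v ≠ x := by
    intro x
    by_cases hx : x < φ ξ
    · classical
      have hex := hcov x hx
      obtain ⟨u, hu, hgu⟩ := Nat.find_spec hex
      refine ⟨Nat.find hex, u, fun _ => ⟨hu, hgu, fun j hj v hv hjv => ?_⟩⟩
      exact Nat.find_min hex hj ⟨v, hv, hjv⟩
    · exact ⟨0, x, fun h => absurd h hx⟩
  choose κ ν hκν using hch
  have hgd1 : ∀ k n, {u | u < φ (β k) ∧ e (β k) u ≤ n}.Finite := fun k n =>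
    (he (β k) (h1 k).1).1 n
  refine ⟨fun x => max (κ x) (e (β (κ x)) (ν x)), ?_, ?_⟩
  · intro n
    have hfin : (⋃ k ∈ Set.Iic n, (g k) '' {u | u < φ (β k) ∧ e (β k) u ≤ n}).Finite :=
      (Set.finite_Iic n).biUnion fun k _ => (hgd1 k n).image _
    refine hfin.subset ?_
    rintro x ⟨hx, hxn⟩
    obtain ⟨hu, hgu, -⟩ := hκν x hx
    have hx1 : κ x ≤ n := (le_max_left _ _).trans hxn
    have hx2 : e (β (κ x)) (ν x) ≤ n := (le_max_right _ _).trans hxn
    exact Set.mem_biUnion (Set.mem_Iic.2 hx1) ⟨ν x, ⟨hu, hx2⟩, hgu⟩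
  · -- the maps `g m`
    have hC : ∀ m, {v | v < φ (β m) ∧ max (κ (g m v)) (e (β (κ (g m v))) (ν (g m v))) ≠
        e (β m) v}.Finite := by
      intro m
      have hh : ∀ k, ∃ h : O → O, k < m → h ∈ F (β k) (β m) ∧
          ∀ x < φ (β k), g k x = g m (h x) := by
        intro k
        by_cases hk : k < m
        · obtain ⟨-, h, hF, hx⟩ := hlink k m hk
          exact ⟨h, fun _ => ⟨hF, hx⟩⟩
        · exact ⟨id, fun h => absurd h hk⟩
      choose h hh using hh
      have hfin : ({v | v < φ (β m) ∧ e (β m) v ≤ m} ∪ ⋃ k ∈ Set.Iio m,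
          (h k) '' ({u | u < φ (β k) ∧ e (β m) (h k u) ≠ e (β k) u} ∪
            {u | u < φ (β k) ∧ e (β k) u ≤ k})).Finite := by
        refine (hgd1 m m).union ((Set.finite_Iio m).biUnion fun k hk => ?_)
        refine Set.Finite.image _ (Set.Finite.union ?_ (hgd1 k k))
        exact (he (β m) (h1 m).1).2 (β k) (hlink k m hk).1 (h k) (hh k hk).1
      refine hfin.subset ?_
      rintro v ⟨hv, hne⟩
      have hx : g m v < φ ξ := (hM.inc (β m) ξ (h1 m).1 (g m) (h1 m).2 v hv).1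
      obtain ⟨hu, hgu, hmin⟩ := hκν (g m v) hx
      have hle : κ (g m v) ≤ m := by
        by_contra hlt
        exact hmin m (by omega) v hv rfl
      rcases Nat.lt_or_ge (κ (g m v)) m with hlt | hge
      · right
        refine Set.mem_biUnion (Set.mem_Iio.2 hlt) ?_
        set k := κ (g m v) with hk
        set u := ν (g m v) with hu'
        obtain ⟨hF, hx'⟩ := hh k hlt
        have hlt' := (hlink k m hlt).1
        have hhu : h k u < φ (β m) := (hM.inc (β k) (β m) hlt' (h k) hF u hu).1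
        have hvu : h k u = v := by
          refine inj hM (h1 m).1 (h1 m).2 hhu hv ?_
          rw [← hx' u hu, hgu]
        refine ⟨u, ?_, hvu⟩
        by_contra hcon
        rw [Set.mem_union, not_or] at hcon
        have c1 : e (β m) (h k u) = e (β k) u := by
          by_contra h'
          exact hcon.1 ⟨hu, h'⟩
        have c2 : k ≤ e (β k) u := by
          by_contra h'
          exact hcon.2 ⟨hu, by omega⟩
        apply hne
        rw [max_eq_right c2, ← c1, hvu]
      · left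
        have hkm : κ (g m v) = m := le_antisymm hle hge
        rw [hkm] at hu hgu hne
        have huv : ν (g m v) = v := inj hM (h1 m).1 (h1 m).2 hu hv hgu
        rw [huv] at hne
        refine ⟨hv, ?_⟩
        by_contra hcon
        exact hne (max_eq_right (by omega))
    intro β' hβ' f hf
    obtain ⟨k, hk, h, hh, hfe⟩ := h4 β' hβ' f hf
    have hfin1 : {x | x < φ β' ∧ e (β k) (h x) ≠ e β' x}.Finite :=
      (he (β k) (h1 k).1).2 β' hk h hh
    have hfin2 : {x | x < φ β' ∧ h x ∈ {v | v < φ (β k) ∧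
        max (κ (g k v)) (e (β (κ (g k v))) (ν (g k v))) ≠ e (β k) v}}.Finite := by
      refine Set.Finite.of_finite_image (f := h) ((hC k).subset ?_) ?_
      · rintro _ ⟨x, ⟨-, hx⟩, rfl⟩
        exact hx
      · rintro x ⟨hx, -⟩ y ⟨hy, -⟩ hxy
        exact inj hM hk hh hx hy hxy
    refine (hfin1.union hfin2).subset ?_
    rintro x ⟨hx, hne⟩
    have hne' : max (κ (g k (h x))) (e (β (κ (g k (h x)))) (ν (g k (h x)))) ≠ e β' x := by
      rw [← hfe x hx]
      exact hne
    by_cases h5 : e (β k) (h x) = e β' x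
    · right
      refine ⟨hx, (hM.inc β' (β k) hk h hh x hx).1, ?_⟩
      rw [h5]
      exact hne'
    · left
      exact ⟨hx, h5⟩

end Pool.Agent.Lib.MPd89457.NB
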