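import Pool.Agent.Lib.MP_d89457_lc.NB.SpecN

/-!
# MP_d89457_lc, NB: module CEQ (a cofinal sequence of maps to a limit level of the morass)
-/

set_option autoImplicit false

namespace Pool.Agent.Lib.MPd89457.NB

open Cardinal

namespace CEQM

variable {O Ω : Type} [LinearOrder O] [LinearOrder Ω]

theorem exists_above (hO : IsO1 O) (ξ : O) : ∃ η, ξ < η := by
  by_contra h
  rw [not_exists] at h
  have h1 : (Set.univ : Set O).Countable := (hO.2 ξ).mono (fun η _ => not_lt.1 (h η))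
  have h2 : #O ≤ ℵ₀ := by
    rw [← Cardinal.mk_univ]
    exact h1.le_aleph0
  rw [hO.1] at h2
  exact absurd h2 (not_le.2 aleph0_lt_aleph_one)

theorem phi_pos [WellFoundedLT O] (hO : IsO1 O) {φ : O → O} {F : O → O → Set (O → O)}
    {G : O → Set (O → Ω)} (hM : Mor φ F G) (ξ : O) : ∃ σ, σ < φ ξ := by
  obtain ⟨η, hη⟩ := exists_above hO ξ
  obtain ⟨m, hm, hmin⟩ := (wellFounded_lt (α := O)).has_min {η | ξ < η} ⟨η, hη⟩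
  obtain ⟨σ, s, hσ, -⟩ := hM.suc ξ m hm (fun γ hγ => not_lt.1 (hmin γ hγ))
  exact ⟨σ, hσ⟩

/-- countably many pairs represent all pairs -/
theorem reps (hO : IsO1 O) {φ : O → O} {F : O → O → Set (O → O)}
    {G : O → Set (O → Ω)} (hM : Mor φ F G) (ξ : O)
    (p0 : {p : O × (O → O) // p.1 < ξ ∧ p.2 ∈ F p.1 ξ}) :
    ∃ t : ℕ → {p : O × (O → O) // p.1 < ξ ∧ p.2 ∈ F p.1 ξ},
      ∀ p : {p : O × (O → O) // p.1 < ξ ∧ p.2 ∈ F p.1 ξ}, ∃ n, (t n).1.1 = p.1.1 ∧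
        ∀ x < φ p.1.1, p.1.2 x = (t n).1.2 x := by
  classical
  choose C hC using fun (b : {b : O // b < ξ}) => hM.cnt b.1 ξ b.2
  have c1 : Countable {b : O // b < ξ} :=
    ((hO.2 ξ).mono (fun η (hη : η < ξ) => hη.le) : Set.Countable {b : O | b < ξ}).to_subtype
  have c2 : ∀ b, Countable (C b) := fun b => (hC b).1.to_subtype
  obtain ⟨g0, hg0, -⟩ := (hC ⟨p0.1.1, p0.2.1⟩).2 p0.1.2 p0.2.2
  have c3 : Nonempty (Σ b : {b : O // b < ξ}, C b) := ⟨⟨⟨p0.1.1, p0.2.1⟩, ⟨g0, hg0⟩⟩⟩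
  obtain ⟨en, hen⟩ := exists_surjective_nat (Σ b : {b : O // b < ξ}, C b)
  have hr : ∀ q : (Σ b : {b : O // b < ξ}, C b), ∃ r : {p : O × (O → O) // p.1 < ξ ∧ p.2 ∈ F p.1 ξ},
      (∃ f ∈ F q.1.1 ξ, ∀ x < φ q.1.1, f x = q.2.1 x) →
        r.1.1 = q.1.1 ∧ ∀ x < φ q.1.1, r.1.2 x = q.2.1 x := by
    intro q
    by_cases h : ∃ f ∈ F q.1.1 ξ, ∀ x < φ q.1.1, f x = q.2.1 x
    · obtain ⟨f, hf, hx⟩ := h
      exact ⟨⟨(q.1.1, f), q.1.2, hf⟩, fun _ => ⟨rfl, hx⟩⟩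
    · exact ⟨p0, fun h' => absurd h' h⟩
  choose r hr' using hr
  refine ⟨fun n => r (en n), ?_⟩
  rintro ⟨⟨b, f⟩, hb, hf⟩
  obtain ⟨c, hc, hfc⟩ := (hC ⟨b, hb⟩).2 f hf
  obtain ⟨n, hn⟩ := hen ⟨⟨b, hb⟩, ⟨c, hc⟩⟩
  obtain ⟨h1, h2⟩ := hr' ⟨⟨b, hb⟩, ⟨c, hc⟩⟩ ⟨f, hf, hfc⟩
  refine ⟨n, ?_, ?_⟩
  · show (r (en n)).1.1 = b
    rw [hn]
    exact h1
  · intro x hx
    show f x = (r (en n)).1.2 x
    rw [hn, h2 x hx]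
    exact hfc x hx

end CEQM

open CEQM in
theorem specCEQ : SpecCEQ := by
  intro O Ω _ _ _ hO φ F G hM ξ hξ
  obtain ⟨σ, hσ⟩ := phi_pos hO hM ξ
  obtain ⟨b0, hb0, f0, hf0, -⟩ := hM.cov ξ hξ.1 σ hσ
  obtain ⟨t, ht⟩ := reps hO hM ξ ⟨(b0, f0), hb0, hf0⟩
  have hstep : ∀ p q : {p : O × (O → O) // p.1 < ξ ∧ p.2 ∈ F p.1 ξ},
      ∃ r : {p : O × (O → O) // p.1 < ξ ∧ p.2 ∈ F p.1 ξ}, p.1.1 < r.1.1 ∧ q.1.1 < r.1.1 ∧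
        (∃ h ∈ F p.1.1 r.1.1, ∀ x < φ p.1.1, p.1.2 x = r.1.2 (h x)) ∧
        ∃ h ∈ F q.1.1 r.1.1, ∀ x < φ q.1.1, q.1.2 x = r.1.2 (h x) := by
    intro p q
    obtain ⟨δ, h1, h2, h3, h, hh, f', hf', g', hg', k1, k2⟩ :=
      hM.dir ξ hξ p.1.1 p.2.1 q.1.1 q.2.1 p.1.2 p.2.2 q.1.2 q.2.2
    exact ⟨⟨(δ, h), h3, hh⟩, h1, h2, ⟨f', hf', k1⟩, g', hg', k2⟩
  choose st hst using hstep
  let s : ℕ → {p : O × (O → O) // p.1 < ξ ∧ p.2 ∈ F p.1 ξ} :=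
    fun k => Nat.rec ⟨(b0, f0), hb0, hf0⟩ (fun k p => st p (t k)) k
  refine ⟨fun k => (s k).1.1, fun k => (s k).1.2, fun k => (s k).2,
    fun k => (hst (s k) (t k)).1, fun k => (hst (s k) (t k)).2.2.1, ?_⟩
  intro β' hβ' f hf
  obtain ⟨n, hn1, hn2⟩ := ht ⟨(β', f), hβ', hf⟩
  have hn1' : (t n).1.1 = β' := hn1
  refine ⟨n + 1, ?_, ?_⟩
  · have h1 := (hst (s n) (t n)).2.1
    rw [hn1'] at h1
    exact h1
  · obtain ⟨h, hh, hx⟩ := (hst (s n) (t n)).2.2.2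
    rw [hn1'] at hh hx
    exact ⟨h, hh, fun x hx' => (hn2 x hx').trans (hx x hx')⟩

end Pool.Agent.Lib.MPd89457.NB
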