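import Pool.Agent.Lib.MP_d89457_lc.NB.SpecN

/-!
# MP_d89457_lc, module CER: the recursion for the coherent finite-to-one functions
-/

set_option autoImplicit false

namespace Pool.Agent.Lib.MPd89457.NB

namespace CERM

variable {O : Type} [LinearOrder O]

theorem gd_congr {φ : O → O} {F : O → O → Set (O → O)} {e₁ e₂ : O → O → ℕ} {ξ : O} {e' : O → ℕ}
    (h : ∀ β < ξ, e₁ β = e₂ β) (hg : Gd φ F e₁ ξ e') : Gd φ F e₂ ξ e' := by
  refine ⟨hg.1, fun β hβ g hgF => ?_⟩
  have h1 := hg.2 β hβ g hgF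
  rw [h β hβ] at h1
  exact h1

open Classical in
/-- one step of the recursion -/
noncomputable def step (φ : O → O) (F : O → O → Set (O → O)) (ξ : O)
    (ih : ∀ β, β < ξ → (O → ℕ)) : O → ℕ :=
  if h : ∃ e', Gd φ F (fun β => if hβ : β < ξ then ih β hβ else fun _ => 0) ξ e' then h.choose
  else fun _ => 0

end CERM

/-- **CER** -/
theorem specCER : SpecCER := by
  intro O _ hwf φ F hyp
  classical
  let wf : WellFounded (fun a b : O => a < b) := hwf.wf
  let E : O → O → ℕ := wf.fix (CERM.step φ F)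
  have hE : ∀ ξ, E ξ = CERM.step φ F ξ (fun β _ => E β) := fun ξ => wf.fix_eq _ ξ
  refine ⟨E, fun ξ => ?_⟩
  induction ξ using wf.induction with
  | _ ξ IH =>
    obtain ⟨e', he'⟩ := hyp ξ E IH
    have hex : ∃ e', Gd φ F (fun β => if hβ : β < ξ then (fun β (_ : β < ξ) => E β) β hβ
        else fun _ => 0) ξ e' := by
      refine ⟨e', CERM.gd_congr ?_ he'⟩
      intro β hβ
      simp [hβ]
    have hch := hex.choose_spec
    have h1 : E ξ = hex.choose := by
      rw [hE ξ]
      exact dif_pos hex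
    rw [h1]
    refine CERM.gd_congr ?_ hch
    intro β hβ
    simp [hβ]

end Pool.Agent.Lib.MPd89457.NB
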