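import Pool.Agent.Lib.MP_d89457_lc.NB.SpecN

/-!
# MP_d89457_lc, module CES: the levels which are not limits
-/

set_option autoImplicit false

namespace Pool.Agent.Lib.MPd89457.NB

open Cardinal

namespace CESM

/-- a finite-to-one function on an initial segment -/
theorem min_case {O : Type} [LinearOrder O] (hO : IsO1 O) (a : O) :
    ∃ f : O → ℕ, ∀ n, {x | x < a ∧ f x ≤ n}.Finite := by
  have hc : (Set.Iic a).Countable := hO.2 a
  obtain ⟨f, hf⟩ := Set.countable_iff_exists_injOn.mp hc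
  refine ⟨f, fun n => ?_⟩
  refine Set.Finite.of_finite_image (f := f) ((Set.finite_Iic n).subset ?_)
    (hf.mono fun x hx => le_of_lt hx.1)
  rintro _ ⟨x, hx, rfl⟩
  exact hx.2

end CESM

theorem specCES : SpecCES := by
  intro O Ω _ _ _ hO φ F G hM ξ hξ e he
  by_cases hmin : ∃ β, β < ξ
  · obtain ⟨γ, hγ, hno⟩ : ∃ γ < ξ, ∀ δ, γ < δ → ξ ≤ δ := by
      by_contra hcon
      push Not at hcon
      exact hξ ⟨hmin, hcon⟩
    obtain ⟨σ, s, hσ, hsid, hsσ, hdich, hexid, fs, hfs, hfs'⟩ := hM.suc γ ξ hγ hno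
    have hsmono : ∀ x < φ γ, ∀ y < x, s y < s x := by
      intro x hx y hy
      rw [← hfs' x hx, ← hfs' y (hy.trans hx)]
      exact (hM.inc γ ξ hγ fs hfs x hx).2 y hy
    have hsinj : ∀ x < φ γ, ∀ y < φ γ, s x = s y → x = y := by
      intro x hx y hy hxy
      rcases lt_trichotomy x y with h | h | h
      · exact absurd (hsmono y hy x h) (by rw [hxy]; exact lt_irrefl _)
      · exact h
      · exact absurd (hsmono x hx y h) (by rw [hxy]; exact lt_irrefl _)
    have hfac : ∀ β < ξ, ∀ f ∈ F β ξ, β = γ ∨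
        (β < γ ∧ ∃ g ∈ F β γ, ∃ h ∈ F γ ξ, ∀ x < φ β, f x = h (g x)) := by
      intro β hβ f hf
      rcases lt_trichotomy β γ with h | h | h
      · exact Or.inr ⟨h, hM.fac β γ ξ h hγ f hf⟩
      · exact Or.inl h
      · exact absurd (hno β h) (not_le.mpr hβ)
    have hrange : ∀ x < φ ξ, x < φ γ ∨ ∃ u, u < φ γ ∧ s u = x := by
      intro x hx
      have h1 : ∃ h ∈ F γ ξ, ∃ u < φ γ, h u = x := by
        obtain ⟨β, hβ, f, hf, y, hy, hfy⟩ := hM.cov ξ hmin x hx
        rcases hfac β hβ f hf with h | ⟨hβγ, g, hg, h, hh, hfe⟩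
        · subst h
          exact ⟨f, hf, y, hy, hfy⟩
        · exact ⟨h, hh, g y, (hM.inc β γ hβγ g hg y hy).1, by rw [← hfe y hy, hfy]⟩
      obtain ⟨h, hh, u, hu, hux⟩ := h1
      rcases hdich h hh with h2 | h2
      · left
        rw [← hux, h2 u hu]
        exact hu
      · right
        exact ⟨u, hu, by rw [← h2 u hu, hux]⟩
    classical
    obtain ⟨e', he'⟩ : ∃ e' : O → ℕ, ∀ x, e' x = if x < φ γ then e γ x else
      if h : ∃ u, u < φ γ ∧ s u = x then e γ h.choose else 0 := ⟨_, fun _ => rfl⟩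
    have he'1 : ∀ u < φ γ, e' u = e γ u := by
      intro u hu
      rw [he', if_pos hu]
    have he's : ∀ u < φ γ, e' (s u) = e γ u := by
      intro u hu
      by_cases h : s u < φ γ
      · have h1 : u < σ := by
          by_contra hcon
          push Not at hcon
          have h3 : s σ ≤ s u := by
            rcases hcon.lt_or_eq with h2 | h2
            · exact (hsmono u hu σ h2).le
            · rw [h2]
          exact absurd (h.trans_le (hsσ.trans h3)) (lt_irrefl _)
        rw [he'1 _ h, hsid u h1]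
      · have hex : ∃ v, v < φ γ ∧ s v = s u := ⟨u, hu, rfl⟩
        rw [he', if_neg h, dif_pos hex,
          hsinj _ hex.choose_spec.1 u hu hex.choose_spec.2]
    have hsame : ∀ h ∈ F γ ξ, ∀ u < φ γ, e' (h u) = e γ u := by
      intro h hh u hu
      rcases hdich h hh with h2 | h2
      · rw [h2 u hu, he'1 u hu]
      · rw [h2 u hu, he's u hu]
    have hGγ := he γ hγ
    refine ⟨e', fun n => ?_, ?_⟩
    · refine ((hGγ.1 n).union ((hGγ.1 n).image s)).subset ?_
      rintro x ⟨hx, hxn⟩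
      rcases hrange x hx with h | ⟨u, hu, rfl⟩
      · left
        rw [he'1 x h] at hxn
        exact ⟨h, hxn⟩
      · right
        rw [he's u hu] at hxn
        exact ⟨u, ⟨hu, hxn⟩, rfl⟩
    · intro β hβ g hg
      rcases hfac β hβ g hg with h | ⟨hβγ, g', hg', h, hh, hfe⟩
      · subst h
        refine Set.finite_empty.subset ?_
        rintro x ⟨hx, hxne⟩
        exact hxne (hsame g hg x hx)
      · refine (hGγ.2 β hβγ g' hg').subset ?_
        rintro x ⟨hx, hxne⟩
        refine ⟨hx, fun heq => hxne ?_⟩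
        rw [hfe x hx, hsame h hh _ (hM.inc β γ hβγ g' hg' x hx).1, heq]
  · obtain ⟨f, hf⟩ := CESM.min_case hO (φ ξ)
    exact ⟨f, hf, fun β hβ => absurd ⟨β, hβ⟩ hmin⟩

end Pool.Agent.Lib.MPd89457.NB
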