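import Pool.Agent.Lib.MP_d89457_lc.NB.SpecN

/-!
# MP_d89457_lc: module CHS (CH gives a splitting sequence)
-/

set_option autoImplicit false

namespace Pool.Agent.Lib.MPd89457.NB

open Cardinal

theorem specCHS (hMSP : SpecMSP) : SpecCHS := by
  intro hCH O _ hO
  obtain ⟨ν, hν⟩ : ∃ ν : Set ℕ → O, Function.Injective ν := by
    have h : #(Set ℕ) ≤ #O := by
      rw [Cardinal.mk_set, Cardinal.mk_nat, hO.1, hCH]
    obtain ⟨f⟩ := Cardinal.le_def _ _ |>.1 h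
    exact ⟨f, f.injective⟩
  have key : ∀ ξ : O, ∃ S : Set ℕ, ∀ A : Set ℕ, A.Infinite → ν A ≤ ξ →
      (∃ a ∈ A, a ∈ S) ∧ ∃ a ∈ A, a ∉ S := by
    intro ξ
    have hc : {A : Set ℕ | A.Infinite ∧ ν A ≤ ξ}.Countable := by
      refine Set.MapsTo.countable_of_injOn (f := ν) (t := Set.Iic ξ) ?_ ?_ (hO.2 ξ)
      · intro A hA
        exact hA.2
      · intro A _ A' _ h
        exact hν h
    obtain ⟨S, hS⟩ := hMSP ℕ {A : Set ℕ | A.Infinite ∧ ν A ≤ ξ} hc (fun A hA => hA.1)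
    exact ⟨S, fun A hA hle => hS A ⟨hA, hle⟩⟩
  choose x hx using key
  refine ⟨x, fun A hA => (hO.2 (ν A)).mono ?_⟩
  intro ξ hξ
  by_contra hc
  have hlt : ν A ≤ ξ := by
    have h1 : ¬ ξ ≤ ν A := hc
    exact (not_le.1 h1).le
  obtain ⟨⟨a, ha, ha'⟩, ⟨b, hb, hb'⟩⟩ := hx ξ A hA hlt
  rcases hξ with h | h
  · exact hb' (h hb)
  · exact h ha ha'

end Pool.Agent.Lib.MPd89457.NB
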