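import Pool.Agent.Lib.MP_d89457_lc.NB.Spec

/-!
# MP_d89457_lc, module CLO: projections of closed sets
-/

set_option autoImplicit false

namespace Pool.Agent.Lib.MPd89457.NB

open Cardinal

namespace CLOM

theorem br_eq_iff {X : Type} (b b' : ℕ → X) (n : ℕ) :
    br b' n = br b n ↔ ∀ j < n, b' j = b j := by
  induction n with
  | zero => simp [br]
  | succ n ih =>
    rw [br, br, List.cons.injEq, ih]
    constructor
    · rintro ⟨h1, h2⟩ j hj
      rcases Nat.lt_succ_iff_lt_or_eq.1 hj with h | h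
      · exact h2 j h
      · rw [h]
        exact h1
    · intro h
      exact ⟨h n (Nat.lt_succ_self n), fun j hj => h j (Nat.lt_succ_of_lt hj)⟩

theorem clo_lev {Ω : Type} (b : ℕ → Ω) (n : ℕ) (D : Set (List Ω)) (z : ℕ → ℕ) :
    (Cod.lev n D).clo b z ↔ br b n ∈ D := by
  rw [Cod.clo]

theorem clo_or {Ω : Type} (b : ℕ → Ω) (f : ℕ → Cod Ω) (z : ℕ → ℕ) :
    (Cod.or f).clo b z ↔ (f (z 0)).clo b (fun j => z (j + 1)) := by
  rw [Cod.clo]

theorem clo_and {Ω : Type} (b : ℕ → Ω) (f : ℕ → Cod Ω) (z : ℕ → ℕ) :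
    (Cod.and f).clo b z ↔ ∀ k, (f k).clo b (fun j => z (Nat.pair k j)) := by
  rw [Cod.clo]

theorem proj (Ω : Type) (c : Cod Ω) (b : ℕ → Ω) : c.holds b ↔ ∃ z, c.clo b z := by
  induction c with
  | lev n D =>
    rw [Cod.holds]
    constructor
    · intro h
      exact ⟨fun _ => 0, (clo_lev b n D _).2 h⟩
    · rintro ⟨z, hz⟩
      exact (clo_lev b n D z).1 hz
  | or f ih =>
    rw [Cod.holds]
    constructor
    · rintro ⟨k, hk⟩
      obtain ⟨z, hz⟩ := (ih k).1 hk
      refine ⟨fun j => Nat.casesOn j k z, (clo_or b f _).2 ?_⟩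
      exact hz
    · rintro ⟨z, hz⟩
      exact ⟨z 0, (ih (z 0)).2 ⟨_, (clo_or b f z).1 hz⟩⟩
  | and f ih =>
    rw [Cod.holds]
    constructor
    · intro h
      choose z hz using fun k => (ih k).1 (h k)
      refine ⟨fun m => z (Nat.unpair m).1 (Nat.unpair m).2, (clo_and b f _).2 fun k => ?_⟩
      have h1 : (fun j => z (Nat.unpair (Nat.pair k j)).1 (Nat.unpair (Nat.pair k j)).2) = z k := by
        funext j
        rw [Nat.unpair_pair]
      rw [h1]
      exact hz k
    · rintro ⟨z, hz⟩ k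
      exact (ih k).2 ⟨_, (clo_and b f z).1 hz k⟩

theorem closed (Ω : Type) (c : Cod Ω) (b : ℕ → Ω) : ∀ (z : ℕ → ℕ), ¬ c.clo b z →
    ∃ n, ∀ (b' : ℕ → Ω) (z' : ℕ → ℕ), br b' n = br b n → br z' n = br z n → ¬ c.clo b' z' := by
  induction c with
  | lev n D =>
    intro z hz
    refine ⟨n, fun b' z' hb _ h => hz ?_⟩
    rw [clo_lev] at h ⊢
    rwa [hb] at h
  | or f ih =>
    intro z hz
    rw [clo_or] at hz
    obtain ⟨n, hn⟩ := ih (z 0) _ hz
    refine ⟨n + 1, fun b' z' hb hz' h => ?_⟩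
    rw [br_eq_iff] at hb hz'
    rw [clo_or, hz' 0 (Nat.succ_pos n)] at h
    refine hn b' (fun j => z' (j + 1)) ?_ ?_ h
    · rw [br_eq_iff]
      exact fun j hj => hb j (by omega)
    · rw [br_eq_iff]
      exact fun j hj => hz' (j + 1) (by omega)
  | and f ih =>
    intro z hz
    rw [clo_and] at hz
    obtain ⟨k, hk⟩ := not_forall.1 hz
    obtain ⟨n, hn⟩ := ih k _ hk
    refine ⟨n + (Finset.range n).sup (fun j => Nat.pair k j + 1), fun b' z' hb hz' h => ?_⟩
    rw [br_eq_iff] at hb hz'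
    rw [clo_and] at h
    refine hn b' (fun j => z' (Nat.pair k j)) ?_ ?_ (h k)
    · rw [br_eq_iff]
      exact fun j hj => hb j (by omega)
    · rw [br_eq_iff]
      intro j hj
      apply hz'
      have h1 : Nat.pair k j + 1 ≤ (Finset.range n).sup (fun j => Nat.pair k j + 1) :=
        Finset.le_sup (f := fun j => Nat.pair k j + 1) (Finset.mem_range.2 hj)
      omega

end CLOM

theorem specCLO : SpecCLO where
  proj := CLOM.proj
  closed := fun Ω c b z hz => CLOM.closed Ω c b z hz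

end Pool.Agent.Lib.MPd89457.NB
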