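import Pool.Agent.Lib.MP_d89457_lc.NB.Spec

/-!
# MP_d89457_lc : module COL (Namba forcing collapses, so the axiom fails for `ℵ_2` many antichains)
-/

set_option autoImplicit false

namespace Pool.Agent.Lib.MPd89457.NB

open Cardinal

namespace COLM

theorem two_eq : ℵ_ 2 = Order.succ (ℵ_ 1) := by
  rw [succ_aleph, one_add_one_eq_two]

/-- `t` decides the value at `β` to be `k` -/
def Dec {Ω O : Type} [LinearOrder Ω] (f : Ω → Ω → O) (β : Ω) (k : ℕ × O) (t : List Ω) : Prop :=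
  ∃ (γ : Ω) (pre : List Ω), t = γ :: pre ∧ pre.length = k.1 ∧ β < γ ∧ (∀ x ∈ pre, x ≤ β) ∧
    f γ β = k.2

/-- the trees below a deciding node -/
def D {Ω O : Type} [LinearOrder Ω] (f : Ω → Ω → O) (β : Ω) (k : ℕ × O) (T : Set (List Ω)) : Prop :=
  (∃ s, IsNam T s) ∧ ∃ t, Dec f β k t ∧ ∀ u ∈ T, u <:+ t ∨ t <:+ u

/-- the Boolean value -/
noncomputable def xv {Ω O B : Type} [LinearOrder Ω] [CompleteBooleanAlgebra B] (e : Nam Ω → B)
    (f : Ω → Ω → O) (β : Ω) (k : ℕ × O) : B :=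
  sSup {y | ∃ T, D f β k T ∧ y = ev e T}

theorem dec_same {Ω O : Type} [LinearOrder Ω] {f : Ω → Ω → O} {β : Ω} {k k' : ℕ × O}
    {t t' : List Ω} (h : Dec f β k t) (h' : Dec f β k' t') (hs : t <:+ t') : k = k' := by
  obtain ⟨γ, pre, rfl, hl, hlt, hle, hf⟩ := h
  obtain ⟨γ', pre', rfl, hl', hlt', hle', hf'⟩ := h'
  rcases List.suffix_cons_iff.1 hs with h1 | h1
  · obtain ⟨rfl, rfl⟩ := List.cons.inj h1
    exact Prod.ext (hl.symm.trans hl') (hf.symm.trans hf')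
  · exfalso
    exact absurd (hle' γ (h1.subset (List.mem_cons_self))) (not_le.2 hlt)

theorem dec_inj {Ω O : Type} [LinearOrder Ω] {f : Ω → Ω → O}
    (hfi : ∀ γ β β', β < γ → β' < γ → f γ β = f γ β' → β = β') {β β' : Ω} {k : ℕ × O}
    {t t' : List Ω} (h : Dec f β k t) (h' : Dec f β' k t') (hs : t <:+ t') : β = β' := by
  obtain ⟨γ, pre, rfl, hl, hlt, hle, hf⟩ := h
  obtain ⟨γ', pre', rfl, hl', hlt', hle', hf'⟩ := h'
  have h1 : γ :: pre = γ' :: pre' := hs.eq_of_length (by simp [hl, hl'])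
  obtain ⟨rfl, rfl⟩ := List.cons.inj h1
  exact hfi γ β β' hlt hlt' (hf.trans hf'.symm)

theorem exists_dec {Ω O : Type} [LinearOrder Ω] (f : Ω → Ω → O) (β : Ω) :
    ∀ (l : List Ω), (∃ x ∈ l, β < x) → ∃ (k : ℕ × O) (t : List Ω), t <:+ l ∧ Dec f β k t := by
  intro l
  induction l with
  | nil =>
    rintro ⟨x, hx, -⟩
    simp at hx
  | cons a l ih =>
    intro h
    by_cases hl : ∃ x ∈ l, β < x
    · obtain ⟨k, t, ht, hd⟩ := ih hl
      exact ⟨k, t, ht.trans (List.suffix_cons a l), hd⟩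
    · push Not at hl
      obtain ⟨x, hx, hlt⟩ := h
      rcases List.mem_cons.1 hx with rfl | hx
      · exact ⟨(l.length, f x β), x :: l, List.suffix_rfl, x, l, rfl, rfl, hlt, hl, rfl⟩
      · exact absurd (hl x hx) (not_le.2 hlt)

theorem inf_bot {Ω O B : Type} [LinearOrder Ω] [CompleteBooleanAlgebra B] (e : Nam Ω → B)
    (f : Ω → Ω → O) (β β' : Ω) (k k' : ℕ × O)
    (h : ∀ T T', D f β k T → D f β' k' T' → ev e T ⊓ ev e T' = ⊥) :
    xv e f β k ⊓ xv e f β' k' = ⊥ := by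
  unfold xv
  rw [sSup_inf_sSup]
  apply le_antisymm _ bot_le
  apply iSup₂_le
  rintro ⟨y, y'⟩ ⟨⟨T, hT, hy⟩, ⟨T', hT', hy'⟩⟩
  have hy1 : y = ev e T := hy
  have hy2 : y' = ev e T' := hy'
  show y ⊓ y' ≤ ⊥
  rw [hy1, hy2, h T T' hT hT']

end COLM

open COLM in
theorem specCOL (hTRE : SpecTRE) (hBAS : SpecBAS) : SpecCOL := by
  intro Ω B _ e hΩ he hB
  obtain ⟨_, hwf, hord⟩ := exists_ord_eq_type_lt Ω
  obtain ⟨O, hO⟩ : ∃ O : Type, #O = ℵ_ 1 := ⟨_, Cardinal.mk_out _⟩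
  have hIio : ∀ γ : Ω, #(Set.Iio γ) ≤ ℵ_ 1 := by
    intro γ
    have h1 := mk_Iio_lt γ hord
    rw [hΩ, two_eq] at h1
    exact Order.lt_succ_iff.1 h1
  have hemb : ∀ γ : Ω, ∃ g : Ω → O, ∀ β β', β < γ → β' < γ → g β = g β' → β = β' := by
    intro γ
    obtain ⟨j⟩ : Nonempty (Set.Iio γ ↪ O) := by
      rw [← Cardinal.le_def, hO]
      exact hIio γ
    have hne : Nonempty O := by
      have : #O ≠ 0 := by
        rw [hO]
        exact (Cardinal.aleph_pos 1).ne'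
      exact Cardinal.mk_ne_zero_iff.1 this
    classical
    refine ⟨fun β => if h : β < γ then j ⟨β, h⟩ else Classical.choice hne, ?_⟩
    intro β β' h1 h2 h3
    have h4 : j ⟨β, h1⟩ = j ⟨β', h2⟩ := by
      simpa [h1, h2] using h3
    have h5 := j.injective h4
    exact congrArg Subtype.val h5
  choose f hf using hemb
  -- disjointness
  have hdis : ∀ (β β' : Ω) (k k' : ℕ × O) (T T' : Set (List Ω)),
      (∀ t t', Dec f β k t → Dec f β' k' t' → ¬ (t <:+ t' ∨ t' <:+ t)) →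
      D f β k T → D f β' k' T' → ev e T ⊓ ev e T' = ⊥ := by
    intro β β' k k' T T' h hT hT'
    obtain ⟨⟨s, hs⟩, t, ht, htT⟩ := hT
    obtain ⟨⟨s', hs'⟩, t', ht', htT'⟩ := hT'
    exact hBAS.dis Ω B e he T T' s s' t t' hs hs' htT htT' (h t t' ht ht')
  have hA1 : ∀ (β : Ω) (k k' : ℕ × O), k ≠ k' → xv e f β k ⊓ xv e f β k' = ⊥ := by
    intro β k k' hkk
    apply inf_bot
    intro T T' hT hT'
    refine hdis β β k k' T T' ?_ hT hT'
    rintro t t' ht ht' (h | h)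
    · exact hkk (dec_same ht ht' h)
    · exact hkk (dec_same ht' ht h).symm
  have hA2 : ∀ (β β' : Ω) (k : ℕ × O), β ≠ β' → xv e f β k ⊓ xv e f β' k = ⊥ := by
    intro β β' k hββ
    apply inf_bot
    intro T T' hT hT'
    refine hdis β β' k k T T' ?_ hT hT'
    rintro t t' ht ht' (h | h)
    · exact hββ (dec_inj hf ht ht' h)
    · exact hββ (dec_inj hf ht' ht h).symm
  -- the antichains
  have hmax : ∀ β : Ω, MaxAnti {x : B | x ≠ ⊥ ∧ ∃ k : ℕ × O, x = xv e f β k} := by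
    intro β
    refine ⟨fun a ha => ha.1, ?_, ?_⟩
    · rintro a ⟨-, k, rfl⟩ b ⟨-, k', rfl⟩ hab
      apply hA1
      rintro rfl
      exact hab rfl
    · intro b hb
      obtain ⟨p, hp⟩ := he.dense b hb
      obtain ⟨T, hT0⟩ := p
      obtain ⟨s, hT⟩ := hT0
      have hevT : ev e T ≤ b := by
        have h1 : ev e T = e ⟨T, ⟨s, hT⟩⟩ := by
          unfold ev
          rw [dif_pos ⟨s, hT⟩]
        rw [h1]
        exact hp
      obtain ⟨γ, hγ, hγT⟩ := hTRE.avoid Ω T s s (Set.Iic β) hT hT.1 List.suffix_rfl (by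
        have h1 : Set.Iic β = insert β (Set.Iio β) := Set.Iio_insert.symm
        rw [h1]
        refine (Cardinal.mk_insert_le).trans ?_
        refine (add_le_add (hIio β) (Cardinal.one_le_aleph0.trans (Cardinal.aleph0_le_aleph 1))).trans
          ?_
        rw [Cardinal.add_eq_self (Cardinal.aleph0_le_aleph 1)])
      have hβγ : β < γ := not_le.1 hγ
      obtain ⟨k, t, ht, hd⟩ := exists_dec f β (γ :: s) ⟨γ, List.mem_cons_self, hβγ⟩
      have hR : IsNam (res T (γ :: s)) (γ :: s) :=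
        hTRE.res Ω T s (γ :: s) hT hγT (List.suffix_cons γ s)
      have hRD : D f β k (res T (γ :: s)) := by
        refine ⟨⟨_, hR⟩, t, hd, ?_⟩
        rintro u ⟨huT, hu | hu⟩
        · exact List.suffix_or_suffix_of_suffix hu ht
        · exact Or.inr (ht.trans hu)
      have hRne : ev e (res T (γ :: s)) ≠ ⊥ := hBAS.pos Ω B e he _ _ hR
      have hRx : ev e (res T (γ :: s)) ≤ xv e f β k := le_sSup ⟨_, hRD, rfl⟩
      have hRb : ev e (res T (γ :: s)) ≤ b :=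
        (hBAS.mono Ω B e he _ _ _ _ hR hT (fun u hu => hu.1)).trans hevT
      refine ⟨xv e f β k, ⟨?_, k, rfl⟩, ?_⟩
      · intro h0
        rw [h0] at hRx
        exact hRne (le_bot_iff.1 hRx)
      · intro h0
        have h1 := le_inf hRx hRb
        rw [h0] at h1
        exact hRne (le_bot_iff.1 h1)
  have hprod : #(ℕ × O) = ℵ_ 1 := by
    rw [Cardinal.mk_prod, Cardinal.lift_id, Cardinal.lift_id, Cardinal.mk_nat, hO]
    exact Cardinal.aleph0_mul_eq (Cardinal.aleph0_le_aleph 1)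
  have hcard : ∀ β : Ω, #({x : B | x ≠ ⊥ ∧ ∃ k : ℕ × O, x = xv e f β k} : Set B) ≤ ℵ_ 1 := by
    intro β
    have hsub : {x : B | x ≠ ⊥ ∧ ∃ k : ℕ × O, x = xv e f β k} ⊆ Set.range (xv e f β) := by
      rintro x ⟨-, k, rfl⟩
      exact ⟨k, rfl⟩
    refine (Cardinal.mk_le_mk_of_subset hsub).trans (Cardinal.mk_range_le.trans ?_)
    rw [hprod]
  obtain ⟨G, hG, hGA⟩ := hB _ hmax hcard
  have hk : ∀ β : Ω, ∃ k : ℕ × O, xv e f β k ∈ G := by
    intro β
    obtain ⟨x, hxG, -, k, rfl⟩ := hGA β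
    exact ⟨k, hxG⟩
  choose k hkG using hk
  have hinj : Function.Injective k := by
    intro β β' h
    by_contra hne
    have h1 := hG.2.2.2 _ (hkG β) _ (hkG β')
    rw [h, hA2 β β' (k β') hne] at h1
    exact hG.2.1 h1
  have hle : #Ω ≤ #(ℕ × O) := Cardinal.mk_le_of_injective hinj
  rw [hprod, hΩ, two_eq] at hle
  exact absurd hle (not_le.2 (Order.lt_succ _))

end Pool.Agent.Lib.MPd89457.NB
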