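import Pool.Agent.Lib.MP_d89457_lc.NB.SpecS
import Pool.Agent.Lib.MP_d89457_lc.NB.COL

/-!
# MP_d89457_lc : module CLP (the collapsing antichains consist of open elements)
-/

set_option autoImplicit false

namespace Pool.Agent.Lib.MPd89457.NB

open Cardinal

namespace CLPM

open COLM

/-- the Boolean value: the supremum of the cones of the deciding nodes -/
noncomputable def xu {Ω O B : Type} [LinearOrder Ω] [CompleteBooleanAlgebra B] (e : Nam Ω → B)
    (f : Ω → Ω → O) (β : Ω) (k : ℕ × O) : B :=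
  sSup {y | ∃ t : List Ω, Dec f β k t ∧ y = ev e (res Set.univ t)}

theorem inf_bot {Ω O B : Type} [LinearOrder Ω] [CompleteBooleanAlgebra B] (e : Nam Ω → B)
    (f : Ω → Ω → O) (β β' : Ω) (k k' : ℕ × O)
    (h : ∀ t t' : List Ω, Dec f β k t → Dec f β' k' t' →
      ev e (res Set.univ t) ⊓ ev e (res Set.univ t') = ⊥) :
    xu e f β k ⊓ xu e f β' k' = ⊥ := by
  unfold xu
  rw [sSup_inf_sSup]
  apply le_antisymm _ bot_le
  apply iSup₂_le
  rintro ⟨y, y'⟩ ⟨⟨t, ht, hy⟩, ⟨t', ht', hy'⟩⟩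
  have hy1 : y = ev e (res Set.univ t) := hy
  have hy2 : y' = ev e (res Set.univ t') := hy'
  show y ⊓ y' ≤ ⊥
  rw [hy1, hy2, h t t' ht ht']

theorem opn_xu {Ω O B : Type} [LinearOrder Ω] [CompleteBooleanAlgebra B] (e : Nam Ω → B)
    (f : Ω → Ω → O) (β : Ω) (k : ℕ × O) : Opn e (fun _ => {⊤}) (xu e f β k) := by
  refine ⟨{y | ∃ t : List Ω, Dec f β k t ∧ y = ev e (res Set.univ t)}, ?_, rfl⟩
  rintro m ⟨t, -, rfl⟩
  refine ⟨t, fun _ => ⊤, fun i _ => rfl, ?_⟩
  rw [iInf_top, inf_top_eq]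

end CLPM

open COLM CLPM in
theorem specCLP (hTRE : SpecTRE) (hBAS : SpecBAS) : SpecCLP := by
  intro Ω B _ e hΩ he
  have hfull : ∀ t : List Ω, IsNam (res (Set.univ : Set (List Ω)) t) t := fun t =>
    hTRE.res Ω Set.univ [] t (hTRE.full Ω hΩ) (Set.mem_univ t) (List.nil_suffix)
  obtain ⟨_, hwf, hord⟩ := exists_ord_eq_type_lt Ω
  obtain ⟨O, hO⟩ : ∃ O : Type, #O = ℵ_ 1 := ⟨_, Cardinal.mk_out _⟩
  have hIio : ∀ γ : Ω, #(Set.Iio γ) ≤ ℵ_ 1 := by
    intro γ
    have h1 := mk_Iio_lt γ hord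
    rw [hΩ, two_eq] at h1
    exact Order.lt_succ_iff.1 h1
  have hemb : ∀ γ : Ω, ∃ g : Ω → O, ∀ β β', β < γ → β' < γ → g β = g β' → β = β' := by
    intro γ
    obtain ⟨j⟩ : Nonempty (Set.Iio γ ↪ O) := by
      rw [← Cardinal.le_def, hO]
      exact hIio γ
    have hne : Nonempty O := by
      have : #O ≠ 0 := by
        rw [hO]
        exact (Cardinal.aleph_pos 1).ne'
      exact Cardinal.mk_ne_zero_iff.1 this
    classical
    refine ⟨fun β => if h : β < γ then j ⟨β, h⟩ else Classical.choice hne, ?_⟩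
    intro β β' h1 h2 h3
    have h4 : j ⟨β, h1⟩ = j ⟨β', h2⟩ := by
      simpa [h1, h2] using h3
    have h5 := j.injective h4
    exact congrArg Subtype.val h5
  choose f hf using hemb
  -- disjointness
  have hdis : ∀ t t' : List Ω, ¬ (t <:+ t' ∨ t' <:+ t) →
      ev e (res Set.univ t) ⊓ ev e (res Set.univ t') = ⊥ := by
    intro t t' h
    exact hBAS.dis Ω B e he _ _ t t' t t' (hfull t) (hfull t') (fun u hu => hu.2)
      (fun u hu => hu.2) h
  have hA1 : ∀ (β : Ω) (k k' : ℕ × O), k ≠ k' → xu e f β k ⊓ xu e f β k' = ⊥ := by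
    intro β k k' hkk
    apply CLPM.inf_bot
    intro t t' ht ht'
    refine hdis t t' ?_
    rintro (h | h)
    · exact hkk (dec_same ht ht' h)
    · exact hkk (dec_same ht' ht h).symm
  have hA2 : ∀ (β β' : Ω) (k : ℕ × O), β ≠ β' → xu e f β k ⊓ xu e f β' k = ⊥ := by
    intro β β' k hββ
    apply CLPM.inf_bot
    intro t t' ht ht'
    refine hdis t t' ?_
    rintro (h | h)
    · exact hββ (dec_inj hf ht ht' h)
    · exact hββ (dec_inj hf ht' ht h).symm
  -- the antichains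
  have hmax : ∀ β : Ω, MaxAnti {x : B | x ≠ ⊥ ∧ ∃ k : ℕ × O, x = xu e f β k} := by
    intro β
    refine ⟨fun a ha => ha.1, ?_, ?_⟩
    · rintro a ⟨-, k, rfl⟩ b ⟨-, k', rfl⟩ hab
      apply hA1
      rintro rfl
      exact hab rfl
    · intro b hb
      obtain ⟨p, hp⟩ := he.dense b hb
      obtain ⟨T, hT0⟩ := p
      obtain ⟨s, hT⟩ := hT0
      have hevT : ev e T ≤ b := by
        have h1 : ev e T = e ⟨T, ⟨s, hT⟩⟩ := by
          unfold ev
          rw [dif_pos ⟨s, hT⟩]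
        rw [h1]
        exact hp
      obtain ⟨γ, hγ, hγT⟩ := hTRE.avoid Ω T s s (Set.Iic β) hT hT.1 List.suffix_rfl (by
        have h1 : Set.Iic β = insert β (Set.Iio β) := Set.Iio_insert.symm
        rw [h1]
        refine (Cardinal.mk_insert_le).trans ?_
        refine (add_le_add (hIio β) (Cardinal.one_le_aleph0.trans (Cardinal.aleph0_le_aleph 1))).trans
          ?_
        rw [Cardinal.add_eq_self (Cardinal.aleph0_le_aleph 1)])
      have hβγ : β < γ := not_le.1 hγ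
      obtain ⟨k, t, ht, hd⟩ := exists_dec f β (γ :: s) ⟨γ, List.mem_cons_self, hβγ⟩
      have hR : IsNam (res T (γ :: s)) (γ :: s) :=
        hTRE.res Ω T s (γ :: s) hT hγT (List.suffix_cons γ s)
      have hRD : res T (γ :: s) ⊆ res Set.univ t := by
        rintro u ⟨huT, hu | hu⟩
        · exact ⟨Set.mem_univ u, List.suffix_or_suffix_of_suffix hu ht⟩
        · exact ⟨Set.mem_univ u, Or.inr (ht.trans hu)⟩
      have hRne : ev e (res T (γ :: s)) ≠ ⊥ := hBAS.pos Ω B e he _ _ hR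
      have hRx : ev e (res T (γ :: s)) ≤ xu e f β k :=
        (hBAS.mono Ω B e he _ _ _ _ hR (hfull t) hRD).trans (le_sSup ⟨t, hd, rfl⟩)
      have hRb : ev e (res T (γ :: s)) ≤ b :=
        (hBAS.mono Ω B e he _ _ _ _ hR hT (fun u hu => hu.1)).trans hevT
      refine ⟨xu e f β k, ⟨?_, k, rfl⟩, ?_⟩
      · intro h0
        rw [h0] at hRx
        exact hRne (le_bot_iff.1 hRx)
      · intro h0
        have h1 := le_inf hRx hRb
        rw [h0] at h1
        exact hRne (le_bot_iff.1 h1)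
  have hprod : #(ℕ × O) = ℵ_ 1 := by
    rw [Cardinal.mk_prod, Cardinal.lift_id, Cardinal.lift_id, Cardinal.mk_nat, hO]
    exact Cardinal.aleph0_mul_eq (Cardinal.aleph0_le_aleph 1)
  have hcard : ∀ β : Ω, #({x : B | x ≠ ⊥ ∧ ∃ k : ℕ × O, x = xu e f β k} : Set B) ≤ ℵ_ 1 := by
    intro β
    have hsub : {x : B | x ≠ ⊥ ∧ ∃ k : ℕ × O, x = xu e f β k} ⊆ Set.range (xu e f β) := by
      rintro x ⟨-, k, rfl⟩
      exact ⟨k, rfl⟩
    refine (Cardinal.mk_le_mk_of_subset hsub).trans (Cardinal.mk_range_le.trans ?_)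
    rw [hprod]
  refine ⟨fun β => {x : B | x ≠ ⊥ ∧ ∃ k : ℕ × O, x = xu e f β k}, hmax, hcard, ?_, ?_⟩
  · rintro β a ⟨-, k, rfl⟩
    exact opn_xu e f β k
  rintro ⟨G, hG, hGA⟩
  have hk : ∀ β : Ω, ∃ k : ℕ × O, xu e f β k ∈ G := by
    intro β
    obtain ⟨x, hxG, -, k, rfl⟩ := hGA β
    exact ⟨k, hxG⟩
  choose k hkG using hk
  have hinj : Function.Injective k := by
    intro β β' h
    by_contra hne
    have h1 := hG.2.2.2 _ (hkG β) _ (hkG β')
    rw [h, hA2 β β' (k β') hne] at h1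
    exact hG.2.1 h1
  have hle : #Ω ≤ #(ℕ × O) := Cardinal.mk_le_of_injective hinj
  rw [hprod, hΩ, two_eq] at hle
  exact absurd hle (not_le.2 (Order.lt_succ _))

end Pool.Agent.Lib.MPd89457.NB
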