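import Pool.Agent.Lib.MP_d89457_lc.NB.Spec

/-!
# Module CMB: a branch which avoids `ℵ_1` many small sets at every node
-/

set_option autoImplicit false

namespace Pool.Agent.Lib.MPd89457.NB

open Cardinal

namespace CMBM

theorem union_le {Ω ι : Type} (X : ι → Set Ω) (hι : #ι ≤ ℵ_ 1) (hX : ∀ i, #(X i) ≤ ℵ_ 1) :
    #(⋃ i, X i : Set Ω) ≤ ℵ_ 1 := by
  have h1 : #(⋃ i, X i : Set Ω) ≤ Cardinal.sum fun i => #(X i) := Cardinal.mk_iUnion_le_sum_mk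
  have h2 : (Cardinal.sum fun i => #(X i)) ≤ Cardinal.sum fun _ : ι => ℵ_ 1 :=
    Cardinal.sum_le_sum _ _ hX
  have h3 : (Cardinal.sum fun _ : ι => (ℵ_ 1 : Cardinal.{0})) = #ι * ℵ_ 1 := by
    simp [Cardinal.sum_const]
  have h4 : #ι * ℵ_ 1 ≤ ℵ_ 1 * ℵ_ 1 := mul_le_mul_left hι _
  have h5 : (ℵ_ 1 : Cardinal.{0}) * ℵ_ 1 = ℵ_ 1 :=
    Cardinal.mul_eq_self (Cardinal.aleph0_le_aleph 1)
  calc #(⋃ i, X i : Set Ω) ≤ _ := h1
    _ ≤ _ := h2
    _ = #ι * ℵ_ 1 := h3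
    _ ≤ ℵ_ 1 * ℵ_ 1 := h4
    _ = ℵ_ 1 := h5

/-- the initial segments obtained with the choice function `g` -/
def seg {Ω : Type} (g : List Ω → Ω) : ℕ → List Ω
  | 0 => []
  | n + 1 => g (seg g n) :: seg g n

theorem br_seg {Ω : Type} (g : List Ω → Ω) (n : ℕ) : br (fun k => g (seg g k)) n = seg g n := by
  induction n with
  | zero => rfl
  | succ n ih =>
    show g (seg g n) :: br (fun k => g (seg g k)) n = g (seg g n) :: seg g n
    rw [ih]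

end CMBM

theorem specCMB (hTRE : SpecTRE) : SpecCMB := by
  classical
  intro Ω T hT ι hι Bad hBad
  have hU : ∀ t, #(⋃ i, Bad i t : Set Ω) ≤ ℵ_ 1 := fun t =>
    CMBM.union_le (fun i => Bad i t) hι (fun i => hBad i t)
  have hs : ∀ t ∈ T, ∃ γ, γ ∉ (⋃ i, Bad i t : Set Ω) ∧ γ :: t ∈ T := fun t ht =>
    hTRE.avoid Ω T [] t _ hT ht List.nil_suffix (hU t)
  have hne : Nonempty Ω := ⟨(hs [] hT.1).choose⟩
  have hg : ∀ t, ∃ γ : Ω, t ∈ T → γ ∉ (⋃ i, Bad i t : Set Ω) ∧ γ :: t ∈ T := by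
    intro t
    by_cases ht : t ∈ T
    · obtain ⟨γ, h⟩ := hs t ht
      exact ⟨γ, fun _ => h⟩
    · exact ⟨hne.some, fun h => absurd h ht⟩
  choose g hg using hg
  have hseg : ∀ n, CMBM.seg g n ∈ T := by
    intro n
    induction n with
    | zero => exact hT.1
    | succ n ih => exact (hg _ ih).2
  refine ⟨fun k => g (CMBM.seg g k), fun n => ?_, fun i n => ?_⟩
  · rw [CMBM.br_seg]
    exact hseg n
  · rw [CMBM.br_seg]
    intro h
    exact (hg _ (hseg n)).1 (Set.mem_iUnion.2 ⟨i, h⟩)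

end Pool.Agent.Lib.MPd89457.NB
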