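import Pool.Agent.Lib.MP_d89457_lc.NB.SpecS
import Pool.Agent.Lib.MP_d89457_lc.NB.BCD

/-!
# MP_d89457_lc, module CND: every condition belongs to the Borel algebra

`e T` is the infimum over `n` of the supremum of the cones of the nodes of `T` of length `n`.
-/

set_option autoImplicit false

namespace Pool.Agent.Lib.MPd89457.NB

open Cardinal

def SpecCND : Prop := ∀ (Ω : Type) (B : Type) [CompleteBooleanAlgebra B] (e : Nam Ω → B),
  #Ω = ℵ_ 2 → IsBC e → ∀ W : ℕ → Set B, (∀ n, MaxAnti (W n)) → ∀ T : Nam Ω, Bor e W (e T)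

namespace CNDM

variable {Ω B : Type} [CompleteBooleanAlgebra B] {e : Nam Ω → B}

theorem pick {W : ℕ → Set B} (hW : ∀ n, MaxAnti (W n)) (n : ℕ) (x : B) (hx : x ≠ ⊥) :
    ∃ w : ℕ → B, (∀ i < n, w i ∈ W i) ∧ x ⊓ ⨅ i : Fin n, w i ≠ ⊥ := by
  induction n with
  | zero =>
    refine ⟨fun _ => ⊥, fun i hi => absurd hi (Nat.not_lt_zero i), ?_⟩
    rw [iInf_of_empty, inf_top_eq]
    exact hx
  | succ n ih =>
    obtain ⟨w, hw, hxw⟩ := ih
    obtain ⟨a, ha, hax⟩ := (hW n).2.2 _ hxw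
    refine ⟨fun i => if i = n then a else w i, ?_, ?_⟩
    · intro i hi
      show (if i = n then a else w i) ∈ W i
      by_cases hin : i = n
      · subst hin
        rw [if_pos rfl]
        exact ha
      · rw [if_neg hin]
        exact hw i (by omega)
    · intro h
      apply hax
      rw [eq_bot_iff, ← h]
      refine le_inf (inf_le_right.trans inf_le_left) (le_iInf fun i => ?_)
      show a ⊓ (x ⊓ ⨅ i : Fin n, w i) ≤ if (i : ℕ) = n then a else w i
      by_cases hin : (i : ℕ) = n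
      · rw [if_pos hin]
        exact inf_le_left
      · rw [if_neg hin]
        have hi : (i : ℕ) < n := by
          have := i.2
          omega
        exact inf_le_right.trans (inf_le_right.trans (iInf_le (fun j : Fin n => w j) ⟨i, hi⟩))

/-- the supremum of the cones of the elements of `D` -/
noncomputable def cs (e : Nam Ω → B) (D : Set (List Ω)) : B :=
  sSup {x | ∃ t ∈ D, x = ev e (res Set.univ t)}

theorem bor_cs {W : ℕ → Set B} (hW : ∀ n, MaxAnti (W n)) (D : Set (List Ω)) :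
    Bor e W (cs e D) := by
  have h : cs e D = sSup {m | ∃ t ∈ D, ∃ w : ℕ → B, (∀ i < t.length, w i ∈ W i) ∧
      m = ev e (res Set.univ t) ⊓ ⨅ i : Fin t.length, w i} := by
    apply le_antisymm
    · refine sSup_le ?_
      rintro x ⟨t, ht, rfl⟩
      set S := sSup {m | ∃ t ∈ D, ∃ w : ℕ → B, (∀ i < t.length, w i ∈ W i) ∧
        m = ev e (res Set.univ t) ⊓ ⨅ i : Fin t.length, w i} with hS
      by_contra hcon
      have hx : ev e (res Set.univ t) ⊓ Sᶜ ≠ ⊥ := by
        intro h0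
        exact hcon (disjoint_compl_right_iff.1 (disjoint_iff.2 h0))
      obtain ⟨w, hw, hxw⟩ := pick hW t.length _ hx
      apply hxw
      have h1 : ev e (res Set.univ t) ⊓ (⨅ i : Fin t.length, w i) ≤ S := by
        rw [hS]
        exact le_sSup ⟨t, ht, w, hw, rfl⟩
      rw [eq_bot_iff, ← inf_compl_eq_bot (a := S)]
      exact le_inf ((inf_le_inf_right _ inf_le_left).trans h1) (inf_le_left.trans inf_le_right)
    · refine sSup_le ?_
      rintro x ⟨t, ht, w, hw, rfl⟩
      exact inf_le_left.trans (le_sSup ⟨t, ht, rfl⟩)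
  rw [h]
  apply Bor.opn
  rintro m ⟨t, ht, w, hw, rfl⟩
  exact ⟨t, w, hw, rfl⟩

theorem bor_inf {W : ℕ → Set B} (a : ℕ → B) (h : ∀ n, Bor e W (a n)) : Bor e W (⨅ n, a n) := by
  have h1 : (⨅ n, a n) = (⨆ n, (a n)ᶜ)ᶜ := by
    rw [compl_iSup]
    simp only [compl_compl]
  rw [h1]
  exact Bor.compl _ (Bor.sup _ fun n => Bor.compl _ (h n))

theorem eq_inf (hTRE : SpecTRE) (hBAS : SpecBAS) (hΩ : #Ω = ℵ_ 2) (he : IsBC e)
    (T : Set (List Ω)) (s : List Ω) (hT : IsNam T s) :
    ev e T = ⨅ n : ℕ, cs e {t | t ∈ T ∧ t.length = n} := by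
  have hfull : IsNam (Set.univ : Set (List Ω)) [] := hTRE.full Ω hΩ
  have hcone : ∀ t : List Ω, IsNam (res Set.univ t) t := fun t =>
    hTRE.res Ω Set.univ [] t hfull (Set.mem_univ _) (List.nil_suffix)
  apply le_antisymm
  · refine le_iInf fun n => ?_
    apply hBAS.den Ω B e he T s _ n hT
    intro R u hR hRT _ hn
    obtain ⟨t, htu, htn⟩ := BCDM.exists_init u n hn
    have htT : t ∈ T := hRT (hR.2.1 u hR.1 t htu)
    have h1 : ev e R ≤ ev e (res Set.univ t) := by
      apply hBAS.mono Ω B e he R _ u t hR (hcone t)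
      exact BCDM.sub_res hR (Set.subset_univ _) htu
    have h2 : ev e (res Set.univ t) ≤ cs e {t | t ∈ T ∧ t.length = n} :=
      le_sSup ⟨t, ⟨htT, htn⟩, rfl⟩
    rw [inf_eq_left.2 (h1.trans h2)]
    exact hBAS.pos Ω B e he R u hR
  · by_contra hcon
    have hx : (⨅ n : ℕ, cs e {t | t ∈ T ∧ t.length = n}) ⊓ (ev e T)ᶜ ≠ ⊥ := by
      intro h0
      exact hcon (disjoint_compl_right_iff.1 (disjoint_iff.2 h0))
    obtain ⟨p, hp⟩ := he.dense _ hx
    obtain ⟨u, hR⟩ := p.2
    have hev : ev e p.1 = e p := by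
      unfold ev
      rw [dif_pos p.2]
      rfl
    have hpos := hBAS.pos Ω B e he p.1 u hR
    rw [← hev] at hp
    by_cases hsub : p.1 ⊆ T
    · apply hpos
      rw [eq_bot_iff, ← inf_compl_eq_bot (a := ev e T)]
      exact le_inf (hBAS.mono Ω B e he p.1 T u s hR hT hsub) (hp.trans inf_le_right)
    · obtain ⟨v, hv, hvT⟩ := Set.not_subset.1 hsub
      obtain ⟨v', hv', huv, hv'T⟩ : ∃ v' ∈ p.1, u <:+ v' ∧ v' ∉ T := by
        rcases hR.2.2.1 v hv with h | h
        · exact ⟨u, hR.1, List.suffix_refl u, fun hu => hvT (hT.2.1 u hu v h)⟩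
        · exact ⟨v, hv, h, hvT⟩
      have hR' : IsNam (res p.1 v') v' := hTRE.res Ω p.1 u v' hR hv' huv
      have hle : ev e (res p.1 v') ≤ cs e {t | t ∈ T ∧ t.length = v'.length} :=
        (hBAS.mono Ω B e he _ _ v' u hR' hR (BCDM.res_sub _ _)).trans
          ((hp.trans inf_le_left).trans (iInf_le _ v'.length))
      apply hBAS.pos Ω B e he _ v' hR'
      rw [← inf_eq_left.2 hle]
      unfold cs
      rw [inf_sSup_eq, eq_bot_iff]
      refine iSup₂_le ?_
      rintro x ⟨t, ⟨htT, htl⟩, rfl⟩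
      rw [hBAS.dis Ω B e he _ _ v' t v' t hR' (hcone t) (fun w hw => hw.2) (fun w hw => hw.2)]
      rintro (h | h)
      · exact hv'T (h.eq_of_length htl.symm ▸ htT)
      · exact hv'T ((h.eq_of_length htl) ▸ htT)

end CNDM

open CNDM

theorem specCND (hTRE : SpecTRE) (hBAS : SpecBAS) : SpecCND := by
  intro Ω B _ e hΩ he W hW T
  obtain ⟨s, hT⟩ := T.2
  have hev : ev e T.1 = e T := by
    unfold ev
    rw [dif_pos T.2]
    rfl
  rw [← hev, eq_inf hTRE hBAS hΩ he T.1 s hT]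
  exact bor_inf _ fun n => bor_cs hW _

end Pool.Agent.Lib.MPd89457.NB
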