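import Pool.Agent.Lib.MP_d89457_lc.NB.Spec

/-!
# MP_d89457_lc: module CON (a continuous selector of witnesses forces the Borel set)
-/

set_option autoImplicit false

namespace Pool.Agent.Lib.MPd89457.NB

open Cardinal

namespace CONM

variable {Ω : Type}

theorem br_length (b : ℕ → Ω) (n : ℕ) : (br b n).length = n := by
  induction n with
  | zero => rfl
  | succ n ih => rw [br, List.length_cons, ih]

theorem br_suffix (b : ℕ → Ω) {m n : ℕ} (h : m ≤ n) : br b m <:+ br b n := by
  induction n with
  | zero =>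
    obtain rfl : m = 0 := by omega
    exact List.suffix_refl _
  | succ n ih =>
    rcases Nat.lt_or_ge n m with h1 | h1
    · obtain rfl : m = n + 1 := by omega
      exact List.suffix_refl _
    · exact (ih h1).trans (List.suffix_cons _ _)

/-- two suffixes of one list of the same length are equal -/
theorem suffix_eq {a b c : List Ω} (h1 : a <:+ c) (h2 : b <:+ c) (h : a.length = b.length) : a = b :=
  (List.suffix_of_suffix_length_le h1 h2 h.le).eq_of_length h

theorem br_eq_of_le (b b' : ℕ → Ω) {m n : ℕ} (h : m ≤ n) (he : br b' n = br b n) :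
    br b' m = br b m := by
  refine suffix_eq (br_suffix b' h) (c := br b' n) ?_ (by rw [br_length, br_length])
  rw [he]
  exact br_suffix b h

/-- comparable lists of the same length are equal -/
theorem comp_eq {a b : List Ω} (h : a <:+ b ∨ b <:+ a) (hl : a.length = b.length) : a = b := by
  rcases h with h | h
  · exact h.eq_of_length hl
  · exact (h.eq_of_length hl.symm).symm

end CONM

open CONM in
theorem specCON (hTRE : SpecTRE) (hBAS : SpecBAS) : SpecCON := by
  intro Ω B _ e he T hT c
  induction c with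
  | lev n D =>
    intro R u hR hRT Z _ hclo
    refine hBAS.den Ω B e he R u _ n hR ?_
    intro R' u' hR' hR'R huu' hn
    obtain ⟨b, hb, hbu⟩ := hTRE.branch Ω R' u' u' hR' hR'.1
    have hbR : ∀ m, br b m ∈ R := fun m => hR'R (hb m)
    have htD : br b n ∈ D := hclo b hbR
    have htT : br b n ∈ T := hRT (hbR n)
    have htu : br b n <:+ u' := by
      have h1 := br_suffix b hn
      rwa [hbu] at h1
    have hres : IsNam (res T (br b n)) (br b n) :=
      hTRE.res Ω T [] (br b n) hT htT (List.nil_suffix)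
    have hsub : R' ⊆ res T (br b n) := by
      intro v hv
      refine ⟨hRT (hR'R hv), ?_⟩
      rcases hR'.2.2.1 v hv with h | h
      · exact List.suffix_or_suffix_of_suffix h htu
      · exact Or.inr (htu.trans h)
    have h1 : ev e R' ≤ ev e (res T (br b n)) := hBAS.mono Ω B e he _ _ _ _ hR' hres hsub
    have h2 : ev e (res T (br b n)) ≤ (Cod.lev n D).val e T := by
      rw [Cod.val]
      exact le_sSup ⟨br b n, htT, br_length b n, htD, rfl⟩
    rw [inf_eq_left.mpr (h1.trans h2)]
    exact hBAS.pos Ω B e he R' u' hR'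
  | or f ih =>
    intro R u hR hRT Z hZ hclo
    refine hBAS.den Ω B e he R u _ 0 hR ?_
    intro R' u' hR' hR'R huu' _
    obtain ⟨b, hb, hbu⟩ := hTRE.branch Ω R' u' u' hR' hR'.1
    have hbR : ∀ m, br b m ∈ R := fun m => hR'R (hb m)
    obtain ⟨n0, hn0⟩ := hZ b hbR 0
    obtain ⟨n, hn, hn'⟩ : ∃ n, n0 ≤ n ∧ u'.length ≤ n :=
      ⟨max n0 u'.length, le_max_left _ _, le_max_right _ _⟩
    have hut : u' <:+ br b n := by
      have h1 := br_suffix b hn'
      rwa [hbu] at h1
    have hR'' : IsNam (res R' (br b n)) (br b n) := hTRE.res Ω R' u' (br b n) hR' (hb n) hut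
    have hsub : res R' (br b n) ⊆ R' := fun v hv => hv.1
    have hbr : ∀ b', (∀ m, br b' m ∈ res R' (br b n)) → (∀ m, br b' m ∈ R) ∧ Z b' 0 = Z b 0 := by
      intro b' hb'
      have h1 : ∀ m, br b' m ∈ R := fun m => hR'R (hb' m).1
      refine ⟨h1, hn0 b' h1 ?_⟩
      refine br_eq_of_le b b' hn ?_
      exact comp_eq (hb' n).2 (by rw [br_length, br_length])
    have h1 : ev e (res R' (br b n)) ≤ (f (Z b 0)).val e T := by
      refine ih (Z b 0) (res R' (br b n)) (br b n) hR'' ((hsub.trans hR'R).trans hRT)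
        (fun b' j => Z b' (j + 1)) ?_ ?_
      · intro b1 hb1 j
        obtain ⟨m, hm⟩ := hZ b1 (hbr b1 hb1).1 (j + 1)
        exact ⟨m, fun b2 hb2 h12 => hm b2 (hbr b2 hb2).1 h12⟩
      · intro b1 hb1
        have h2 := hclo b1 (hbr b1 hb1).1
        rw [Cod.clo, (hbr b1 hb1).2] at h2
        exact h2
    have h2 : (f (Z b 0)).val e T ≤ (Cod.or f).val e T := by
      rw [Cod.val]
      exact le_iSup (fun k => (f k).val e T) (Z b 0)
    have h3 : ev e (res R' (br b n)) ≤ ev e R' := hBAS.mono Ω B e he _ _ _ _ hR'' hR' hsub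
    intro h0
    refine hBAS.pos Ω B e he _ _ hR'' (le_bot_iff.mp ?_)
    rw [← h0]
    exact le_inf h3 (h1.trans h2)
  | and f ih =>
    intro R u hR hRT Z hZ hclo
    rw [Cod.val]
    refine le_iInf fun k => ?_
    refine ih k R u hR hRT (fun b j => Z b (Nat.pair k j)) ?_ ?_
    · intro b hb j
      exact hZ b hb (Nat.pair k j)
    · intro b hb
      have h2 := hclo b hb
      rw [Cod.clo] at h2
      exact h2 k

end Pool.Agent.Lib.MPd89457.NB
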