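import Pool.Agent.Lib.MP_d89457_lc.NB.SpecN

/-!
# Module COS: the colouring from a splitting sequence
-/

set_option autoImplicit false

namespace Pool.Agent.Lib.MPd89457.NB

open Cardinal

namespace COSM

/-- countable subsets of `ω_1` are bounded -/
theorem bdd {O : Type} [LinearOrder O] (hO : IsO1 O) (C : Set O) (hC : C.Countable) :
    ∃ b, ∀ c ∈ C, c < b := by
  by_contra hcon
  push Not at hcon
  have h1 : (Set.univ : Set O) ⊆ ⋃ c ∈ C, Set.Iic c := by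
    intro b _
    obtain ⟨c, hc, hbc⟩ := hcon b
    exact Set.mem_biUnion hc hbc
  have h2 : (Set.univ : Set O).Countable := (hC.biUnion fun c _ => hO.2 c).mono h1
  have h3 : Countable O := Set.countable_univ_iff.mp h2
  have h4 : #O ≤ ℵ₀ := mk_le_aleph0
  rw [hO.1] at h4
  exact absurd h4 (not_le.mpr aleph0_lt_aleph_one)

/-- the image of an infinite set is infinite -/
theorem image_inf {O : Type} [LinearOrder O] {p : O} {e : O → ℕ}
    (h : ∀ n, {x | x < p ∧ e x ≤ n}.Finite) {A : Set O} (hA : ∀ a ∈ A, a < p)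
    (hinf : A.Infinite) (n : ℕ) : ((e '' A) \ Set.Iic n).Infinite := by
  intro hfin
  obtain ⟨N, hN⟩ := hfin.bddAbove
  apply hinf
  refine (h (max n N)).subset fun a ha => ⟨hA a ha, ?_⟩
  by_cases hn : e a ≤ n
  · exact hn.trans (le_max_left _ _)
  · exact (hN ⟨⟨a, ha, rfl⟩, hn⟩).trans (le_max_right _ _)

/-- unbounded many values in `P` give infinitely many arguments -/
theorem inf_args {O : Type} {e : O → ℕ} {A : Set O} {P : Set ℕ}
    (h : ∀ n, ∃ m ∈ (e '' A) \ Set.Iic n, m ∈ P) : {a | a ∈ A ∧ e a ∈ P}.Infinite := by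
  intro hfin
  obtain ⟨N, hN⟩ := (hfin.image e).bddAbove
  obtain ⟨m, ⟨⟨a, ha, rfl⟩, hmn⟩, hmP⟩ := h N
  exact hmn (hN ⟨a, ⟨ha, hmP⟩, rfl⟩)

/-- one of infinitely many arguments is good -/
theorem pick {O : Type} [LinearOrder O] {p : O} {e e' : O → ℕ} {g : O → O} {A : Set O} {P : Set ℕ}
    (hA : ∀ a ∈ A, a < p) (h : {a | a ∈ A ∧ e a ∈ P}.Infinite)
    (hg : {x | x < p ∧ e' (g x) ≠ e x}.Finite) : ∃ a ∈ A, e' (g a) ∈ P := by
  obtain ⟨a, ha, hna⟩ := (h.sdiff hg).nonempty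
  refine ⟨a, ha.1, ?_⟩
  have h1 : e' (g a) = e a := by
    by_contra hne
    exact hna ⟨hA a ha.1, hne⟩
  rw [h1]
  exact ha.2

end COSM

/-- **COS** -/
theorem specCOS : SpecCOS := by
  intro O _ hO φ F e he x hx
  refine ⟨fun ξ => {t | e ξ t ∈ x ξ}, fun ξ₀ A hA hinf => ?_⟩
  have hinf' := COSM.image_inf (he ξ₀).1 hA hinf
  have hC : (⋃ n : ℕ, {ξ | ((e ξ₀ '' A) \ Set.Iic n) ⊆ x ξ ∨
      ((e ξ₀ '' A) \ Set.Iic n) ⊆ (x ξ)ᶜ}).Countable :=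
    Set.countable_iUnion fun n => hx _ (hinf' n)
  obtain ⟨ζ, hζ⟩ := COSM.bdd hO _ hC
  refine ⟨ζ, fun ξ hξ hξ₀ g hg => ?_⟩
  have hn : ∀ n : ℕ, ¬ (((e ξ₀ '' A) \ Set.Iic n) ⊆ x ξ) ∧
      ¬ (((e ξ₀ '' A) \ Set.Iic n) ⊆ (x ξ)ᶜ) := by
    intro n
    constructor
    · intro h1
      exact lt_asymm hξ (hζ ξ (Set.mem_iUnion.2 ⟨n, Or.inl h1⟩))
    · intro h1
      exact lt_asymm hξ (hζ ξ (Set.mem_iUnion.2 ⟨n, Or.inr h1⟩))
  have hfin := (he ξ).2 ξ₀ hξ₀ g hg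
  constructor
  · have h1 : ∀ n, ∃ m ∈ (e ξ₀ '' A) \ Set.Iic n, m ∈ x ξ := by
      intro n
      obtain ⟨m, hm, hm2⟩ := Set.not_subset.1 (hn n).2
      exact ⟨m, hm, not_not.1 hm2⟩
    exact COSM.pick hA (COSM.inf_args h1) hfin
  · have h1 : ∀ n, ∃ m ∈ (e ξ₀ '' A) \ Set.Iic n, m ∈ (x ξ)ᶜ := by
      intro n
      obtain ⟨m, hm, hm2⟩ := Set.not_subset.1 (hn n).1
      exact ⟨m, hm, hm2⟩
    exact COSM.pick hA (COSM.inf_args h1) hfin

end Pool.Agent.Lib.MPd89457.NB
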