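import Pool.Agent.Lib.MP_d89457_lc.NB.SpecR

/-!
# MP_d89457_lc: module SWC: Silver's principle W implies its covering form
-/

set_option autoImplicit false

namespace Pool.Agent.Lib.MPd89457.NB

open Cardinal

namespace SWCM

variable {O X : Type} [LinearOrder O]

/-- countably many branches are pairwise separated at all large levels -/
theorem eventually_separated (hO : IsO1 O) (Y : Set (O → X))
    (htree : ∀ y ∈ Y, ∀ z ∈ Y, ∀ ξ, y ξ = z ξ → ∀ ζ ≤ ξ, y ζ = z ζ)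
    (q : ℕ → O → X) (hqY : ∀ n, q n ∈ Y) :
    ∃ β, ∀ ξ, β ≤ ξ → ∀ m n, q m ξ = q n ξ → q m = q n := by
  have h1 : ∀ p : ℕ × ℕ, ∃ δ, q p.1 ≠ q p.2 → q p.1 δ ≠ q p.2 δ := by
    intro p
    by_cases hp : q p.1 = q p.2
    · have hne : Nonempty O := by
        rw [← mk_ne_zero_iff, hO.1]
        exact (aleph_pos 1).ne'
      exact ⟨hne.some, fun h => absurd hp h⟩
    · obtain ⟨δ, hδ⟩ := Function.ne_iff.1 hp
      exact ⟨δ, fun _ => hδ⟩
  choose δ hδ using h1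
  obtain ⟨β, hβ⟩ := WSLM.exists_bound hO (Set.range δ) (Set.countable_range δ)
  refine ⟨β, fun ξ hξ m n hmn => ?_⟩
  by_contra hne
  exact hδ (m, n) hne (htree _ (hqY m) _ (hqY n) ξ hmn (δ (m, n))
    ((hβ _ ⟨(m, n), rfl⟩).trans hξ))

end SWCM

/-- **SWC** -/
theorem specSWC : SpecSWC := by
  intro O _ hO hW
  obtain ⟨X, Y, W, htree, hclo, hY, hlev, hWc, hWq⟩ := hW
  refine ⟨X, Y, W, htree, hclo, hY, hlev, hWc, ?_⟩
  intro q hqY
  obtain ⟨β, hβ⟩ := hWq q hqY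
  obtain ⟨γ, hγ⟩ := SWCM.eventually_separated hO Y htree q hqY
  refine ⟨max β γ, fun ξ hξ => ⟨Set.range fun n => q n ξ,
    hβ ξ (lt_of_le_of_lt (le_max_left _ _) hξ), fun n => ⟨n, rfl⟩, ?_⟩⟩
  rintro y hy y' hy' ⟨n, hn⟩ ⟨m, hm⟩ hyy
  have hn' : q n ξ = y ξ := hn
  have hm' : q m ξ = y' ξ := hm
  have e1 : q n (max β γ) = y (max β γ) := htree _ (hqY n) y hy ξ hn' _ hξ.le
  have e2 : q m (max β γ) = y' (max β γ) := htree _ (hqY m) y' hy' ξ hm' _ hξ.le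
  have e3 : q n = q m := hγ _ (le_max_right _ _) n m (by rw [e1, e2, hyy])
  rw [← hn', ← hm', e3]

end Pool.Agent.Lib.MPd89457.NB
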