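import Pool.Agent.Lib.MP_d89457_lc.NB.SpecR
import Pool.Agent.Lib.MP_d89457_lc.NB.SWC

/-!
# MP_d89457_lc: module CVR: BFA(N) refutes the covering form of Silver's principle W
-/

set_option autoImplicit false

namespace Pool.Agent.Lib.MPd89457.NB

open Cardinal

namespace CVRM

variable {O X : Type}

/-- `ℵ_2` branches: infinitely many pass through one node of the level `ε` -/
theorem exists_seq (Y : Set (O → X)) (hlev : ∀ ξ, {x | ∃ y ∈ Y, y ξ = x}.Countable)
    (A : Set (O → X)) (hAY : A ⊆ Y) (hA : #A = ℵ_ 2) (ε : O) :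
    ∃ q : ℕ → O → X, Function.Injective q ∧ (∀ n, q n ∈ A) ∧ ∀ m n, q m ε = q n ε := by
  have h1 : ∃ x, {y | y ∈ A ∧ y ε = x}.Infinite := by
    by_contra hcon
    have hfin : ∀ x, {y | y ∈ A ∧ y ε = x}.Finite := by
      intro x
      by_contra h
      exact hcon ⟨x, h⟩
    have hsub : A ⊆ ⋃ x ∈ {x | ∃ y ∈ Y, y ε = x}, {y | y ∈ A ∧ y ε = x} := by
      intro y hy
      exact Set.mem_biUnion (x := y ε) ⟨y, hAY hy, rfl⟩ ⟨hy, rfl⟩
    have hc : A.Countable :=
      (Set.Countable.biUnion (hlev ε) fun x _ => (hfin x).countable).mono hsub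
    have h3 : #A ≤ ℵ₀ := Cardinal.le_aleph0_iff_set_countable.2 hc
    rw [hA] at h3
    have h4 : ℵ₀ < ℵ_ 2 := by
      rw [← aleph_zero]
      exact aleph_lt_aleph.2 (by exact zero_lt_two)
    exact absurd h3 (not_le.2 h4)
  obtain ⟨x, hx⟩ := h1
  refine ⟨fun n => (hx.natEmbedding _ n : O → X), ?_, fun n => (hx.natEmbedding _ n).2.1, ?_⟩
  · intro m n h
    exact (hx.natEmbedding _).injective (Subtype.ext h)
  · intro m n
    have h2 : (hx.natEmbedding _ m : O → X) ε = x := (hx.natEmbedding _ m).2.2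
    have h3 : (hx.natEmbedding _ n : O → X) ε = x := (hx.natEmbedding _ n).2.2
    exact h2.trans h3.symm

/-- the predicate -/
def KK (E : O → O → ℕ → Set X) (ε ξ : O) : List X → Prop
  | [] => False
  | x :: l => ∃ i ≤ l.length, x ∈ E ε ξ i

theorem br_length (b : ℕ → X) (n : ℕ) : (br b n).length = n := by
  induction n with
  | zero => rfl
  | succ n ih =>
    show (b n :: br b n).length = n + 1
    rw [List.length_cons, ih]

end CVRM

open CVRM

/-- **CVR** -/
theorem specCVR (hZTQ : SpecZTQ) : SpecCVR := by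
  intro Ω B _ e hΩ he O _ hO hC hBFA
  obtain ⟨X, Y, W, htree, hclo, hY, hlev, hWc, hcov⟩ := hC
  have hE : ∀ ε ξ, ∃ f : ℕ → Set X, {w | w ∈ W ξ ∧ Sep Y ε ξ w} ∪ {∅} = Set.range f := by
    intro ε ξ
    have hc : ({w | w ∈ W ξ ∧ Sep Y ε ξ w} ∪ {∅}).Countable :=
      ((hWc ξ).mono fun w hw => hw.1).union (Set.countable_singleton _)
    exact hc.exists_eq_range ⟨∅, Or.inr rfl⟩
  choose E hE using hE
  have hsep : ∀ ε ξ i, Sep Y ε ξ (E ε ξ i) := by
    intro ε ξ i
    have h : E ε ξ i ∈ {w | w ∈ W ξ ∧ Sep Y ε ξ w} ∪ {∅} := by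
      rw [hE]
      exact ⟨i, rfl⟩
    rcases h with h | h
    · exact h.2
    · have h' : E ε ξ i = ∅ := h
      rw [h']
      intro y _ y' _ hy
      exact absurd hy (Set.notMem_empty _)
  rcases hZTQ Ω B e hΩ he O X hO hBFA Y (KK E) hY (WSLM.thin hO Y htree hlev) with
    ⟨ε, t, A, -, hAY, hA, hq⟩ | ⟨z, m, -, hz, hu⟩
  · obtain ⟨q, hqi, hqA, hqe⟩ := exists_seq Y hlev A hAY hA ε
    obtain ⟨β, hβ⟩ := SWCM.eventually_separated hO Y htree q fun n => hAY (hqA n)
    apply hq q hqA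
    refine MFNM.countable_of_bound hO _ β ?_
    intro ξ hξ hP
    have hP' : ∀ n, ∃ i ≤ t.length, q n ξ ∈ E ε ξ i := by
      intro n
      obtain ⟨i, hi, hm⟩ := hP n
      rw [List.length_map] at hi
      exact ⟨i, hi, hm⟩
    choose i hi hm using hP'
    have hinj : Function.Injective i := by
      intro a b hab
      have h1 := hm a
      rw [hab] at h1
      have h2 : q a ξ = q b ξ := hsep ε ξ (i b) _ (hAY (hqA a)) _ (hAY (hqA b)) h1 (hm b) (hqe a b)
      exact hqi (hβ ξ hξ.le a b h2)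
    have hfin : (Set.range i).Finite :=
      (Set.finite_Iic t.length).subset (by rintro _ ⟨n, rfl⟩; exact hi n)
    exact Set.infinite_range_of_injective hinj hfin
  · obtain ⟨ε, hε⟩ := hcov z fun n => hclo _ (hz n)
    obtain ⟨ξ, hξ, k, hk⟩ := hu ε
    obtain ⟨w, hwW, hzw, hws⟩ := hε ξ hξ
    have h1 : w ∈ Set.range (E ε ξ) := by
      rw [← hE]
      exact Or.inl ⟨hwW, hws⟩
    obtain ⟨N, hN⟩ := h1
    apply hk (max k N) (le_max_left _ _)
    show ∃ i ≤ (br (fun i => z i ξ) (max k N)).length, z (max k N) ξ ∈ E ε ξ i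
    rw [br_length]
    exact ⟨N, le_max_right _ _, by rw [hN]; exact hzw _⟩

end Pool.Agent.Lib.MPd89457.NB
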