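import Pool.Agent.Lib.MP_d89457_lc.NB.SpecK

/-!
# MP_d89457_lc, module DCD: deciding the first entries of a branch
-/

set_option autoImplicit false

namespace Pool.Agent.Lib.MPd89457.NB

theorem specDCD (hTRE : SpecTRE) : SpecDCD := by
  intro Ω T s n hT
  obtain ⟨t, htT, hst, hn⟩ := hTRE.long Ω T s s n hT hT.1 List.suffix_rfl
  refine ⟨res T t, t, hTRE.res Ω T s t hT htT hst, fun u hu => hu.1, hn, ?_⟩
  intro b hb
  have h1 := (hb t.length).2
  have h2 : (br b t.length).length = t.length := (hTRE.brs Ω b t.length t.length le_rfl).2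
  rcases h1 with h | h
  · exact h.eq_of_length h2
  · exact (h.eq_of_length h2.symm).symm

end Pool.Agent.Lib.MPd89457.NB
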