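import Pool.Agent.Lib.MP_d89457_lc.NB.SpecK

/-!
# MP_d89457_lc, module DNC: dense families of properties
-/

set_option autoImplicit false

namespace Pool.Agent.Lib.MPd89457.NB

open Cardinal

theorem specDNC (hBAS : SpecBAS) : SpecDNC := by
  intro Ω B _ e he J Φ h
  by_contra hcon
  have hne : (⨆ j, tv e (Φ j))ᶜ ≠ ⊥ := by
    intro h0
    exact hcon (compl_eq_bot.1 h0)
  obtain ⟨p, hp⟩ := he.dense _ hne
  obtain ⟨T, s, hT⟩ := p
  obtain ⟨j, R, u, hR, hRT, hb⟩ := h T s hT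
  have h1 : ev e T = e ⟨T, s, hT⟩ := by
    unfold ev
    rw [dif_pos ⟨s, hT⟩]
  have h2 : ev e R ≤ (⨆ j, tv e (Φ j))ᶜ := by
    refine le_trans (hBAS.mono Ω B e he R T u s hR hT hRT) ?_
    rw [h1]
    exact hp
  have h3 : ev e R ≤ ⨆ j, tv e (Φ j) := by
    refine le_trans ?_ (le_iSup (fun j => tv e (Φ j)) j)
    exact le_sSup ⟨R, u, hR, hb, rfl⟩
  apply hBAS.pos Ω B e he R u hR
  have h4 : ev e R ≤ (⨆ j, tv e (Φ j)) ⊓ (⨆ j, tv e (Φ j))ᶜ := le_inf h3 h2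
  rw [inf_compl_eq_bot] at h4
  exact le_bot_iff.1 h4

end Pool.Agent.Lib.MPd89457.NB
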