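import Pool.Agent.Lib.MP_d89457_lc.NB.Spec

/-! # Module EXB: the Boolean completion exists. -/

set_option autoImplicit false

namespace Pool.Agent.Lib.MPd89457.NB

namespace EXBM

open Heyting

/-- the regular elements of a frame are a complete Boolean algebra -/
noncomputable abbrev cba (α : Type) [Order.Frame α] : CompleteBooleanAlgebra (Regular α) :=
  { (inferInstance : BooleanAlgebra (Regular α)) with
    sSup := fun s => Regular.toRegular (sSup (Regular.val '' s))
    isLUB_sSup := fun s => Regular.gi.isLUB_of_u_image (isLUB_sSup _)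
    sInf := fun s => Regular.toRegular (sSup (Regular.val '' lowerBounds s))
    isGLB_sInf := fun s => isLUB_lowerBounds.mp (Regular.gi.isLUB_of_u_image (isLUB_sSup _)) }

end EXBM

open EXBM Heyting

theorem specEXB : SpecEXB := by
  intro P _
  letI : CompleteBooleanAlgebra (Regular (LowerSet P)) := cba (LowerSet P)
  refine ⟨Regular (LowerSet P), cba (LowerSet P), fun p => Regular.toRegular (LowerSet.Iic p), ?_⟩
  have hgc := (Regular.gi (α := LowerSet P)).gc
  refine ⟨?_, ?_, ?_, ?_⟩
  · intro p q hpq
    refine (Regular.toRegular (α := LowerSet P)).monotone ?_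
    intro x hx
    exact LowerSet.mem_Iic_iff.mpr ((LowerSet.mem_Iic_iff.mp hx).trans hpq)
  · intro p q hn
    have h1 : LowerSet.Iic p ⊓ LowerSet.Iic q = ⊥ := by
      rw [eq_bot_iff]
      intro x hx
      exfalso
      exact hn ⟨x, LowerSet.mem_Iic_iff.mp hx.1, LowerSet.mem_Iic_iff.mp hx.2⟩
    apply Regular.coe_injective
    show (LowerSet.Iic p)ᶜᶜ ⊓ (LowerSet.Iic q)ᶜᶜ = (⊥ : LowerSet P)
    rw [← compl_compl_inf_distrib, h1, compl_bot, compl_top]
  · intro p hp
    have h1 : (LowerSet.Iic p)ᶜᶜ = (⊥ : LowerSet P) := congrArg Regular.val hp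
    have h2 : LowerSet.Iic p ≤ (⊥ : LowerSet P) := by
      rw [← h1]
      exact le_compl_compl
    exact h2 (LowerSet.mem_Iic_iff.mpr le_rfl)
  · intro b hb
    have h1 : (b.val : LowerSet P) ≠ ⊥ := by
      intro h2
      apply hb
      apply Regular.coe_injective
      exact h2
    have h2 : ∃ p, p ∈ (b.val : LowerSet P) := by
      by_contra hcon
      push Not at hcon
      apply h1
      rw [eq_bot_iff]
      intro x hx
      exact absurd hx (hcon x)
    obtain ⟨p, hp⟩ := h2
    refine ⟨p, (hgc _ _).mpr ?_⟩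
    intro x hx
    exact (b.val : LowerSet P).lower (LowerSet.mem_Iic_iff.mp hx) hp

end Pool.Agent.Lib.MPd89457.NB
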