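import Pool.Agent.Lib.MP_d89457_lc.NB.SpecK

/-!
# MP_d89457_lc, module FAM: covers instead of antichains
-/

set_option autoImplicit false

namespace Pool.Agent.Lib.MPd89457.NB

open Cardinal Set

namespace FAMM

variable {B : Type} [CompleteBooleanAlgebra B] {J : Type}

/-- the disjoint refinement of the cover `u` -/
def dj [LinearOrder J] (u : J → B) (j : J) : B := u j ⊓ (⨆ i : {i : J // i < j}, u i.1)ᶜ

theorem dj_le [LinearOrder J] (u : J → B) (j : J) : dj u j ≤ u j := inf_le_left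

theorem dj_disj [LinearOrder J] (u : J → B) (i j : J) (h : i < j) : dj u i ⊓ dj u j = ⊥ := by
  have h1 : dj u i ≤ ⨆ i : {i : J // i < j}, u i.1 :=
    (dj_le u i).trans (le_iSup (fun i : {i : J // i < j} => u i.1) ⟨i, h⟩)
  have h2 : dj u j ≤ (⨆ i : {i : J // i < j}, u i.1)ᶜ := inf_le_right
  exact le_bot_iff.1 ((inf_le_inf h1 h2).trans (le_of_eq inf_compl_eq_bot))

theorem dj_ne [LinearOrder J] (u : J → B) (i j : J) (h : i ≠ j) : dj u i ⊓ dj u j = ⊥ := by
  rcases lt_or_gt_of_ne h with h1 | h1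
  · exact dj_disj u i j h1
  · rw [inf_comm]
    exact dj_disj u j i h1

/-- the antichain of the nonzero elements of the disjoint refinement -/
def anti [LinearOrder J] (u : J → B) : Set B := {x | x ≠ ⊥ ∧ ∃ j, x = dj u j}

theorem anti_max [LinearOrder J] [WellFoundedLT J] (u : J → B) (hu : ⨆ j, u j = ⊤) :
    MaxAnti (anti u) := by
  refine ⟨fun a ha => ha.1, ?_, ?_⟩
  · rintro a ⟨-, i, rfl⟩ b ⟨-, j, rfl⟩ hab
    exact dj_ne u i j (fun h => hab (by rw [h]))
  · intro b hb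
    have h1 : {j : J | u j ⊓ b ≠ ⊥}.Nonempty := by
      by_contra hcon
      rw [Set.not_nonempty_iff_eq_empty] at hcon
      apply hb
      have h2 : b = ⨆ j, (b ⊓ u j) := by
        rw [← inf_iSup_eq, hu, inf_top_eq]
      have h3 : ∀ j, b ⊓ u j = ⊥ := by
        intro j
        by_contra h4
        have h5 : j ∈ {j : J | u j ⊓ b ≠ ⊥} := by
          show u j ⊓ b ≠ ⊥
          rw [inf_comm]; exact h4
        rw [hcon] at h5
        exact h5
      rw [h2]
      simp [h3]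
    obtain ⟨j, hj, hmin⟩ := WellFounded.has_min (wellFounded_lt : WellFounded ((· < ·) : J → J → Prop))
      _ h1
    have h6 : b ⊓ ⨆ i : {i : J // i < j}, u i.1 = ⊥ := by
      rw [inf_iSup_eq, iSup_eq_bot]
      intro i
      by_contra h7
      refine hmin i.1 ?_ i.2
      show u i.1 ⊓ b ≠ ⊥
      rw [inf_comm]; exact h7
    have h7 : b ≤ (⨆ i : {i : J // i < j}, u i.1)ᶜ := by
      rw [le_compl_iff_disjoint_right, disjoint_iff]
      exact h6
    have h8 : dj u j ⊓ b = u j ⊓ b := by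
      unfold dj
      rw [inf_assoc, inf_eq_right.2 h7]
    have h9 : u j ⊓ b ≠ ⊥ := hj
    refine ⟨dj u j, ⟨?_, j, rfl⟩, ?_⟩
    · intro h10
      rw [h10, bot_inf_eq] at h8
      exact h9 h8.symm
    · rw [h8]; exact h9

theorem anti_card [LinearOrder J] (u : J → B) : #(anti u) ≤ #J := by
  have h1 : anti u ⊆ Set.range (dj u) := by
    rintro x ⟨-, j, rfl⟩
    exact ⟨j, rfl⟩
  exact (Cardinal.mk_le_mk_of_subset h1).trans Cardinal.mk_range_le

end FAMM

theorem specFAM : SpecFAM := by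
  intro B _ ι κ J hι hκ hκc hJ hB u hu
  obtain ⟨_, _⟩ := exists_wellFoundedLT J
  have h1 : #κ ≤ #ι := by rw [hι]; exact hκc
  obtain ⟨f⟩ := (Cardinal.le_def _ _).1 h1
  obtain ⟨G, hG, hmeet⟩ := hB (fun i => FAMM.anti (u (Function.invFun f i)))
    (fun i => FAMM.anti_max _ (hu _)) (fun i => (FAMM.anti_card _).trans hJ)
  refine ⟨G, hG, fun k => ?_⟩
  obtain ⟨i, hi⟩ := Function.invFun_surjective f.injective k
  obtain ⟨x, hx, hx0, j, hj⟩ := hmeet i
  rw [hi] at hj
  refine ⟨j, hG.2.2.1 x hx _ ?_⟩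
  rw [hj]
  exact FAMM.dj_le _ _

end Pool.Agent.Lib.MPd89457.NB
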