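import Pool.Agent.Lib.MP_d89457_lc.NB.Spec

/-!
# FUS: the fusion
-/

set_option autoImplicit false

namespace Pool.Agent.Lib.MPd89457.NB

open Cardinal

namespace FUSM

/-- the fusion sequence of trees -/
def X {Ω B : Type} (D : Set (List Ω) → List Ω → ℕ → Set (List Ω) × B) : List Ω → Set (List Ω)
  | [] => (D Set.univ [] 0).1
  | γ :: t => (D (res (X D t) (γ :: t)) (γ :: t) (t.length + 1)).1

/-- the elements of the antichains -/
def y {Ω B : Type} (D : Set (List Ω) → List Ω → ℕ → Set (List Ω) × B) : List Ω → B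
  | [] => (D Set.univ [] 0).2
  | γ :: t => (D (res (X D t) (γ :: t)) (γ :: t) (t.length + 1)).2

/-- the fusion -/
def TT {Ω B : Type} (D : Set (List Ω) → List Ω → ℕ → Set (List Ω) × B) : Set (List Ω) :=
  {t | ∀ γ u, (γ :: u) <:+ t → γ :: u ∈ X D u}

theorem TT_suffix {Ω B : Type} {D : Set (List Ω) → List Ω → ℕ → Set (List Ω) × B} {t u : List Ω}
    (ht : t ∈ TT D) (hu : u <:+ t) : u ∈ TT D := fun γ v hv => ht γ v (hv.trans hu)

theorem TT_cons {Ω B : Type} {D : Set (List Ω) → List Ω → ℕ → Set (List Ω) × B} {t : List Ω}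
    (ht : t ∈ TT D) {γ : Ω} : γ :: t ∈ TT D ↔ γ :: t ∈ X D t := by
  constructor
  · intro h
    exact h γ t (List.suffix_refl _)
  · intro h γ' u hu
    rcases List.suffix_cons_iff.1 hu with h1 | h1
    · have h2 : γ' = γ ∧ u = t := by simpa using h1
      rw [h2.1, h2.2]
      exact h
    · exact ht γ' u h1

end FUSM

open FUSM in
theorem specFUS (hTRE : SpecTRE) (hBAS : SpecBAS) (hPDN : SpecPDN) : SpecFUS := by
  classical
  intro Ω B _ e hΩ he W hW hWc
  have hD : ∃ D : Set (List Ω) → List Ω → ℕ → Set (List Ω) × B, ∀ (T : Set (List Ω)) (s : List Ω)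
      (n : ℕ), IsNam T s → (D T s n).1 ⊆ T ∧ IsNam (D T s n).1 s ∧ (D T s n).2 ∈ W n ∧
        ev e (D T s n).1 ≤ (D T s n).2 := by
    have h : ∀ (T : Set (List Ω)) (s : List Ω) (n : ℕ), ∃ D : Set (List Ω) × B, IsNam T s →
        D.1 ⊆ T ∧ IsNam D.1 s ∧ D.2 ∈ W n ∧ ev e D.1 ≤ D.2 := by
      intro T s n
      by_cases hT : IsNam T s
      · obtain ⟨R, hR, hR', w, hw, hle⟩ := hPDN Ω B e he T s (W n) hT (hW n) (hWc n)
        exact ⟨(R, w), fun _ => ⟨hR, hR', hw, hle⟩⟩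
      · exact ⟨(∅, ⊥), fun h => absurd h hT⟩
    choose D hD using h
    exact ⟨D, hD⟩
  obtain ⟨D, hD⟩ := hD
  have hA : ∀ t : List Ω, t ∈ TT D → IsNam (X D t) t ∧ y D t ∈ W t.length ∧
      ev e (X D t) ≤ y D t := by
    intro t
    induction t with
    | nil =>
      intro _
      obtain ⟨-, h2, h3, h4⟩ := hD Set.univ [] 0 (hTRE.full Ω hΩ)
      exact ⟨h2, h3, h4⟩
    | cons γ t ih =>
      intro ht
      have ht' : t ∈ TT D := TT_suffix ht (List.suffix_cons γ t)
      have h1 : γ :: t ∈ X D t := ht γ t (List.suffix_refl _)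
      have h2 : IsNam (res (X D t) (γ :: t)) (γ :: t) :=
        hTRE.res Ω (X D t) t (γ :: t) (ih ht').1 h1 (List.suffix_cons γ t)
      obtain ⟨-, h3, h4, h5⟩ := hD _ _ (t.length + 1) h2
      exact ⟨h3, h4, h5⟩
  have hB : ∀ (t : List Ω) (γ : Ω), γ :: t ∈ TT D → X D (γ :: t) ⊆ X D t := by
    intro t γ ht
    have ht' : t ∈ TT D := TT_suffix ht (List.suffix_cons γ t)
    have h1 : γ :: t ∈ X D t := ht γ t (List.suffix_refl _)
    have h2 : IsNam (res (X D t) (γ :: t)) (γ :: t) :=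
      hTRE.res Ω (X D t) t (γ :: t) (hA t ht').1 h1 (List.suffix_cons γ t)
    intro v hv
    exact ((hD _ _ (t.length + 1) h2).1 hv).1
  have hC : ∀ v : List Ω, v ∈ TT D → ∀ t, t <:+ v → X D v ⊆ X D t := by
    intro v
    induction v with
    | nil =>
      intro _ t ht
      rw [List.suffix_nil.1 ht]
    | cons γ v ih =>
      intro hv t ht
      rcases List.suffix_cons_iff.1 ht with h1 | h1
      · rw [h1]
      · exact (hB v γ hv).trans (ih (TT_suffix hv (List.suffix_cons γ v)) t h1)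
  have hN : IsNam (TT D) [] := by
    refine ⟨?_, fun t ht u hu => TT_suffix ht hu, fun t _ => Or.inr (List.nil_suffix), ?_⟩
    · intro γ u hu
      exact absurd (List.suffix_nil.1 hu) (by simp)
    · intro t ht _
      have h1 := (hA t ht).1
      have h2 := h1.2.2.2 t h1.1 (List.suffix_refl _)
      have h3 : {γ : Ω | γ :: t ∈ TT D} = {γ : Ω | γ :: t ∈ X D t} := by
        ext γ
        exact TT_cons ht
      calc #{γ : Ω // γ :: t ∈ TT D} = #({γ : Ω | γ :: t ∈ TT D} : Set Ω) := rfl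
        _ = #({γ : Ω | γ :: t ∈ X D t} : Set Ω) := by rw [h3]
        _ = ℵ_ 2 := h2
  refine ⟨TT D, y D, hN, fun t ht => ⟨(hA t ht).2.1, ?_⟩⟩
  have h1 : res (TT D) t ⊆ X D t := by
    rintro v ⟨hv, h | h⟩
    · exact (hA t ht).1.2.1 t (hA t ht).1.1 v h
    · exact hC v hv t h (hA v hv).1.1
  have h2 : IsNam (res (TT D) t) t := hTRE.res Ω (TT D) [] t hN ht List.nil_suffix
  exact (hBAS.mono Ω B e he _ _ t t h2 (hA t ht).1 h1).trans (hA t ht).2.2

end Pool.Agent.Lib.MPd89457.NB
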