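import Pool.Agent.Lib.MP_d89457_lc.NB.Spec

/-!
# MP_d89457_lc: the game lemma for Borel codes
-/

set_option autoImplicit false

namespace Pool.Agent.Lib.MPd89457.NB

open Cardinal

theorem specGAM (hBAS : SpecBAS) (hVAL : SpecVAL) (hCLO : SpecCLO) (hCON : SpecCON)
    (hGSD : SpecGSD) : SpecGAM := by
  intro Ω B _ e hΩ he T hT c hc
  rcases hGSD Ω hΩ T hT (fun b z => c.neg.clo b z)
    (fun b z h => hCLO.closed Ω c.neg b z h) with
    ⟨R, Z, hR, hRT, hZ, hC⟩ | ⟨Bad, hBad, hC⟩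
  · exfalso
    have h1 := hCON Ω B e he T hT c.neg R [] hR hRT Z hZ hC
    rw [hc] at h1
    exact hBAS.pos Ω B e he R [] hR (le_bot_iff.1 h1)
  · refine ⟨Bad, hBad, fun b hb1 hb2 => ?_⟩
    by_contra hne
    have h2 : c.neg.holds b := (hVAL.holds Ω c b).2 hne
    obtain ⟨z, hz⟩ := (hCLO.proj Ω c.neg b).1 h2
    exact hC b hb1 hb2 z hz

end Pool.Agent.Lib.MPd89457.NB
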