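import Pool.Agent.Lib.MP_d89457_lc.NB.Spec

/-!
# GSD: the unfolded game
-/

set_option autoImplicit false

namespace Pool.Agent.Lib.MPd89457.NB

open Cardinal

namespace GSDM

variable {Ω : Type}

theorem br_length {X : Type} (b : ℕ → X) (n : ℕ) : (br b n).length = n := by
  induction n with
  | zero => rfl
  | succ n ih => rw [br, List.length_cons, ih]

theorem br_mem {X : Type} (b : ℕ → X) {k n : ℕ} (h : k < n) : b k ∈ br b n := by
  induction n with
  | zero => omega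
  | succ n ih =>
    rw [br]
    rcases Nat.lt_or_ge k n with h1 | h1
    · exact List.mem_cons_of_mem _ (ih h1)
    · have : k = n := by omega
      rw [this]
      exact List.mem_cons_self

/-- no continuation in `C` -/
def dead (C : (ℕ → Ω) → (ℕ → ℕ) → Prop) (t : List Ω) (z : List ℕ) : Prop :=
  ∀ (b : ℕ → Ω) (z' : ℕ → ℕ), br b t.length = t → br z' t.length = z → ¬ C b z'

/-- the positions won by the first player -/
inductive Q (T : Set (List Ω)) (C : (ℕ → Ω) → (ℕ → ℕ) → Prop) : List Ω → List ℕ → Prop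
  | dead (t : List Ω) (z : List ℕ) (h : dead C t z) : Q T C t z
  | step (t : List Ω) (z : List ℕ) (E : Set Ω) (hE : #E ≤ ℵ_ 1)
      (h : ∀ γ : Ω, γ ∉ E → γ :: t ∈ T → ∀ m : ℕ, Q T C (γ :: t) (m :: z)) : Q T C t z

open Classical in
/-- the labels -/
noncomputable def lab (T : Set (List Ω)) (C : (ℕ → Ω) → (ℕ → ℕ) → Prop) : List Ω → List ℕ
  | [] => []
  | γ :: t => (if h : ∃ m, ¬ Q T C (γ :: t) (m :: lab T C t) then h.choose else 0) :: lab T C t

theorem lab_good {T : Set (List Ω)} {C : (ℕ → Ω) → (ℕ → ℕ) → Prop} {γ : Ω} {t : List Ω}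
    (h : ∃ m, ¬ Q T C (γ :: t) (m :: lab T C t)) : ¬ Q T C (γ :: t) (lab T C (γ :: t)) := by
  rw [lab, dif_pos h]
  exact h.choose_spec

theorem two_eq : (ℵ_ 2 : Cardinal.{0}) = Order.succ (ℵ_ 1) := by
  rw [← Cardinal.aleph_succ]
  congr 1
  exact (Ordinal.succ_one).symm

theorem le_one_of_not {X : Set Ω} (h : ¬ ℵ_ 2 ≤ #X) : #X ≤ ℵ_ 1 := by
  rw [two_eq, not_le, Order.lt_succ_iff] at h
  exact h

/-- the second player's strategy -/
noncomputable def ZZ (T : Set (List Ω)) (C : (ℕ → Ω) → (ℕ → ℕ) → Prop) (b : ℕ → Ω) (j : ℕ) : ℕ :=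
  (lab T C (br b (j + 1))).headD 0

theorem br_ZZ (T : Set (List Ω)) (C : (ℕ → Ω) → (ℕ → ℕ) → Prop) (b : ℕ → Ω) (n : ℕ) :
    br (ZZ T C b) n = lab T C (br b n) := by
  induction n with
  | zero => rfl
  | succ n ih =>
    rw [br, ih]
    unfold ZZ
    rw [br, lab]
    rfl

theorem card_union {X Y : Set Ω} (hX : #X ≤ ℵ_ 1) (hY : #Y ≤ ℵ_ 1) : #(X ∪ Y : Set Ω) ≤ ℵ_ 1 :=
  (Cardinal.mk_union_le X Y).trans
    (Cardinal.add_le_of_le (Cardinal.aleph0_le_aleph 1) hX hY)

theorem card_iUnion {ι : Type} [Countable ι] {f : ι → Set Ω} (h : ∀ i, #(f i) ≤ ℵ_ 1) :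
    #(⋃ i, f i : Set Ω) ≤ ℵ_ 1 := by
  refine (Cardinal.mk_iUnion_le f).trans ?_
  refine (mul_le_mul' (Cardinal.mk_le_aleph0.trans (Cardinal.aleph0_le_aleph 1))
    (ciSup_le' h)).trans ?_
  rw [Cardinal.mul_eq_self (Cardinal.aleph0_le_aleph 1)]

/-- the bad sets -/
theorem exists_bad {T : Set (List Ω)} {C : (ℕ → Ω) → (ℕ → ℕ) → Prop} {t : List Ω} {z : List ℕ}
    (h : Q T C t z) : ∃ Bad : List Ω → Set Ω, (∀ v, #(Bad v) ≤ ℵ_ 1) ∧
      ∀ (b : ℕ → Ω) (z' : ℕ → ℕ), (∀ n, br b n ∈ T) → br b t.length = t → br z' t.length = z →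
        (∀ n, t.length ≤ n → b n ∉ Bad (br b n)) → ¬ C b z' := by
  classical
  induction h with
  | dead t z h =>
    refine ⟨fun _ => ∅, fun v => ?_, fun b z' _ h1 h2 _ => h b z' h1 h2⟩
    rw [Cardinal.mk_emptyCollection]
    exact zero_le
  | step t z E hE h ih =>
    have h0 : ∀ (γ : Ω) (m : ℕ), ∃ Bad : List Ω → Set Ω, (∀ v, #(Bad v) ≤ ℵ_ 1) ∧
        (γ ∉ E → γ :: t ∈ T → ∀ (b : ℕ → Ω) (z' : ℕ → ℕ), (∀ n, br b n ∈ T) →
          br b (γ :: t).length = γ :: t → br z' (γ :: t).length = m :: z →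
          (∀ n, (γ :: t).length ≤ n → b n ∉ Bad (br b n)) → ¬ C b z') := by
      intro γ m
      by_cases h1 : γ ∉ E ∧ γ :: t ∈ T
      · obtain ⟨Bad, hB1, hB2⟩ := ih γ h1.1 h1.2 m
        exact ⟨Bad, hB1, fun _ _ => hB2⟩
      · refine ⟨fun _ => ∅, fun v => ?_, fun h2 h3 => absurd ⟨h2, h3⟩ h1⟩
        rw [Cardinal.mk_emptyCollection]
        exact zero_le
    choose Bd hBd1 hBd2 using h0
    refine ⟨fun v => E ∪ ⋃ i : ℕ × {γ : Ω // γ ∈ v}, Bd i.2.1 i.1 v, fun v => ?_, ?_⟩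
    · refine card_union hE ?_
      have : Finite {γ : Ω // γ ∈ v} := (List.finite_toSet v).to_subtype
      exact card_iUnion fun i => hBd1 i.2.1 i.1 v
    · intro b z' hbT hb hz hbad
      have hk := hbad t.length le_rfl
      have hE' : b t.length ∉ E := fun h1 => hk (Or.inl h1)
      have hbr : br b (t.length + 1) = b t.length :: t := by rw [br, hb]
      have hzr : br z' (t.length + 1) = z' t.length :: z := by rw [br, hz]
      refine hBd2 (b t.length) (z' t.length) hE' ?_ b z' hbT ?_ ?_ ?_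
      · rw [← hbr]
        exact hbT _
      · rw [List.length_cons]
        exact hbr
      · rw [List.length_cons]
        exact hzr
      · intro n hn hcon
        rw [List.length_cons] at hn
        apply hbad n (by omega)
        exact Or.inr (Set.mem_iUnion.mpr ⟨(z' t.length, ⟨b t.length, br_mem b (by omega)⟩), hcon⟩)

end GSDM

open GSDM in
/-- **GSD** -/
theorem specGSD (_hTRE : SpecTRE) : SpecGSD := by
  classical
  intro Ω hΩ T hT C hC
  by_cases hQ : Q T C [] []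
  · right
    obtain ⟨Bad, h1, h2⟩ := exists_bad hQ
    exact ⟨Bad, h1, fun b hb hn z => h2 b z hb rfl rfl fun n _ => hn n⟩
  · left
    set R : Set (List Ω) := {t | t ∈ T ∧ ∀ v, v <:+ t → ¬ Q T C v (lab T C v)} with hR
    have hRT : R ⊆ T := fun t ht => ht.1
    refine ⟨R, ZZ T C, ⟨?_, ?_, ?_, ?_⟩, hRT, ?_, ?_⟩
    · refine ⟨hT.1, fun v hv => ?_⟩
      rw [List.suffix_nil] at hv
      rw [hv]
      exact hQ
    · intro t ht u hu
      exact ⟨hT.2.1 t ht.1 u hu, fun v hv => ht.2 v (hv.trans hu)⟩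
    · intro t _
      exact Or.inr (List.nil_suffix)
    · intro t ht _
      apply le_antisymm
      · rw [← hΩ]
        exact Cardinal.mk_subtype_le _
      · by_contra hcon
        set E : Set Ω := {γ | γ :: t ∈ R} with hE
        have hE1 : #E ≤ ℵ_ 1 := le_one_of_not hcon
        refine ht.2 t (List.suffix_refl t) (Q.step t _ E hE1 fun γ hγ hγT m => ?_)
        by_contra hm
        apply hγ
        refine ⟨hγT, fun v hv => ?_⟩
        rw [List.suffix_cons_iff] at hv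
        rcases hv with rfl | hv
        · exact lab_good ⟨m, hm⟩
        · exact ht.2 v hv
    · intro b _ j
      refine ⟨j + 1, fun b' _ h => ?_⟩
      unfold ZZ
      rw [h]
    · intro b hb
      by_contra hcon
      obtain ⟨n, hn⟩ := hC b (ZZ T C b) hcon
      refine (hb n).2 (br b n) (List.suffix_refl _) (Q.dead _ _ fun b' z' h1 h2 => ?_)
      rw [br_length] at h1 h2
      refine hn b' z' h1 ?_
      rw [h2, br_ZZ]

end Pool.Agent.Lib.MPd89457.NB
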