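import Pool.Agent.Lib.MP_d89457_lc.NB.SpecM

/-!
# MP_d89457_lc, module KCL: all cofinal branches are of the form `y i`
-/

set_option autoImplicit false

namespace Pool.Agent.Lib.MPd89457.NB

open Cardinal

namespace KCLM

/-- `KS F y z ξ` is countable -/
theorem ks_countable (hKPR : SpecKPR) {O Ω : Type} [LinearOrder O] [LinearOrder Ω] (hO : IsO1 O)
    (φ : O → O) (F : O → O → Set (O → O)) (G : O → Set (O → Ω)) (y : Ω → O → O)
    (hD : Der φ F G y) (z : O → O) (hz : Clo (Set.range y) z) (ξ : O) :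
    (KS F y z ξ).Countable := by
  have hinj : Set.InjOn (fun k => y k ξ) (KS F y z ξ) := by
    intro k hk k' hk' h
    have h' : y k ξ = y k' ξ := h
    rcases lt_trichotomy k k' with hlt | heq | hgt
    · have := (hKPR.ord O Ω φ F G y hD z hz ξ k hk k' hk').mp hlt
      rw [h'] at this
      exact absurd this (lt_irrefl _)
    · exact heq
    · have := (hKPR.ord O Ω φ F G y hD z hz ξ k' hk' k hk).mp hgt
      rw [h'] at this
      exact absurd this (lt_irrefl _)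
  have hmaps : Set.MapsTo (fun k => y k ξ) (KS F y z ξ) (Set.Iic (z ξ)) :=
    fun k hk => le_of_lt hk.1
  exact hmaps.countable_of_injOn hinj (hO.2 (z ξ))

/-- a union of `ℵ_1` many countable sets is not everything -/
theorem exists_not_mem {O Ω : Type} [LinearOrder O] [LinearOrder Ω] (hO : IsO1 O) (hΩ : IsO2 Ω)
    (K : O → Set Ω) (hK : ∀ ξ, (K ξ).Countable) : ∃ δ, ∀ ξ, δ ∉ K ξ := by
  by_contra hne
  push Not at hne
  have huniv : (⋃ ξ, K ξ) = Set.univ :=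
    Set.eq_univ_of_forall fun δ => Set.mem_iUnion.mpr (hne δ)
  have h1 : #(⋃ ξ, K ξ) ≤ ℵ_ 1 := by
    refine (Cardinal.mk_iUnion_le_sum_mk).trans ?_
    calc Cardinal.sum (fun ξ => #(K ξ)) ≤ Cardinal.sum (fun _ : O => ℵ₀) :=
          Cardinal.sum_le_sum _ _ (fun ξ => (hK ξ).le_aleph0)
      _ = #O * ℵ₀ := by simp
      _ = ℵ_ 1 := by
          rw [hO.1]
          exact Cardinal.mul_aleph0_eq (Cardinal.aleph0_le_aleph 1)
  rw [huniv, Cardinal.mk_univ, hΩ.1] at h1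
  exact absurd h1 (not_le.mpr (Cardinal.aleph_lt_aleph.mpr (by norm_num)))

end KCLM

open KCLM in
theorem specKCL (hWFB : SpecWFB) (hKDN : SpecKDN) (hKPR : SpecKPR) (hKLM : SpecKLM) :
    SpecKCL := by
  intro O Ω _ _ _ _ hO hΩ φ F G y hD
  have hne : Nonempty O := by
    rw [← Cardinal.mk_ne_zero_iff, hO.1]
    exact (Cardinal.aleph_pos 1).ne'
  intro z
  induction z using (hWFB O hO).induction with
  | _ z ih =>
  intro hz
  have hreal : ∀ ξ, ∀ τ < z ξ, ∃ k ∈ KS F y z ξ, y k ξ = τ := by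
    intro ξ τ hτ
    obtain ⟨z', hz', h1, h2, h3⟩ := hKDN O Ω φ F G y hD z hz ξ τ hτ
    obtain ⟨k, hk⟩ := ih z' ⟨ξ, h2⟩ hz'
    have hkξ : y k ξ = τ := by rw [hk, h1]
    refine ⟨k, ⟨?_, ?_⟩, hkξ⟩
    · rw [hkξ]
      exact hτ
    · intro η hη
      obtain ⟨g, hg, h4, h5⟩ := h3 η hη
      refine ⟨g, hg, h4, ?_⟩
      rw [hkξ, hk]
      exact h5
  obtain ⟨δ₀, hδ₀⟩ := exists_not_mem hO hΩ (fun ξ => KS F y z ξ)
    (fun ξ => ks_countable hKPR hO φ F G y hD z hz ξ)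
  obtain ⟨δ, hδ, hmin⟩ := (wellFounded_lt (α := Ω)).has_min
    {δ : Ω | ∀ ξ, δ ∉ KS F y z ξ} ⟨δ₀, hδ₀⟩
  refine ⟨δ, ?_⟩
  symm
  refine hKLM O Ω hO φ F G y hD z (y δ) hz
    (fun ξ => ⟨y δ, ⟨δ, rfl⟩, fun ζ _ => rfl⟩) hreal (hKPR.real O Ω φ F G y hD δ) ?_
  intro k
  rw [← hKPR.below O Ω φ F G y hD δ k]
  constructor
  · rintro ⟨ξ, hk⟩
    by_contra hcon
    rcases (not_lt.mp hcon).lt_or_eq with h | h
    · obtain ⟨η, hη⟩ := hKPR.down O Ω φ F G y hD z hz ξ k hk δ h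
      exact hδ η hη
    · exact hδ ξ (h ▸ hk)
  · intro hk
    by_contra hcon
    push Not at hcon
    exact hmin k hcon hk

end Pool.Agent.Lib.MPd89457.NB
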