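import Pool.Agent.Lib.MP_d89457_lc.NB.SpecM

/-!
# MP_d89457_lc, module KDN: a branch below a branch
-/

set_option autoImplicit false

namespace Pool.Agent.Lib.MPd89457.NB

open Cardinal

theorem specKDN : SpecKDN := by
  intro O Ω _ _ φ F G y hD z hz ξ τ hτ
  -- representatives of `z` up to every level
  have h1 : ∀ η : O, ∃ i : Ω, Agr η (y i) z := by
    intro η
    obtain ⟨_, ⟨i, rfl⟩, hi⟩ := hz η
    exact ⟨i, hi⟩
  choose i hi using h1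
  have hzφ : z ξ < φ ξ := by
    rw [← hi ξ ξ le_rfl]
    exact hD.lt _ _
  have hτφ : τ < φ ξ := hτ.trans hzφ
  have h2 : ∀ η : O, ∃ f ∈ G ξ, f (y (i η) ξ) = i η := fun η => hD.ex (i η) ξ
  choose f hfG hf using h2
  have hfz : ∀ η, ξ ≤ η → f η (z ξ) = i η := by
    intro η hη
    have h3 := hf η
    rwa [hi η ξ hη] at h3
  -- the value at `ξ`
  have hun : ∀ η, y (f η τ) ξ = τ := fun η => hD.un ξ (f η) (hfG η) τ hτφ
  -- the values above `ξ`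
  have hup : ∀ η ζ, ξ < ζ → ζ ≤ η → ∃ g ∈ F ξ ζ, g (z ξ) = z ζ ∧ g τ = y (f η τ) ζ := by
    intro η ζ hξζ hζη
    obtain ⟨g, hg, hgy⟩ := hD.up ξ ζ hξζ (f η) (hfG η)
    refine ⟨g, hg, ?_, (hgy τ hτφ).symm⟩
    rw [← hgy (z ξ) hzφ, hfz η (hξζ.le.trans hζη), hi η ζ hζη]
  have hkey : ∀ η η' ζ, ζ ≤ η → ζ ≤ η' → y (f η τ) ζ = y (f η' τ) ζ := by
    intro η η' ζ hζ hζ'
    rcases le_or_gt ζ ξ with hle | hlt
    · exact hD.tree ζ ξ hle _ _ (by rw [hun, hun])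
    · obtain ⟨g, hg, hg1, hg2⟩ := hup η ζ hlt hζ
      obtain ⟨g', hg', hg1', hg2'⟩ := hup η' ζ hlt hζ'
      rw [← hg2, ← hg2']
      exact hD.bl ξ ζ hlt g hg g' hg' (z ξ) hzφ (by rw [hg1, hg1']) τ hτ
  have hmain : ∀ η, ξ < η → ∃ g ∈ F ξ η, g (z ξ) = z η ∧ g τ = y (f (max ξ η) τ) η := by
    intro η hη
    exact hup (max ξ η) η hη (le_max_right _ _)
  refine ⟨fun ζ => y (f (max ξ ζ) τ) ζ, ?_, hun _, ?_, hmain⟩
  · intro η
    refine ⟨y (f (max ξ η) τ), ⟨_, rfl⟩, ?_⟩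
    intro ζ hζ
    exact hkey _ _ ζ (hζ.trans (le_max_right _ _)) (le_max_right _ _)
  · intro η hη
    rcases eq_or_lt_of_le hη with rfl | hlt
    · change y (f (max ξ ξ) τ) ξ < z ξ
      rw [hun]
      exact hτ
    · obtain ⟨g, hg, hg1, hg2⟩ := hmain η hlt
      change y (f (max ξ η) τ) η < z η
      rw [← hg1, ← hg2]
      exact (hD.inc ξ η hlt g hg (z ξ) hzφ).2 τ hτ

end Pool.Agent.Lib.MPd89457.NB
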