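import Pool.Agent.Lib.MP_d89457_lc.NB.SpecM

/-!
# Module KLM: two branches with the same indices below them are equal
-/

set_option autoImplicit false

namespace Pool.Agent.Lib.MPd89457.NB

open Cardinal

namespace KLMM

/-- countable subsets of `ω_1` are bounded -/
theorem bdd {O : Type} [LinearOrder O] (hO : IsO1 O) (C : Set O) (hC : C.Countable) :
    ∃ b, ∀ c ∈ C, c < b := by
  by_contra hcon
  push Not at hcon
  have h1 : (Set.univ : Set O) ⊆ ⋃ c ∈ C, Set.Iic c := by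
    intro b _
    obtain ⟨c, hc, hbc⟩ := hcon b
    exact Set.mem_biUnion hc hbc
  have h2 : (Set.univ : Set O).Countable := (hC.biUnion fun c _ => hO.2 c).mono h1
  have h3 : Countable O := Set.countable_univ_iff.mp h2
  have h4 : #O ≤ ℵ₀ := mk_le_aleph0
  rw [hO.1] at h4
  exact absurd h4 (not_le.mpr aleph0_lt_aleph_one)

section

variable {O Ω : Type} [LinearOrder O] [LinearOrder Ω] {φ : O → O}
  {F : O → O → Set (O → O)} {G : O → Set (O → Ω)} {y : Ω → O → O}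

theorem ks_inj (hKPR : SpecKPR) (D : Der φ F G y) {z : O → O} (hzC : Clo (Set.range y) z)
    {ξ : O} {k k' : Ω} (hk : k ∈ KS F y z ξ) (hk' : k' ∈ KS F y z ξ) (h : y k ξ = y k' ξ) :
    k = k' := by
  rcases lt_trichotomy k k' with h1 | h1 | h1
  · have h2 := (hKPR.ord O Ω φ F G y D z hzC ξ k hk k' hk').mp h1
    rw [h] at h2
    exact absurd h2 (lt_irrefl _)
  · exact h1
  · have h2 := (hKPR.ord O Ω φ F G y D z hzC ξ k' hk' k hk).mp h1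
    rw [h] at h2
    exact absurd h2 (lt_irrefl _)

theorem ks_count (hKPR : SpecKPR) (hO : IsO1 O) (D : Der φ F G y) {z : O → O}
    (hzC : Clo (Set.range y) z) (ξ : O) : (KS F y z ξ).Countable := by
  have h1 : Set.MapsTo (fun k => y k ξ) (KS F y z ξ) (Set.Iic (z ξ)) := fun k hk => hk.1.le
  have h2 : Set.InjOn (fun k => y k ξ) (KS F y z ξ) := fun k hk k' hk' h =>
    ks_inj hKPR D hzC hk hk' h
  exact h1.countable_of_injOn h2 (hO.2 (z ξ))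

/-- at a limit level every index was below the branch before -/
theorem lim_sub (hKPR : SpecKPR) (D : Der φ F G y) {z : O → O} (hzC : Clo (Set.range y) z)
    (hz : ∀ ξ, ∀ τ < z ξ, ∃ k ∈ KS F y z ξ, y k ξ = τ) {ξ : O} (hξ : Lim ξ) {k : Ω}
    (hk : k ∈ KS F y z ξ) : ∃ η < ξ, k ∈ KS F y z η := by
  obtain ⟨y', ⟨i, rfl⟩, hi⟩ := hzC ξ
  have h1 : y k ξ < y i ξ := by
    rw [hi ξ le_rfl]
    exact hk.1
  obtain ⟨η, hη, h, hh, h2, σ', hσ', h3⟩ := D.lim ξ hξ i (y k ξ) h1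
  have h4 : y i η = z η := hi η hη.le
  rw [h4] at h2 hσ'
  rw [hi ξ le_rfl] at h2
  obtain ⟨k', hk', h5⟩ := hz η σ' hσ'
  obtain ⟨g, hg, h6, h7⟩ := hk'.2 ξ hη
  have h8 : z η < φ η := by
    rw [← h4]
    exact D.lt i η
  have h9 : g σ' = h σ' := D.bl η ξ hη g hg h hh (z η) h8 (h6.trans h2.symm) σ' hσ'
  rw [h5] at h7
  have h10 : y k' ξ = y k ξ := by rw [← h7, h9, h3]
  have h11 : k' ∈ KS F y z ξ := hKPR.mono O Ω φ F G y D z hzC η ξ hη.le hk'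
  have h12 : k' = k := ks_inj hKPR D hzC h11 hk h10
  rw [h12] at hk'
  exact ⟨η, hη, hk'⟩

theorem next (hKPR : SpecKPR) (hO : IsO1 O) (D : Der φ F G y) {z w : O → O}
    (hzC : Clo (Set.range y) z) (hwC : Clo (Set.range y) w)
    (hU : ∀ k, (∃ ξ, k ∈ KS F y z ξ) ↔ ∃ ξ, k ∈ KS F y w ξ) (ζ : O) :
    ∃ ζ', ζ < ζ' ∧ KS F y z ζ ⊆ KS F y w ζ' ∧ KS F y w ζ ⊆ KS F y z ζ' := by
  have ha : ∀ k, ∃ ξ, (∃ ξ', k ∈ KS F y w ξ') → k ∈ KS F y w ξ := by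
    intro k
    by_cases h : ∃ ξ', k ∈ KS F y w ξ'
    · obtain ⟨ξ, hξ⟩ := h
      exact ⟨ξ, fun _ => hξ⟩
    · exact ⟨ζ, fun h' => absurd h' h⟩
  have hb : ∀ k, ∃ ξ, (∃ ξ', k ∈ KS F y z ξ') → k ∈ KS F y z ξ := by
    intro k
    by_cases h : ∃ ξ', k ∈ KS F y z ξ'
    · obtain ⟨ξ, hξ⟩ := h
      exact ⟨ξ, fun _ => hξ⟩
    · exact ⟨ζ, fun h' => absurd h' h⟩
  choose a ha using ha
  choose b hb using hb
  obtain ⟨ζ', hζ'⟩ := bdd hO ((a '' KS F y z ζ ∪ b '' KS F y w ζ) ∪ {ζ})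
    ((((ks_count hKPR hO D hzC ζ).image a).union ((ks_count hKPR hO D hwC ζ).image b)).union
      (Set.countable_singleton ζ))
  refine ⟨ζ', hζ' ζ (Or.inr rfl), ?_, ?_⟩
  · intro k hk
    exact hKPR.mono O Ω φ F G y D w hwC (a k) ζ' (hζ' _ (Or.inl (Or.inl ⟨k, hk, rfl⟩))).le
      (ha k ((hU k).mp ⟨ζ, hk⟩))
  · intro k hk
    exact hKPR.mono O Ω φ F G y D z hzC (b k) ζ' (hζ' _ (Or.inl (Or.inr ⟨k, hk, rfl⟩))).le
      (hb k ((hU k).mpr ⟨ζ, hk⟩))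

/-- common limit level -/
theorem level [WellFoundedLT O] (hKPR : SpecKPR) (hO : IsO1 O) (D : Der φ F G y) {z w : O → O}
    (hzC : Clo (Set.range y) z) (hwC : Clo (Set.range y) w)
    (hz : ∀ ξ, ∀ τ < z ξ, ∃ k ∈ KS F y z ξ, y k ξ = τ)
    (hw : ∀ ξ, ∀ τ < w ξ, ∃ k ∈ KS F y w ξ, y k ξ = τ)
    (hU : ∀ k, (∃ ξ, k ∈ KS F y z ξ) ↔ ∃ ξ, k ∈ KS F y w ξ) (ζ : O) :
    ∃ ξ, ζ ≤ ξ ∧ KS F y z ξ = KS F y w ξ := by
  have hn := next hKPR hO D hzC hwC hU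
  choose nx h1 h2 h3 using hn
  let s : ℕ → O := fun n => nx^[n] ζ
  have hs : ∀ n, s (n + 1) = nx (s n) := fun n => Function.iterate_succ_apply' nx n ζ
  have hlt : ∀ n, s n < s (n + 1) := by
    intro n
    rw [hs n]
    exact h1 _
  obtain ⟨b, hb⟩ := bdd hO (Set.range s) (Set.countable_range s)
  have hne : {u : O | ∀ n, s n ≤ u}.Nonempty := ⟨b, fun n => (hb _ ⟨n, rfl⟩).le⟩
  obtain ⟨ξ, hξ1, hξ2⟩ := WellFounded.has_min (wellFounded_lt (α := O)) _ hne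
  have hξ1 : ∀ n, s n ≤ ξ := hξ1
  have hsξ : ∀ n, s n < ξ := fun n => (hlt n).trans_le (hξ1 (n + 1))
  have hbelow : ∀ β < ξ, ∃ n, β < s n := by
    intro β hβ
    by_contra hcon
    push Not at hcon
    exact hξ2 β hcon hβ
  have hlim : Lim ξ := by
    refine ⟨⟨s 0, hsξ 0⟩, fun β hβ => ?_⟩
    obtain ⟨n, hn⟩ := hbelow β hβ
    exact ⟨s n, hn, hsξ n⟩
  refine ⟨ξ, (hsξ 0).le, ?_⟩
  apply Set.Subset.antisymm
  · intro k hk
    obtain ⟨η, hη, hkη⟩ := lim_sub hKPR D hzC hz hlim hk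
    obtain ⟨n, hn⟩ := hbelow η hη
    have h4 := hKPR.mono O Ω φ F G y D z hzC η (s n) hn.le hkη
    have h5 := h2 (s n) h4
    rw [← hs n] at h5
    exact hKPR.mono O Ω φ F G y D w hwC (s (n + 1)) ξ (hξ1 _) h5
  · intro k hk
    obtain ⟨η, hη, hkη⟩ := lim_sub hKPR D hwC hw hlim hk
    obtain ⟨n, hn⟩ := hbelow η hη
    have h4 := hKPR.mono O Ω φ F G y D w hwC η (s n) hn.le hkη
    have h5 := h3 (s n) h4
    rw [← hs n] at h5
    exact hKPR.mono O Ω φ F G y D z hzC (s (n + 1)) ξ (hξ1 _) h5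

end

end KLMM

open KLMM in
theorem specKLM (hKPR : SpecKPR) : SpecKLM := by
  intro O Ω _ _ _ hO φ F G y D z w hzC hwC hz hw hU
  funext ζ
  obtain ⟨ξ, hζ, hKS⟩ := level hKPR hO D hzC hwC hz hw hU ζ
  have hval : z ξ = w ξ := by
    rcases lt_trichotomy (z ξ) (w ξ) with h | h | h
    · obtain ⟨k, hk, h1⟩ := hw ξ (z ξ) h
      rw [← hKS] at hk
      have h2 := hk.1
      rw [h1] at h2
      exact absurd h2 (lt_irrefl _)
    · exact h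
    · obtain ⟨k, hk, h1⟩ := hz ξ (w ξ) h
      rw [hKS] at hk
      have h2 := hk.1
      rw [h1] at h2
      exact absurd h2 (lt_irrefl _)
  obtain ⟨y', ⟨i, rfl⟩, hi⟩ := hzC ξ
  obtain ⟨y'', ⟨j, rfl⟩, hj⟩ := hwC ξ
  have h1 : y i ξ = y j ξ := by rw [hi ξ le_rfl, hj ξ le_rfl, hval]
  have h2 := D.tree ζ ξ hζ i j h1
  rw [hi ζ hζ, hj ζ hζ] at h2
  exact h2

end Pool.Agent.Lib.MPd89457.NB
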