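import Pool.Agent.Lib.MP_d89457_lc.NB.SpecM

/-!
# KPR: five properties of the sets `KS`
-/

set_option autoImplicit false

namespace Pool.Agent.Lib.MPd89457.NB

open Cardinal

namespace KPRM

variable {O Ω : Type} [LinearOrder O] [LinearOrder Ω] {φ : O → O} {F : O → O → Set (O → O)}
  {G : O → Set (O → Ω)} {y : Ω → O → O}

theorem clo_self (y : Ω → O → O) (δ : Ω) : Clo (Set.range y) (y δ) := fun _ =>
  ⟨y δ, ⟨δ, rfl⟩, fun _ _ => rfl⟩

theorem clo_ex {z : O → O} (hz : Clo (Set.range y) z) (ξ : O) : ∃ i, ∀ ζ ≤ ξ, y i ζ = z ζ := by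
  obtain ⟨w, ⟨i, rfl⟩, hi⟩ := hz ξ
  exact ⟨i, hi⟩

theorem lt_phi (hD : Der φ F G y) {z : O → O} (hz : Clo (Set.range y) z) (ξ : O) :
    z ξ < φ ξ := by
  obtain ⟨i, hi⟩ := clo_ex hz ξ
  rw [← hi ξ le_rfl]
  exact hD.lt i ξ

/-- the order of the values of a map of `G` determines the order of the places -/
theorem lt_of_lt (hD : Der φ F G y) {η : O} {f : O → Ω} (hf : f ∈ G η) {i j : Ω}
    (hi : f (y i η) = i) (hj : f (y j η) = j) (hij : i < j) : y i η < y j η := by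
  rcases lt_trichotomy (y i η) (y j η) with h | h | h
  · exact h
  · rw [← hi, ← hj, h] at hij
    exact absurd hij (lt_irrefl _)
  · have h1 := hD.incG η f hf (y i η) (hD.lt i η) (y j η) h
    rw [hi, hj] at h1
    exact absurd hij (not_lt.2 h1.le)

theorem mono (hD : Der φ F G y) {z : O → O} (hz : Clo (Set.range y) z) {ξ η : O} (hξη : ξ ≤ η) :
    KS F y z ξ ⊆ KS F y z η := by
  rcases hξη.eq_or_lt with rfl | hlt
  · exact subset_rfl
  rintro k ⟨hk, hk2⟩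
  refine ⟨?_, fun θ hθ => ?_⟩
  · obtain ⟨g, hg, h1, h2⟩ := hk2 η hlt
    rw [← h1, ← h2]
    exact (hD.inc ξ η hlt g hg (z ξ) (lt_phi hD hz ξ)).2 _ hk
  · obtain ⟨g, hg, h1, h2⟩ := hk2 θ (hlt.trans hθ)
    obtain ⟨g1, hg1, h, hh, hgh⟩ := hD.fac ξ η θ hlt hθ g hg
    have hzφ := lt_phi hD hz ξ
    obtain ⟨i, hi⟩ := clo_ex hz θ
    have e1 : y i θ = h (g1 (z ξ)) := by
      rw [hi θ le_rfl, ← h1, hgh _ hzφ]
    have e2 := hD.pull η θ hθ h hh (g1 (z ξ)) (hD.inc ξ η hlt g1 hg1 _ hzφ).1 i e1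
    rw [hi η hθ.le] at e2
    have hkφ : y k ξ < φ ξ := hD.lt k ξ
    have e3 : y k θ = h (g1 (y k ξ)) := by
      rw [← h2, hgh _ hkφ]
    have e4 := hD.pull η θ hθ h hh (g1 (y k ξ)) (hD.inc ξ η hlt g1 hg1 _ hkφ).1 k e3
    refine ⟨h, hh, ?_, ?_⟩
    · rw [e2, ← e1, hi θ le_rfl]
    · rw [e4, ← e3]

theorem ord (hD : Der φ F G y) {z : O → O} (hz : Clo (Set.range y) z) {ξ : O} {k k' : Ω}
    (hk : k ∈ KS F y z ξ) (hk' : k' ∈ KS F y z ξ) :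
    (y k ξ < y k' ξ → k < k') ∧ (y k ξ = y k' ξ → k = k') := by
  obtain ⟨η, hη, f, hf, h1, h2⟩ := hD.dir k k' ξ
  obtain ⟨g, hg, g1, g2⟩ := hk.2 η hη
  obtain ⟨g', hg', g1', g2'⟩ := hk'.2 η hη
  have h3 := hD.bl ξ η hη g hg g' hg' (z ξ) (lt_phi hD hz ξ) (g1.trans g1'.symm) (y k' ξ) hk'.1
  rw [g2'] at h3
  constructor
  · intro hlt
    have h4 := (hD.inc ξ η hη g hg (y k' ξ) (hD.lt k' ξ)).2 _ hlt
    rw [g2, h3] at h4
    have h5 := hD.incG η f hf (y k' η) (hD.lt k' η) _ h4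
    rwa [h1, h2] at h5
  · intro heq
    rw [← h1, ← h2, ← g2, ← h3, heq]

end KPRM

open KPRM in
theorem specKPR : SpecKPR where
  real := by
    intro O Ω _ _ φ F G y hD δ ξ τ hτ
    obtain ⟨f, hf, hfδ⟩ := hD.ex δ ξ
    have hτφ : τ < φ ξ := hτ.trans (hD.lt δ ξ)
    have hk := hD.un ξ f hf τ hτφ
    refine ⟨f τ, ⟨by rw [hk]; exact hτ, fun η hη => ?_⟩, hk⟩
    obtain ⟨g, hg, hup⟩ := hD.up ξ η hη f hf
    refine ⟨g, hg, ?_, ?_⟩
    · rw [← hup _ (hD.lt δ ξ), hfδ]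
    · rw [hk, ← hup _ hτφ]
  mono := by
    intro O Ω _ _ φ F G y hD z hz ξ η hξη
    exact KPRM.mono hD hz hξη
  ord := by
    intro O Ω _ _ φ F G y hD z hz ξ k hk k' hk'
    constructor
    · intro hlt
      rcases lt_trichotomy (y k ξ) (y k' ξ) with h | h | h
      · exact h
      · exact absurd ((KPRM.ord hD hz hk hk').2 h) hlt.ne
      · exact absurd ((KPRM.ord hD hz hk' hk).1 h) (not_lt.2 hlt.le)
    · exact (KPRM.ord hD hz hk hk').1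
  down := by
    intro O Ω _ _ φ F G y hD z hz ξ i hi j hj
    obtain ⟨η, hη, f, hf, h1, h2⟩ := hD.dir j i ξ
    have hlt := lt_of_lt hD hf h1 h2 hj
    have hiη := KPRM.mono hD hz hη.le hi
    refine ⟨η, hlt.trans hiη.1, fun θ hθ => ?_⟩
    obtain ⟨g, hg, g1, g2⟩ := hiη.2 θ hθ
    obtain ⟨g', hg', hup⟩ := hD.up η θ hθ f hf
    have e1 := hup _ (hD.lt i η)
    rw [h2] at e1
    have e2 := hup _ (hD.lt j η)
    rw [h1] at e2
    have e3 := hD.bl η θ hθ g hg g' hg' (y i η) (hD.lt i η) (g2.trans e1) (y j η) hlt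
    exact ⟨g, hg, g1, e3.trans e2.symm⟩
  below := by
    intro O Ω _ _ _ φ F G y hD δ k
    constructor
    · intro hk
      obtain ⟨ξ₀⟩ := (inferInstance : Nonempty O)
      obtain ⟨η, -, f, hf, h1, h2⟩ := hD.dir k δ ξ₀
      refine ⟨η, lt_of_lt hD hf h1 h2 hk, fun θ hθ => ?_⟩
      obtain ⟨g, hg, hup⟩ := hD.up η θ hθ f hf
      have e1 := hup _ (hD.lt δ η)
      rw [h2] at e1
      have e2 := hup _ (hD.lt k η)
      rw [h1] at e2
      exact ⟨g, hg, e1.symm, e2.symm⟩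
    · rintro ⟨ξ, hk⟩
      obtain ⟨η, hη, f, hf, h1, h2⟩ := hD.dir k δ ξ
      have hkη := KPRM.mono hD (clo_self y δ) hη.le hk
      have h3 := hD.incG η f hf (y δ η) (hD.lt δ η) _ hkη.1
      rwa [h1, h2] at h3

end Pool.Agent.Lib.MPd89457.NB
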