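import Pool.Agent.Lib.MP_d89457_lc.NB.SpecK

/-!
# MP_d89457_lc: module LCL, finitely many properties of the generic branch hold on one tree
-/

set_option autoImplicit false

namespace Pool.Agent.Lib.MPd89457.NB

open Cardinal

namespace LCLM

theorem ev_eq {Ω B : Type} [CompleteBooleanAlgebra B] (e : Nam Ω → B) {T : Set (List Ω)}
    {s : List Ω} (h : IsNam T s) : ev e T = e ⟨T, s, h⟩ := by
  unfold ev
  rw [dif_pos ⟨s, h⟩]

/-- common refinement -/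
theorem refine {Ω B : Type} [CompleteBooleanAlgebra B] (e : Nam Ω → B) (he : IsBC e)
    {T T' : Set (List Ω)} {s s' : List Ω} (h : IsNam T s) (h' : IsNam T' s')
    (hne : ev e T ⊓ ev e T' ≠ ⊥) : ∃ (R : Set (List Ω)) (u : List Ω), IsNam R u ∧ R ⊆ T ∧ R ⊆ T' := by
  by_contra hcon
  apply hne
  rw [ev_eq e h, ev_eq e h']
  apply he.disj
  rintro ⟨r, hr, hr'⟩
  obtain ⟨u, hu⟩ := r.2
  exact hcon ⟨r.1, u, hu, hr, hr'⟩

theorem exists_inf {Ω B : Type} [CompleteBooleanAlgebra B] (e : Nam Ω → B) {x : B}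
    {Φ : (ℕ → Ω) → Prop} (hx : x ≠ ⊥) (h : x ≤ tv e Φ) :
    ∃ T s, IsNam T s ∧ (∀ b, Brn T b → Φ b) ∧ x ⊓ ev e T ≠ ⊥ := by
  by_contra hcon
  apply hx
  have h1 : x = x ⊓ tv e Φ := (inf_eq_left.2 h).symm
  rw [h1]
  unfold tv
  rw [inf_sSup_eq]
  apply le_antisymm _ bot_le
  refine iSup₂_le ?_
  rintro y ⟨T, s, hT, hΦ, rfl⟩
  by_contra hne
  refine hcon ⟨T, s, hT, hΦ, ?_⟩
  intro h2
  exact hne h2.le

theorem claim (hBAS : SpecBAS) (Ω B : Type) [CompleteBooleanAlgebra B] (e : Nam Ω → B)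
    (he : IsBC e) : ∀ (L : List ((ℕ → Ω) → Prop)) (x : B), x ≠ ⊥ → (∀ Φ ∈ L, x ≤ tv e Φ) →
    ∃ (R : Set (List Ω)) (u : List Ω), IsNam R u ∧ ev e R ≤ x ∧ ∀ Φ ∈ L, ∀ b, Brn R b → Φ b := by
  intro L
  induction L with
  | nil =>
    intro x hx _
    obtain ⟨p, hp⟩ := he.dense x hx
    obtain ⟨s, hs⟩ := p.2
    refine ⟨p.1, s, hs, ?_, ?_⟩
    · rw [ev_eq e hs]
      exact hp
    · intro Φ hΦ
      exact absurd hΦ (List.not_mem_nil)
  | cons Φ L ih =>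
    intro x hx hL
    obtain ⟨R, u, hR, hRx, hRL⟩ := ih x hx fun Ψ hΨ => hL Ψ (List.mem_cons_of_mem _ hΨ)
    have hpos := hBAS.pos Ω B e he R u hR
    obtain ⟨T, s, hT, hTΦ, hne⟩ := exists_inf e hpos (hRx.trans (hL Φ List.mem_cons_self))
    obtain ⟨R', u', hR', h1, h2⟩ := refine e he hR hT hne
    refine ⟨R', u', hR', (hBAS.mono Ω B e he R' R u' u hR' hR h1).trans hRx, ?_⟩
    intro Ψ hΨ b hb
    rcases List.mem_cons.1 hΨ with h3 | h3
    · rw [h3]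
      exact hTΦ b fun n => h2 (hb n)
    · exact hRL Ψ h3 b fun n => h1 (hb n)

end LCLM

open LCLM in
theorem specLCL (hBAS : SpecBAS) : SpecLCL where
  one := by
    intro Ω B _ e he x Φ hx hxΦ
    obtain ⟨R, u, hR, hRx, hRΦ⟩ := claim hBAS Ω B e he [Φ] x hx (by
      intro Ψ hΨ
      rw [List.mem_singleton] at hΨ
      rw [hΨ]
      exact hxΦ)
    exact ⟨R, u, hR, hRx, hRΦ Φ (List.mem_singleton.2 rfl)⟩
  meet := by
    intro Ω B _ e he G hG L hL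
    have h1 : ∀ L : List ((ℕ → Ω) → Prop), (∀ Φ ∈ L, tv e Φ ∈ G) →
        ∃ x ∈ G, ∀ Φ ∈ L, x ≤ tv e Φ := by
      intro L
      induction L with
      | nil =>
        intro _
        obtain ⟨x, hx⟩ := hG.1
        exact ⟨x, hx, fun Φ hΦ => absurd hΦ List.not_mem_nil⟩
      | cons Φ L ih =>
        intro hL
        obtain ⟨x, hx, hxL⟩ := ih fun Ψ hΨ => hL Ψ (List.mem_cons_of_mem _ hΨ)
        refine ⟨x ⊓ tv e Φ, hG.2.2.2 x hx _ (hL Φ List.mem_cons_self), ?_⟩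
        intro Ψ hΨ
        rcases List.mem_cons.1 hΨ with h3 | h3
        · rw [h3]
          exact inf_le_right
        · exact inf_le_left.trans (hxL Ψ h3)
    obtain ⟨x, hx, hxL⟩ := h1 L hL
    have hx0 : x ≠ ⊥ := fun h => hG.2.1 (h ▸ hx)
    obtain ⟨R, u, hR, -, hRL⟩ := claim hBAS Ω B e he L x hx0 hxL
    exact ⟨R, u, hR, hRL⟩

end Pool.Agent.Lib.MPd89457.NB
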