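import Pool.Agent.Lib.MP_d89457_lc.NB.SpecS
import Pool.Agent.Lib.MP_d89457_lc.NB.LAD

/-!
# MP_d89457_lc, module LDP: LAD inside a class of elements closed under suprema
-/

set_option autoImplicit false

namespace Pool.Agent.Lib.MPd89457.NB

open Cardinal Set

theorem specLDP (hPRT : SpecPRT) : SpecLDP := by
  intro B _ P hP ι hι hB A hA hcard hAP
  obtain ⟨O, _, hO1, hO2⟩ := LADM.exO
  have hOne : Nonempty O := by
    rw [← Cardinal.mk_ne_zero_iff, hO1]
    exact (Cardinal.aleph_pos 1).ne'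
  have hOunc : ¬ Countable O := by
    intro h
    have h1 : #O ≤ ℵ₀ := Cardinal.mk_le_aleph0_iff.2 h
    rw [hO1] at h1
    exact absurd h1 (not_le.2 Cardinal.aleph0_lt_aleph_one)
  -- the injections
  have hF : ∀ i, ∃ F : B → O, Set.InjOn F (A i) := by
    intro i
    have h1 : #(A i) ≤ #O := by rw [hO1]; exact hcard i
    obtain ⟨g⟩ := (Cardinal.le_def _ _).1 h1
    classical
    refine ⟨fun a => if h : a ∈ A i then g ⟨a, h⟩ else hOne.some, ?_⟩
    intro a ha b hb hab
    simp only [ha, hb, dif_pos] at hab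
    have h2 := g.injective hab
    exact congrArg Subtype.val h2
  choose F hF using hF
  have he : ∀ η : O, ∃ e : O → ℕ, Set.InjOn e (Set.Iio η) := fun η =>
    Set.countable_iff_exists_injOn.1 (hO2 η)
  choose e he using he
  -- the coarser antichains
  have hcount : #(ι × O) = #ι := by
    have hinf : ℵ₀ ≤ #ι := (Cardinal.aleph0_lt_aleph_one.le).trans hι
    rw [Cardinal.mk_prod, Cardinal.lift_id, Cardinal.lift_id, hO1,
      Cardinal.mul_eq_max hinf Cardinal.aleph0_lt_aleph_one.le]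
    exact max_eq_left hι
  obtain ⟨q⟩ := Cardinal.eq.1 hcount
  obtain ⟨G, hG, hmeet⟩ := hB
    (fun j => LADM.coarse (A (q.symm j).1) (LADM.col (F (q.symm j).1) e (q.symm j).2))
    (fun j => hPRT.part B _ _ _ (hA _))
    (fun j => LADM.col_countable hO2 _ _ _ _)
    (fun j a ha => by
      obtain ⟨_, k, rfl⟩ := ha
      exact hP _ (fun x hx => hAP _ x hx.1))
  have hmeet2 : ∀ (i : ι) (ζ : O), (G ∩ LADM.coarse (A i) (LADM.col (F i) e ζ)).Nonempty := by
    intro i ζ
    have h1 := hmeet (q (i, ζ))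
    simp only [Equiv.symm_apply_apply] at h1
    exact h1
  refine ⟨G, hG, ?_⟩
  intro i
  have h3 : ∀ ζ : O, ∃ k : O ⊕ ℕ, sSup {a | a ∈ A i ∧ LADM.col (F i) e ζ a = k} ∈ G ∧
      sSup {a | a ∈ A i ∧ LADM.col (F i) e ζ a = k} ≠ ⊥ := by
    intro ζ
    obtain ⟨x, hxG, hx, k, hk⟩ := hmeet2 i ζ
    refine ⟨k, ?_, ?_⟩
    · rw [← hk]; exact hxG
    · rw [← hk]; exact hx
  choose k hk1 hk2 using h3
  by_cases hcase : ∃ (ζ η : O), k ζ = Sum.inl η
  · obtain ⟨ζ, η, hζ⟩ := hcase
    obtain ⟨a, ha, hac⟩ := LADM.sSup_ne_bot_nonempty _ (hk2 ζ)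
    refine ⟨a, ?_, ha⟩
    have hkey : ∀ b ∈ A i, LADM.col (F i) e ζ b = k ζ → F i b = η := by
      intro b _ hb
      rw [hζ] at hb
      unfold LADM.col at hb
      by_cases h : F i b ≤ ζ
      · rw [if_pos h] at hb
        exact Sum.inl_injective hb
      · rw [if_neg h] at hb
        exact absurd hb (by simp)
    have h4 : {b | b ∈ A i ∧ LADM.col (F i) e ζ b = k ζ} = {a} := by
      ext b
      simp only [Set.mem_ofPred_eq, Set.mem_singleton_iff]
      constructor
      · rintro ⟨hb, hbc⟩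
        exact hF i hb ha ((hkey b hb hbc).trans (hkey a ha hac).symm)
      · rintro rfl
        exact ⟨ha, hac⟩
    have h5 := hk1 ζ
    rw [h4, sSup_singleton] at h5
    exact h5
  · exfalso
    have h4 : ∀ ζ : O, ∃ n : ℕ, k ζ = Sum.inr n := by
      intro ζ
      rcases hk : k ζ with η | n
      · exact absurd ⟨ζ, η, hk⟩ hcase
      · exact ⟨n, rfl⟩
    choose n hn using h4
    have hkey : ∀ (ζ : O) (b : B), LADM.col (F i) e ζ b = k ζ → ζ < F i b ∧ e (F i b) ζ = n ζ := by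
      intro ζ b hb
      rw [hn ζ] at hb
      unfold LADM.col at hb
      by_cases h : F i b ≤ ζ
      · rw [if_pos h] at hb
        exact absurd hb (by simp)
      · rw [if_neg h] at hb
        exact ⟨not_le.1 h, Sum.inr_injective hb⟩
    have hinj : Function.Injective n := by
      intro ζ ζ' hnn
      have h5 : sSup {a | a ∈ A i ∧ LADM.col (F i) e ζ a = k ζ} ⊓
          sSup {a | a ∈ A i ∧ LADM.col (F i) e ζ' a = k ζ'} ∈ G := hG.2.2.2 _ (hk1 ζ) _ (hk1 ζ')
      have h6 : sSup {a | a ∈ A i ∧ LADM.col (F i) e ζ a = k ζ} ⊓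
          sSup {a | a ∈ A i ∧ LADM.col (F i) e ζ' a = k ζ'} ≠ ⊥ := by
        intro h; rw [h] at h5; exact hG.2.1 h5
      obtain ⟨a, ha1, ha2⟩ := hPRT.common B (A i) _ _ (hA i) (fun a ha => ha.1)
        (fun a ha => ha.1) h6
      have h7 := hkey ζ a ha1.2
      have h8 := hkey ζ' a ha2.2
      exact he (F i a) h7.1 h8.1 (h7.2.trans (hnn.trans h8.2.symm))
    exact hOunc hinj.countable

end Pool.Agent.Lib.MPd89457.NB
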