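import Pool.Agent.Lib.MP_d89457_lc.NB.SpecM

/-!
# MP_d89457_lc, module MBD: a countable set of indices lies in the range of one map of the morass
-/

set_option autoImplicit false

namespace Pool.Agent.Lib.MPd89457.NB

open Cardinal

namespace MBDM

/-- countable subsets of `ω_2` have strict upper bounds -/
theorem bound2 {Ω : Type} [LinearOrder Ω] (hΩ : IsO2 Ω) (A : Set Ω) (hA : A.Countable) :
    ∃ j, ∀ i ∈ A, i < j := by
  by_contra hcon
  have hcov : ∀ j : Ω, ∃ i ∈ A, j ≤ i := by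
    intro j
    by_contra h1
    apply hcon
    refine ⟨j, fun i hi => ?_⟩
    by_contra h2
    exact h1 ⟨i, hi, not_lt.1 h2⟩
  have hIic : ∀ i : Ω, #(Set.Iic i) ≤ ℵ_ 1 := by
    intro i
    have h1 : Set.Iic i = insert i (Set.Iio i) := by
      ext x
      simp only [Set.mem_Iic, Set.mem_insert_iff, Set.mem_Iio]
      exact le_iff_eq_or_lt
    rw [h1]
    refine mk_insert_le.trans ?_
    exact add_le_of_le (aleph0_le_aleph 1) (hΩ.2 i) (one_le_aleph0.trans (aleph0_le_aleph 1))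
  have huniv : (Set.univ : Set Ω) = ⋃ i : A, Set.Iic (i : Ω) := by
    ext x
    simp only [Set.mem_univ, true_iff, Set.mem_iUnion, Set.mem_Iic]
    obtain ⟨i, hi, hx⟩ := hcov x
    exact ⟨⟨i, hi⟩, hx⟩
  have hcard : #Ω ≤ ℵ_ 1 := by
    rw [← mk_univ, huniv]
    refine (mk_iUnion_le _).trans ?_
    refine mul_le_of_le (aleph0_le_aleph 1) ?_ ?_
    · exact ((le_aleph0_iff_set_countable).2 hA).trans (aleph0_le_aleph 1)
    · exact ciSup_le' fun i => hIic i
  rw [hΩ.1] at hcard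
  exact absurd hcard (not_le.2 (aleph_lt_aleph.2 (by norm_num)))

/-- countable subsets of `ω_1` have strict upper bounds -/
theorem bound1 {O : Type} [LinearOrder O] (hO : IsO1 O) (A : Set O) (hA : A.Countable) :
    ∃ j, ∀ i ∈ A, i < j := by
  by_contra hcon
  have hcov : ∀ j : O, ∃ i ∈ A, j ≤ i := by
    intro j
    by_contra h1
    apply hcon
    refine ⟨j, fun i hi => ?_⟩
    by_contra h2
    exact h1 ⟨i, hi, not_lt.1 h2⟩
  have huniv : (Set.univ : Set O) ⊆ ⋃ i ∈ A, Set.Iic i := by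
    intro x _
    simp only [Set.mem_iUnion, Set.mem_Iic, exists_prop]
    exact hcov x
  have h2 : (Set.univ : Set O).Countable := (hA.biUnion fun i _ => hO.2 i).mono huniv
  have h3 : #O ≤ ℵ₀ := by
    rw [← mk_univ]
    exact (le_aleph0_iff_set_countable).2 h2
  rw [hO.1] at h3
  exact absurd h3 (not_le.2 (by
    rw [← aleph_zero]
    exact aleph_lt_aleph.2 (by norm_num)))

end MBDM

/-- **MBD** -/
theorem specMBD : SpecMBD := by
  intro O Ω _ _ hO hΩ φ F G y hD A hA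
  obtain ⟨j, hj⟩ := MBDM.bound2 hΩ A hA
  have hne : Nonempty O := by
    rw [← mk_ne_zero_iff, hO.1]
    exact (aleph_pos 1).ne'
  have hdir := fun i : Ω => hD.dir i j hne.some
  choose η hη f hf hfi hfj using hdir
  obtain ⟨ξ, hξ⟩ := MBDM.bound1 hO (η '' A) (hA.image η)
  obtain ⟨f₀, hf₀, hf₀j⟩ := hD.ex j ξ
  refine ⟨ξ, f₀, hf₀, fun i hi => ?_⟩
  have hlt : η i < ξ := hξ _ ⟨i, hi, rfl⟩
  obtain ⟨g, hg, h, hh, hfac⟩ := hD.facG (η i) ξ hlt (f i) (hf i)
  have key : ∀ k, f i (y k (η i)) = k → h (y k ξ) = k := by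
    intro k hk
    have h1 : h (g (y k (η i))) = k := by
      rw [← hfac _ (hD.lt k (η i))]
      exact hk
    have h2 : g (y k (η i)) < φ ξ := (hD.inc (η i) ξ hlt g hg _ (hD.lt k (η i))).1
    have h3 := hD.un ξ h hh _ h2
    rw [h1] at h3
    rw [h3]
    exact h1
  have hki : h (y i ξ) = i := key i (hfi i)
  have hkj : h (y j ξ) = j := key j (hfj i)
  have hij : y i ξ < y j ξ := by
    by_contra hcon
    have h1 : y j ξ ≤ y i ξ := not_lt.1 hcon
    rcases h1.eq_or_lt with h2 | h2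
    · have : j = i := by rw [← hkj, ← hki, h2]
      exact absurd (hj i hi) (by rw [this]; exact lt_irrefl _)
    · have h3 := hD.incG ξ h hh (y i ξ) (hD.lt i ξ) (y j ξ) h2
      rw [hki, hkj] at h3
      exact absurd (hj i hi) (not_lt.2 h3.le)
  have h5 : f₀ (y j ξ) = h (y j ξ) := by rw [hf₀j, hkj]
  have h6 := hD.blG ξ f₀ hf₀ h hh (y j ξ) (hD.lt j ξ) h5 (y i ξ) hij
  rw [h6]
  exact hki

end Pool.Agent.Lib.MPd89457.NB
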