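import Pool.Agent.Lib.MP_d89457_lc.NB.SpecM

/-!
# MP_d89457_lc: module MBL (basic lemma of simplified morasses)
-/

set_option autoImplicit false

namespace Pool.Agent.Lib.MPd89457.NB

open Cardinal

namespace MBLM

variable {O Ω : Type} [LinearOrder O] [LinearOrder Ω] {φ : O → O}
  {F : O → O → Set (O → O)} {G : O → Set (O → Ω)}

/-- a map which is increasing below `a` is injective below `a` -/
theorem inj {P : Type} [LinearOrder P] {a : O} {f : O → P}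
    (hf : ∀ x < a, ∀ y < x, f y < f x) {x y : O} (hx : x < a) (hy : y < a) (h : f x = f y) :
    x = y := by
  rcases lt_trichotomy x y with h1 | h1 | h1
  · exact absurd h (ne_of_lt (hf y hy x h1))
  · exact h1
  · exact absurd h.symm (ne_of_lt (hf x hx y h1))

/-- the successor case -/
theorem succ (hM : Mor φ F G) {α β : O} (hαβ : α < β) (hs : ∀ γ, α < γ → β ≤ γ)
    {g g' : O → O} (hg : g ∈ F α β) (hg' : g' ∈ F α β) {τ τ' : O} (hτ : τ < φ α) (hτ' : τ' < φ α)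
    (h : g τ = g' τ') : τ = τ' ∧ ∀ σ < τ, g σ = g' σ := by
  obtain ⟨σ₀, s, hσ₀, hid, hge, halt, -, f, hf, hfs⟩ := hM.suc α β hαβ hs
  have hinc : ∀ x < φ α, ∀ y < x, s y < s x := by
    intro x hx y hy
    rw [← hfs x hx, ← hfs y (hy.trans hx)]
    exact (hM.inc α β hαβ f hf x hx).2 y hy
  have hlow : ∀ x < φ α, s x < φ α → x < σ₀ := by
    intro x hx hsx
    by_contra hx0
    rcases (not_lt.1 hx0).lt_or_eq with h1 | h1
    · exact absurd (hge.trans_lt (hinc x hx σ₀ h1)) (not_lt.2 hsx.le)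
    · rw [← h1] at hsx
      exact absurd hsx (not_lt.2 hge)
  rcases halt g hg with h1 | h1 <;> rcases halt g' hg' with h2 | h2
  · rw [h1 τ hτ, h2 τ' hτ'] at h
    refine ⟨h, fun σ hσ => ?_⟩
    rw [h1 σ (hσ.trans hτ), h2 σ (hσ.trans hτ)]
  · rw [h1 τ hτ, h2 τ' hτ'] at h
    have h3 : τ' < σ₀ := hlow τ' hτ' (by rw [← h]; exact hτ)
    have h4 : τ = τ' := by rw [h, hid τ' h3]
    subst h4
    refine ⟨rfl, fun σ hσ => ?_⟩
    rw [h1 σ (hσ.trans hτ), h2 σ (hσ.trans hτ), hid σ (hσ.trans h3)]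
  · rw [h1 τ hτ, h2 τ' hτ'] at h
    have h3 : τ < σ₀ := hlow τ hτ (by rw [h]; exact hτ')
    have h4 : τ = τ' := by rw [← h, hid τ h3]
    refine ⟨h4, fun σ hσ => ?_⟩
    rw [h1 σ (hσ.trans hτ), h2 σ (hσ.trans hτ), hid σ (hσ.trans h3)]
  · rw [h1 τ hτ, h2 τ' hτ'] at h
    refine ⟨inj hinc hτ hτ' h, fun σ hσ => ?_⟩
    rw [h1 σ (hσ.trans hτ), h2 σ (hσ.trans hτ)]

theorem main (hM : Mor φ F G) [WellFoundedLT O] (β : O) : ∀ α, α < β → ∀ g ∈ F α β,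
    ∀ g' ∈ F α β, ∀ τ < φ α, ∀ τ' < φ α, g τ = g' τ' → τ = τ' ∧ ∀ σ < τ, g σ = g' σ := by
  induction β using WellFoundedLT.induction with
  | ind β ih =>
    intro α hαβ g hg g' hg' τ hτ τ' hτ' h
    by_cases hL : Lim β
    · obtain ⟨δ, hαδ, -, hδβ, m, hm, k, hk, k', hk', e1, e2⟩ :=
        hM.dir β hL α hαβ α hαβ g hg g' hg'
      rw [e1 τ hτ, e2 τ' hτ'] at h
      have h1 : k τ = k' τ' := inj (fun x hx => (hM.inc δ β hδβ m hm x hx).2)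
        (hM.inc α δ hαδ k hk τ hτ).1 (hM.inc α δ hαδ k' hk' τ' hτ').1 h
      obtain ⟨h2, h3⟩ := ih δ hδβ α hαδ k hk k' hk' τ hτ τ' hτ' h1
      refine ⟨h2, fun σ hσ => ?_⟩
      rw [e1 σ (hσ.trans hτ), e2 σ (hσ.trans hτ), h3 σ hσ]
    · have h0 : ∃ γ, γ < β ∧ ∀ γ', γ < γ' → β ≤ γ' := by
        by_contra hc
        apply hL
        refine ⟨⟨α, hαβ⟩, fun γ hγ => ?_⟩
        by_contra hd
        apply hc
        refine ⟨γ, hγ, fun γ' hγ' => ?_⟩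
        by_contra he
        exact hd ⟨γ', hγ', not_le.1 he⟩
      obtain ⟨γ, hγβ, hγs⟩ := h0
      rcases lt_trichotomy α γ with h1 | h1 | h1
      · obtain ⟨k, hk, m, hm, e1⟩ := hM.fac α γ β h1 hγβ g hg
        obtain ⟨k', hk', m', hm', e2⟩ := hM.fac α γ β h1 hγβ g' hg'
        rw [e1 τ hτ, e2 τ' hτ'] at h
        obtain ⟨h2, h3⟩ := succ hM hγβ hγs hm hm' (hM.inc α γ h1 k hk τ hτ).1
          (hM.inc α γ h1 k' hk' τ' hτ').1 h
        obtain ⟨h4, h5⟩ := ih γ hγβ α h1 k hk k' hk' τ hτ τ' hτ' h2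
        refine ⟨h4, fun σ hσ => ?_⟩
        rw [e1 σ (hσ.trans hτ), e2 σ (hσ.trans hτ), ← h5 σ hσ]
        exact h3 _ ((hM.inc α γ h1 k hk τ hτ).2 σ hσ)
      · subst h1
        exact succ hM hγβ hγs hg hg' hτ hτ' h
      · exact absurd (hγs α h1) (not_le.2 hαβ)

end MBLM

theorem specMBL : SpecMBL where
  bF := by
    intro O Ω _ _ _ φ F G hM α β hαβ g hg g' hg' τ hτ τ' hτ' h
    exact MBLM.main hM β α hαβ g hg g' hg' τ hτ τ' hτ' h
  bG := by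
    intro O Ω _ _ _ φ F G hM α g hg g' hg' τ hτ τ' hτ' h
    obtain ⟨δ, hαδ, -, m, hm, k, hk, k', hk', e1, e2⟩ := hM.dirG α α g hg g' hg'
    rw [e1 τ hτ, e2 τ' hτ'] at h
    have h1 : k τ = k' τ' := MBLM.inj (hM.incG δ m hm)
      (hM.inc α δ hαδ k hk τ hτ).1 (hM.inc α δ hαδ k' hk' τ' hτ').1 h
    obtain ⟨h2, h3⟩ := MBLM.main hM δ α hαδ k hk k' hk' τ hτ τ' hτ' h1
    refine ⟨h2, fun σ hσ => ?_⟩
    rw [e1 σ (hσ.trans hτ), e2 σ (hσ.trans hτ), h3 σ hσ]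

end Pool.Agent.Lib.MPd89457.NB
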