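import Pool.Agent.Lib.MP_d89457_lc.NB.SpecM

/-!
# MP_d89457_lc: module MCO (a 2-colouring of the tree under CH)
-/

set_option autoImplicit false

namespace Pool.Agent.Lib.MPd89457.NB

open Cardinal

namespace MCOM

/-- coding of the pairs `(ξ₀, A)` -/
theorem code (hCH : (2 : Cardinal.{0}) ^ ℵ₀ = ℵ_ 1) (O : Type) [LinearOrder O] (hO : IsO1 O) (φ : O → O) :
    ∃ ν : O → Set O → O, ∀ ξ A ξ' A', (∀ a ∈ A, a < φ ξ) → (∀ a ∈ A', a < φ ξ') → ν ξ A = ν ξ' A' →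
      ξ = ξ' ∧ A = A' := by
  have h1 : ∀ ξ : O, ∃ f : Set (Set.Iio (φ ξ)) → O, Function.Injective f := by
    intro ξ
    have hc : #(Set.Iio (φ ξ)) ≤ ℵ₀ := by
      rw [Cardinal.mk_le_aleph0_iff]
      exact ((hO.2 (φ ξ)).mono Set.Iio_subset_Iic_self).to_subtype
    have : #(Set (Set.Iio (φ ξ))) ≤ #O := by
      rw [Cardinal.mk_set, hO.1, ← hCH]
      exact Cardinal.power_le_power_left two_ne_zero hc
    obtain ⟨f⟩ := Cardinal.le_def _ _ |>.1 this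
    exact ⟨f, f.injective⟩
  choose f hf using h1
  obtain ⟨J, hJ⟩ : ∃ J : O × O → O, Function.Injective J := by
    have : #(O × O) ≤ #O := by
      rw [Cardinal.mk_prod, Cardinal.lift_id, hO.1]
      exact (Cardinal.mul_eq_self (Cardinal.aleph0_le_aleph 1)).le
    obtain ⟨f⟩ := Cardinal.le_def _ _ |>.1 this
    exact ⟨f, f.injective⟩
  refine ⟨fun ξ A => J (ξ, f ξ (Subtype.val ⁻¹' A)), ?_⟩
  intro ξ A ξ' A' hA hA' he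
  have h2 := hJ he
  rw [Prod.mk.injEq] at h2
  obtain ⟨rfl, h3⟩ := h2
  refine ⟨rfl, ?_⟩
  have h4 := hf ξ h3
  ext a
  constructor
  · intro ha
    have : (⟨a, hA a ha⟩ : Set.Iio (φ ξ)) ∈ (Subtype.val ⁻¹' A : Set (Set.Iio (φ ξ))) := ha
    rw [h4] at this
    exact this
  · intro ha
    have : (⟨a, hA' a ha⟩ : Set.Iio (φ ξ)) ∈ (Subtype.val ⁻¹' A' : Set (Set.Iio (φ ξ))) := ha
    rw [← h4] at this
    exact this

end MCOM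

theorem specMCO (hMSP : SpecMSP) : SpecMCO := by
  intro hCH O _ hO φ F hinc hcnt
  obtain ⟨ν, hν⟩ := MCOM.code hCH O hO φ
  choose! C hC1 hC2 using hcnt
  have key : ∀ ξ : O, ∃ S : Set O, ∀ ξ₀ < ξ, ∀ A : Set O, (∀ a ∈ A, a < φ ξ₀) → A.Infinite →
      ν ξ₀ A ≤ ξ → ∀ g ∈ F ξ₀ ξ, (∃ a ∈ A, g a ∈ S) ∧ ∃ a ∈ A, g a ∉ S := by
    intro ξ
    let T : Set (O × Set O) := {p | (∀ a ∈ p.2, a < φ p.1) ∧ p.1 < ξ ∧ ν p.1 p.2 ≤ ξ}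
    have hT : T.Countable := by
      refine Set.MapsTo.countable_of_injOn (f := fun p => ν p.1 p.2) (t := Set.Iic ξ) ?_ ?_ (hO.2 ξ)
      · intro p hp
        exact hp.2.2
      · intro p hp q hq hpq
        obtain ⟨h1, h2⟩ := hν p.1 p.2 q.1 q.2 hp.1 hq.1 hpq
        exact Prod.ext h1 h2
    let 𝒜 : Set (Set O) := {B | ∃ ξ₀ A, (∀ a ∈ A, a < φ ξ₀) ∧ A.Infinite ∧ ξ₀ < ξ ∧ ν ξ₀ A ≤ ξ ∧
      ∃ g ∈ F ξ₀ ξ, B = g '' A}
    have h𝒜c : 𝒜.Countable := by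
      refine Set.Countable.mono ?_ (Set.Countable.biUnion hT
        (t := fun p _ => (fun g : O → O => g '' p.2) '' (C p.1 ξ)) (fun p hp => (hC1 p.1 ξ hp.2.1).image _))
      rintro B ⟨ξ₀, A, hA, -, hlt, hle, g, hg, rfl⟩
      obtain ⟨g', hg', he⟩ := hC2 ξ₀ ξ hlt g hg
      refine Set.mem_iUnion₂.2 ⟨(ξ₀, A), ⟨hA, hlt, hle⟩, g', hg', ?_⟩
      exact Set.image_congr (fun a ha => (he a (hA a ha)).symm)
    have h𝒜i : ∀ B ∈ 𝒜, B.Infinite := by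
      rintro B ⟨ξ₀, A, hA, hAi, hlt, hle, g, hg, rfl⟩
      refine hAi.image ?_
      intro a ha b hb hab
      rcases lt_trichotomy a b with h | h | h
      · exact absurd hab (hinc ξ₀ ξ hlt g hg b (hA b hb) a h).ne
      · exact h
      · exact absurd hab (hinc ξ₀ ξ hlt g hg a (hA a ha) b h).ne'
    obtain ⟨S, hS⟩ := hMSP O 𝒜 h𝒜c h𝒜i
    refine ⟨S, ?_⟩
    intro ξ₀ hlt A hA hAi hle g hg
    obtain ⟨⟨_, ⟨a, ha, rfl⟩, ha'⟩, ⟨_, ⟨b, hb, rfl⟩, hb'⟩⟩ :=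
      hS (g '' A) ⟨ξ₀, A, hA, hAi, hlt, hle, g, hg, rfl⟩
    exact ⟨⟨a, ha, ha'⟩, ⟨b, hb, hb'⟩⟩
  choose S hS using key
  refine ⟨S, fun ξ₀ A hA hAi => ⟨ν ξ₀ A, fun ξ hξ hξ₀ g hg => ?_⟩⟩
  exact hS ξ ξ₀ hξ₀ A hA hAi hξ.le g hg

end Pool.Agent.Lib.MPd89457.NB
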