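import Pool.Agent.Lib.MP_d89457_lc.NB.SpecM

/-!
# MP_d89457_lc, module MCV: the maps of a morass from a fixed level cover
-/

set_option autoImplicit false

namespace Pool.Agent.Lib.MPd89457.NB

open Cardinal

namespace MCVM

theorem cF (O Ω : Type) [LinearOrder O] [WellFoundedLT O] [LinearOrder Ω] (φ : O → O)
    (F : O → O → Set (O → O)) (G : O → Set (O → Ω)) (hM : Mor φ F G) :
    ∀ β α, α < β → ∀ x < φ β, ∃ f ∈ F α β, ∃ y < φ α, f y = x := by
  intro β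
  induction β using WellFoundedLT.induction with
  | _ β ih =>
  intro α hαβ x hx
  obtain ⟨β', hβ', f, hf, y', hy', hfy⟩ := hM.cov β ⟨α, hαβ⟩ x hx
  rcases lt_trichotomy β' α with h | h | h
  · obtain ⟨g, hg, k, hk, hgk⟩ := hM.fac β' α β h hαβ f hf
    refine ⟨k, hk, g y', (hM.inc β' α h g hg y' hy').1, ?_⟩
    rw [← hgk y' hy', hfy]
  · subst h
    exact ⟨f, hf, y', hy', hfy⟩
  · obtain ⟨g, hg, y'', hy'', hgy⟩ := ih β' hβ' α h y' hy'
    obtain ⟨k, hk, hkk⟩ := hM.com α β' β h hβ' g hg f hf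
    refine ⟨k, hk, y'', hy'', ?_⟩
    rw [hkk y'' hy'', hgy, hfy]

end MCVM

theorem specMCV : SpecMCV where
  cF := fun O Ω _ _ _ φ F G hM α β hαβ x hx => MCVM.cF O Ω φ F G hM β α hαβ x hx
  cG := by
    intro O Ω _ _ _ φ F G hM α i
    obtain ⟨β, f, hf, y, hy, hfy⟩ := hM.covG i
    rcases lt_trichotomy β α with h | h | h
    · obtain ⟨g, hg, k, hk, hgk⟩ := hM.facG β α h f hf
      refine ⟨k, hk, g y, (hM.inc β α h g hg y hy).1, ?_⟩
      rw [← hgk y hy, hfy]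
    · subst h
      exact ⟨f, hf, y, hy, hfy⟩
    · obtain ⟨g, hg, y'', hy'', hgy⟩ := MCVM.cF O Ω φ F G hM β α h y hy
      obtain ⟨k, hk, hkk⟩ := hM.comG α β h g hg f hf
      refine ⟨k, hk, y'', hy'', ?_⟩
      rw [hkk y'' hy'', hgy, hfy]

end Pool.Agent.Lib.MPd89457.NB
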