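import Pool.Agent.Lib.MP_d89457_lc.NB.SpecM

/-! # Module MDE: the derived properties of a simplified morass -/

set_option autoImplicit false

namespace Pool.Agent.Lib.MPd89457.NB

open Cardinal

theorem specMDE (hMBL : SpecMBL) (hMCV : SpecMCV) : SpecMDE := by
  intro O Ω _ _ _ φ F G hM
  have h0 : ∀ (i : Ω) (ξ : O), ∃ x, x < φ ξ ∧ ∃ f ∈ G ξ, f x = i := by
    intro i ξ
    obtain ⟨f, hf, x, hx, hxi⟩ := hMCV.cG O Ω φ F G hM ξ i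
    exact ⟨x, hx, f, hf, hxi⟩
  choose y hy using h0
  have hlt : ∀ i ξ, y i ξ < φ ξ := fun i ξ => (hy i ξ).1
  have hex : ∀ i ξ, ∃ f ∈ G ξ, f (y i ξ) = i := fun i ξ => (hy i ξ).2
  have hun : ∀ ξ, ∀ f ∈ G ξ, ∀ τ < φ ξ, y (f τ) ξ = τ := by
    intro ξ f hf τ hτ
    obtain ⟨g, hg, hgi⟩ := hex (f τ) ξ
    exact (hMBL.bG O Ω φ F G hM ξ g hg f hf (y (f τ) ξ) (hlt _ _) τ hτ hgi).1
  have hup : ∀ ξ η, ξ < η → ∀ f ∈ G ξ, ∃ g ∈ F ξ η, ∀ τ < φ ξ, y (f τ) η = g τ := by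
    intro ξ η hξη f hf
    obtain ⟨g, hg, h, hh, hfac⟩ := hM.facG ξ η hξη f hf
    refine ⟨g, hg, fun τ hτ => ?_⟩
    rw [hfac τ hτ]
    exact hun η h hh (g τ) (hM.inc ξ η hξη g hg τ hτ).1
  have hpull : ∀ ξ η, ξ < η → ∀ h ∈ F ξ η, ∀ x < φ ξ, ∀ i, y i η = h x → y i ξ = x := by
    intro ξ η hξη h hh x hx i hi
    obtain ⟨f, hf, hfi⟩ := hex i η
    obtain ⟨f', hf', hcom⟩ := hM.comG ξ η hξη h hh f hf
    have h1 : f' x = i := by rw [hcom x hx, ← hi, hfi]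
    rw [← h1]
    exact hun ξ f' hf' x hx
  refine ⟨y, ⟨hlt, hex, hun, hup, hpull, ?_, ?_, hM.inc, hM.incG, ?_, ?_, hM.fac, hM.facG, ?_⟩⟩
  · intro ξ η hξη i j hij
    rcases hξη.eq_or_lt with h | h
    · subst h
      exact hij
    · obtain ⟨f, hf, hfi⟩ := hex i ξ
      obtain ⟨g, hg, hgf⟩ := hup ξ η h f hf
      have h1 : y i η = g (y i ξ) := by
        have := hgf (y i ξ) (hlt i ξ)
        rw [hfi] at this
        exact this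
      exact (hpull ξ η h g hg (y i ξ) (hlt i ξ) j (hij.symm.trans h1)).symm
  · intro i j ξ
    obtain ⟨f, hf, hfi⟩ := hex i ξ
    obtain ⟨g, hg, hgj⟩ := hex j ξ
    obtain ⟨δ, hδ, -, h, hh, f', hf', g', hg', h1, h2⟩ := hM.dirG ξ ξ f hf g hg
    have a1 : h (f' (y i ξ)) = i := by rw [← h1 _ (hlt i ξ), hfi]
    have a2 : h (g' (y j ξ)) = j := by rw [← h2 _ (hlt j ξ), hgj]
    have b1 : y i δ = f' (y i ξ) := by
      have := hun δ h hh (f' (y i ξ)) (hM.inc ξ δ hδ f' hf' _ (hlt i ξ)).1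
      rw [a1] at this
      exact this
    have b2 : y j δ = g' (y j ξ) := by
      have := hun δ h hh (g' (y j ξ)) (hM.inc ξ δ hδ g' hg' _ (hlt j ξ)).1
      rw [a2] at this
      exact this
    exact ⟨δ, hδ, h, hh, by rw [b1, a1], by rw [b2, a2]⟩
  · intro ξ η hξη g hg g' hg' τ hτ hgg
    exact (hMBL.bF O Ω φ F G hM ξ η hξη g hg g' hg' τ hτ τ hτ hgg).2
  · intro ξ f hf f' hf' τ hτ hff
    exact (hMBL.bG O Ω φ F G hM ξ f hf f' hf' τ hτ τ hτ hff).2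
  · intro ξ hξ i σ hσ
    obtain ⟨β₁, hβ₁, f₁, hf₁, y₁, hy₁, h₁⟩ := hM.cov ξ hξ.1 σ (hσ.trans (hlt i ξ))
    obtain ⟨β₂, hβ₂, f₂, hf₂, y₂, hy₂, h₂⟩ := hM.cov ξ hξ.1 (y i ξ) (hlt i ξ)
    obtain ⟨δ, hd1, hd2, hδ, h, hh, f', hf', g', hg', e1, e2⟩ :=
      hM.dir ξ hξ β₁ hβ₁ β₂ hβ₂ f₁ hf₁ f₂ hf₂
    have c1 : h (f' y₁) = σ := by rw [← e1 y₁ hy₁, h₁]
    have c2 : h (g' y₂) = y i ξ := by rw [← e2 y₂ hy₂, h₂]
    have k1 : f' y₁ < φ δ := (hM.inc β₁ δ hd1 f' hf' y₁ hy₁).1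
    have k2 : g' y₂ < φ δ := (hM.inc β₂ δ hd2 g' hg' y₂ hy₂).1
    have c3 : y i δ = g' y₂ := hpull δ ξ hδ h hh (g' y₂) k2 i c2.symm
    refine ⟨δ, hδ, h, hh, by rw [c3, c2], f' y₁, ?_, c1⟩
    rw [c3]
    by_contra hcon
    rcases (not_lt.mp hcon).eq_or_lt with h3 | h3
    · rw [h3, c1] at c2
      exact hσ.ne c2
    · have h4 := (hM.inc δ ξ hδ h hh (f' y₁) k1).2 (g' y₂) h3
      rw [c1, c2] at h4
      exact lt_asymm hσ h4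

end Pool.Agent.Lib.MPd89457.NB
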