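import Pool.Agent.Lib.MP_d89457_lc.NB.Spec

/-!
# Module MET: the filter meeting the antichains of the Borel algebra
-/

set_option autoImplicit false

namespace Pool.Agent.Lib.MPd89457.NB

open Cardinal

namespace METM

theorem sSup_top {B : Type} [CompleteBooleanAlgebra B] {A : Set B} (h : MaxAnti A) :
    sSup A = ⊤ := by
  by_contra hne
  have hb : (sSup A)ᶜ ≠ ⊥ := fun h0 => hne (compl_eq_bot.mp h0)
  obtain ⟨a, ha, hab⟩ := h.2.2 _ hb
  apply hab
  have h1 : a ≤ sSup A := le_sSup ha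
  have h2 : a ⊓ (sSup A)ᶜ ≤ sSup A ⊓ (sSup A)ᶜ := inf_le_inf_right _ h1
  rw [inf_compl_self] at h2
  exact le_bot_iff.mp h2

section lists

variable {B : Type} [CompleteBooleanAlgebra B] {ι : Type}

/-- the infimum of the elements with indices in the list -/
noncomputable def inf (a : ι → ℕ → B) (l : List (ι × ℕ)) : B :=
  ⨅ p : {p : ι × ℕ // p ∈ l}, a p.1.1 p.1.2

theorem inf_le (a : ι → ℕ → B) {l : List (ι × ℕ)} {p : ι × ℕ} (hp : p ∈ l) :
    inf a l ≤ a p.1 p.2 :=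
  iInf_le (fun p : {p : ι × ℕ // p ∈ l} => a p.1.1 p.1.2) ⟨p, hp⟩

theorem le_inf (a : ι → ℕ → B) {l : List (ι × ℕ)} {x : B} (h : ∀ p ∈ l, x ≤ a p.1 p.2) :
    x ≤ inf a l :=
  le_iInf fun p => h p.1 p.2

end lists

section codes

variable {Ω ι : Type}

def pick (c : ι → ℕ → Cod Ω) : Option (ι × ℕ) → Cod Ω
  | none => .lev 0 Set.univ
  | some p => c p.1 p.2

def fam (D : Set (List Ω)) (c : ι → ℕ → Cod Ω) (l : List (ι × ℕ)) (n : ℕ) : ℕ → Cod Ω
  | 0 => .lev n D
  | k + 1 => pick c l[k]?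

/-- the conjunction of `lev n D` and the codes with indices in the list -/
def M (D : Set (List Ω)) (c : ι → ℕ → Cod Ω) (l : List (ι × ℕ)) (n : ℕ) : Cod Ω :=
  .and (fam D c l n)

theorem M_holds (D : Set (List Ω)) (c : ι → ℕ → Cod Ω) (l : List (ι × ℕ)) (n : ℕ) (b : ℕ → Ω)
    (h0 : br b n ∈ D) (h : ∀ p ∈ l, (c p.1 p.2).holds b) : (M D c l n).holds b := by
  intro k
  cases k with
  | zero => exact h0
  | succ k =>
    change (pick c l[k]?).holds b
    cases hk : l[k]? with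
    | none => exact trivial
    | some p => exact h p (List.mem_of_getElem? hk)

theorem M_le_lev {B : Type} [CompleteBooleanAlgebra B] (e : Nam Ω → B) (T : Set (List Ω))
    (D : Set (List Ω)) (c : ι → ℕ → Cod Ω) (l : List (ι × ℕ)) (n : ℕ) :
    (M D c l n).val e T ≤ (Cod.lev n D).val e T :=
  iInf_le (fun k => (fam D c l n k).val e T) 0

theorem M_le_code {B : Type} [CompleteBooleanAlgebra B] (e : Nam Ω → B) (T : Set (List Ω))
    (D : Set (List Ω)) (c : ι → ℕ → Cod Ω) (l : List (ι × ℕ)) (n : ℕ) {p : ι × ℕ} (hp : p ∈ l) :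
    (M D c l n).val e T ≤ (c p.1 p.2).val e T := by
  obtain ⟨k, hk⟩ := List.getElem?_of_mem hp
  have h := iInf_le (fun k => (fam D c l n k).val e T) (k + 1)
  have h2 : (fam D c l n (k + 1)) = c p.1 p.2 := by
    change pick c l[k]? = _
    rw [hk]
    rfl
  have h3 : (M D c l n).val e T ≤ (fam D c l n (k + 1)).val e T := h
  rwa [h2] at h3

theorem M_bot {B : Type} [CompleteBooleanAlgebra B] (e : Nam Ω → B) (T : Set (List Ω))
    (a : ι → ℕ → B) (c : ι → ℕ → Cod Ω) (hc : ∀ i n, (c i n).val e T = ev e T ⊓ a i n)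
    (l : List (ι × ℕ)) (n : ℕ) :
    (M {t | inf a l ⊓ ev e (res T t) = ⊥} c l n).val e T = ⊥ := by
  have h1 : (M {t | inf a l ⊓ ev e (res T t) = ⊥} c l n).val e T ≤ inf a l := by
    apply le_inf
    intro p hp
    refine (M_le_code e T _ c l n hp).trans ?_
    rw [hc]
    exact inf_le_right
  have h2 := M_le_lev e T {t | inf a l ⊓ ev e (res T t) = ⊥} c l n
  have h3 := _root_.le_inf h1 h2
  have h4 : inf a l ⊓ (Cod.lev n {t | inf a l ⊓ ev e (res T t) = ⊥}).val e T = ⊥ := by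
    change inf a l ⊓ sSup {x | ∃ t, t ∈ T ∧ t.length = n ∧
      t ∈ {t | inf a l ⊓ ev e (res T t) = ⊥} ∧ x = ev e (res T t)} = ⊥
    rw [inf_sSup_eq]
    simp only [iSup_eq_bot]
    rintro x ⟨t, -, -, ht, rfl⟩
    exact ht
  rw [h4] at h3
  exact le_bot_iff.mp h3

end codes

/-- the number of conditions -/
theorem card_index (ι : Type) (h : #ι ≤ ℵ_ 1) : #(ι ⊕ (List (ι × ℕ) × ℕ)) ≤ ℵ_ 1 := by
  have h0 : ℵ₀ ≤ ℵ_ 1 := aleph0_le_aleph 1
  have hN : #ℕ ≤ ℵ_ 1 := by rw [mk_nat]; exact h0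
  have h1 : #(ι × ℕ) ≤ ℵ_ 1 := by
    rw [← mul_def]
    exact mul_le_of_le h0 h hN
  have h2 : #(List (ι × ℕ)) ≤ ℵ_ 1 := (mk_list_le_max _).trans (max_le h0 h1)
  have h3 : #(List (ι × ℕ) × ℕ) ≤ ℵ_ 1 := by
    rw [← mul_def]
    exact mul_le_of_le h0 h2 hN
  rw [← add_def]
  exact add_le_of_le h0 h h3

end METM

open METM in
theorem specMET (hTRE : SpecTRE) (hBAS : SpecBAS) (hFUS : SpecFUS) (hVAL : SpecVAL)
    (hGAM : SpecGAM) (hCMB : SpecCMB) (hBCD : SpecBCD) : SpecMET := by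
  intro Ω B _ e hΩ he W hW hWc ι hι A hA hAc hAB
  obtain ⟨T, y, hT, hy⟩ := hFUS Ω B e hΩ he W hW hWc
  have hpos : ev e T ≠ ⊥ := hBAS.pos Ω B e he T [] hT
  have hne : ∀ i, (A i).Nonempty := by
    intro i
    obtain ⟨x, hx, -⟩ := (hA i).2.2 _ hpos
    exact ⟨x, hx⟩
  have henum : ∀ i, ∃ f : ℕ → B, A i = Set.range f := fun i => (hAc i).exists_eq_range (hne i)
  choose a ha using henum
  have hmem : ∀ i n, a i n ∈ A i := by
    intro i n
    rw [ha i]
    exact ⟨n, rfl⟩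
  have hcode : ∀ i n, ∃ c : Cod Ω, c.val e T = ev e T ⊓ a i n := fun i n =>
    hBCD Ω B e hΩ he W hW T y hT hy _ (hAB i _ (hmem i n))
  choose c hc using hcode
  -- the codes
  let code : ι ⊕ (List (ι × ℕ) × ℕ) → Cod Ω := Sum.elim (fun i => Cod.or (c i))
    (fun q => (M {t | inf a q.1 ⊓ ev e (res T t) = ⊥} c q.1 q.2).neg)
  have hval : ∀ j, (code j).neg.val e T = ⊥ := by
    rintro (i | q)
    · rw [hVAL.neg Ω B e he T hT]
      have h1 : (code (Sum.inl i)).val e T = ev e T := by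
        change (⨆ k, (c i k).val e T) = ev e T
        simp only [hc]
        rw [← inf_iSup_eq]
        have h2 : (⨆ k, a i k) = ⊤ := by
          rw [← sSup_range, ← ha i]
          exact sSup_top (hA i)
        rw [h2, inf_top_eq]
      rw [h1, inf_compl_self]
    · have h1 : (code (Sum.inr q)) = (M {t | inf a q.1 ⊓ ev e (res T t) = ⊥} c q.1 q.2).neg := rfl
      rw [h1, hVAL.neg Ω B e he T hT, hVAL.neg Ω B e he T hT, M_bot e T a c hc, compl_bot,
        inf_top_eq, inf_compl_self]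
  have hbad := fun j => hGAM Ω B e hΩ he T hT (code j) (hval j)
  choose Bad hBad1 hBad2 using hbad
  obtain ⟨b, hbT, hbB⟩ := hCMB Ω T hT _ (card_index ι hι) Bad hBad1
  have hholds : ∀ j, (code j).holds b := fun j => hBad2 j b hbT (hbB j)
  have hlen : ∀ n, (br b n).length = n := fun n => (hTRE.brs Ω b n n le_rfl).2
  have hnam : ∀ n, IsNam (res T (br b n)) (br b n) := fun n =>
    hTRE.res Ω T [] _ hT (hbT n) (List.nil_suffix)
  have hmono : ∀ m n, m ≤ n → ev e (res T (br b n)) ≤ ev e (res T (br b m)) := by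
    intro m n hmn
    refine hBAS.mono Ω B e he _ _ _ _ (hnam n) (hnam m) ?_
    rintro u ⟨hu, hu2⟩
    have hs := (hTRE.brs Ω b m n hmn).1
    refine ⟨hu, ?_⟩
    rcases hu2 with h | h
    · exact List.suffix_or_suffix_of_suffix h hs
    · exact Or.inr (hs.trans h)
  -- the filter
  refine ⟨{x | ∃ l : List (ι × ℕ), (∀ p ∈ l, (c p.1 p.2).holds b) ∧
    ∃ n, inf a l ⊓ ev e (res T (br b n)) ≤ x}, ⟨?_, ?_, ?_, ?_⟩, ?_, ?_⟩
  · exact ⟨⊤, [], fun p hp => absurd hp (List.not_mem_nil), 0, le_top⟩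
  · rintro ⟨l, hl, n, hn⟩
    have h0 := hholds (Sum.inr (l, n))
    have h1 : (M {t | inf a l ⊓ ev e (res T t) = ⊥} c l n).neg.holds b := h0
    rw [hVAL.holds] at h1
    exact h1 (M_holds _ c l n b (le_bot_iff.mp hn) hl)
  · rintro x ⟨l, hl, n, hn⟩ z hxz
    exact ⟨l, hl, n, hn.trans hxz⟩
  · rintro x ⟨l, hl, n, hn⟩ z ⟨l', hl', n', hn'⟩
    refine ⟨l ++ l', ?_, max n n', ?_⟩
    · intro p hp
      rcases List.mem_append.mp hp with h | h
      · exact hl p h
      · exact hl' p h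
    · have h1 : inf a (l ++ l') ≤ inf a l :=
        METM.le_inf a fun p hp => METM.inf_le a (List.mem_append_left _ hp)
      have h2 : inf a (l ++ l') ≤ inf a l' :=
        METM.le_inf a fun p hp => METM.inf_le a (List.mem_append_right _ hp)
      exact _root_.le_inf ((inf_le_inf h1 (hmono _ _ (le_max_left _ _))).trans hn)
        ((inf_le_inf h2 (hmono _ _ (le_max_right _ _))).trans hn')
  · intro i
    have h0 : (Cod.or (c i)).holds b := hholds (Sum.inl i)
    obtain ⟨n, hn⟩ : ∃ n, (c i n).holds b := h0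
    refine ⟨a i n, ⟨[(i, n)], ?_, 0, ?_⟩, hmem i n⟩
    · intro p hp
      rw [List.mem_singleton] at hp
      rw [hp]
      exact hn
    · exact inf_le_left.trans (METM.inf_le a (p := (i, n)) (List.mem_singleton.mpr rfl))
  · intro n
    obtain ⟨h1, h2⟩ := hy _ (hbT n)
    rw [hlen n] at h1
    exact ⟨y (br b n), ⟨[], fun p hp => absurd hp (List.not_mem_nil), n,
      inf_le_right.trans h2⟩, h1⟩

end Pool.Agent.Lib.MPd89457.NB
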