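import Pool.Agent.Lib.MP_d89457_lc.NB.SpecN
import Pool.Agent.Lib.MP_d89457_lc.NB.MFN

/-!
# MP_d89457_lc: a splitting sequence and a simplified morass refute BFA(N): final step
-/

set_option autoImplicit false

namespace Pool.Agent.Lib.MPd89457.NB

open Cardinal

/-- **MFP** -/
theorem specMFP (hZTH : SpecZTH) (hMDE : SpecMDE) (hKCL : SpecKCL) (hMBD : SpecMBD)
    (hCEL : SpecCEL) (hCES : SpecCES) (hCER : SpecCER) (hCOS : SpecCOS) : SpecMFP := by
  intro O Ω _ _ _ _ hO hΩ φ F G hM x hx B _ e he hBFA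
  obtain ⟨y, hD⟩ := hMDE O Ω φ F G hM
  obtain ⟨c, hc⟩ := hCER O φ F (fun ξ e' he' => by
    by_cases hl : Lim ξ
    · exact hCEL O Ω hO φ F G hM ξ hl e' he'
    · exact hCES O Ω hO φ F G hM ξ hl e' he')
  obtain ⟨S, hS⟩ := hCOS O hO φ F c hc x hx
  have hne : Nonempty O := by
    rw [← mk_ne_zero_iff, hO.1]
    exact (aleph_pos 1).ne'
  have hinj := MFNM.inj hD hne
  have hY : ℵ_ 2 ≤ #(Set.range y) := by
    rw [mk_range_eq y hinj, hΩ.1]
  have hcore := MFNM.core hD hO hΩ hMBD S hS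
  rcases hZTH Ω B e hΩ.1 he O O hO hBFA (Set.range y) (fun ξ x => x ∈ S ξ) hY
    (MFNM.thin hD hO) with ⟨q, hq, hqY, hu⟩ | ⟨q, hq, hqY, hu⟩
  · choose i hi using hqY
    have hi' : Function.Injective i := by
      intro m n h
      apply hq
      rw [← hi m, ← hi n, h]
    obtain ⟨ζ, hζ⟩ := hcore i hi'
    apply hu
    refine MFNM.countable_of_bound hO _ ζ ?_
    intro ξ hξ hP
    obtain ⟨n, hn⟩ := (hζ ξ hξ).2
    apply hn
    rw [hi n]
    exact hP n
  · have hqY' : ∀ n, ∃ i, y i = q n := fun n => hKCL O Ω hO hΩ φ F G y hD (q n) (hqY n)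
    choose i hi using hqY'
    have hi' : Function.Injective i := by
      intro m n h
      apply hq
      rw [← hi m, ← hi n, h]
    obtain ⟨ζ, hζ⟩ := hcore i hi'
    apply hu
    refine MFNM.countable_of_bound hO _ ζ ?_
    intro ξ hξ hP
    obtain ⟨n, hn⟩ := (hζ ξ hξ).1
    apply hP n
    rw [← hi n]
    exact hn

end Pool.Agent.Lib.MPd89457.NB
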