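import Pool.Agent.Lib.MP_d89457_lc.NB.SpecM

/-!
# MP_d89457_lc, module MSP: splitting a countable family of infinite sets
-/

set_option autoImplicit false

namespace Pool.Agent.Lib.MPd89457.NB

namespace MSPM

theorem step {X : Type} (A : ℕ → Set X) (hA : ∀ n, (A n).Infinite) (n : ℕ) (F : Finset X) :
    ∃ pq : X × X, pq.1 ∈ A n ∧ pq.2 ∈ A n ∧ pq.1 ≠ pq.2 ∧ pq.1 ∉ F ∧ pq.2 ∉ F := by
  classical
  obtain ⟨p, hp, hpF⟩ := (hA n).exists_notMem_finset F
  obtain ⟨q, hq, hqF⟩ := (hA n).exists_notMem_finset (insert p F)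
  rw [Finset.mem_insert, not_or] at hqF
  exact ⟨(p, q), hp, hq, fun h => hqF.1 h.symm, hpF, hqF.2⟩

open Classical in
/-- the set of the points chosen before the step `n` -/
noncomputable def st {X : Type} (A : ℕ → Set X) (hA : ∀ n, (A n).Infinite) : ℕ → Finset X
  | 0 => ∅
  | n + 1 => insert (Classical.choose (step A hA n (st A hA n))).1
      (insert (Classical.choose (step A hA n (st A hA n))).2 (st A hA n))

theorem exists_split {X : Type} (A : ℕ → Set X) (hA : ∀ n, (A n).Infinite) :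
    ∃ S : Set X, ∀ n, (∃ a ∈ A n, a ∈ S) ∧ ∃ a ∈ A n, a ∉ S := by
  classical
  set c : ℕ → X × X := fun n => Classical.choose (step A hA n (st A hA n)) with hc
  have hspec : ∀ n, (c n).1 ∈ A n ∧ (c n).2 ∈ A n ∧ (c n).1 ≠ (c n).2 ∧
      (c n).1 ∉ st A hA n ∧ (c n).2 ∉ st A hA n :=
    fun n => Classical.choose_spec (step A hA n (st A hA n))
  have hsucc : ∀ n, st A hA (n + 1) = insert (c n).1 (insert (c n).2 (st A hA n)) := by
    intro n
    rw [st]
  have hmem : ∀ m n, m < n → (c m).1 ∈ st A hA n ∧ (c m).2 ∈ st A hA n := by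
    intro m n hmn
    induction n with
    | zero => exact absurd hmn (Nat.not_lt_zero _)
    | succ n ih =>
      rw [hsucc n]
      rcases Nat.lt_succ_iff_lt_or_eq.1 hmn with h | h
      · exact ⟨Finset.mem_insert_of_mem (Finset.mem_insert_of_mem (ih h).1),
          Finset.mem_insert_of_mem (Finset.mem_insert_of_mem (ih h).2)⟩
      · subst h
        exact ⟨Finset.mem_insert_self _ _, Finset.mem_insert_of_mem (Finset.mem_insert_self _ _)⟩
  refine ⟨Set.range fun n => (c n).1, fun n => ⟨⟨(c n).1, (hspec n).1, n, rfl⟩,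
    (c n).2, (hspec n).2.1, ?_⟩⟩
  rintro ⟨m, hm⟩
  have hm' : (c m).1 = (c n).2 := hm
  rcases Nat.lt_trichotomy m n with h | h | h
  · exact (hspec n).2.2.2.2 (hm' ▸ (hmem m n h).1)
  · subst h
    exact (hspec m).2.2.1 hm'
  · exact (hspec m).2.2.2.1 (hm'.symm ▸ (hmem n m h).2)

end MSPM

theorem specMSP : SpecMSP := by
  intro X 𝒜 h𝒜 hinf
  rcases 𝒜.eq_empty_or_nonempty with he | hne
  · refine ⟨∅, fun A hA => ?_⟩
    rw [he] at hA
    exact absurd hA (Set.notMem_empty _)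
  · obtain ⟨A, hA⟩ := h𝒜.exists_eq_range hne
    obtain ⟨S, hS⟩ := MSPM.exists_split A fun n => hinf _ (hA ▸ Set.mem_range_self n)
    refine ⟨S, fun B hB => ?_⟩
    rw [hA] at hB
    obtain ⟨n, rfl⟩ := hB
    exact hS n

end Pool.Agent.Lib.MPd89457.NB
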