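import Pool.Agent.Lib.MP_d89457_lc.NB.SpecS
import Pool.Agent.Lib.MP_d89457_lc.NB.BCD
import Pool.Agent.Lib.MP_d89457_lc.NB.MET

/-!
# Module MTO: as MET, with open antichains of arbitrary size
-/

set_option autoImplicit false

namespace Pool.Agent.Lib.MPd89457.NB

open Cardinal

namespace MTOM

/-- the code of an open antichain -/
def K {Ω : Type} {B : Type} [CompleteBooleanAlgebra B] (e : Nam Ω → B) (T : Set (List Ω))
    (A : Set B) : Cod Ω :=
  .or fun n => .lev n {t | ∃ a ∈ A, ev e (res T t) ≤ a}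

theorem K_val {Ω : Type} {B : Type} [CompleteBooleanAlgebra B] {e : Nam Ω → B}
    (hTRE : SpecTRE) (hBAS : SpecBAS) (hVAL : SpecVAL) (hΩ : #Ω = ℵ_ 2) (he : IsBC e)
    (W : ℕ → Set B) (hW : ∀ n, MaxAnti (W n)) (T : Set (List Ω)) (y : List Ω → B)
    (hT : IsNam T []) (hy : ∀ t ∈ T, y t ∈ W t.length ∧ ev e (res T t) ≤ y t)
    (A : Set B) (hA : MaxAnti A) (hO : ∀ a ∈ A, Opn e W a) : (K e T A).val e T = ev e T := by
  refine le_antisymm (hVAL.le Ω B e he T hT _) ?_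
  have h0 : ev e T = ev e T ⊓ sSup A := by rw [METM.sSup_top hA, inf_top_eq]
  rw [h0, inf_sSup_eq]
  refine iSup₂_le fun a ha => ?_
  obtain ⟨S, hS, haS⟩ := hO a ha
  have h1 : ∀ m ∈ S, ev e T ⊓ m ≤ (K e T A).val e T := by
    intro m hm
    have hma : m ≤ a := by
      rw [haS]
      exact le_sSup hm
    refine (BCDM.cell_le hTRE hBAS hΩ he W hW T y hT hy a m (hS m hm) hma).trans ?_
    change (⨆ n, (Cod.lev n {t | ev e (res T t) ≤ a}).val e T) ≤
      ⨆ n, (Cod.lev n {t | ∃ a ∈ A, ev e (res T t) ≤ a}).val e T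
    refine iSup_mono fun n => ?_
    change sSup {x | ∃ t, t ∈ T ∧ t.length = n ∧ t ∈ {t | ev e (res T t) ≤ a} ∧
        x = ev e (res T t)} ≤
      sSup {x | ∃ t, t ∈ T ∧ t.length = n ∧ t ∈ {t | ∃ a ∈ A, ev e (res T t) ≤ a} ∧
        x = ev e (res T t)}
    refine sSup_le_sSup ?_
    rintro x ⟨t, ht1, ht2, ht3, ht4⟩
    exact ⟨t, ht1, ht2, ⟨a, ha, ht3⟩, ht4⟩
  rw [haS, inf_sSup_eq]
  exact iSup₂_le h1

end MTOM

open METM MTOM in
theorem specMTO (hTRE : SpecTRE) (hBAS : SpecBAS) (hFUS : SpecFUS) (hVAL : SpecVAL)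
    (hGAM : SpecGAM) (hCMB : SpecCMB) (hBCD : SpecBCD) : SpecMTO := by
  intro Ω B _ e hΩ he W hW hWc ι0 hι0 A0 hA0 hAO
  obtain ⟨T, y, hT, hy⟩ := hFUS Ω B e hΩ he W hW hWc
  have hpos : ev e T ≠ ⊥ := hBAS.pos Ω B e he T [] hT
  -- the Borel antichains
  let ι : Type := {i : ι0 // (A0 i).Countable ∧ ∀ a ∈ A0 i, Bor e W a}
  let O : Type := {i : ι0 // ∀ a ∈ A0 i, Opn e W a}
  have hι : #ι ≤ ℵ_ 1 := (mk_subtype_le _).trans hι0
  have hOc : #O ≤ ℵ_ 1 := (mk_subtype_le _).trans hι0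
  let A : ι → Set B := fun i => A0 i.1
  have hA : ∀ i, MaxAnti (A i) := fun i => hA0 i.1
  have hAc : ∀ i, (A i).Countable := fun i => i.2.1
  have hAB : ∀ i, ∀ a ∈ A i, Bor e W a := fun i => i.2.2
  have hne : ∀ i, (A i).Nonempty := by
    intro i
    obtain ⟨x, hx, -⟩ := (hA i).2.2 _ hpos
    exact ⟨x, hx⟩
  have henum : ∀ i, ∃ f : ℕ → B, A i = Set.range f := fun i => (hAc i).exists_eq_range (hne i)
  choose a ha using henum
  have hmem : ∀ i n, a i n ∈ A i := by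
    intro i n
    rw [ha i]
    exact ⟨n, rfl⟩
  have hcode : ∀ i n, ∃ c : Cod Ω, c.val e T = ev e T ⊓ a i n := fun i n =>
    hBCD Ω B e hΩ he W hW T y hT hy _ (hAB i _ (hmem i n))
  choose c hc using hcode
  -- the codes
  let code : O ⊕ (ι ⊕ (List (ι × ℕ) × ℕ)) → Cod Ω := Sum.elim (fun i => K e T (A0 i.1))
    (Sum.elim (fun i => Cod.or (c i))
      (fun q => (M {t | inf a q.1 ⊓ ev e (res T t) = ⊥} c q.1 q.2).neg))
  have hval : ∀ j, (code j).neg.val e T = ⊥ := by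
    rintro (i | i | q)
    · rw [hVAL.neg Ω B e he T hT]
      have h1 : (code (Sum.inl i)).val e T = ev e T :=
        K_val hTRE hBAS hVAL hΩ he W hW T y hT hy (A0 i.1) (hA0 i.1) i.2
      rw [h1, inf_compl_self]
    · rw [hVAL.neg Ω B e he T hT]
      have h1 : (code (Sum.inr (Sum.inl i))).val e T = ev e T := by
        change (⨆ k, (c i k).val e T) = ev e T
        simp only [hc]
        rw [← inf_iSup_eq]
        have h2 : (⨆ k, a i k) = ⊤ := by
          rw [← sSup_range, ← ha i]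
          exact sSup_top (hA i)
        rw [h2, inf_top_eq]
      rw [h1, inf_compl_self]
    · have h1 : (code (Sum.inr (Sum.inr q))) =
          (M {t | inf a q.1 ⊓ ev e (res T t) = ⊥} c q.1 q.2).neg := rfl
      rw [h1, hVAL.neg Ω B e he T hT, hVAL.neg Ω B e he T hT, M_bot e T a c hc, compl_bot,
        inf_top_eq, inf_compl_self]
  have hcard : #(O ⊕ (ι ⊕ (List (ι × ℕ) × ℕ))) ≤ ℵ_ 1 := by
    rw [← add_def]
    exact add_le_of_le (aleph0_le_aleph 1) hOc (card_index ι hι)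
  have hbad := fun j => hGAM Ω B e hΩ he T hT (code j) (hval j)
  choose Bad hBad1 hBad2 using hbad
  obtain ⟨b, hbT, hbB⟩ := hCMB Ω T hT _ hcard Bad hBad1
  have hholds : ∀ j, (code j).holds b := fun j => hBad2 j b hbT (hbB j)
  have hlen : ∀ n, (br b n).length = n := fun n => (hTRE.brs Ω b n n le_rfl).2
  have hnam : ∀ n, IsNam (res T (br b n)) (br b n) := fun n =>
    hTRE.res Ω T [] _ hT (hbT n) (List.nil_suffix)
  have hmono : ∀ m n, m ≤ n → ev e (res T (br b n)) ≤ ev e (res T (br b m)) := by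
    intro m n hmn
    refine hBAS.mono Ω B e he _ _ _ _ (hnam n) (hnam m) ?_
    rintro u ⟨hu, hu2⟩
    have hs := (hTRE.brs Ω b m n hmn).1
    refine ⟨hu, ?_⟩
    rcases hu2 with h | h
    · exact List.suffix_or_suffix_of_suffix h hs
    · exact Or.inr (hs.trans h)
  -- the filter
  refine ⟨{x | ∃ l : List (ι × ℕ), (∀ p ∈ l, (c p.1 p.2).holds b) ∧
    ∃ n, inf a l ⊓ ev e (res T (br b n)) ≤ x}, ⟨?_, ?_, ?_, ?_⟩, ?_, ?_⟩
  · exact ⟨⊤, [], fun p hp => absurd hp (List.not_mem_nil), 0, le_top⟩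
  · rintro ⟨l, hl, n, hn⟩
    have h0 := hholds (Sum.inr (Sum.inr (l, n)))
    have h1 : (M {t | inf a l ⊓ ev e (res T t) = ⊥} c l n).neg.holds b := h0
    rw [hVAL.holds] at h1
    exact h1 (M_holds _ c l n b (le_bot_iff.mp hn) hl)
  · rintro x ⟨l, hl, n, hn⟩ z hxz
    exact ⟨l, hl, n, hn.trans hxz⟩
  · rintro x ⟨l, hl, n, hn⟩ z ⟨l', hl', n', hn'⟩
    refine ⟨l ++ l', ?_, max n n', ?_⟩
    · intro p hp
      rcases List.mem_append.mp hp with h | h
      · exact hl p h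
      · exact hl' p h
    · have h1 : inf a (l ++ l') ≤ inf a l :=
        METM.le_inf a fun p hp => METM.inf_le a (List.mem_append_left _ hp)
      have h2 : inf a (l ++ l') ≤ inf a l' :=
        METM.le_inf a fun p hp => METM.inf_le a (List.mem_append_right _ hp)
      exact _root_.le_inf ((inf_le_inf h1 (hmono _ _ (le_max_left _ _))).trans hn)
        ((inf_le_inf h2 (hmono _ _ (le_max_right _ _))).trans hn')
  · intro i0
    rcases hAO i0 with hB | hO
    · let i : ι := ⟨i0, hB⟩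
      have h0 : (Cod.or (c i)).holds b := hholds (Sum.inr (Sum.inl i))
      obtain ⟨n, hn⟩ : ∃ n, (c i n).holds b := h0
      refine ⟨a i n, ⟨[(i, n)], ?_, 0, ?_⟩, hmem i n⟩
      · intro p hp
        rw [List.mem_singleton] at hp
        rw [hp]
        exact hn
      · exact inf_le_left.trans (METM.inf_le a (p := (i, n)) (List.mem_singleton.mpr rfl))
    · have h0 : (K e T (A0 i0)).holds b := hholds (Sum.inl ⟨i0, hO⟩)
      obtain ⟨n, x, hx, hxle⟩ : ∃ n, ∃ x ∈ A0 i0, ev e (res T (br b n)) ≤ x := h0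
      exact ⟨x, ⟨[], fun p hp => absurd hp (List.not_mem_nil), n, inf_le_right.trans hxle⟩, hx⟩
  · intro n
    obtain ⟨h1, h2⟩ := hy _ (hbT n)
    rw [hlen n] at h1
    exact ⟨y (br b n), ⟨[], fun p hp => absurd hp (List.not_mem_nil), n,
      inf_le_right.trans h2⟩, h1⟩

end Pool.Agent.Lib.MPd89457.NB
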