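import Pool.Agent.Lib.MP_d89457_lc.NB.SpecK

/-!
# MP_d89457_lc: CH and a simplified `(ω_1, 1)`-morass refute the bounded Namba forcing axiom

THEOREM.  If CH holds and there is a simplified `(ω_1, 1)`-morass then `BFA(N)` fails.
(Both hypotheses are forced by a small σ-closed forcing over a model of CH, so they are compatible with
every large cardinal: no large cardinal proves BFA(N); and CH + BFA(N) implies that `ω_2` is
inaccessible in `L`.)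

PROOF.  The morass gives for every `i < ω_2` a branch `y i : ξ ↦ y i ξ < φ ξ` (the place of `i` at level
`ξ`) of a tree whose levels are countable.  (a) All cofinal branches of this tree are of this form
(KCL).  (b) A countable subset of `ω_2` lies in the range of one map of the morass (MBD), so at all higher
levels it is the image of one countable set under one of countably many maps; CH and a diagonal
argument give a 2-colouring of the tree such that every infinite set of branches has both colours at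
all but countably many levels (MCO).  This contradicts the partition theorem (ZTH of SpecK).

Conventions as before: module `XXX` = file `NB/XXX.lean`, imports only `NB.SpecM`, namespace
`Pool.Agent.Lib.MPd89457.NB`, theorem `specXXX (hYYY : SpecYYY) .. : SpecXXX` (hypotheses in the order of
Uses), own lemmas in the namespace `XXXM`.
`O` is `ω_1` (well-ordered, `IsO1`), `Ω` is `ω_2` (well-ordered, `IsO2`).
-/

set_option autoImplicit false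

namespace Pool.Agent.Lib.MPd89457.NB

open Cardinal

/-- size `ℵ_2`, initial segments of size `≤ ℵ_1` -/
def IsO2 (Ω : Type) [LinearOrder Ω] : Prop := #Ω = ℵ_ 2 ∧ ∀ i : Ω, #(Set.Iio i) ≤ ℵ_ 1

/-- limit point: not minimal, no immediate predecessor -/
def Lim {O : Type} [LinearOrder O] (α : O) : Prop :=
  (∃ β, β < α) ∧ ∀ β < α, ∃ γ, β < γ ∧ γ < α

section defs

variable {O Ω : Type} [LinearOrder O] [LinearOrder Ω]

/-- Velleman's simplified `(ω_1, 1)`-morass: `φ α` is the ordinal `φ_α < ω_1`, `F α β` (`α < β`) the set of maps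
`φ_α → φ_β`, `G α` the set of maps `φ_α → ω_2` (only the values at `x < φ α` matter). -/
structure Mor (φ : O → O) (F : O → O → Set (O → O)) (G : O → Set (O → Ω)) : Prop where
  inc : ∀ α β, α < β → ∀ f ∈ F α β, ∀ x < φ α, f x < φ β ∧ ∀ y < x, f y < f x
  incG : ∀ α, ∀ f ∈ G α, ∀ x < φ α, ∀ y < x, f y < f x
  cnt : ∀ α β, α < β → ∃ C : Set (O → O), C.Countable ∧ ∀ f ∈ F α β, ∃ g ∈ C, ∀ x < φ α, f x = g x
  fac : ∀ α β γ, α < β → β < γ → ∀ f ∈ F α γ, ∃ g ∈ F α β, ∃ h ∈ F β γ, ∀ x < φ α, f x = h (g x)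
  com : ∀ α β γ, α < β → β < γ → ∀ g ∈ F α β, ∀ h ∈ F β γ, ∃ f ∈ F α γ, ∀ x < φ α, f x = h (g x)
  facG : ∀ α β, α < β → ∀ f ∈ G α, ∃ g ∈ F α β, ∃ h ∈ G β, ∀ x < φ α, f x = h (g x)
  comG : ∀ α β, α < β → ∀ g ∈ F α β, ∀ h ∈ G β, ∃ f ∈ G α, ∀ x < φ α, f x = h (g x)
  suc : ∀ α β, α < β → (∀ γ, α < γ → β ≤ γ) → ∃ (σ : O) (s : O → O), σ < φ α ∧ (∀ x < σ, s x = x) ∧
    φ α ≤ s σ ∧ (∀ f ∈ F α β, (∀ x < φ α, f x = x) ∨ ∀ x < φ α, f x = s x) ∧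
    (∃ f ∈ F α β, ∀ x < φ α, f x = x) ∧ ∃ f ∈ F α β, ∀ x < φ α, f x = s x
  dir : ∀ α, Lim α → ∀ β < α, ∀ γ < α, ∀ f ∈ F β α, ∀ g ∈ F γ α, ∃ δ, β < δ ∧ γ < δ ∧ δ < α ∧
    ∃ h ∈ F δ α, ∃ f' ∈ F β δ, ∃ g' ∈ F γ δ, (∀ x < φ β, f x = h (f' x)) ∧ ∀ x < φ γ, g x = h (g' x)
  dirG : ∀ β γ, ∀ f ∈ G β, ∀ g ∈ G γ, ∃ δ, β < δ ∧ γ < δ ∧
    ∃ h ∈ G δ, ∃ f' ∈ F β δ, ∃ g' ∈ F γ δ, (∀ x < φ β, f x = h (f' x)) ∧ ∀ x < φ γ, g x = h (g' x)
  cov : ∀ α, (∃ β, β < α) → ∀ x < φ α, ∃ β < α, ∃ f ∈ F β α, ∃ y < φ β, f y = x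
  covG : ∀ i : Ω, ∃ β, ∃ f ∈ G β, ∃ y < φ β, f y = i

/-- derived properties: `y i ξ` is the place of `i` at level `ξ` -/
structure Der (φ : O → O) (F : O → O → Set (O → O)) (G : O → Set (O → Ω)) (y : Ω → O → O) :
    Prop where
  lt : ∀ i ξ, y i ξ < φ ξ
  ex : ∀ i ξ, ∃ f ∈ G ξ, f (y i ξ) = i
  un : ∀ ξ, ∀ f ∈ G ξ, ∀ τ < φ ξ, y (f τ) ξ = τ
  up : ∀ ξ η, ξ < η → ∀ f ∈ G ξ, ∃ g ∈ F ξ η, ∀ τ < φ ξ, y (f τ) η = g τ
  pull : ∀ ξ η, ξ < η → ∀ h ∈ F ξ η, ∀ x < φ ξ, ∀ i, y i η = h x → y i ξ = x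
  tree : ∀ ξ η, ξ ≤ η → ∀ i j, y i η = y j η → y i ξ = y j ξ
  dir : ∀ i j ξ, ∃ η, ξ < η ∧ ∃ f ∈ G η, f (y i η) = i ∧ f (y j η) = j
  inc : ∀ ξ η, ξ < η → ∀ g ∈ F ξ η, ∀ x < φ ξ, g x < φ η ∧ ∀ y < x, g y < g x
  incG : ∀ ξ, ∀ f ∈ G ξ, ∀ x < φ ξ, ∀ y < x, f y < f x
  bl : ∀ ξ η, ξ < η → ∀ g ∈ F ξ η, ∀ g' ∈ F ξ η, ∀ τ < φ ξ, g τ = g' τ → ∀ σ < τ, g σ = g' σ
  blG : ∀ ξ, ∀ f ∈ G ξ, ∀ f' ∈ G ξ, ∀ τ < φ ξ, f τ = f' τ → ∀ σ < τ, f σ = f' σ
  fac : ∀ α β γ, α < β → β < γ → ∀ f ∈ F α γ, ∃ g ∈ F α β, ∃ h ∈ F β γ, ∀ x < φ α, f x = h (g x)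
  facG : ∀ α β, α < β → ∀ f ∈ G α, ∃ g ∈ F α β, ∃ h ∈ G β, ∀ x < φ α, f x = h (g x)
  lim : ∀ ξ, Lim ξ → ∀ i, ∀ σ < y i ξ, ∃ η < ξ, ∃ h ∈ F η ξ, h (y i η) = y i ξ ∧ ∃ σ' < y i η, h σ' = σ

/-- the indices which are below the branch `z` from the level `ξ` on -/
def KS (F : O → O → Set (O → O)) (y : Ω → O → O) (z : O → O) (ξ : O) : Set Ω :=
  {k | y k ξ < z ξ ∧ ∀ η, ξ < η → ∃ g ∈ F ξ η, g (z ξ) = z η ∧ g (y k ξ) = y k η}

end defs

/-! ### From the morass to `Der` -/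

/-- MBL (basic lemma), 120 lines.  Induction on `β` (for all `α < β`).  If `β` is the successor of `γ`
(`∃ γ < β` with nothing in between) and `α = γ`: by `suc` `g`, `g'` are (below `φ α`) the identity or `s`
(which is increasing below `φ α` since it equals a member of `F α β`, so `s x < φ α` only for `x < σ`, where
`s x = x`).  If `α < γ` factor `g = h ∘ k`, `g' = h' ∘ k'` through `γ` (`fac`), use the case `γ, β` for
`h (k τ) = h' (k' τ')` (giving `k τ = k' τ'` and `h = h'` below it) and the induction hypothesis for `k`, `k'`.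
If `β` is a limit: `dir` gives `g = h ∘ k`, `g' = h ∘ k'` with `k, k' ∈ F α δ`, `δ < β`; `h` is injective
below `φ δ`; induction hypothesis.  `bG`: the same with `dirG`, using `bF`. -/
structure SpecMBL : Prop where
  bF : ∀ (O Ω : Type) [LinearOrder O] [WellFoundedLT O] [LinearOrder Ω] (φ : O → O)
    (F : O → O → Set (O → O)) (G : O → Set (O → Ω)), Mor φ F G → ∀ α β, α < β → ∀ g ∈ F α β,
    ∀ g' ∈ F α β, ∀ τ < φ α, ∀ τ' < φ α, g τ = g' τ' → τ = τ' ∧ ∀ σ < τ, g σ = g' σ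
  bG : ∀ (O Ω : Type) [LinearOrder O] [WellFoundedLT O] [LinearOrder Ω] (φ : O → O)
    (F : O → O → Set (O → O)) (G : O → Set (O → Ω)), Mor φ F G → ∀ α, ∀ g ∈ G α,
    ∀ g' ∈ G α, ∀ τ < φ α, ∀ τ' < φ α, g τ = g' τ' → τ = τ' ∧ ∀ σ < τ, g σ = g' σ

/-- MCV, 70 lines.  `cF`: induction on `β`: `cov` gives `β' < β`, `f ∈ F β' β`, `f y' = x`; if `β' = α` done;
if `α < β'` the induction hypothesis gives `y' = g y''`, `g ∈ F α β'`, and use `com`; if `β' < α` use `fac` through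
`α` (`x = h (g y')`).  `cG`: the same with `covG`, `comG`, `facG` and `cF`. -/
structure SpecMCV : Prop where
  cF : ∀ (O Ω : Type) [LinearOrder O] [WellFoundedLT O] [LinearOrder Ω] (φ : O → O)
    (F : O → O → Set (O → O)) (G : O → Set (O → Ω)), Mor φ F G → ∀ α β, α < β → ∀ x < φ β,
    ∃ f ∈ F α β, ∃ y < φ α, f y = x
  cG : ∀ (O Ω : Type) [LinearOrder O] [WellFoundedLT O] [LinearOrder Ω] (φ : O → O)
    (F : O → O → Set (O → O)) (G : O → Set (O → Ω)), Mor φ F G → ∀ α, ∀ i : Ω,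
    ∃ f ∈ G α, ∃ y < φ α, f y = i

/-- MDE, 150 lines.  Uses: MBL, MCV.  `y i ξ` = the element `x < φ ξ` with `f x = i` for some `f ∈ G ξ` (MCV).
`un`: MBL.bG.  `up`: `f = h ∘ g` (`facG`), `y (h (g τ)) η = g τ` by `un`.  `pull`: `f (y i η) = i`, `f ∘ h ∈ G ξ`
(`comG`), `un`.  `tree` (`ξ < η`): `f (y i ξ) = i`, `up` gives `y i η = g (y i ξ)`, so `y j η = g (y i ξ)`, `pull`.
`dir`: `dirG` for `β = γ = ξ` and the maps of `ex` for `i`, `j`: `i = h (f' (y i ξ))`, so by `un`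
`y i δ = f' (y i ξ)`.  `lim`: `σ` and `y i ξ` are in ranges of maps to the level `ξ` (`cov`), by `dir` of `Mor` in the
range of one `h ∈ F δ ξ`, `h σ' = σ`, `h τ' = y i ξ`; `y i δ = τ'` by `pull`; `σ' < τ'` since `h` is
increasing. -/
def SpecMDE : Prop := ∀ (O Ω : Type) [LinearOrder O] [WellFoundedLT O] [LinearOrder Ω] (φ : O → O)
  (F : O → O → Set (O → O)) (G : O → Set (O → Ω)), Mor φ F G → ∃ y : Ω → O → O, Der φ F G y

/-! ### All branches are given by elements of `ω_2` -/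

/-- WFB, 60 lines.  A descending sequence `z n` with levels `ξ n`; the countable set of the `ξ n` has an
upper bound `ξ` (otherwise `O` is the union of the countable sets `Iic (ξ n)`, but `#O = ℵ_1`); `z n ξ` is a
descending sequence in `O`.  (`wellFounded_iff_isEmpty_descending_chain` or similar.) -/
def SpecWFB : Prop := ∀ (O : Type) [LinearOrder O] [WellFoundedLT O], IsO1 O →
  WellFounded (fun z' z : O → O => ∃ ξ, ∀ η ≥ ξ, z' η < z η)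

/-- KDN, 130 lines.  For `η ≥ ξ` choose `i η` with `y (i η) = z` up to `η`, `f η ∈ G ξ` with `f η (z ξ) = i η`
(`ex`, `y (i η) ξ = z ξ`) and `k η = f η τ`.  For `ξ ≤ η ≤ η'` the functions `y (k η)`, `y (k η')` agree up to
`η`: at `ξ` both are `τ` (`un`), below `ξ` by `tree`; for `ξ < ζ ≤ η` `up` for `f η` gives `g ∈ F ξ ζ` with
`g (z ξ) = y (i η) ζ = z ζ`, `g τ = y (k η) ζ`, the same for `η'`, and `bl`.  `z' ζ = y (k (max ξ ζ)) ζ`. -/
def SpecKDN : Prop := ∀ (O Ω : Type) [LinearOrder O] [LinearOrder Ω] (φ : O → O)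
  (F : O → O → Set (O → O)) (G : O → Set (O → Ω)) (y : Ω → O → O), Der φ F G y →
  ∀ z, Clo (Set.range y) z → ∀ ξ, ∀ τ < z ξ, ∃ z', Clo (Set.range y) z' ∧ z' ξ = τ ∧
    (∀ η ≥ ξ, z' η < z η) ∧ ∀ η, ξ < η → ∃ g ∈ F ξ η, g (z ξ) = z η ∧ g τ = z' η

/-- KPR, 170 lines (may be split).  `real`: `f ∈ G ξ`, `f (y δ ξ) = δ`, `k = f τ`, `un`, `up`.
`mono`: let `η < θ`; `g ∈ F ξ θ` with `g (z ξ) = z θ`, `g (y k ξ) = y k θ`; `g = h ∘ g1` through `η` (`fac`);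
`h (g1 (z ξ)) = z θ = y i θ` where `y i = z` up to `θ`, so `z η = y i η = g1 (z ξ)` by `pull`, and the same for `k`; so
`h` is as required; `y k η < z η` since (membership of `k` at `η`) both are images under one increasing map.
`ord`: `dir` for `k, k'` gives `η > ξ` and an increasing `f` with `f (y k η) = k`, `f (y k' η) = k'`; the maps
`g`, `g'` for `k`, `k'` at `η` satisfy `g (z ξ) = z η = g' (z ξ)`, so by `bl` agree at `y k' ξ < z ξ`; so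
`k < k'` iff `y k η < y k' η` iff `y k ξ < y k' ξ`.  `down`: `dir` for `j, i` gives `η > ξ`, `f ∈ G η`;
`i ∈ KS z η` (mono); for `θ > η` take `g` for `i` and `g'` from `up` for `f`: `g (y i η) = y i θ = g' (y i η)`, so
`g (y j η) = g' (y j η) = y j θ` by `bl` as `y j η < y i η`.  `below`: from left to right `dir`, `up`; from
right to left `dir` and mono (`y k η < y δ η`). -/
structure SpecKPR : Prop where
  real : ∀ (O Ω : Type) [LinearOrder O] [LinearOrder Ω] (φ : O → O)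
    (F : O → O → Set (O → O)) (G : O → Set (O → Ω)) (y : Ω → O → O), Der φ F G y →
    ∀ δ ξ, ∀ τ < y δ ξ, ∃ k ∈ KS F y (y δ) ξ, y k ξ = τ
  mono : ∀ (O Ω : Type) [LinearOrder O] [LinearOrder Ω] (φ : O → O)
    (F : O → O → Set (O → O)) (G : O → Set (O → Ω)) (y : Ω → O → O), Der φ F G y →
    ∀ z, Clo (Set.range y) z → ∀ ξ η, ξ ≤ η → KS F y z ξ ⊆ KS F y z η
  ord : ∀ (O Ω : Type) [LinearOrder O] [LinearOrder Ω] (φ : O → O)
    (F : O → O → Set (O → O)) (G : O → Set (O → Ω)) (y : Ω → O → O), Der φ F G y →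
    ∀ z, Clo (Set.range y) z → ∀ ξ, ∀ k ∈ KS F y z ξ, ∀ k' ∈ KS F y z ξ, (k < k' ↔ y k ξ < y k' ξ)
  down : ∀ (O Ω : Type) [LinearOrder O] [LinearOrder Ω] (φ : O → O)
    (F : O → O → Set (O → O)) (G : O → Set (O → Ω)) (y : Ω → O → O), Der φ F G y →
    ∀ z, Clo (Set.range y) z → ∀ ξ, ∀ i ∈ KS F y z ξ, ∀ j < i, ∃ η, j ∈ KS F y z η
  below : ∀ (O Ω : Type) [Nonempty O] [LinearOrder O] [LinearOrder Ω] (φ : O → O)
    (F : O → O → Set (O → O)) (G : O → Set (O → Ω)) (y : Ω → O → O), Der φ F G y →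
    ∀ δ k, k < δ ↔ ∃ ξ, k ∈ KS F y (y δ) ξ

/-- KLM, 150 lines.  Uses: KPR.  It suffices: above every `ζ` there is `ξ` with `KS z ξ = KS w ξ`: then
`{τ < z ξ} = {y k ξ : k ∈ KS z ξ} = {τ < w ξ}`, so `z ξ = w ξ`, and for `i`, `j` with `y i = z`, `y j = w` up to `ξ`
`tree` gives `z ζ = w ζ`.  `KS z ξ` is countable (injective image, by `ord`, in `Iio (z ξ)`), increasing in
`ξ`, so (countable sets are bounded in `O`) there are `ζ < ξ_0 < ξ_1 < ..` with `KS z ξ_n ⊆ KS w ξ_(n+1)`,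
`KS w ξ_n ⊆ KS z ξ_(n+1)`; `ξ` = the least upper bound, `Lim ξ`.  `KS z ξ` is the union of the `KS z ξ_n`: for
`k ∈ KS z ξ`, `y i = z` up to `ξ`, `lim` for `σ = y k ξ < y i ξ` gives `η < ξ`, `h`, `σ' < z η`; by hypothesis
`σ' = y k' η` for a `k' ∈ KS z η`, so `y k' ξ = g σ' = h σ' = y k ξ` (`bl`), `k' = k` by `ord`.  Same for
`w`. -/
def SpecKLM : Prop := ∀ (O Ω : Type) [LinearOrder O] [WellFoundedLT O] [LinearOrder Ω], IsO1 O →
  ∀ (φ : O → O) (F : O → O → Set (O → O)) (G : O → Set (O → Ω)) (y : Ω → O → O), Der φ F G y →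
  ∀ z w, Clo (Set.range y) z → Clo (Set.range y) w →
  (∀ ξ, ∀ τ < z ξ, ∃ k ∈ KS F y z ξ, y k ξ = τ) → (∀ ξ, ∀ τ < w ξ, ∃ k ∈ KS F y w ξ, y k ξ = τ) →
  (∀ k, (∃ ξ, k ∈ KS F y z ξ) ↔ ∃ ξ, k ∈ KS F y w ξ) → z = w

/-- KCL, 110 lines.  Uses: WFB, KDN, KPR, KLM.  WFB induction on `z`: all `z' <* z` in the closure are of the
form `y k`, so by KDN `∀ τ < z ξ, ∃ k ∈ KS z ξ, y k ξ = τ`.  `D = ⋃ ξ, KS z ξ` has size `≤ ℵ_1` (each
`KS z ξ` is countable, by `ord` and `Iio (z ξ)`), so there is a least `δ ∉ D`; `D = Iio δ` (`down`)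
`= ⋃ ξ, KS (y δ) ξ` (`below`).  KLM for `z` and `w = y δ` (with `real`). -/
def SpecKCL : Prop := ∀ (O Ω : Type) [LinearOrder O] [WellFoundedLT O] [LinearOrder Ω]
  [WellFoundedLT Ω], IsO1 O → IsO2 Ω →
  ∀ (φ : O → O) (F : O → O → Set (O → O)) (G : O → Set (O → Ω)) (y : Ω → O → O), Der φ F G y →
  ∀ z, Clo (Set.range y) z → ∃ i, y i = z

/-! ### The colouring -/

/-- MSP, 80 lines.  Enumerate the family (empty: trivial) by `ℕ`; choose recursively pairwise different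
points `p n, q n ∈ A n` (infinite minus finite is nonempty); `S = {p n}`. -/
def SpecMSP : Prop := ∀ (X : Type) (𝒜 : Set (Set X)), 𝒜.Countable → (∀ A ∈ 𝒜, A.Infinite) →
  ∃ S : Set X, ∀ A ∈ 𝒜, (∃ a ∈ A, a ∈ S) ∧ ∃ a ∈ A, a ∉ S

/-- MCO, 140 lines.  Uses: MSP.  The pairs `(ξ₀, A)`, `A ⊆ Iio (φ ξ₀)` infinite, are `≤ ℵ_1 * 2 ^ ℵ₀ = ℵ_1` many,
so there is an injection `ν` of them into `O`.  `𝒜 ξ = {g '' A : ν (ξ₀, A) ≤ ξ, ξ₀ < ξ, g ∈ F ξ₀ ξ}` is a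
countable family (`cnt`; `Iic ξ` is countable) of infinite sets (`g` is injective below `φ ξ₀`); `S ξ` from
MSP; `ζ = ν (ξ₀, A)`. -/
def SpecMCO : Prop := (2 : Cardinal.{0}) ^ ℵ₀ = ℵ_ 1 → ∀ (O : Type) [LinearOrder O], IsO1 O →
  ∀ (φ : O → O) (F : O → O → Set (O → O)),
  (∀ α β, α < β → ∀ f ∈ F α β, ∀ x < φ α, ∀ y < x, f y < f x) →
  (∀ α β, α < β → ∃ C : Set (O → O), C.Countable ∧ ∀ f ∈ F α β, ∃ g ∈ C, ∀ x < φ α, f x = g x) →
  ∃ S : O → Set O, ∀ (ξ₀ : O) (A : Set O), (∀ a ∈ A, a < φ ξ₀) → A.Infinite →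
    ∃ ζ, ∀ ξ, ζ < ξ → ξ₀ < ξ → ∀ g ∈ F ξ₀ ξ, (∃ a ∈ A, g a ∈ S ξ) ∧ ∃ a ∈ A, g a ∉ S ξ

/-- MBD, 100 lines.  `A` has a strict upper bound `j` (otherwise `Ω = ⋃ i ∈ A, Iic i` has size `≤ ℵ_1`; if
`i` is maximal take any `j > i`).  For `i ∈ A` `dir` gives `η i` and `f i ∈ G (η i)` with `i, j` in the range;
`ξ` = a strict upper bound of the `η i` in `O`; `f ∈ G ξ` with `f (y j ξ) = j`.  By `facG` `f i = h ∘ g`, so by `un`
`h (y i ξ) = i`, `h (y j ξ) = j = f (y j ξ)`; `y i ξ < y j ξ` since `h` is increasing (`incG`) and `i < j`; `blG`. -/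
def SpecMBD : Prop := ∀ (O Ω : Type) [LinearOrder O] [LinearOrder Ω], IsO1 O → IsO2 Ω →
  ∀ (φ : O → O) (F : O → O → Set (O → O)) (G : O → Set (O → Ω)) (y : Ω → O → O), Der φ F G y →
  ∀ A : Set Ω, A.Countable → ∃ ξ, ∃ f ∈ G ξ, ∀ i ∈ A, f (y i ξ) = i

/-- MFN, 120 lines.  Uses: ZTH, MDE, KCL, MSP, MCO, MBD.  ZTH for `X = O`, `Y = range y`, `kap ξ x := x ∈ S ξ`.
`y` is injective (`dir`), `Thin Y` (`tree`: one representative for each `x < φ ξ`).  In both cases there is an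
injective `i : ℕ → Ω` (second case: KCL) such that `y (i n) ξ`, `n ∈ ℕ`, has the same colour at uncountably
many `ξ`; MBD for `range i` gives `ξ₀`, `f`; `A = {y (i n) ξ₀}` is infinite; `up` for `f`; MCO. -/
def SpecMFN : Prop := (2 : Cardinal.{0}) ^ ℵ₀ = ℵ_ 1 → ∀ (O Ω : Type) [LinearOrder O]
  [WellFoundedLT O] [LinearOrder Ω] [WellFoundedLT Ω], IsO1 O → IsO2 Ω →
  ∀ (φ : O → O) (F : O → O → Set (O → O)) (G : O → Set (O → Ω)), Mor φ F G →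
  ∀ (B : Type) [CompleteBooleanAlgebra B] (e : Nam Ω → B), IsBC e → ¬ BFA B O (ℵ_ 1)

end Pool.Agent.Lib.MPd89457.NB
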