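import Pool.Agent.Lib.MP_d89457_lc.NB.Main
import Pool.Agent.Lib.MP_d89457_lc.NB.SpecM

/-!
# MP_d89457_lc, NB: all parameters of the bounded axiom when `BFA(N)` fails
-/

set_option autoImplicit false

namespace Pool.Agent.Lib.MPd89457.NB

open Cardinal

/-- if `BFA(N)` fails then `BFA B ι lam` holds for infinite `lam` only if `ι` is countable -/
theorem iff_countable_of_not (Ω : Type) (hΩ : #Ω = ℵ_ 2)
    (B : Type) [CompleteBooleanAlgebra B] (e : Nam Ω → B) (he : IsBC e) (O : Type) (hO : #O = ℵ_ 1)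
    (hn : ¬ BFA B O (ℵ_ 1)) (ι : Type) (lam : Cardinal.{0}) (hlam : ℵ₀ ≤ lam) :
    BFA B ι lam ↔ Countable ι := by
  obtain ⟨h1, _, _, h4, _⟩ := (allTPS Ω hΩ).2 B e he
  constructor
  · intro h
    by_contra hc
    have h' : BFA B ι ℵ₀ := fun A hA hl => h A hA fun i => (hl i).trans hlam
    have hle : #O ≤ #ι := by
      rw [hO, ← Cardinal.succ_aleph0]
      apply Order.succ_le_of_lt
      rw [← not_le]
      exact fun h2 => hc (Cardinal.mk_le_aleph0_iff.1 h2)
    have hneO : Nonempty O := by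
      rw [← mk_ne_zero_iff, hO]
      exact (aleph_pos 1).ne'
    obtain ⟨⟨g, hg⟩⟩ := hle
    have h2 : BFA B O ℵ₀ := by
      intro A hA hl
      obtain ⟨G, hG, hGA⟩ := h' (fun i => A (Function.invFun g i)) (fun i => hA _) (fun i => hl _)
      refine ⟨G, hG, fun o => ?_⟩
      have h3 := hGA (g o)
      rw [Function.leftInverse_invFun hg o] at h3
      exact h3
    exact hn ((h4 O hO).1 h2)
  · intro hc A hA _
    exact h1 ι hc A hA

end Pool.Agent.Lib.MPd89457.NB
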