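import Pool.Agent.Lib.MP_d89457_lc.NB.SpecR

/-!
# MP_d89457_lc, module MWC: a simplified morass gives the covering form of Silver's principle W
-/

set_option autoImplicit false

namespace Pool.Agent.Lib.MPd89457.NB

open Cardinal

namespace MWCM

/-- countable subsets of `ω_2` have strict upper bounds (copy of `MBDM.bound2`) -/
theorem bound2 {Ω : Type} [LinearOrder Ω] (hΩ : IsO2 Ω) (A : Set Ω) (hA : A.Countable) :
    ∃ j, ∀ i ∈ A, i < j := by
  by_contra hcon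
  have hcov : ∀ j : Ω, ∃ i ∈ A, j ≤ i := by
    intro j
    by_contra h1
    apply hcon
    refine ⟨j, fun i hi => ?_⟩
    by_contra h2
    exact h1 ⟨i, hi, not_lt.1 h2⟩
  have hIic : ∀ i : Ω, #(Set.Iic i) ≤ ℵ_ 1 := by
    intro i
    have h1 : Set.Iic i = insert i (Set.Iio i) := by
      ext x
      simp only [Set.mem_Iic, Set.mem_insert_iff, Set.mem_Iio]
      exact le_iff_eq_or_lt
    rw [h1]
    refine mk_insert_le.trans ?_
    exact add_le_of_le (aleph0_le_aleph 1) (hΩ.2 i) (one_le_aleph0.trans (aleph0_le_aleph 1))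
  have huniv : (Set.univ : Set Ω) = ⋃ i : A, Set.Iic (i : Ω) := by
    ext x
    simp only [Set.mem_univ, true_iff, Set.mem_iUnion, Set.mem_Iic]
    obtain ⟨i, hi, hx⟩ := hcov x
    exact ⟨⟨i, hi⟩, hx⟩
  have hcard : #Ω ≤ ℵ_ 1 := by
    rw [← mk_univ, huniv]
    refine (mk_iUnion_le _).trans ?_
    refine mul_le_of_le (aleph0_le_aleph 1) ?_ ?_
    · exact ((le_aleph0_iff_set_countable).2 hA).trans (aleph0_le_aleph 1)
    · exact ciSup_le' fun i => hIic i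
  rw [hΩ.1] at hcard
  exact absurd hcard (not_le.2 (aleph_lt_aleph.2 (by norm_num)))

/-- the nodes of level `ξ` which are below the node `t` for some map of the morass from level `ε` -/
def D {O : Type} [LinearOrder O] (φ : O → O) (F : O → O → Set (O → O)) (ε ξ t : O) : Set O :=
  {s | ∃ g ∈ F ε ξ, ∃ τ < φ ε, ∃ σ < τ, g τ = t ∧ g σ = s}

end MWCM

/-- **MWC** -/
theorem specMWC (hKCL : SpecKCL) (hMBD : SpecMBD) : SpecMWC := by
  intro O Ω _ _ _ _ hO hΩ φ F G y hD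
  have hIio : ∀ ξ : O, (Set.Iio ξ).Countable := fun ξ => (hO.2 ξ).mono Set.Iio_subset_Iic_self
  have hne : Nonempty O := by
    rw [← mk_ne_zero_iff, hO.1]
    exact (aleph_pos 1).ne'
  refine ⟨O, Set.range y,
    fun ξ => (fun p : O × O => MWCM.D φ F p.1 ξ p.2) '' (Set.Iio ξ ×ˢ Set.Iio (φ ξ)),
    ?_, ?_, ?_, ?_, ?_, ?_⟩
  · rintro _ ⟨i, rfl⟩ _ ⟨j, rfl⟩ ξ h ζ hζ
    exact hD.tree ζ ξ hζ i j h
  · intro z hz
    exact hKCL O Ω hO hΩ φ F G y hD z hz
  · have hinj : Function.Injective y := by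
      intro i j hij
      obtain ⟨η, -, f, -, h1, h2⟩ := hD.dir i j hne.some
      rw [← h1, ← h2, hij]
    rw [mk_range_eq y hinj, hΩ.1]
  · intro ξ
    refine (hIio (φ ξ)).mono ?_
    rintro x ⟨_, ⟨i, rfl⟩, rfl⟩
    exact hD.lt i ξ
  · intro ξ
    exact ((hIio ξ).prod (hIio (φ ξ))).image _
  · intro q hq
    choose i hi using hq
    obtain ⟨j, hj⟩ := MWCM.bound2 hΩ (Set.range i) (Set.countable_range i)
    obtain ⟨ε, f, hf, hfA⟩ := hMBD O Ω hO hΩ φ F G y hD (insert j (Set.range i))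
      ((Set.countable_range i).insert j)
    have hfj : f (y j ε) = j := hfA j (Set.mem_insert _ _)
    have hfi : ∀ n, f (y (i n) ε) = i n := fun n =>
      hfA (i n) (Set.mem_insert_of_mem _ ⟨n, rfl⟩)
    have hlt : ∀ n, y (i n) ε < y j ε := by
      intro n
      have h1 : i n < j := hj (i n) ⟨n, rfl⟩
      by_contra h2
      rcases (not_lt.1 h2).eq_or_lt with h3 | h3
      · have h4 := hfi n
        rw [← h3, hfj] at h4
        exact absurd h4.symm h1.ne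
      · have h4 := hD.incG ε f hf (y (i n) ε) (hD.lt (i n) ε) (y j ε) h3
        rw [hfi n, hfj] at h4
        exact absurd h4 (not_lt.2 h1.le)
    refine ⟨ε, fun ξ hξ => ?_⟩
    obtain ⟨g, hg, hgy⟩ := hD.up ε ξ hξ f hf
    refine ⟨MWCM.D φ F ε ξ (y j ξ), ⟨(ε, y j ξ), ⟨hξ, hD.lt j ξ⟩, rfl⟩, ?_, ?_⟩
    · intro n
      refine ⟨g, hg, y j ε, hD.lt j ε, y (i n) ε, hlt n, ?_, ?_⟩
      · have h1 := hgy (y j ε) (hD.lt j ε)
        rw [hfj] at h1
        exact h1.symm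
      · have h1 := hgy (y (i n) ε) (hD.lt (i n) ε)
        rw [hfi n] at h1
        rw [← hi n]
        exact h1.symm
    · rintro _ ⟨a, rfl⟩ _ ⟨b, rfl⟩ ⟨g1, hg1, τ1, hτ1, σ1, hσ1, ht1, hs1⟩
        ⟨g2, hg2, τ2, hτ2, σ2, hσ2, ht2, hs2⟩ hab
      have e1 : y j ε = τ1 := hD.pull ε ξ hξ g1 hg1 τ1 hτ1 j ht1.symm
      have e2 : y j ε = τ2 := hD.pull ε ξ hξ g2 hg2 τ2 hτ2 j ht2.symm
      have e3 : y a ε = σ1 := hD.pull ε ξ hξ g1 hg1 σ1 (hσ1.trans hτ1) a hs1.symm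
      have e4 : y b ε = σ2 := hD.pull ε ξ hξ g2 hg2 σ2 (hσ2.trans hτ2) b hs2.symm
      have e5 : τ2 = τ1 := e2.symm.trans e1
      subst e5
      have e6 : σ1 = σ2 := by rw [← e3, ← e4, hab]
      subst e6
      have h1 := hD.bl ε ξ hξ g1 hg1 g2 hg2 τ2 hτ1 (ht1.trans ht2.symm) σ1 hσ1
      rw [← hs1, ← hs2, h1]

end Pool.Agent.Lib.MPd89457.NB
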