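import Pool.Agent.Lib.MP_d89457_lc.NB.Spec

/-!
# MP_d89457, NB, module PDN: pure decision
-/

set_option autoImplicit false

namespace Pool.Agent.Lib.MPd89457.NB

open Cardinal

namespace PDNM

theorem aleph_two : ℵ_ 2 = Order.succ (ℵ_ 1) := by
  rw [Cardinal.succ_aleph]
  norm_num

theorem lt_two_iff (c : Cardinal.{0}) : c < ℵ_ 2 ↔ c ≤ ℵ_ 1 := by
  rw [aleph_two, Order.lt_succ_iff]

theorem card_diff {Ω : Type} {S A : Set Ω} (hS : #S = ℵ_ 2) (hA : #A ≤ ℵ_ 1) :
    #(S \ A : Set Ω) = ℵ_ 2 := by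
  refine le_antisymm ?_ ?_
  · rw [← hS]
    exact Cardinal.mk_le_mk_of_subset Set.diff_subset
  · by_contra hlt
    rw [not_le] at hlt
    have h1 : #S ≤ #(S \ A : Set Ω) + #A := by
      refine (Cardinal.mk_le_mk_of_subset ?_).trans (Cardinal.mk_union_le _ _)
      intro x hx
      by_cases h : x ∈ A
      · exact Or.inr h
      · exact Or.inl ⟨hx, h⟩
    have h2 : #(S \ A : Set Ω) + #A < ℵ_ 2 :=
      Cardinal.add_lt_of_lt (Cardinal.aleph0_le_aleph 2) hlt ((lt_two_iff _).2 hA)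
    exact absurd (hS ▸ h1) (not_le.2 h2)

theorem suf_antisymm {Ω : Type} {a b : List Ω} (h1 : a <:+ b) (h2 : b <:+ a) : a = b :=
  h1.eq_of_length_le h2.length_le

/-- two one-entry extensions of `t` which are suffixes of the same list are equal -/
theorem cons_suf_inj {Ω : Type} {t v : List Ω} {γ γ' : Ω} (h1 : γ :: t <:+ v)
    (h2 : γ' :: t <:+ v) : γ = γ' := by
  have h3 : γ :: t <:+ γ' :: t :=
    List.suffix_of_suffix_length_le h1 h2 (by simp)
  have h4 := h3.eq_of_length (by simp)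
  exact (List.cons.inj h4).1

end PDNM

theorem specPDN (hTRE : SpecTRE) (hBAS : SpecBAS) : SpecPDN := by
  classical
  intro Ω B _ e he T s W hT hW hWc
  let good : List Ω → Prop := fun t => ∃ R : Set (List Ω), R ⊆ T ∧ IsNam R t ∧ ∃ w ∈ W, ev e R ≤ w
  by_contra hcon
  have hns : ¬ good s := hcon
  obtain ⟨hsT, hTsuf, hTcmp, hTcard⟩ := id hT
  -- (i)
  have hi : ∀ t ∈ T, s <:+ t → ¬ good t → #{γ : Ω // γ :: t ∈ T ∧ good (γ :: t)} ≤ ℵ_ 1 := by
    intro t ht hst hng
    by_contra hbig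
    rw [← PDNM.lt_two_iff, not_lt] at hbig
    apply hng
    have hch : ∀ g : {γ : Ω // γ :: t ∈ T ∧ good (γ :: t)}, ∃ (R : Set (List Ω)) (w : W),
        R ⊆ T ∧ IsNam R (g.1 :: t) ∧ ev e R ≤ w := by
      rintro ⟨γ, hγ, R, hR1, hR2, w, hw, hR3⟩
      exact ⟨R, ⟨w, hw⟩, hR1, hR2, hR3⟩
    choose Rf wf hRT hRN hRw using hch
    have hcof : #W < (ℵ_ 2 : Cardinal.{0}).ord.cof := by
      have hreg : (ℵ_ 2 : Cardinal.{0}).IsRegular := by
        rw [PDNM.aleph_two]
        exact Cardinal.isRegular_succ (Cardinal.aleph0_le_aleph 1)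
      rw [hreg.cof_ord, PDNM.lt_two_iff]
      exact hWc
    obtain ⟨w, hw⟩ := Cardinal.infinite_pigeonhole_card wf (ℵ_ 2) hbig
      (Cardinal.aleph0_le_aleph 2) hcof
    let Γ : Set Ω := Subtype.val '' (wf ⁻¹' {w})
    have hΓcard : (ℵ_ 2 : Cardinal.{0}) ≤ #Γ := by
      rw [Cardinal.mk_image_eq Subtype.val_injective]
      exact hw
    let R : Set (List Ω) := {v | ∃ g : {γ : Ω // γ :: t ∈ T ∧ good (γ :: t)}, wf g = w ∧ v ∈ Rf g}
    have hRT' : R ⊆ T := by
      rintro v ⟨g, _, hv⟩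
      exact hRT g hv
    have hRsuf : ∀ v ∈ R, ∀ u, u <:+ v → u ∈ R := by
      rintro v ⟨g, hg, hv⟩ u huv
      exact ⟨g, hg, (hRN g).2.1 v hv u huv⟩
    -- long nodes
    have hlong : ∀ v ∈ R, t <:+ v → v ≠ t → ∃ g : {γ : Ω // γ :: t ∈ T ∧ good (γ :: t)},
        wf g = w ∧ v ∈ Rf g ∧ g.1 :: t <:+ v := by
      rintro v ⟨g, hg, hv⟩ htv hvt
      refine ⟨g, hg, hv, ?_⟩
      rcases (hRN g).2.2.1 v hv with h | h
      · rcases List.suffix_cons_iff.1 h with h | h
        · rw [h]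
        · exact absurd (PDNM.suf_antisymm h htv) hvt
      · exact h
    have hne : (wf ⁻¹' {w}).Nonempty := by
      rw [Set.nonempty_iff_ne_empty]
      intro h0
      rw [h0, Cardinal.mk_emptyCollection] at hw
      have := (Cardinal.aleph_pos 2).trans_le hw
      exact lt_irrefl _ this
    obtain ⟨g0, hg0⟩ := hne
    have htR : t ∈ R := by
      refine ⟨g0, hg0, (hRN g0).2.1 _ (hRN g0).1 t (List.suffix_cons _ _)⟩
    have hRNam : IsNam R t := by
      refine ⟨htR, hRsuf, ?_, ?_⟩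
      · rintro v ⟨g, _, hv⟩
        rcases (hRN g).2.2.1 v hv with h | h
        · rcases List.suffix_cons_iff.1 h with h | h
          · right
            rw [h]
            exact List.suffix_cons _ _
          · exact Or.inl h
        · exact Or.inr ((List.suffix_cons _ _).trans h)
      · intro v hv htv
        refine le_antisymm ?_ ?_
        · rw [← hTcard v (hRT' hv) (hst.trans htv)]
          exact Cardinal.mk_le_mk_of_subset (s := {γ | γ :: v ∈ R}) (t := {γ | γ :: v ∈ T})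
            (fun γ hγ => hRT' hγ)
        · by_cases hvt : v = t
          · subst hvt
            refine hΓcard.trans ?_
            refine Cardinal.mk_le_mk_of_subset (s := Γ) (t := {γ | γ :: v ∈ R}) ?_
            rintro _ ⟨g, hg, rfl⟩
            exact ⟨g, hg, (hRN g).1⟩
          · obtain ⟨g, hg, hvg, hsuf⟩ := hlong v hv htv hvt
            rw [← (hRN g).2.2.2 v hvg hsuf]
            exact Cardinal.mk_le_mk_of_subset (s := {γ | γ :: v ∈ Rf g})
              (t := {γ | γ :: v ∈ R}) (fun γ hγ => ⟨g, hg, hγ⟩)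
    refine ⟨R, hRT', hRNam, w.1, w.2, ?_⟩
    refine hBAS.den Ω B e he R t w.1 (t.length + 1) hRNam ?_
    intro R' u hR' hR'R htu hlen
    have hut : u ≠ t := by
      rintro rfl
      omega
    obtain ⟨g, hg, hug, hgu⟩ := hlong u (hR'R hR'.1) htu hut
    have hsub : R' ⊆ Rf g := by
      intro v hv
      rcases hR'.2.2.1 v hv with h | h
      · exact (hRN g).2.1 u hug v h
      · have htv : t <:+ v := htu.trans h
        have hvt : v ≠ t := by
          rintro rfl
          have := h.length_le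
          omega
        obtain ⟨g', _, hvg', hsuf'⟩ := hlong v (hR'R hv) htv hvt
        have h5 : g.1 = g'.1 := PDNM.cons_suf_inj (hgu.trans h) hsuf'
        have h6 : g = g' := Subtype.ext h5
        rw [h6]
        exact hvg'
    have h7 : ev e R' ≤ w.1 := by
      refine (hBAS.mono Ω B e he R' (Rf g) u _ hR' (hRN g) hsub).trans ?_
      have h8 := hRw g
      rw [hg] at h8
      exact h8
    rw [inf_eq_left.2 h7]
    exact hBAS.pos Ω B e he R' u hR'
  -- (ii)
  let H : Set (List Ω) := {t | t ∈ T ∧ ∀ v, s <:+ v → v <:+ t → ¬ good v}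
  have hHN : IsNam H s := by
    refine ⟨⟨hsT, fun v h1 h2 => ?_⟩, ?_, ?_, ?_⟩
    · rw [← PDNM.suf_antisymm h1 h2]
      exact hns
    · rintro t ⟨ht, hv⟩ u hut
      exact ⟨hTsuf t ht u hut, fun v h1 h2 => hv v h1 (h2.trans hut)⟩
    · rintro t ⟨ht, _⟩
      exact hTcmp t ht
    · rintro t ⟨ht, hv⟩ hst
      have h1 := hi t ht hst (hv t hst (List.suffix_refl t))
      have h2 : ({γ | γ :: t ∈ H} : Set Ω) =
          {γ | γ :: t ∈ T} \ {γ | γ :: t ∈ T ∧ good (γ :: t)} := by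
        ext γ
        constructor
        · rintro ⟨h3, h4⟩
          exact ⟨h3, fun h5 => h4 (γ :: t) (hst.trans (List.suffix_cons _ _))
            (List.suffix_refl _) h5.2⟩
        · rintro ⟨h3, h4⟩
          refine ⟨h3, fun v h5 h6 => ?_⟩
          rcases List.suffix_cons_iff.1 h6 with h7 | h7
          · rw [h7]
            exact fun h8 => h4 ⟨h3, h8⟩
          · exact hv v h5 h7
      have h3 : #({γ | γ :: t ∈ H} : Set Ω) = ℵ_ 2 := by
        rw [h2]
        exact PDNM.card_diff (hTcard t ht hst) h1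
      exact h3
  obtain ⟨w, hw, hwH⟩ := hW.2.2 (ev e H) (hBAS.pos Ω B e he H s hHN)
  rw [inf_comm] at hwH
  obtain ⟨R, u, hR, hRH, hsu, _, hRw⟩ := hBAS.below Ω B e he H s w 0 hHN hwH
  have huH : u ∈ H := hRH hR.1
  exact huH.2 u hsu (List.suffix_refl u) ⟨R, fun v hv => (hRH hv).1, hR, w, hw, hRw⟩

end Pool.Agent.Lib.MPd89457.NB
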