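import Pool.Agent.Lib.MP_d89457_lc.NB.Spec

/-!
# MP_d89457_lc, module RSK: the Rasiowa-Sikorski lemma
-/

set_option autoImplicit false

namespace Pool.Agent.Lib.MPd89457.NB

namespace RSKM

variable {B : Type} [CompleteBooleanAlgebra B]

theorem step {ι : Type} (A : ι → Set B) (hA : ∀ i, MaxAnti (A i)) (x : {b : B // b ≠ ⊥}) (i : ι) :
    ∃ y : {b : B // b ≠ ⊥}, (y : B) ≤ x ∧ ∃ a ∈ A i, (y : B) ≤ a := by
  obtain ⟨a, ha, hne⟩ := (hA i).2.2 x x.2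
  exact ⟨⟨a ⊓ x, hne⟩, inf_le_right, a, ha, inf_le_left⟩

end RSKM

theorem specRSK : SpecRSK := by
  intro B _ hB ι hι A hA
  rcases isEmpty_or_nonempty ι with he | hne
  · refine ⟨{⊤}, ⟨⟨⊤, rfl⟩, ?_, ?_, ?_⟩, fun i => (he.false i).elim⟩
    · intro h
      exact bot_ne_top (Set.mem_singleton_iff.mp h)
    · intro a ha b hab
      rw [Set.mem_singleton_iff.mp ha] at hab
      exact top_le_iff.mp hab
    · intro a ha b hb
      rw [Set.mem_singleton_iff.mp ha, Set.mem_singleton_iff.mp hb]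
      exact inf_idem ⊤
  · obtain ⟨s, hs⟩ := exists_surjective_nat ι
    choose F h1 h2 using RSKM.step A hA
    obtain ⟨X, hX0, hXs⟩ : ∃ X : ℕ → {b : B // b ≠ ⊥}, X 0 = ⟨⊤, top_ne_bot⟩ ∧
        ∀ n, X (n + 1) = F (X n) (s n) :=
      ⟨fun n => Nat.rec ⟨⊤, top_ne_bot⟩ (fun n x => F x (s n)) n, rfl, fun _ => rfl⟩
    have hanti : Antitone (fun n => (X n : B)) := by
      apply antitone_nat_of_succ_le
      intro n
      show (X (n + 1) : B) ≤ X n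
      rw [hXs n]
      exact h1 (X n) (s n)
    refine ⟨{c | ∃ n, (X n : B) ≤ c}, ⟨⟨⊤, 0, le_top⟩, ?_, ?_, ?_⟩, ?_⟩
    · rintro ⟨n, hn⟩
      exact (X n).2 (le_bot_iff.mp hn)
    · rintro a ⟨n, hn⟩ b hab
      exact ⟨n, hn.trans hab⟩
    · rintro a ⟨n, hn⟩ b ⟨m, hm⟩
      exact ⟨max n m, le_inf ((hanti (le_max_left n m)).trans hn) ((hanti (le_max_right n m)).trans hm)⟩
    · intro i
      obtain ⟨n, rfl⟩ := hs i
      obtain ⟨a, ha, hle⟩ := h2 (X n) (s n)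
      refine ⟨a, ⟨n + 1, ?_⟩, ha⟩
      rw [hXs n]
      exact hle

end Pool.Agent.Lib.MPd89457.NB
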