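import Pool.Agent.Lib.MP_d89457_lc.NB.SpecS

/-!
# MP_d89457_lc, module TPS: assembly of the sharp forms
-/

set_option autoImplicit false

namespace Pool.Agent.Lib.MPd89457.NB

open Cardinal

namespace TPSM

theorem bfa_mono {B : Type} [CompleteBooleanAlgebra B] {ι : Type} {l l' : Cardinal.{0}}
    (h : l ≤ l') (hB : BFA B ι l') : BFA B ι l := fun A hA hl => hB A hA fun i => (hl i).trans h

theorem opn_sup {Ω : Type} {B : Type} [CompleteBooleanAlgebra B] (e : Nam Ω → B) (W : ℕ → Set B)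
    (X : Set B) (hX : ∀ x ∈ X, Opn e W x) : Opn e W (sSup X) := by
  refine ⟨{m | Cell e W m ∧ ∃ x ∈ X, m ≤ x}, fun m hm => hm.1, le_antisymm ?_ ?_⟩
  · refine sSup_le fun x hx => ?_
    obtain ⟨S, hS, hxS⟩ := hX x hx
    rw [hxS]
    refine sSup_le fun m hm => le_sSup ⟨hS m hm, x, hx, ?_⟩
    rw [hxS]
    exact le_sSup hm
  · refine sSup_le fun m hm => ?_
    obtain ⟨-, x, hx, hmx⟩ := hm
    exact hmx.trans (le_sSup hx)

end TPSM

open TPSM in
theorem specTPS (hRSK : SpecRSK) (hULT : SpecULT) (hLAD : SpecLAD) (hEXB : SpecEXB)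
    (hTRE : SpecTRE) (hBAS : SpecBAS) (hLDP : SpecLDP) (hCLP : SpecCLP) (hMTO : SpecMTO) :
    SpecTPS := by
  intro Ω hΩ
  refine ⟨hEXB (Nam Ω), ?_⟩
  intro B _ e he
  have hnt : Nontrivial B :=
    nontrivial_of_ne _ _ (hBAS.pos Ω B e he Set.univ [] (hTRE.full Ω hΩ))
  have h12 : (ℵ_ 1 : Cardinal.{0}) ≤ ℵ_ 2 := Cardinal.aleph_le_aleph.2 (by norm_num)
  have h01 : (ℵ₀ : Cardinal.{0}) ≤ ℵ_ 1 := Cardinal.aleph0_le_aleph 1
  refine ⟨fun ι hι A hA => hRSK B hnt ι hι A hA, fun ι A hA hf => hULT B hnt ι A hA hf, ?_, ?_, ?_⟩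
  · intro ι hι
    have hne : Nonempty Ω := by
      rw [← Cardinal.mk_ne_zero_iff, hΩ]
      exact (Cardinal.aleph_pos 2).ne'
    have hle : #Ω ≤ #ι := by rw [hΩ]; exact hι
    obtain ⟨g⟩ := Cardinal.le_def Ω ι |>.1 hle
    obtain ⟨A', hA', hc', ho', hno'⟩ := hCLP Ω B e hΩ he
    obtain ⟨A, hA, hc, ho, hno⟩ : ∃ A : Ω → Set B, (∀ i, MaxAnti (A i)) ∧ (∀ i, (A i).Countable) ∧
        (∀ i, ∀ a ∈ A i, Opn e (fun _ => {⊤}) a) ∧
        ¬ ∃ G : Set B, IsFilt G ∧ ∀ i, (G ∩ A i).Nonempty := by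
      by_contra hcon
      apply hno'
      refine hLDP B (Opn e (fun _ => {⊤})) (opn_sup e _) Ω (by rw [hΩ]; exact h12) ?_ A' hA' hc' ho'
      intro A hA hc ho
      by_contra hG
      exact hcon ⟨A, hA, hc, ho, hG⟩
    refine ⟨fun i => A (Function.invFun g i), fun i => hA _, fun i => hc _, fun i => ho _, ?_⟩
    rintro ⟨G, hG, h⟩
    refine hno ⟨G, hG, fun k => ?_⟩
    obtain ⟨i, hi⟩ := Function.invFun_surjective g.injective k
    have h1 : (G ∩ A (Function.invFun g i)).Nonempty := h i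
    rwa [hi] at h1
  · intro ι hι
    exact ⟨hLAD B ι hι.ge, bfa_mono h01⟩
  · intro W hW hWc ι hι A hA hAb
    exact hMTO Ω B e hΩ he W hW hWc ι hι A hA hAb

end Pool.Agent.Lib.MPd89457.NB
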