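import Pool.Agent.Lib.MP_d89457_lc.NB.Spec

/-! ULT: an ultrafilter meets all finite maximal antichains. -/

set_option autoImplicit false

namespace Pool.Agent.Lib.MPd89457.NB

namespace ULTM

variable {B : Type} [CompleteBooleanAlgebra B]

/-- there is a set which behaves like a prime ideal -/
theorem exists_prime (hB : Nontrivial B) : ∃ J : Set B, ⊤ ∉ J ∧ ⊥ ∈ J ∧
    (∀ a b, a ≤ b → b ∈ J → a ∈ J) ∧ (∀ a ∈ J, ∀ b ∈ J, a ⊔ b ∈ J) ∧
    ∀ a b, a ⊓ b ∈ J → a ∈ J ∨ b ∈ J := by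
  have hdis : Disjoint ((Order.PFilter.principal (⊤ : B) : Order.PFilter B) : Set B)
      ((Order.Ideal.principal (⊥ : B) : Order.Ideal B) : Set B) := by
    rw [Set.disjoint_left]
    intro x hx hx'
    have h1 : (⊤ : B) ≤ x := hx
    have h2 : x ≤ (⊥ : B) := hx'
    exact top_ne_bot (le_bot_iff.1 (h1.trans h2))
  obtain ⟨J, hJ, -, hFJ⟩ := DistribLattice.prime_ideal_of_disjoint_filter_ideal hdis
  refine ⟨J, ?_, J.bot_mem, fun a b hab hb => J.lower hab hb,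
    fun a ha b hb => J.sup_mem ha hb, fun a b h => hJ.mem_or_mem h⟩
  exact Set.disjoint_left.1 hFJ (show (⊤ : B) ≤ ⊤ from le_rfl)

theorem sSup_eq_top {A : Set B} (hA : MaxAnti A) : sSup A = ⊤ := by
  by_contra h
  have h1 : (sSup A)ᶜ ≠ ⊥ := fun h' => h (compl_eq_bot.1 h')
  obtain ⟨a, ha, hne⟩ := hA.2.2 _ h1
  apply hne
  have h2 : a ⊓ (sSup A)ᶜ ≤ sSup A ⊓ (sSup A)ᶜ := inf_le_inf_right _ (le_sSup ha)
  rw [inf_compl_self] at h2
  exact le_bot_iff.1 h2

theorem sup_mem {J : Set B} (hbot : ⊥ ∈ J) (hsup : ∀ a ∈ J, ∀ b ∈ J, a ⊔ b ∈ J) (s : Finset B)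
    (hs : ∀ a ∈ s, a ∈ J) : s.sup id ∈ J :=
  Finset.sup_induction hbot hsup hs

end ULTM

open ULTM in
/-- An ultrafilter meets all finite maximal antichains. -/
theorem specULT : SpecULT := by
  intro B _ hB ι A hA hfin
  obtain ⟨J, htop, hbot, hlow, hsup, hprime⟩ := exists_prime hB
  refine ⟨{x | x ∉ J}, ⟨⟨⊤, htop⟩, fun h => h hbot, fun a ha b hab hb => ha (hlow a b hab hb), ?_⟩,
    ?_⟩
  · intro a ha b hb h
    rcases hprime a b h with h | h
    · exact ha h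
    · exact hb h
  · intro i
    by_contra hcon
    rw [Set.not_nonempty_iff_eq_empty] at hcon
    have h1 : ∀ a ∈ (hfin i).toFinset, a ∈ J := by
      intro a ha
      by_contra haJ
      have h2 : a ∈ {x | x ∉ J} ∩ A i := ⟨haJ, (Set.Finite.mem_toFinset _).1 ha⟩
      rw [hcon] at h2
      exact h2
    have h2 := sup_mem hbot hsup _ h1
    rw [Finset.sup_id_eq_sSup, Set.Finite.coe_toFinset, sSup_eq_top (hA i)] at h2
    exact htop h2

end Pool.Agent.Lib.MPd89457.NB
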