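import Pool.Agent.Lib.MP_d89457_lc.NB.Spec

/-!
# VAL: negation and Boolean values of the Borel codes
-/

set_option autoImplicit false

namespace Pool.Agent.Lib.MPd89457.NB

open Cardinal

namespace VALM

theorem res_sub {Ω : Type} (T : Set (List Ω)) (t : List Ω) : res T t ⊆ T := fun _ h => h.1

theorem val_le (hTRE : SpecTRE) (hBAS : SpecBAS) (Ω : Type) (B : Type) [CompleteBooleanAlgebra B]
    (e : Nam Ω → B) (he : IsBC e) (T : Set (List Ω)) (hT : IsNam T []) (c : Cod Ω) :
    c.val e T ≤ ev e T := by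
  induction c with
  | lev n D =>
    show sSup {x | ∃ t, t ∈ T ∧ t.length = n ∧ t ∈ D ∧ x = ev e (res T t)} ≤ ev e T
    apply sSup_le
    rintro x ⟨t, ht, _, _, rfl⟩
    exact hBAS.mono Ω B e he (res T t) T t [] (hTRE.res Ω T [] t hT ht (List.nil_suffix)) hT
      (res_sub T t)
  | or f ih =>
    show (⨆ k, (f k).val e T) ≤ ev e T
    exact iSup_le ih
  | and f ih =>
    show (⨅ k, (f k).val e T) ≤ ev e T
    exact (iInf_le _ 0).trans (ih 0)

theorem compl_of {B : Type} [CompleteBooleanAlgebra B] {x y z : B} (h1 : x ⊓ y = ⊥)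
    (h2 : x ⊔ y = z) : y = z ⊓ xᶜ := by
  apply le_antisymm
  · refine le_inf (h2 ▸ le_sup_right) ?_
    exact (disjoint_iff.2 (by rw [inf_comm, h1])).le_compl_right
  · rw [← h2, inf_sup_right, inf_compl_self, bot_sup_eq]
    exact inf_le_left

theorem lev_neg (hTRE : SpecTRE) (hBAS : SpecBAS) (Ω : Type) (B : Type) [CompleteBooleanAlgebra B]
    (e : Nam Ω → B) (he : IsBC e) (T : Set (List Ω)) (hT : IsNam T []) (n : ℕ)
    (D : Set (List Ω)) :
    (Cod.lev n Dᶜ).val e T = ev e T ⊓ ((Cod.lev n D).val e T)ᶜ := by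
  have hres : ∀ t ∈ T, IsNam (res T t) t := fun t ht => hTRE.res Ω T [] t hT ht (List.nil_suffix)
  apply compl_of
  · show sSup {x | ∃ t, t ∈ T ∧ t.length = n ∧ t ∈ D ∧ x = ev e (res T t)} ⊓
      sSup {x | ∃ t, t ∈ T ∧ t.length = n ∧ t ∈ Dᶜ ∧ x = ev e (res T t)} = ⊥
    rw [← disjoint_iff, sSup_disjoint_iff]
    rintro x ⟨t, ht, htn, htD, rfl⟩
    rw [disjoint_sSup_iff]
    rintro y ⟨t', ht', htn', htD', rfl⟩
    rw [disjoint_iff]
    refine hBAS.dis Ω B e he (res T t) (res T t') t t' t t' (hres t ht) (hres t' ht')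
      (fun u hu => hu.2) (fun u hu => hu.2) ?_
    rintro (h | h)
    · have h1 : t = t' := h.eq_of_length (by rw [htn, htn'])
      rw [h1] at htD
      exact htD' htD
    · have h1 : t' = t := h.eq_of_length (by rw [htn, htn'])
      rw [h1] at htD'
      exact htD' htD
  · apply le_antisymm
    · exact sup_le (val_le hTRE hBAS Ω B e he T hT (Cod.lev n D))
        (val_le hTRE hBAS Ω B e he T hT (Cod.lev n Dᶜ))
    · refine hBAS.den Ω B e he T [] _ n hT ?_
      intro R u hR hRT _ hn
      have hpos := hBAS.pos Ω B e he R u hR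
      set t : List Ω := u.drop (u.length - n) with ht
      have htu : t <:+ u := List.drop_suffix _ _
      have htl : t.length = n := by
        rw [ht, List.length_drop]
        omega
      have huT : u ∈ T := hRT hR.1
      have htT : t ∈ T := hT.2.1 u huT t htu
      have hsub : R ⊆ res T t := by
        intro v hv
        refine ⟨hRT hv, ?_⟩
        rcases hR.2.2.1 v hv with h | h
        · exact List.suffix_or_suffix_of_suffix h htu
        · exact Or.inr (htu.trans h)
      have h1 : ev e R ≤ ev e (res T t) := hBAS.mono Ω B e he R (res T t) u t hR (hres t htT) hsub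
      have h2 : ev e (res T t) ≤ (Cod.lev n D).val e T ⊔ (Cod.lev n Dᶜ).val e T := by
        by_cases hD : t ∈ D
        · refine le_trans ?_ le_sup_left
          show ev e (res T t) ≤ sSup {x | ∃ t, t ∈ T ∧ t.length = n ∧ t ∈ D ∧ x = ev e (res T t)}
          exact le_sSup ⟨t, htT, htl, hD, rfl⟩
        · refine le_trans ?_ le_sup_right
          show ev e (res T t) ≤ sSup {x | ∃ t, t ∈ T ∧ t.length = n ∧ t ∈ Dᶜ ∧ x = ev e (res T t)}
          exact le_sSup ⟨t, htT, htl, hD, rfl⟩
      rw [inf_eq_left.2 (h1.trans h2)]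
      exact hpos

end VALM

open VALM

theorem specVAL (hTRE : SpecTRE) (hBAS : SpecBAS) : SpecVAL := by
  refine ⟨?_, ?_, ?_⟩
  · intro Ω c b
    induction c with
    | lev n D => exact Iff.rfl
    | or f ih =>
      show (∀ k, (f k).neg.holds b) ↔ ¬ ∃ k, (f k).holds b
      rw [not_exists]
      exact forall_congr' ih
    | and f ih =>
      show (∃ k, (f k).neg.holds b) ↔ ¬ ∀ k, (f k).holds b
      rw [not_forall]
      exact exists_congr ih
  · intro Ω B _ e he T hT c
    exact val_le hTRE hBAS Ω B e he T hT c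
  · intro Ω B _ e he T hT c
    induction c with
    | lev n D => exact lev_neg hTRE hBAS Ω B e he T hT n D
    | or f ih =>
      show (⨅ k, (f k).neg.val e T) = ev e T ⊓ (⨆ k, (f k).val e T)ᶜ
      rw [compl_iSup, inf_iInf]
      exact iInf_congr ih
    | and f ih =>
      show (⨆ k, (f k).neg.val e T) = ev e T ⊓ (⨅ k, (f k).val e T)ᶜ
      rw [compl_iInf, inf_iSup_eq]
      exact iSup_congr ih

end Pool.Agent.Lib.MPd89457.NB
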