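import Pool.Agent.Lib.MP_d89457_lc.NB.TRE
import Pool.Agent.Lib.MP_d89457_lc.NB.BAS
import Pool.Agent.Lib.MP_d89457_lc.NB.PDN
import Pool.Agent.Lib.MP_d89457_lc.NB.FUS
import Pool.Agent.Lib.MP_d89457_lc.NB.VAL
import Pool.Agent.Lib.MP_d89457_lc.NB.CLO
import Pool.Agent.Lib.MP_d89457_lc.NB.CONN
import Pool.Agent.Lib.MP_d89457_lc.NB.GSD
import Pool.Agent.Lib.MP_d89457_lc.NB.GAM
import Pool.Agent.Lib.MP_d89457_lc.NB.CMB
import Pool.Agent.Lib.MP_d89457_lc.NB.BCD
import Pool.Agent.Lib.MP_d89457_lc.NB.PRT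
import Pool.Agent.Lib.MP_d89457_lc.NB.LAD
import Pool.Agent.Lib.MP_d89457_lc.NB.LDP
import Pool.Agent.Lib.MP_d89457_lc.NB.RSK
import Pool.Agent.Lib.MP_d89457_lc.NB.ULT
import Pool.Agent.Lib.MP_d89457_lc.NB.EXB
import Pool.Agent.Lib.MP_d89457_lc.NB.CLP
import Pool.Agent.Lib.MP_d89457_lc.NB.MTO
import Pool.Agent.Lib.MP_d89457_lc.NB.TPS
import Pool.Agent.Lib.MP_d89457_lc.NB.CND

/-!
# MP_d89457_lc, NB: assembly
-/

set_option autoImplicit false

namespace Pool.Agent.Lib.MPd89457.NB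

theorem allBAS : SpecBAS := specBAS specTRE

theorem allVAL : SpecVAL := specVAL specTRE allBAS

theorem allPDN : SpecPDN := specPDN specTRE allBAS

theorem allFUS : SpecFUS := specFUS specTRE allBAS allPDN

theorem allGSD : SpecGSD := specGSD specTRE

theorem allGAM : SpecGAM := specGAM allBAS allVAL specCLO (specCON specTRE allBAS) allGSD

theorem allBCD : SpecBCD := specBCD specTRE allBAS allVAL

theorem allMTO : SpecMTO :=
  specMTO specTRE allBAS allFUS allVAL allGAM (specCMB specTRE) allBCD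

theorem allTPS : SpecTPS :=
  specTPS specRSK specULT (specLAD specPRT) specEXB specTRE allBAS (specLDP specPRT)
    (specCLP specTRE allBAS) allMTO

theorem allCND : SpecCND := specCND specTRE allBAS

end Pool.Agent.Lib.MPd89457.NB
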