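import Pool.Agent.Lib.MP_d89457_lc.NB.SpecK

/-!
# MP_d89457_lc: Namba trees all whose branches are injective above the stem
-/

set_option autoImplicit false

namespace Pool.Agent.Lib.MPd89457.NB

open Cardinal

namespace NEWM

theorem length_br {X : Type} (b : ℕ → X) (n : ℕ) : (br b n).length = n := by
  induction n with
  | zero => rfl
  | succ n ih => simp [br, ih]

theorem mem_br {X : Type} (b : ℕ → X) (n j : ℕ) (h : j < n) : b j ∈ br b n := by
  induction n with
  | zero => omega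
  | succ n ih =>
    show b j ∈ b n :: br b n
    rcases Nat.lt_succ_iff_lt_or_eq.1 h with h1 | h1
    · exact List.mem_cons_of_mem _ (ih h1)
    · rw [h1]; exact List.mem_cons_self

/-- the nodes without repetitions above the stem -/
def RR {Ω : Type} (T : Set (List Ω)) (s : List Ω) : Set (List Ω) :=
  {t | t ∈ T ∧ ∀ γ u, (γ :: u) <:+ t → s <:+ u → γ ∉ u}

theorem card_diff {Ω : Type} (A F : Set Ω) (hA : #A = ℵ_ 2) (hF : F.Finite) : ℵ_ 2 ≤ #(A \ F : Set Ω) := by
  by_contra h
  push Not at h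
  have h0 : ℵ₀ ≤ ℵ_ 2 := aleph0_le_aleph 2
  have h1 : #F < ℵ_ 2 := lt_of_lt_of_le (lt_aleph0_iff_finite.2 hF.to_subtype) h0
  have h2 : #A ≤ #(A \ F : Set Ω) + #F := by
    have h3 : A ⊆ (A \ F) ∪ F := by
      intro x hx
      by_cases hxF : x ∈ F
      · exact Or.inr hxF
      · exact Or.inl ⟨hx, hxF⟩
    exact (mk_le_mk_of_subset h3).trans (mk_union_le _ _)
  have h4 := add_lt_of_lt h0 h h1
  rw [hA] at h2
  exact absurd (lt_of_le_of_lt h2 h4) (lt_irrefl _)

theorem isNam_RR {Ω : Type} (T : Set (List Ω)) (s : List Ω) (hT : IsNam T s) : IsNam (RR T s) s := by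
  obtain ⟨h1, h2, h3, h4⟩ := hT
  refine ⟨⟨h1, ?_⟩, ?_, ?_, ?_⟩
  · intro γ u hu hs
    have e1 := hu.length_le
    have e2 := hs.length_le
    simp only [List.length_cons] at e1
    omega
  · rintro t ⟨ht, ht'⟩ u hu
    exact ⟨h2 t ht u hu, fun γ v hv hs => ht' γ v (hv.trans hu) hs⟩
  · rintro t ⟨ht, -⟩
    exact h3 t ht
  · rintro t ⟨ht, ht'⟩ hst
    have hA : #({γ : Ω | γ :: t ∈ T} : Set Ω) = ℵ_ 2 := h4 t ht hst
    have hF : ({γ : Ω | γ ∈ t} : Set Ω).Finite := List.finite_toSet t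
    have hsub : ({γ : Ω | γ :: t ∈ T} \ {γ : Ω | γ ∈ t} : Set Ω) ⊆ {γ : Ω | γ :: t ∈ RR T s} := by
      rintro γ ⟨hγ, hγt⟩
      refine ⟨hγ, ?_⟩
      intro γ' u hu hs
      rcases List.suffix_cons_iff.1 hu with h | h
      · have e1 : γ' = γ := (List.cons.inj h).1
        have e2 : u = t := (List.cons.inj h).2
        rw [e1, e2]
        exact hγt
      · exact ht' γ' u h hs
    apply le_antisymm
    · have hsub2 : ({γ : Ω | γ :: t ∈ RR T s} : Set Ω) ⊆ {γ : Ω | γ :: t ∈ T} := fun γ hγ => hγ.1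
      have := mk_le_mk_of_subset hsub2
      rw [hA] at this
      exact this
    · exact (card_diff _ _ hA hF).trans (mk_le_mk_of_subset hsub)

end NEWM

/-- **NEW** -/
theorem specNEW : SpecNEW := by
  intro Ω T s hT
  refine ⟨NEWM.RR T s, NEWM.isNam_RR T s hT, fun t ht => ht.1, ?_⟩
  intro b hb n hn j hj h
  have h1 : (b n :: br b n) ∈ NEWM.RR T s := hb (n + 1)
  have h2 : br b n ∈ NEWM.RR T s := hb n
  have hs : s <:+ br b n := by
    rcases hT.2.2.1 _ h2.1 with h3 | h3
    · have e1 : (br b n).length = s.length := by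
        have := h3.length_le
        rw [NEWM.length_br] at this ⊢
        have := hn
        omega
      have e2 : br b n = s := h3.eq_of_length e1
      rw [e2]
    · exact h3
  refine h1.2 (b n) (br b n) (List.suffix_refl _) hs ?_
  rw [h]
  exact NEWM.mem_br b n j hj

end Pool.Agent.Lib.MPd89457.NB
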