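import Pool.Agent.Lib.MP_d89457_lc.NB.SpecK

/-!
# MP_d89457_lc, module SFT: moving the stem of a Namba tree
-/

set_option autoImplicit false

namespace Pool.Agent.Lib.MPd89457.NB

open Cardinal

namespace SFTM

theorem append_suffix {Ω : Type} {u v : List Ω} (h : v <:+ u) (s : List Ω) : v ++ s <:+ u ++ s := by
  obtain ⟨w, rfl⟩ := h
  exact ⟨w, by rw [List.append_assoc]⟩

theorem suffix_of_append {Ω : Type} {u v s : List Ω} (h : v ++ s <:+ u ++ s) : v <:+ u := by
  obtain ⟨w, hw⟩ := h
  rw [← List.append_assoc] at hw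
  exact ⟨w, List.append_cancel_right hw⟩

theorem len_br {Ω : Type} (b : ℕ → Ω) (n : ℕ) : (br b n).length = n := by
  induction n with
  | zero => rfl
  | succ k ih =>
    change (b k :: br b k).length = k + 1
    rw [List.length_cons, ih]

theorem br_add {Ω : Type} (b : ℕ → Ω) (m n : ℕ) :
    br b (n + m) = br (fun k => b (k + m)) n ++ br b m := by
  induction n with
  | zero =>
    rw [Nat.zero_add]
    rfl
  | succ k ih =>
    have h : k + 1 + m = (k + m) + 1 := by omega
    rw [h]
    change b (k + m) :: br b (k + m) = (b (k + m) :: br (fun k => b (k + m)) k) ++ br b m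
    rw [ih, List.cons_append]

/-- the tree with the stem `s` -/
def up {Ω : Type} (R : Set (List Ω)) (s : List Ω) : Set (List Ω) :=
  {v | v <:+ s ∨ ∃ u ∈ R, v = u ++ s}

theorem mem_up {Ω : Type} {R : Set (List Ω)} {s : List Ω} (h0 : [] ∈ R) (u : List Ω) :
    u ++ s ∈ up R s ↔ u ∈ R := by
  constructor
  · rintro (h | ⟨u', hu', he⟩)
    · have h1 := h.length_le
      rw [List.length_append] at h1
      have h2 : u = [] := List.eq_nil_of_length_eq_zero (by omega)
      rw [h2]
      exact h0
    · rw [List.append_cancel_right he]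
      exact hu'
  · exact fun h => Or.inr ⟨u, h, rfl⟩

end SFTM

open SFTM in
theorem specSFT : SpecSFT := by
  refine ⟨?_, ?_⟩
  · intro Ω T s hT
    refine ⟨hT.1, ?_, ?_, ?_⟩
    · intro t ht u hu
      exact hT.2.1 (t ++ s) ht (u ++ s) (append_suffix hu s)
    · intro t _
      exact Or.inr (List.nil_suffix)
    · intro t ht _
      exact hT.2.2.2 (t ++ s) ht (List.suffix_append t s)
  · intro Ω T s R hT hRT hR
    have h0 : [] ∈ R := hR.1
    refine ⟨up R s, ⟨Or.inl List.suffix_rfl, ?_, ?_, ?_⟩, ?_, ?_⟩
    · rintro t (ht | ⟨u, hu, rfl⟩) v hv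
      · exact Or.inl (hv.trans ht)
      · rcases List.suffix_or_suffix_of_suffix hv (List.suffix_append u s) with h | h
        · exact Or.inl h
        · obtain ⟨w, rfl⟩ := h
          exact Or.inr ⟨w, hR.2.1 u hu w (suffix_of_append hv), rfl⟩
    · rintro t (ht | ⟨u, hu, rfl⟩)
      · exact Or.inl ht
      · exact Or.inr (List.suffix_append u s)
    · intro t ht hst
      obtain ⟨u, rfl⟩ := hst
      have hu : u ∈ R := (mem_up h0 u).mp ht
      rw [← hR.2.2.2 u hu List.nil_suffix]
      refine Cardinal.mk_congr (Equiv.subtypeEquivRight fun γ => ?_)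
      exact mem_up (s := s) h0 (γ :: u)
    · rintro t (ht | ⟨u, hu, rfl⟩)
      · exact hT.2.1 s hT.1 t ht
      · exact hRT hu
    · intro b hb n
      have h1 : br b s.length = s := by
        rcases hb s.length with h | ⟨u, hu, he⟩
        · exact h.eq_of_length (len_br b _)
        · have h2 := congrArg List.length he
          rw [len_br, List.length_append] at h2
          have h3 : u = [] := List.eq_nil_of_length_eq_zero (by omega)
          rw [h3, List.nil_append] at he
          exact he
      have h2 := hb (n + s.length)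
      rw [br_add, h1] at h2
      exact (mem_up h0 _).mp h2

end Pool.Agent.Lib.MPd89457.NB
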