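import Pool.Agent.Lib.MP_d89457_lc.NB.SpecK

/-!
# ZER: a tree all of whose branches avoid one colour at some level above `ε`
-/

set_option autoImplicit false

namespace Pool.Agent.Lib.MPd89457.NB

open Cardinal

namespace ZERM

/-- the nodes reached by the finite sequences of natural numbers -/
def node {Ω : Type} (q : List Ω → ℕ → Ω) : List ℕ → List Ω
  | [] => []
  | m :: l => q (node q l) m :: node q l

/-- the chosen path -/
def pth (M : List ℕ → ℕ) : ℕ → List ℕ
  | 0 => []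
  | n + 1 => M (pth M n) :: pth M n

theorem aleph1_lt : (ℵ_ 1 : Cardinal.{0}) < ℵ_ 2 := by
  rw [Cardinal.aleph_lt_aleph]
  exact one_lt_two

theorem diff_infinite {Ω : Type} {S X : Set Ω} (hS : #S = ℵ_ 2) (hX : #X ≤ ℵ_ 1) :
    (S \ X).Infinite := by
  intro hfin
  have h0 : #(S \ X : Set Ω) < ℵ₀ := hfin.lt_aleph0
  have h1 : #S ≤ #(S \ X : Set Ω) + #X := by
    refine (Cardinal.mk_le_mk_of_subset ?_).trans (Cardinal.mk_union_le (S \ X) X)
    intro z hz
    by_cases hzX : z ∈ X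
    · exact Or.inr hzX
    · exact Or.inl ⟨hz, hzX⟩
  have h2 : #(S \ X : Set Ω) ≤ ℵ_ 1 := h0.le.trans (Cardinal.aleph0_le_aleph 1)
  have h3 : #S ≤ ℵ_ 1 := by
    refine h1.trans ((add_le_add h2 hX).trans ?_)
    rw [Cardinal.add_eq_self (Cardinal.aleph0_le_aleph 1)]
  rw [hS] at h3
  exact absurd h3 (not_le.2 aleph1_lt)

end ZERM

open ZERM

theorem specZER (_hTRE : SpecTRE) (hGSD : SpecGSD) : SpecZER := by
  intro Ω hΩ O _ hO c hc T hT ε
  by_contra hcon
  push Not at hcon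
  -- the bad sets
  have hbad : ∀ ξ : O, ∃ Bad : List Ω → Set Ω, (∀ t, #(Bad t) ≤ ℵ_ 1) ∧
      (ε < ξ → ∀ b, Brn T b → (∀ n, b n ∉ Bad (br b n)) → ∃ n, c ξ (b n)) := by
    intro ξ
    by_cases hξ : ε < ξ
    · have hcl : ∀ (b : ℕ → Ω) (z : ℕ → ℕ), ¬ (fun (b : ℕ → Ω) (_ : ℕ → ℕ) => ∀ n, ¬ c ξ (b n)) b z →
          ∃ n, ∀ (b' : ℕ → Ω) (z' : ℕ → ℕ), br b' n = br b n → br z' n = br z n →
            ¬ (fun (b : ℕ → Ω) (_ : ℕ → ℕ) => ∀ n, ¬ c ξ (b n)) b' z' := by
        intro b z hb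
        have hb' : ¬ ∀ n, ¬ c ξ (b n) := hb
        push Not at hb'
        obtain ⟨n, hn⟩ := hb'
        refine ⟨n + 1, fun b' z' h1 _ h2 => ?_⟩
        have h2' : ∀ n, ¬ c ξ (b' n) := h2
        have h3 : b' n :: br b' n = b n :: br b n := h1
        have h4 : b' n = b n := (List.cons.inj h3).1
        apply h2' n
        rw [h4]
        exact hn
      rcases hGSD Ω hΩ T hT (fun b _ => ∀ n, ¬ c ξ (b n)) hcl with ⟨R, Z, hR, hRT, _, h2⟩ | ⟨Bad, h1, h2⟩
      · exfalso
        obtain ⟨b, hb, n, hn⟩ := hcon ξ hξ R hRT hR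
        exact h2 b hb n hn
      · refine ⟨Bad, h1, fun _ b hb hav => ?_⟩
        have h3 := h2 b hb hav (fun _ => 0)
        push Not at h3
        exact h3
    · refine ⟨fun _ => ∅, fun t => ?_, fun h => absurd h hξ⟩
      rw [Cardinal.mk_eq_zero]
      exact zero_le
  choose Bad hBad1 hBad2 using hbad
  -- their union
  have hX : ∀ t, #(⋃ ξ : O, Bad ξ t : Set Ω) ≤ ℵ_ 1 := by
    intro t
    refine Cardinal.mk_iUnion_le_sum_mk.trans ((Cardinal.sum_le_sum _ (fun _ => ℵ_ 1)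
      (fun ξ => hBad1 ξ t)).trans ?_)
    rw [Cardinal.sum_const', hO.1, Cardinal.mul_eq_self (Cardinal.aleph0_le_aleph 1)]
  have hq : ∀ t : List Ω, ∃ q : ℕ → Ω, t ∈ T → Function.Injective q ∧
      ∀ m, q m :: t ∈ T ∧ q m ∉ ⋃ ξ : O, Bad ξ t := by
    intro t
    by_cases ht : t ∈ T
    · have hS : #{γ : Ω // γ :: t ∈ T} = ℵ_ 2 := hT.2.2.2 t ht List.nil_suffix
      have hinf : ({γ : Ω | γ :: t ∈ T} \ ⋃ ξ : O, Bad ξ t).Infinite := diff_infinite hS (hX t)
      refine ⟨fun m => (hinf.natEmbedding _ m : Ω), fun _ => ⟨?_, ?_⟩⟩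
      · intro m n hmn
        exact (hinf.natEmbedding _).injective (Subtype.ext hmn)
      · intro m
        exact (hinf.natEmbedding _ m).2
    · have hne : Nonempty Ω := by
        rw [← Cardinal.mk_ne_zero_iff, hΩ]
        exact (Cardinal.aleph_pos 2).ne'
      exact ⟨fun _ => hne.some, fun h => absurd h ht⟩
  choose q hq using hq
  have hnode : ∀ l : List ℕ, node q l ∈ T := by
    intro l
    induction l with
    | nil => exact hT.1
    | cons m l ih => exact ((hq _ ih).2 m).1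
  -- a level outside of countably many countable sets
  have hcount : ((⋃ l : List ℕ, {ξ : O | ∀ m, c ξ (q (node q l) m)}) ∪ Set.Iic ε).Countable :=
    (Set.countable_iUnion fun l => hc _ (hq _ (hnode l)).1).union (hO.2 ε)
  obtain ⟨ξ, hξ⟩ : ∃ ξ : O, ξ ∉ (⋃ l : List ℕ, {ξ : O | ∀ m, c ξ (q (node q l) m)}) ∪ Set.Iic ε := by
    by_contra hall
    push Not at hall
    have h1 : (Set.univ : Set O).Countable := hcount.mono fun ξ _ => hall ξ
    have h2 : #O ≤ ℵ₀ := by
      rw [← Cardinal.mk_univ]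
      exact Cardinal.le_aleph0_iff_set_countable.2 h1
    rw [hO.1] at h2
    exact absurd h2 (not_le.2 Cardinal.aleph0_lt_aleph_one)
  have hξε : ε < ξ := not_le.1 fun h => hξ (Or.inr h)
  have hM : ∀ l : List ℕ, ∃ m, ¬ c ξ (q (node q l) m) := by
    intro l
    by_contra hall
    push Not at hall
    exact hξ (Or.inl (Set.mem_iUnion.2 ⟨l, hall⟩))
  choose M hM using hM
  set b : ℕ → Ω := fun n => q (node q (pth M n)) (M (pth M n)) with hb
  have hbr : ∀ n, br b n = node q (pth M n) := by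
    intro n
    induction n with
    | zero => rfl
    | succ n ih =>
      show b n :: br b n = q (node q (pth M n)) (M (pth M n)) :: node q (pth M n)
      rw [ih]
  have hBrn : Brn T b := by
    intro n
    rw [hbr n]
    exact hnode _
  obtain ⟨n, hn⟩ := hBad2 ξ hξε b hBrn (by
    intro n hn
    rw [hbr n] at hn
    exact ((hq _ (hnode (pth M n))).2 (M (pth M n))).2 (Set.mem_iUnion.2 ⟨ξ, hn⟩))
  exact hM (pth M n) hn

end Pool.Agent.Lib.MPd89457.NB
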