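import Pool.Agent.Lib.MP_d89457_lc.NB.SpecK

/-!
# ZEX (MP_d89457_lc): extraction of an infinite set of cofinal branches
-/

set_option autoImplicit false

namespace Pool.Agent.Lib.MPd89457.NB

open Cardinal

namespace ZEXM

lemma ex (hTRE : SpecTRE) (hLCL : SpecLCL) {Ω B : Type} [CompleteBooleanAlgebra B] {e : Nam Ω → B}
    (he : IsBC e) {G : Set B} (hG : IsFilt G) (L : List ((ℕ → Ω) → Prop))
    (hL : ∀ Φ ∈ L, tv e Φ ∈ G) : ∃ b : ℕ → Ω, ∀ Φ ∈ L, Φ b := by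
  obtain ⟨R, u, hR, hR2⟩ := hLCL.meet Ω B e he G hG L hL
  obtain ⟨b, hb, -⟩ := hTRE.branch Ω R u u hR hR.1
  exact ⟨b, fun Φ hΦ => hR2 Φ hΦ b hb⟩

lemma not_ctble {O : Type} [LinearOrder O] (hO : IsO1 O) (S : Set O) (hS : ∀ ε, ∃ ξ ∈ S, ε < ξ) :
    ¬ S.Countable := by
  intro hc
  have h1 : (⋃ ξ ∈ S, Set.Iic ξ).Countable := hc.biUnion fun ξ _ => hO.2 ξ
  have h2 : (Set.univ : Set O) ⊆ ⋃ ξ ∈ S, Set.Iic ξ := by
    intro ε _
    obtain ⟨ξ, hξ, hlt⟩ := hS ε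
    exact Set.mem_biUnion hξ hlt.le
  have h3 : (Set.univ : Set O).Countable := h1.mono h2
  have h4 : Countable O := Set.countable_univ_iff.1 h3
  have h5 : #O ≤ ℵ₀ := Cardinal.mk_le_aleph0_iff.2 h4
  rw [hO.1] at h5
  have h6 : ℵ₀ < ℵ_ 1 := Cardinal.aleph0_lt_aleph_one
  exact absurd h5 (not_le.2 h6)

end ZEXM

open ZEXM in
theorem specZEX (hTRE : SpecTRE) (hLCL : SpecLCL) : SpecZEX := by
  intro Ω B _ e he O X J _ hO y r kap G hG h1 h2 h3 h4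
  choose j hj using h1
  obtain ⟨m, hm⟩ := h3
  -- values of the names
  have hval : ∀ n ξ (Ψ : (ℕ → Ω) → Prop), tv e Ψ ∈ G →
      ∃ b : ℕ → Ω, Ψ b ∧ Agr ξ (y (b n)) (r ξ (j n ξ)) := by
    intro n ξ Ψ hΨ
    obtain ⟨b, hb⟩ := ex hTRE hLCL he hG [Ψ, fun b => Agr ξ (y (b n)) (r ξ (j n ξ))] (by
      intro Φ hΦ
      simp only [List.mem_cons, List.not_mem_nil, or_false] at hΦ
      rcases hΦ with rfl | rfl
      · exact hΨ
      · exact hj n ξ)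
    exact ⟨b, hb Ψ (by simp), hb (fun b => Agr ξ (y (b n)) (r ξ (j n ξ))) (by simp)⟩
  have hcoh : ∀ n ξ ζ, ζ ≤ ξ → r ξ (j n ξ) ζ = r ζ (j n ζ) ζ := by
    intro n ξ ζ hζ
    obtain ⟨b, hb1, hb2⟩ := hval n ζ _ (hj n ξ)
    rw [← hb1 ζ hζ, ← hb2 ζ le_rfl]
  obtain ⟨z, hz⟩ : ∃ z : ℕ → O → X, ∀ k ξ, z k ξ = r ξ (j (m + k) ξ) ξ := ⟨_, fun _ _ => rfl⟩
  have hclo : ∀ k, Clo (Set.range y) (z k) := by
    intro k ξ
    obtain ⟨b, -, hb⟩ := hval (m + k) ξ _ hm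
    refine ⟨y (b (m + k)), ⟨_, rfl⟩, ?_⟩
    intro ζ hζ
    rw [hb ζ hζ, hcoh (m + k) ξ ζ hζ, hz]
  have hinj : Function.Injective z := by
    intro k l hkl
    by_contra hne
    rcases h2 (m + k) (m + l) with ⟨ξ, hξ⟩ | h
    · obtain ⟨b, hb⟩ := ex hTRE hLCL he hG [fun b => y (b (m + k)) ξ ≠ y (b (m + l)) ξ,
        fun b => Agr ξ (y (b (m + k))) (r ξ (j (m + k) ξ)),
        fun b => Agr ξ (y (b (m + l))) (r ξ (j (m + l) ξ))] (by
        intro Φ hΦ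
        simp only [List.mem_cons, List.not_mem_nil, or_false] at hΦ
        rcases hΦ with rfl | rfl | rfl
        · exact hξ
        · exact hj (m + k) ξ
        · exact hj (m + l) ξ)
      have b1 := hb _ (List.mem_cons_self)
      have b2 := hb (fun b => Agr ξ (y (b (m + k))) (r ξ (j (m + k) ξ))) (by simp)
      have b3 := hb (fun b => Agr ξ (y (b (m + l))) (r ξ (j (m + l) ξ))) (by simp)
      apply b1
      show y (b (m + k)) ξ = y (b (m + l)) ξ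
      rw [b2 ξ le_rfl, b3 ξ le_rfl, ← hz, ← hz, hkl]
    · obtain ⟨b, hb⟩ := ex hTRE hLCL he hG [fun b => b (m + k) = b (m + l),
        fun b => ∀ n ≥ m, ∀ j < n, b n ≠ b j] (by
        intro Φ hΦ
        simp only [List.mem_cons, List.not_mem_nil, or_false] at hΦ
        rcases hΦ with rfl | rfl
        · exact h
        · exact hm)
      have b1 : b (m + k) = b (m + l) := hb (fun b => b (m + k) = b (m + l)) (by simp)
      have b2 := hb (fun b => ∀ n ≥ m, ∀ j < n, b n ≠ b j) (by simp)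
      rcases lt_or_gt_of_ne hne with hlt | hlt
      · exact b2 (m + l) (by omega) (m + k) (by omega) b1.symm
      · exact b2 (m + k) (by omega) (m + l) (by omega) b1
  have hkap : ∀ ε, ∃ ξ, ε < ξ ∧ ∃ p, ∀ k ≥ p, ¬ kap ξ (z k ξ) := by
    intro ε
    obtain ⟨ξ, hξ, p, hp⟩ := h4 ε
    refine ⟨ξ, hξ, p, ?_⟩
    intro k hk
    obtain ⟨b, hb1, hb2⟩ := hval (m + k) ξ _ hp
    have h := hb1 (m + k) (by omega)
    rw [hb2 ξ le_rfl, ← hz] at h
    exact h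
  have hex : ∃ p, ¬ {ξ | ∀ k ≥ p, ¬ kap ξ (z k ξ)}.Countable := by
    by_contra hcon
    push Not at hcon
    have hc : (⋃ p, {ξ | ∀ k ≥ p, ¬ kap ξ (z k ξ)}).Countable := Set.countable_iUnion hcon
    apply not_ctble hO _ ?_ hc
    intro ε
    obtain ⟨ξ, hξ, p, hp⟩ := hkap ε
    exact ⟨ξ, Set.mem_iUnion.2 ⟨p, hp⟩, hξ⟩
  obtain ⟨p, hp⟩ := hex
  refine ⟨fun k => z (k + p), ?_, fun n => hclo _, ?_⟩
  · intro k l hkl
    have := hinj hkl
    omega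
  · intro hc
    apply hp
    apply hc.mono
    intro ξ hξ n
    exact hξ (n + p) (by omega)

end Pool.Agent.Lib.MPd89457.NB
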