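import Pool.Agent.Lib.MP_d89457_lc.NB.SpecK

/-!
# MP_d89457_lc, module ZTH (helper87)
-/

set_option autoImplicit false

namespace Pool.Agent.Lib.MPd89457.NB

open Cardinal

theorem specZTH (hZGF : SpecZGF) (hZEX : SpecZEX) : SpecZTH := by
  intro Ω B _ e hΩ hBC O X _ hO hBFA Y kap hY hThin
  by_cases hfirst : ∃ y : ℕ → O → X, Function.Injective y ∧ (∀ n, y n ∈ Y) ∧
      ¬ {ξ | ∀ n, kap ξ (y n ξ)}.Countable
  · exact Or.inl hfirst
  · right
    -- an injection into `Y`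
    have h1 : #Ω ≤ #Y := by rw [hΩ]; exact hY
    obtain ⟨f⟩ := Cardinal.le_def _ _ |>.1 h1
    let y : Ω → O → X := fun γ => (f γ : O → X)
    have hyinj : Function.Injective y := fun a b hab => f.injective (Subtype.ext hab)
    have hyY : ∀ γ, y γ ∈ Y := fun γ => (f γ).2
    -- the levels
    choose S hS1 hS2 using hThin
    have hne : ∀ ξ, Nonempty (S ξ) := by
      intro ξ
      have hYne : (#Y) ≠ 0 := by
        intro h0
        rw [h0] at hY
        have h2 := (Cardinal.aleph_pos 2).trans_le hY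
        exact lt_irrefl _ h2
      obtain ⟨⟨y0, hy0⟩⟩ := Cardinal.mk_ne_zero_iff.1 hYne
      obtain ⟨z, hz, -⟩ := hS2 ξ y0 hy0
      exact ⟨⟨z, hz⟩⟩
    have hsurj : ∀ ξ, ∃ g : O → S ξ, Function.Surjective g := by
      intro ξ
      have h2 : #(S ξ) ≤ #O := by rw [hO.1]; exact hS1 ξ
      obtain ⟨i⟩ := Cardinal.le_def _ _ |>.1 h2
      have := hne ξ
      exact ⟨Function.invFun i, Function.invFun_surjective i.injective⟩
    choose g hg using hsurj
    let r : O → O → O → X := fun ξ j => (g ξ j : O → X)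
    have hr : ∀ ξ γ, ∃ j, Agr ξ (y γ) (r ξ j) := by
      intro ξ γ
      obtain ⟨z, hz, hag⟩ := hS2 ξ (y γ) (hyY γ)
      obtain ⟨j, hj⟩ := hg ξ ⟨z, hz⟩
      refine ⟨j, ?_⟩
      have h3 : r ξ j = z := congrArg Subtype.val hj
      rw [h3]
      exact hag
    have hcount : ∀ q : ℕ → Ω, Function.Injective q →
        {ξ | ∀ n, kap ξ (y (q n) ξ)}.Countable := by
      intro q hq
      by_contra hc
      exact hfirst ⟨fun n => y (q n), hyinj.comp hq, fun n => hyY (q n), hc⟩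
    obtain ⟨G, hG, g1, g2, g3, g4⟩ := hZGF Ω B e hΩ hBC O X O hO hO.1.le hBFA y r kap hyinj hr hcount
    obtain ⟨z, hz1, hz2, hz3⟩ := hZEX Ω B e hBC O X O hO y r kap G hG g1 g2 g3 g4
    refine ⟨z, hz1, fun n ξ => ?_, hz3⟩
    obtain ⟨y', ⟨γ, rfl⟩, hag⟩ := hz2 n ξ
    exact ⟨y γ, hyY γ, hag⟩

end Pool.Agent.Lib.MPd89457.NB
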