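import Pool.Agent.Lib.MP_d89457_lc.NB.Main
import Pool.Agent.Lib.MP_d89457_lc.NB.LCL
import Pool.Agent.Lib.MP_d89457_lc.NB.FAM
import Pool.Agent.Lib.MP_d89457_lc.NB.DNC
import Pool.Agent.Lib.MP_d89457_lc.NB.DCD
import Pool.Agent.Lib.MP_d89457_lc.NB.NEW
import Pool.Agent.Lib.MP_d89457_lc.NB.SFT
import Pool.Agent.Lib.MP_d89457_lc.NB.ZER
import Pool.Agent.Lib.MP_d89457_lc.NB.ZGF
import Pool.Agent.Lib.MP_d89457_lc.NB.ZEX
import Pool.Agent.Lib.MP_d89457_lc.NB.ZTH
import Pool.Agent.Lib.MP_d89457_lc.NB.ZCH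

/-!
# MP_d89457_lc, NB: assembly of the partition theorem
-/

set_option autoImplicit false

namespace Pool.Agent.Lib.MPd89457.NB

theorem allLCL : SpecLCL := specLCL allBAS

theorem allZER : SpecZER := specZER specTRE allGSD

theorem allZGF : SpecZGF :=
  specZGF specTRE allLCL specFAM (specDNC allBAS) (specDCD specTRE) specNEW specSFT allZER

theorem allZTH : SpecZTH := specZTH allZGF (specZEX specTRE allLCL)

theorem allZCH : SpecZCH := specZCH allZTH

end Pool.Agent.Lib.MPd89457.NB
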