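import Pool.Agent.Lib.MP_d89457_lc.NB.SpecM

/-!
# Module WFB: eventual domination is well-founded
-/

set_option autoImplicit false

namespace Pool.Agent.Lib.MPd89457.NB

open Cardinal

namespace WFBM

/-- countable sets are bounded -/
theorem bound {O : Type} [LinearOrder O] (h : IsO1 O) (a : ℕ → O) : ∃ ξ, ∀ n, a n ≤ ξ := by
  by_contra hcon
  push Not at hcon
  have h1 : (Set.univ : Set O) = ⋃ n, Set.Iic (a n) := by
    ext x
    simp only [Set.mem_univ, Set.mem_iUnion, Set.mem_Iic, true_iff]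
    obtain ⟨n, hn⟩ := hcon x
    exact ⟨n, hn.le⟩
  have h2 : (Set.univ : Set O).Countable := by
    rw [h1]
    exact Set.countable_iUnion fun n => h.2 (a n)
  have h3 : #O ≤ ℵ₀ := by
    rw [← Cardinal.mk_univ]
    exact Cardinal.le_aleph0_iff_set_countable.mpr h2
  rw [h.1] at h3
  exact absurd h3 (not_le.mpr aleph0_lt_aleph_one)

end WFBM

theorem specWFB : SpecWFB := by
  intro O _ _ hO
  rw [wellFounded_iff_isEmpty_descending_chain]
  refine ⟨?_⟩
  rintro ⟨z, hz⟩
  choose a ha using hz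
  obtain ⟨ξ, hξ⟩ := WFBM.bound hO a
  have hdesc : ∀ n, z (n + 1) ξ < z n ξ := fun n => ha n ξ (hξ n)
  have hwf : WellFounded ((· < ·) : O → O → Prop) := wellFounded_lt
  rw [wellFounded_iff_isEmpty_descending_chain] at hwf
  exact hwf.false ⟨fun n => z n ξ, hdesc⟩

end Pool.Agent.Lib.MPd89457.NB
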