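import Pool.Agent.Lib.MP_d89457_lc.NB.MainK
import Pool.Agent.Lib.MP_d89457_lc.NB.MBL
import Pool.Agent.Lib.MP_d89457_lc.NB.MCV
import Pool.Agent.Lib.MP_d89457_lc.NB.MDE
import Pool.Agent.Lib.MP_d89457_lc.NB.WFB
import Pool.Agent.Lib.MP_d89457_lc.NB.KDN
import Pool.Agent.Lib.MP_d89457_lc.NB.KPR
import Pool.Agent.Lib.MP_d89457_lc.NB.KLM
import Pool.Agent.Lib.MP_d89457_lc.NB.KCL
import Pool.Agent.Lib.MP_d89457_lc.NB.MSP
import Pool.Agent.Lib.MP_d89457_lc.NB.MCO
import Pool.Agent.Lib.MP_d89457_lc.NB.MBD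
import Pool.Agent.Lib.MP_d89457_lc.NB.MFN

/-!
# MP_d89457_lc, NB: assembly of the morass theorem
-/

set_option autoImplicit false

namespace Pool.Agent.Lib.MPd89457.NB

theorem allMDE : SpecMDE := specMDE specMBL specMCV

theorem allKCL : SpecKCL := specKCL specWFB specKDN specKPR (specKLM specKPR)

theorem allMFN : SpecMFN := specMFN allZTH allMDE allKCL (specMCO specMSP) specMBD

end Pool.Agent.Lib.MPd89457.NB
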