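import Pool.Agent.Lib.MP_d89457_lc.NB.MainM
import Pool.Agent.Lib.MP_d89457_lc.NB.CEQ
import Pool.Agent.Lib.MP_d89457_lc.NB.CEL
import Pool.Agent.Lib.MP_d89457_lc.NB.CES
import Pool.Agent.Lib.MP_d89457_lc.NB.CER
import Pool.Agent.Lib.MP_d89457_lc.NB.COS
import Pool.Agent.Lib.MP_d89457_lc.NB.CHS
import Pool.Agent.Lib.MP_d89457_lc.NB.MFP

/-!
# MP_d89457_lc, NB: assembly of the morass theorem without CH
-/

set_option autoImplicit false

namespace Pool.Agent.Lib.MPd89457.NB

theorem allMFP : SpecMFP :=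
  specMFP allZTH allMDE allKCL specMBD (specCEL specCEQ) specCES specCER specCOS

theorem allCHS : SpecCHS := specCHS specMSP

end Pool.Agent.Lib.MPd89457.NB
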