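import Pool.Agent.Lib.MP_d89457_lc.NB.MainK
import Pool.Agent.Lib.MP_d89457_lc.NB.ZERp
import Pool.Agent.Lib.MP_d89457_lc.NB.ZGFp
import Pool.Agent.Lib.MP_d89457_lc.NB.ZEXp
import Pool.Agent.Lib.MP_d89457_lc.NB.ZTP

/-!
# MP_d89457_lc, NB: assembly of the partition theorem for finite sequences
-/

set_option autoImplicit false

namespace Pool.Agent.Lib.MPd89457.NB

theorem allZTP : SpecZTP :=
  specZTP (specZGFp specTRE allLCL specFAM (specDNC allBAS) (specDCD specTRE) specNEW specSFT
    (specZERp allGSD)) (specZEXp specTRE allLCL)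

theorem allZCP : SpecZCP := specZCP allZTP

end Pool.Agent.Lib.MPd89457.NB
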