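import Pool.Agent.Lib.MP_d89457_lc.NB.MainN
import Pool.Agent.Lib.MP_d89457_lc.NB.MainP
import Pool.Agent.Lib.MP_d89457_lc.NB.BBA
import Pool.Agent.Lib.MP_d89457_lc.NB.BBB

/-!
# MP_d89457_lc, NB: assembly of part Q
-/

set_option autoImplicit false

namespace Pool.Agent.Lib.MPd89457.NB

theorem allBBA : SpecBBA :=
  specBBA allZTP allMDE allKCL specMBD (specCEL specCEQ) specCES specCER

end Pool.Agent.Lib.MPd89457.NB
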