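import Pool.Agent.Lib.MP_d89457_lc.NB.SpecR

/-!
# ZEXq (MP_d89457_lc): extraction of the cofinal branches, colouring with a bound of the level (copy of ZEXp)
-/

set_option autoImplicit false

namespace Pool.Agent.Lib.MPd89457.NB

open Cardinal

namespace ZEXqM

lemma ex (hTRE : SpecTRE) (hLCL : SpecLCL) {Ω B : Type} [CompleteBooleanAlgebra B] {e : Nam Ω → B}
    (he : IsBC e) {G : Set B} (hG : IsFilt G) (L : List ((ℕ → Ω) → Prop))
    (hL : ∀ Φ ∈ L, tv e Φ ∈ G) : ∃ b : ℕ → Ω, ∀ Φ ∈ L, Φ b := by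
  obtain ⟨R, u, hR, hR2⟩ := hLCL.meet Ω B e he G hG L hL
  obtain ⟨b, hb, -⟩ := hTRE.branch Ω R u u hR hR.1
  exact ⟨b, fun Φ hΦ => hR2 Φ hΦ b hb⟩

lemma br_map {Ω X : Type} (f : Ω → X) (b : ℕ → Ω) (n : ℕ) :
    (br b n).map f = br (fun i => f (b i)) n := by
  induction n with
  | zero => rfl
  | succ n ih =>
    show f (b n) :: (br b n).map f = f (b n) :: br (fun i => f (b i)) n
    rw [ih]

lemma br_congr {X : Type} {f g : ℕ → X} (n : ℕ) (h : ∀ i < n, f i = g i) : br f n = br g n := by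
  induction n with
  | zero => rfl
  | succ n ih =>
    show f n :: br f n = g n :: br g n
    rw [ih (fun i hi => h i (by omega)), h n (by omega)]

end ZEXqM

open ZEXqM in
theorem specZEXq (hTRE : SpecTRE) (hLCL : SpecLCL) : SpecZEXq := by
  intro Ω B _ e he O X J _ hO y r K G hG h1 h2 h3 h4
  choose j hj using h1
  obtain ⟨m, hm⟩ := h3
  -- values of the names
  have hval : ∀ n ξ (Ψ : (ℕ → Ω) → Prop), tv e Ψ ∈ G →
      ∃ b : ℕ → Ω, Ψ b ∧ Agr ξ (y (b n)) (r ξ (j n ξ)) := by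
    intro n ξ Ψ hΨ
    obtain ⟨b, hb⟩ := ex hTRE hLCL he hG [Ψ, fun b => Agr ξ (y (b n)) (r ξ (j n ξ))] (by
      intro Φ hΦ
      simp only [List.mem_cons, List.not_mem_nil, or_false] at hΦ
      rcases hΦ with rfl | rfl
      · exact hΨ
      · exact hj n ξ)
    exact ⟨b, hb Ψ (by simp), hb (fun b => Agr ξ (y (b n)) (r ξ (j n ξ))) (by simp)⟩
  have hcoh : ∀ n ξ ζ, ζ ≤ ξ → r ξ (j n ξ) ζ = r ζ (j n ζ) ζ := by
    intro n ξ ζ hζ
    obtain ⟨b, hb1, hb2⟩ := hval n ζ _ (hj n ξ)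
    rw [← hb1 ζ hζ, ← hb2 ζ le_rfl]
  obtain ⟨z, hz⟩ : ∃ z : ℕ → O → X, ∀ n ξ, z n ξ = r ξ (j n ξ) ξ := ⟨_, fun _ _ => rfl⟩
  have hclo : ∀ n, Clo (Set.range y) (z n) := by
    intro n ξ
    obtain ⟨b, -, hb⟩ := hval n ξ _ hm
    refine ⟨y (b n), ⟨_, rfl⟩, ?_⟩
    intro ζ hζ
    rw [hb ζ hζ, hcoh n ξ ζ hζ, hz]
  have hne : ∀ n ≥ m, ∀ l < n, z n ≠ z l := by
    intro n hn l hl hzz
    rcases h2 n l with ⟨ξ, hξ⟩ | h
    · obtain ⟨b, hb⟩ := ex hTRE hLCL he hG [fun b => y (b n) ξ ≠ y (b l) ξ,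
        fun b => Agr ξ (y (b n)) (r ξ (j n ξ)),
        fun b => Agr ξ (y (b l)) (r ξ (j l ξ))] (by
        intro Φ hΦ
        simp only [List.mem_cons, List.not_mem_nil, or_false] at hΦ
        rcases hΦ with rfl | rfl | rfl
        · exact hξ
        · exact hj n ξ
        · exact hj l ξ)
      have b1 := hb _ (List.mem_cons_self)
      have b2 := hb (fun b => Agr ξ (y (b n)) (r ξ (j n ξ))) (by simp)
      have b3 := hb (fun b => Agr ξ (y (b l)) (r ξ (j l ξ))) (by simp)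
      apply b1
      show y (b n) ξ = y (b l) ξ
      rw [b2 ξ le_rfl, b3 ξ le_rfl, ← hz, ← hz, hzz]
    · obtain ⟨b, hb⟩ := ex hTRE hLCL he hG [fun b => b n = b l,
        fun b => ∀ n ≥ m, ∀ j < n, b n ≠ b j] (by
        intro Φ hΦ
        simp only [List.mem_cons, List.not_mem_nil, or_false] at hΦ
        rcases hΦ with rfl | rfl
        · exact h
        · exact hm)
      have b1 : b n = b l := hb (fun b => b n = b l) (by simp)
      have b2 := hb (fun b => ∀ n ≥ m, ∀ j < n, b n ≠ b j) (by simp)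
      exact b2 n hn l hl b1
  have hK : ∀ ε, ∃ ξ, ε < ξ ∧ ∃ p, ∀ n ≥ p, ¬ K ε ξ (br (fun i => z i ξ) (n + 1)) := by
    intro ε
    obtain ⟨ξ, hξ, p, hp⟩ := h4 ε
    refine ⟨ξ, hξ, p, ?_⟩
    intro n hn
    obtain ⟨b, hb⟩ := ex hTRE hLCL he hG
      ((fun b => ∀ n ≥ p, ¬ K ε ξ ((br b (n + 1)).map fun γ => y γ ξ)) ::
        (List.range (n + 1)).map (fun i b => Agr ξ (y (b i)) (r ξ (j i ξ)))) (by
      intro Φ hΦ
      rw [List.mem_cons, List.mem_map] at hΦ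
      rcases hΦ with rfl | ⟨i, -, rfl⟩
      · exact hp
      · exact hj i ξ)
    have b1 := hb (fun b => ∀ n ≥ p, ¬ K ε ξ ((br b (n + 1)).map fun γ => y γ ξ))
      List.mem_cons_self n hn
    have b2 : ∀ i < n + 1, y (b i) ξ = z i ξ := by
      intro i hi
      have b3 := hb (fun b => Agr ξ (y (b i)) (r ξ (j i ξ)))
        (List.mem_cons_of_mem _ (List.mem_map.2 ⟨i, List.mem_range.2 hi, rfl⟩))
      rw [b3 ξ le_rfl, ← hz]
    rw [br_map, br_congr (n + 1) b2] at b1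
    exact b1
  exact ⟨z, m, hne, hclo, hK⟩

end Pool.Agent.Lib.MPd89457.NB
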