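import Pool.Agent.Lib.MP_d89457_lc.NB.SpecR

set_option autoImplicit false

namespace Pool.Agent.Lib.MPd89457.NB

open Cardinal

namespace ZGFqM

theorem brn {X : Type} (b b' : ℕ → X) (m : ℕ) (h : br b m = br b' m) : ∀ n < m, b n = b' n := by
  induction m with
  | zero => intro n hn; exact absurd hn (Nat.not_lt_zero n)
  | succ m ih =>
    intro n hn
    simp only [br, List.cons.injEq] at h
    rcases Nat.lt_succ_iff_lt_or_eq.mp hn with h1 | h1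
    · exact ih h.2 n h1
    · rw [h1]; exact h.1

theorem tvm {Ω B : Type} [CompleteBooleanAlgebra B] (e : Nam Ω → B) (Φ Ψ : (ℕ → Ω) → Prop)
    (h : ∀ b, Φ b → Ψ b) : tv e Φ ≤ tv e Ψ := by
  apply sSup_le_sSup
  rintro x ⟨T, s, h1, h2, h3⟩
  exact ⟨T, s, h1, fun b hb => h b (h2 b hb), h3⟩

theorem fil (hFAM : SpecFAM) (hDNC : SpecDNC) {Ω B : Type} [CompleteBooleanAlgebra B]
    (e : Nam Ω → B) (he : IsBC e) (O K J : Type) (hO : #O = ℵ_ 1) (hK : Nonempty K)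
    (hK1 : #K ≤ ℵ_ 1) (hJ : #J ≤ ℵ_ 1) (hB : BFA B O (ℵ_ 1)) (Φ : K → J → (ℕ → Ω) → Prop)
    (h : ∀ k, ∀ (T : Set (List Ω)) (s : List Ω), IsNam T s → ∃ (j : J) (R : Set (List Ω))
      (u : List Ω), IsNam R u ∧ R ⊆ T ∧ ∀ b, Brn R b → Φ k j b) :
    ∃ G : Set B, IsFilt G ∧ ∀ k, ∃ j, tv e (Φ k j) ∈ G :=
  hFAM B O K J hO hK hK1 hJ hB (fun k j => tv e (Φ k j)) (fun k => hDNC Ω B e he J (Φ k) (h k))

theorem get (hTRE : SpecTRE) (hLCL : SpecLCL) {Ω B : Type} [CompleteBooleanAlgebra B]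
    (e : Nam Ω → B) (he : IsBC e) (G : Set B) (hG : IsFilt G) (Φ : (ℕ → Ω) → Prop)
    (h : tv e Φ ∈ G) : ∃ b, Φ b := by
  obtain ⟨R, u, hR, h1⟩ := hLCL.meet Ω B e he G hG [Φ] (by
    intro Ψ hΨ
    rw [List.mem_singleton] at hΨ
    rw [hΨ]; exact h)
  obtain ⟨b, hb, -⟩ := hTRE.branch Ω R u u hR hR.1
  exact ⟨b, h1 Φ (List.mem_singleton.mpr rfl) b hb⟩

theorem length_br {X : Type} (b : ℕ → X) (n : ℕ) : (br b n).length = n := by
  induction n with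
  | zero => rfl
  | succ n ih => simp [br, ih]

theorem br_add {X : Type} (b : ℕ → X) (m n : ℕ) :
    br b (n + m) = br (fun k => b (k + m)) n ++ br b m := by
  induction n with
  | zero => simp [br]
  | succ n ih =>
    have h : n + 1 + m = (n + m) + 1 := by omega
    rw [h]
    show b (n + m) :: br b (n + m) = (b (n + m) :: br (fun k => b (k + m)) n) ++ br b m
    rw [ih]
    rfl

/-- the properties -/
def Ph {Ω O X J : Type} [LinearOrder O] (y : Ω → O → X) (r : O → J → O → X)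
    (kap : O → O → List X → Prop) (k : (ℕ × O) ⊕ ((ℕ × ℕ) ⊕ (Unit ⊕ O))) (p : J × (O × ℕ))
    (b : ℕ → Ω) : Prop :=
  match k with
  | Sum.inl a => Agr a.2 (y (b a.1)) (r a.2 p.1)
  | Sum.inr (Sum.inl a) => (p.2.2 = 0 ∧ b a.1 = b a.2) ∨
      (p.2.2 ≠ 0 ∧ y (b a.1) p.2.1 ≠ y (b a.2) p.2.1)
  | Sum.inr (Sum.inr (Sum.inl _)) => ∀ n ≥ p.2.2, ∀ j < n, b n ≠ b j
  | Sum.inr (Sum.inr (Sum.inr ε)) => ε < p.2.1 ∧ ∀ n ≥ p.2.2, ¬ kap ε p.2.1 ((br b (n + 1)).map fun γ => y γ p.2.1)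

end ZGFqM

open ZGFqM in
theorem specZGFq (hTRE : SpecTRE) (hLCL : SpecLCL) (hFAM : SpecFAM) (hDNC : SpecDNC)
    (hDCD : SpecDCD) (hNEW : SpecNEW) (hSFT : SpecSFT) (hZER : SpecZERp) : SpecZGFq := by
  intro Ω B _ e hΩ he O X J _ hO hJ hB y r kap hy hr hk
  have hw : ℵ₀ ≤ ℵ_ 1 := aleph0_le_aleph 1
  have hOne : Nonempty O := by
    rw [← mk_ne_zero_iff, hO.1]
    exact (aleph_pos 1).ne'
  have hΩne : Nonempty Ω := by
    rw [← mk_ne_zero_iff, hΩ]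
    exact (aleph_pos 2).ne'
  obtain ⟨ξ0⟩ := hOne
  obtain ⟨γ0⟩ := hΩne
  obtain ⟨j0, -⟩ := hr ξ0 γ0
  have hN : #ℕ ≤ ℵ_ 1 := by rw [mk_nat]; exact hw
  have hO1 : #O ≤ ℵ_ 1 := hO.1.le
  have hpr : ∀ A C : Type, #A ≤ ℵ_ 1 → #C ≤ ℵ_ 1 → #(A × C) ≤ ℵ_ 1 := by
    intro A C hA hC
    have h : #(A × C) = #A * #C := by simp
    rw [h]
    exact mul_le_of_le hw hA hC
  have hsu : ∀ A C : Type, #A ≤ ℵ_ 1 → #C ≤ ℵ_ 1 → #(A ⊕ C) ≤ ℵ_ 1 := by
    intro A C hA hC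
    have h : #(A ⊕ C) = #A + #C := by simp
    rw [h]
    exact add_le_of_le hw hA hC
  have hU : #Unit ≤ ℵ_ 1 := by
    rw [mk_unit]
    exact (one_le_aleph0).trans hw
  have hK1 : #((ℕ × O) ⊕ ((ℕ × ℕ) ⊕ (Unit ⊕ O))) ≤ ℵ_ 1 :=
    hsu _ _ (hpr _ _ hN hO1) (hsu _ _ (hpr _ _ hN hN) (hsu _ _ hU hO1))
  have hJ1 : #(J × (O × ℕ)) ≤ ℵ_ 1 := hpr _ _ hJ (hpr _ _ hO1 hN)
  obtain ⟨G, hG, hG1⟩ := fil hFAM hDNC e he O ((ℕ × O) ⊕ ((ℕ × ℕ) ⊕ (Unit ⊕ O))) (J × (O × ℕ))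
    hO.1 ⟨Sum.inr (Sum.inr (Sum.inl ()))⟩ hK1 hJ1 hB (Ph y r kap) (by
      intro k T s hT
      match k with
      | Sum.inl (n, ξ) =>
        obtain ⟨R, t, hR, hRT, hn, hRb⟩ := hDCD Ω T s (n + 1) hT
        obtain ⟨b0, hb0, -⟩ := hTRE.branch Ω R t t hR hR.1
        obtain ⟨j, hj⟩ := hr ξ (b0 n)
        refine ⟨(j, (ξ0, 0)), R, t, hR, hRT, ?_⟩
        intro b hb
        have h1 : b n = b0 n := brn b b0 t.length ((hRb b hb).trans (hRb b0 hb0).symm) n hn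
        simp only [Ph]
        rw [h1]
        exact hj
      | Sum.inr (Sum.inl (n, n')) =>
        obtain ⟨R, t, hR, hRT, hn, hRb⟩ := hDCD Ω T s (n + n' + 1) hT
        obtain ⟨b0, hb0, -⟩ := hTRE.branch Ω R t t hR hR.1
        have h1 : ∀ b, Brn R b → b n = b0 n := fun b hb =>
          brn b b0 t.length ((hRb b hb).trans (hRb b0 hb0).symm) n (by omega)
        have h2 : ∀ b, Brn R b → b n' = b0 n' := fun b hb =>
          brn b b0 t.length ((hRb b hb).trans (hRb b0 hb0).symm) n' (by omega)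
        by_cases h : b0 n = b0 n'
        · refine ⟨(j0, (ξ0, 0)), R, t, hR, hRT, ?_⟩
          intro b hb
          refine Or.inl ⟨rfl, ?_⟩
          show b n = b n'
          rw [h1 b hb, h2 b hb]
          exact h
        · have h3 : y (b0 n) ≠ y (b0 n') := fun h4 => h (hy h4)
          obtain ⟨ξ, hξ⟩ := Function.ne_iff.mp h3
          refine ⟨(j0, (ξ, 1)), R, t, hR, hRT, ?_⟩
          intro b hb
          refine Or.inr ⟨one_ne_zero, ?_⟩
          show y (b n) ξ ≠ y (b n') ξ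
          rw [h1 b hb, h2 b hb]
          exact hξ
      | Sum.inr (Sum.inr (Sum.inl u)) =>
        obtain ⟨R, hR, hRT, hRb⟩ := hNEW Ω T s hT
        exact ⟨(j0, (ξ0, s.length)), R, s, hR, hRT, hRb⟩
      | Sum.inr (Sum.inr (Sum.inr ε)) =>
        obtain ⟨ξ, hξ, R, hR1, hR2, hR3⟩ := hZER Ω hΩ O hO
          (fun ξ u => kap ε ξ ((u ++ s).map fun γ => y γ ξ)) (fun t A hA => hk ε (t ++ s) A hA)
          {u | u ++ s ∈ T} (hSFT.down Ω T s hT) ε
        obtain ⟨R', hR', hRT, hRb⟩ := hSFT.up Ω T s R hT hR1 hR2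
        refine ⟨(j0, (ξ, s.length)), R', s, hR', hRT, ?_⟩
        intro b hb
        simp only [Ph]
        refine ⟨hξ, ?_⟩
        intro n hn
        have h1 := hR3 _ (hRb b hb) (n - s.length)
        have h0 : br b s.length = s := by
          rcases hR'.2.2.1 _ (hb s.length) with h | h
          · exact h.eq_of_length (length_br b _)
          · exact (h.eq_of_length (length_br b _).symm).symm
        have h2 : n + 1 = (n - s.length + 1) + s.length := by omega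
        rw [h2, br_add, h0]
        exact h1)
  refine ⟨G, hG, ?_, ?_, ?_, ?_⟩
  · intro n ξ
    obtain ⟨⟨j, q⟩, hj⟩ := hG1 (Sum.inl (n, ξ))
    exact ⟨j, hj⟩
  · intro n n'
    obtain ⟨⟨j, ξ, m⟩, hj⟩ := hG1 (Sum.inr (Sum.inl (n, n')))
    by_cases hm : m = 0
    · right
      apply hG.2.2.1 _ hj
      apply tvm
      intro b hb
      simp only [Ph] at hb
      rcases hb with h1 | h1
      · exact h1.2
      · exact absurd hm h1.1
    · left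
      refine ⟨ξ, ?_⟩
      apply hG.2.2.1 _ hj
      apply tvm
      intro b hb
      simp only [Ph] at hb
      rcases hb with h1 | h1
      · exact absurd h1.1 hm
      · exact h1.2
  · obtain ⟨⟨j, ξ, m⟩, hj⟩ := hG1 (Sum.inr (Sum.inr (Sum.inl ())))
    exact ⟨m, hj⟩
  · intro ε
    obtain ⟨⟨j, ξ, k⟩, hj⟩ := hG1 (Sum.inr (Sum.inr (Sum.inr ε)))
    obtain ⟨b0, hb0⟩ := get hTRE hLCL e he G hG _ hj
    refine ⟨ξ, hb0.1, k, ?_⟩
    apply hG.2.2.1 _ hj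
    apply tvm
    intro b hb
    exact hb.2

end Pool.Agent.Lib.MPd89457.NB
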