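import Pool.Agent.Lib.MP_d89457_lc.NB.MainM
import Pool.Agent.Lib.MP_d89457_lc.NB.ZERp
import Pool.Agent.Lib.MP_d89457_lc.NB.ZGFq
import Pool.Agent.Lib.MP_d89457_lc.NB.ZEXq
import Pool.Agent.Lib.MP_d89457_lc.NB.ZTQ
import Pool.Agent.Lib.MP_d89457_lc.NB.CVR65
import Pool.Agent.Lib.MP_d89457_lc.NB.SWC
import Pool.Agent.Lib.MP_d89457_lc.NB.MWC

/-!
# MP_d89457_lc, NB: assembly of part R
-/

set_option autoImplicit false

namespace Pool.Agent.Lib.MPd89457.NB

theorem allZTQ : SpecZTQ :=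
  specZTQ (specZGFq specTRE allLCL specFAM (specDNC allBAS) (specDCD specTRE) specNEW specSFT
    (specZERp allGSD)) (specZEXq specTRE allLCL)

theorem allCVR : SpecCVR := specCVR allZTQ

theorem allMWC : SpecMWC := specMWC allKCL specMBD

end Pool.Agent.Lib.MPd89457.NB
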