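import Pool.Agent.Lib.MP_d89457_lc.NB.Spec

/-!
# MP_d89457_lc, part NB, module PRT: coarser partitions
-/

set_option autoImplicit false

namespace Pool.Agent.Lib.MPd89457.NB

namespace PRTM

lemma common (B : Type) [CompleteBooleanAlgebra B] (A X Y : Set B) (hA : MaxAnti A)
    (hX : X ⊆ A) (hY : Y ⊆ A) (h : sSup X ⊓ sSup Y ≠ ⊥) : ∃ a, a ∈ X ∧ a ∈ Y := by
  by_contra hcon
  apply h
  rw [← disjoint_iff, sSup_disjoint_iff]
  intro a ha
  rw [disjoint_sSup_iff]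
  intro b hb
  rw [disjoint_iff]
  apply hA.2.1 a (hX ha) b (hY hb)
  intro hab
  exact hcon ⟨a, ha, hab ▸ hb⟩

end PRTM

theorem specPRT : SpecPRT := by
  refine ⟨?_, PRTM.common⟩
  intro B _ A K φ hA
  refine ⟨fun a ha => ha.1, ?_, ?_⟩
  · rintro x ⟨hx, k, hk⟩ y ⟨hy, l, hl⟩ hxy
    by_contra hne
    rw [hk, hl] at hne
    obtain ⟨a, ha, hb⟩ := PRTM.common B A {a | a ∈ A ∧ φ a = k} {a | a ∈ A ∧ φ a = l} hA
      (fun a ha => ha.1) (fun a ha => ha.1) hne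
    apply hxy
    have hkl : k = l := ha.2.symm.trans hb.2
    rw [hk, hl, hkl]
  · intro b hb
    obtain ⟨a, ha, hab⟩ := hA.2.2 b hb
    have hle : a ≤ sSup {a' | a' ∈ A ∧ φ a' = φ a} := le_sSup ⟨ha, rfl⟩
    refine ⟨sSup {a' | a' ∈ A ∧ φ a' = φ a}, ⟨?_, φ a, rfl⟩, ?_⟩
    · intro h0
      rw [h0, le_bot_iff] at hle
      exact hA.1 a ha hle
    · intro h0
      apply hab
      rw [← le_bot_iff, ← h0]
      exact inf_le_inf_right b hle

end Pool.Agent.Lib.MPd89457.NB
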