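import Mathlib

/-!
# MP_d89457_lc: for which parameters does the bounded forcing axiom hold for Namba forcing?

`BFA B ι lam`: for every family `(A i)`, `i ∈ ι`, of maximal antichains of `B \ {0}` of cardinality at
most `lam` there is a filter meeting all of them.  `B` = the Boolean completion of Namba forcing `N`.
The problem: `ι = ω_1`, `lam = ℵ_1`.  THEOREM (ZFC, no hypothesis on the continuum):
  (1) `ι` countable: true (all antichains); (2) `ι` arbitrary, finite antichains: true;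
  (3) `|ι| ≥ ℵ_2`: false already for countable antichains;
  (4) `|ι| = ℵ_1`: countable antichains and antichains of size `ℵ_1` give equivalent axioms;
  (5) `|ι| ≤ ℵ_1`: TRUE for all countable antichains in the Borel algebra generated by the canonical
      name of the generic sequence and countably many maximal antichains of size `ℵ_1`.
So `ℵ_1` many antichains of size between `ℵ_0` and `ℵ_1` are the only open parameters, and the
axiom can only fail for families which are not read by one `ω`-sequence of names.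

Conventions.  Module `XXX` = file `NB/XXX.lean`, imports only `Pool.Agent.Lib.MP_d89457_lc.NB.Spec`,
namespace `Pool.Agent.Lib.MPd89457.NB`, theorem `specXXX (hYYY : SpecYYY) .. : SpecXXX` (hypotheses in
the order of Uses), own lemmas in the namespace `XXXM`.

Finite sequences are lists with the NEWEST entry first: the immediate successors of the node `t`
are the lists `γ :: t`, the initial segments of `t` are its suffixes `u <:+ t`.
-/

set_option autoImplicit false

namespace Pool.Agent.Lib.MPd89457.NB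

open Cardinal

/-! ### Namba forcing and its Boolean completion -/

/-- `T` is a Namba tree with stem `s`: nonempty, closed under initial segments, all nodes comparable
with `s`, and every node which extends `s` has `ℵ_2` immediate successors. -/
def IsNam {Ω : Type} (T : Set (List Ω)) (s : List Ω) : Prop :=
  s ∈ T ∧ (∀ t ∈ T, ∀ u, u <:+ t → u ∈ T) ∧ (∀ t ∈ T, t <:+ s ∨ s <:+ t) ∧
    ∀ t ∈ T, s <:+ t → #{γ : Ω // γ :: t ∈ T} = ℵ_ 2

/-- Namba forcing (`Ω` is a set of cardinality `ℵ_2`), ordered by inclusion. -/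
def Nam (Ω : Type) : Type := {T : Set (List Ω) // ∃ s, IsNam T s}

instance (Ω : Type) : PartialOrder (Nam Ω) :=
  inferInstanceAs (PartialOrder {T : Set (List Ω) // ∃ s, IsNam T s})

/-- `B` with `e : P → B` is the Boolean completion of the partial order `P`: `e` preserves the order
and incompatibility, its values are nonzero and dense. -/
structure IsBC {P : Type} [PartialOrder P] {B : Type} [CompleteBooleanAlgebra B] (e : P → B) :
    Prop where
  mono : ∀ p q, p ≤ q → e p ≤ e q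
  disj : ∀ p q, (¬ ∃ r, r ≤ p ∧ r ≤ q) → e p ⊓ e q = ⊥
  pos : ∀ p, e p ≠ ⊥
  dense : ∀ b : B, b ≠ ⊥ → ∃ p, e p ≤ b

/-- maximal antichain of `B \ {0}` -/
def MaxAnti {B : Type} [CompleteBooleanAlgebra B] (A : Set B) : Prop :=
  (∀ a ∈ A, a ≠ ⊥) ∧ (∀ a ∈ A, ∀ b ∈ A, a ≠ b → a ⊓ b = ⊥) ∧ ∀ b : B, b ≠ ⊥ → ∃ a ∈ A, a ⊓ b ≠ ⊥

/-- (proper) filter on `B` -/
def IsFilt {B : Type} [CompleteBooleanAlgebra B] (G : Set B) : Prop :=
  G.Nonempty ∧ ⊥ ∉ G ∧ (∀ a ∈ G, ∀ b, a ≤ b → b ∈ G) ∧ ∀ a ∈ G, ∀ b ∈ G, a ⊓ b ∈ G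

/-- the bounded forcing axiom for `|ι|` maximal antichains of cardinality at most `lam` -/
def BFA (B : Type) [CompleteBooleanAlgebra B] (ι : Type) (lam : Cardinal.{0}) : Prop :=
  ∀ A : ι → Set B, (∀ i, MaxAnti (A i)) → (∀ i, #(A i) ≤ lam) →
    ∃ G : Set B, IsFilt G ∧ ∀ i, (G ∩ A i).Nonempty

/-! ### General complete Boolean algebras -/

/-- RSK (Rasiowa-Sikorski), 70 lines.  A decreasing sequence `x n ≠ ⊥` with `x (n+1) ≤` some element
of `A i` for the `n`-th index `i` (for `i` outside of the enumeration nothing to do; `ι` may be empty);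
`G = {c | ∃ n, x n ≤ c}`. -/
def SpecRSK : Prop := ∀ (B : Type) [CompleteBooleanAlgebra B], Nontrivial B → ∀ (ι : Type),
  Countable ι → ∀ A : ι → Set B, (∀ i, MaxAnti (A i)) →
    ∃ G : Set B, IsFilt G ∧ ∀ i, (G ∩ A i).Nonempty

/-- ULT, 70 lines.  `G` = the complement of a prime ideal
(`DistribLattice.prime_ideal_of_disjoint_filter_ideal`, or Zorn).  A finite maximal antichain has
supremum `⊤` (otherwise the complement of the supremum is a `b ≠ ⊥` disjoint from all its elements),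
and a prime ideal is closed under finite suprema. -/
def SpecULT : Prop := ∀ (B : Type) [CompleteBooleanAlgebra B], Nontrivial B → ∀ (ι : Type)
  (A : ι → Set B), (∀ i, MaxAnti (A i)) → (∀ i, (A i).Finite) →
    ∃ G : Set B, IsFilt G ∧ ∀ i, (G ∩ A i).Nonempty

/-- PRT, 80 lines.  Coarser partitions.  For a maximal antichain `A` and `φ : B → K` let
`P k = sSup {a ∈ A : φ a = k}`.  Then `{P k : k ∈ K} \ {⊥}` is a maximal antichain.  (`sSup A = ⊤`;
`P k ⊓ P l = ⊥` for `k ≠ l` by distributivity.)  More generally for `X, Y ⊆ A` with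
`sSup X ⊓ sSup Y ≠ ⊥` there is an `a ∈ X ∩ Y`. -/
structure SpecPRT : Prop where
  part : ∀ (B : Type) [CompleteBooleanAlgebra B] (A : Set B) (K : Type) (φ : B → K), MaxAnti A →
    MaxAnti {x : B | x ≠ ⊥ ∧ ∃ k, x = sSup {a | a ∈ A ∧ φ a = k}}
  common : ∀ (B : Type) [CompleteBooleanAlgebra B] (A X Y : Set B), MaxAnti A → X ⊆ A → Y ⊆ A →
    sSup X ⊓ sSup Y ≠ ⊥ → ∃ a, a ∈ X ∧ a ∈ Y

/-- LAD, 170 lines.  Uses: PRT.  Let `O` be the well-ordered type `ω_1` (`(ω_ 1).ToType` or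
`Cardinal.ord_eq`; every initial segment is countable).  For `i ∈ ι` choose an injection
`F i : A i → O`, and for `η ∈ O` an injection `e η : {ζ | ζ < η} → ℕ`.  For `ζ ∈ O` let `φ i ζ` send
`a ∈ A i` to `F a` if `F a ≤ ζ`, and to the number `e (F a) ζ` if `ζ < F a`: a map to a countable set, so
PRT gives a countable maximal antichain `P i ζ`; they are indexed by `ι × O`, which is equinumerous
with `ι`.  Let `G` meet all of them, fix `i`.  If for some `ζ` the chosen element is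
`sSup {a : F a = η}`, this is the only `a ∈ A i` with `F a = η`, so `a ∈ G`.  Otherwise it is
`sSup {a : ζ < F a, e (F a) ζ = n ζ}` for every `ζ ∈ O`, and `ζ ↦ n ζ` is injective: for `ζ ≠ ζ'` the
meet of the two elements is in `G`, so not `⊥`, and PRT.common gives `a` with `e (F a) ζ = n ζ`,
`e (F a) ζ' = n ζ'`.  But `O` is uncountable. -/
def SpecLAD : Prop := ∀ (B : Type) [CompleteBooleanAlgebra B] (ι : Type), ℵ_ 1 ≤ #ι →
  BFA B ι ℵ₀ → BFA B ι (ℵ_ 1)

/-- EXB, 150 lines.  The Boolean completion exists.  `B = Heyting.Regular (LowerSet P)`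
(Mathlib: `Heyting.Regular.gi` and `GaloisInsertion.liftCompleteLattice`, and the `BooleanAlgebra`
instance, same order), `e p = toRegular (LowerSet.Iic p)` (= the largest lower set in which
`Iic p` is dense); or the regular open lower sets directly. -/
def SpecEXB : Prop := ∀ (P : Type) [PartialOrder P],
  ∃ (B : Type) (_ : CompleteBooleanAlgebra B) (e : P → B), IsBC e

/-! ### Trees -/

section trees

variable {Ω : Type}

/-- the part of `T` comparable with `t` -/
def res (T : Set (List Ω)) (t : List Ω) : Set (List Ω) := {u | u ∈ T ∧ (u <:+ t ∨ t <:+ u)}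

open Classical in
/-- `e` as a function on all sets of nodes -/
noncomputable def ev {B : Type} [CompleteBooleanAlgebra B] (e : Nam Ω → B) (T : Set (List Ω)) : B :=
  if h : ∃ s, IsNam T s then e ⟨T, h⟩ else ⊥

/-- initial segments of an infinite sequence (newest entry first) -/
def br {X : Type} (b : ℕ → X) : ℕ → List X
  | 0 => []
  | n + 1 => b n :: br b n

end trees

/-- TRE, 130 lines.  Elementary facts on Namba trees (no Boolean algebra).
`full`: `T` = everything.  `res`: the nodes of `res T t` extending `t` have the same successors as in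
`T`.  `avoid`: a set of cardinality `ℵ_2` is not contained in one of cardinality `≤ ℵ_1`.
`long`, `branch`: iterate `avoid`.  `inter`: if `R` is a Namba tree contained in the Namba trees `T`,
`T'` and `t ∈ R` extends the stem of `R` then `res R t` is contained in both with stem `t`. -/
structure SpecTRE : Prop where
  full : ∀ (Ω : Type), #Ω = ℵ_ 2 → IsNam (Set.univ : Set (List Ω)) []
  res : ∀ (Ω : Type) (T : Set (List Ω)) (s t : List Ω), IsNam T s → t ∈ T → s <:+ t →
    IsNam (res T t) t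
  avoid : ∀ (Ω : Type) (T : Set (List Ω)) (s t : List Ω) (X : Set Ω), IsNam T s → t ∈ T → s <:+ t →
    #X ≤ ℵ_ 1 → ∃ γ, γ ∉ X ∧ γ :: t ∈ T
  long : ∀ (Ω : Type) (T : Set (List Ω)) (s t : List Ω) (k : ℕ), IsNam T s → t ∈ T → s <:+ t →
    ∃ u ∈ T, t <:+ u ∧ k ≤ u.length
  branch : ∀ (Ω : Type) (T : Set (List Ω)) (s t : List Ω), IsNam T s → t ∈ T →
    ∃ b : ℕ → Ω, (∀ n, br b n ∈ T) ∧ br b t.length = t
  /-- the initial segments of a branch -/
  brs : ∀ (Ω : Type) (b : ℕ → Ω) (m n : ℕ), m ≤ n → br b m <:+ br b n ∧ (br b n).length = n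

/-- BAS, 150 lines.  Uses: TRE.  `below`: by density there is `p` with `e p ≤ ev e T ⊓ x`; `p` is
compatible with `T` (otherwise `e p = e p ⊓ e T = ⊥`), so there is a Namba tree `r ⊆ p, T`, with stem
`v`; take a node `u` of `r` with `v <:+ u`, `s <:+ u` and length at least `k` (a long node of `r` is
comparable with `s` as `r ⊆ T`), `R = res r u`.  `den`: otherwise `ev e T ⊓ xᶜ ≠ ⊥` and `below` gives an
`R` with `ev e R ≤ xᶜ`.  `dis`: a common refinement has a long node which extends `t` and `t'`. -/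
structure SpecBAS : Prop where
  mono : ∀ (Ω : Type) (B : Type) [CompleteBooleanAlgebra B] (e : Nam Ω → B), IsBC e →
    ∀ (T T' : Set (List Ω)) (s s' : List Ω), IsNam T s → IsNam T' s' → T ⊆ T' → ev e T ≤ ev e T'
  pos : ∀ (Ω : Type) (B : Type) [CompleteBooleanAlgebra B] (e : Nam Ω → B), IsBC e →
    ∀ (T : Set (List Ω)) (s : List Ω), IsNam T s → ev e T ≠ ⊥
  below : ∀ (Ω : Type) (B : Type) [CompleteBooleanAlgebra B] (e : Nam Ω → B), IsBC e →
    ∀ (T : Set (List Ω)) (s : List Ω) (x : B) (k : ℕ), IsNam T s → ev e T ⊓ x ≠ ⊥ →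
    ∃ (R : Set (List Ω)) (u : List Ω), IsNam R u ∧ R ⊆ T ∧ s <:+ u ∧ k ≤ u.length ∧ ev e R ≤ x
  den : ∀ (Ω : Type) (B : Type) [CompleteBooleanAlgebra B] (e : Nam Ω → B), IsBC e →
    ∀ (T : Set (List Ω)) (s : List Ω) (x : B) (k : ℕ), IsNam T s →
    (∀ (R : Set (List Ω)) (u : List Ω), IsNam R u → R ⊆ T → s <:+ u → k ≤ u.length →
      ev e R ⊓ x ≠ ⊥) → ev e T ≤ x
  /-- conditions whose stems go through different nodes -/
  dis : ∀ (Ω : Type) (B : Type) [CompleteBooleanAlgebra B] (e : Nam Ω → B), IsBC e →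
    ∀ (T T' : Set (List Ω)) (s s' t t' : List Ω), IsNam T s → IsNam T' s' →
    (∀ u ∈ T, u <:+ t ∨ t <:+ u) → (∀ u ∈ T', u <:+ t' ∨ t' <:+ u) → ¬ (t <:+ t' ∨ t' <:+ t) →
    ev e T ⊓ ev e T' = ⊥

/-- COL, 220 lines.  Uses: TRE, BAS.  Namba forcing collapses `ℵ_2`.  Well-order `Ω` in type `ω_2`
(`Cardinal.ord_eq`), so `{β | β < γ}` has cardinality `≤ ℵ_1`; `O` a set of cardinality `ℵ_1`,
`f γ : Ω → O` injective on `{β | β < γ}`.  For `β ∈ Ω` and `k = (n, η) ∈ ℕ × O` a node `t = γ :: pre`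
decides `F(β) = k` if `pre` has length `n`, `β < γ`, no entry of `pre` is greater than `β` and
`f γ β = η`.  `D β k` = the Namba trees `T` such that for some node `t` deciding `F(β) = k` all nodes of
`T` are comparable with `t` (and `t ∈ T`); `x β k = sSup {ev e T : T ∈ D β k}`.  If `T ∈ D β k` and
`T' ∈ D β' k'` are compatible with nodes `t, t'` then `t, t'` are comparable (a long node of a common
refinement extends both).  Hence (a) `β = β'`: `k = k'` (the first entry greater than `β`);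
(b) `k = k'`: `t = t'` (same length), `f γ β = f γ β'`, `β = β'`.  So `x β k ⊓ x β k' = ⊥` for
`k ≠ k'`, `x β k ⊓ x β' k = ⊥` for `β ≠ β'`.  `A β = {x β k : k} \ {⊥}` is a maximal antichain: for
`b ≠ ⊥` take `T` with `ev e T ≤ b` (dense) and a node `γ :: t` of `T` above its stem with `β < γ`
(TRE.avoid); a suffix of it decides some `k`, and `res T (γ :: t) ∈ D β k`.  `|A β| ≤ |ℕ × O| = ℵ_1`.  A
filter which meets all `A β`, say in `x β (k β)`, gives an injection `β ↦ k β` from `Ω` to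
`ℕ × O`. -/
def SpecCOL : Prop := ∀ (Ω : Type) (B : Type) [CompleteBooleanAlgebra B] (e : Nam Ω → B),
  #Ω = ℵ_ 2 → IsBC e → ¬ BFA B Ω (ℵ_ 1)

/-- PDN (pure decision), 220 lines.  Uses: TRE, BAS.  Call a node `t` of `T` above `s` good if there are
a Namba tree `R ⊆ T` with stem `t` and `w ∈ W` with `ev e R ≤ w`.  Suppose `s` is not good.
(i) If `t` is not good then at most `ℵ_1` of its successors in `T` are good: otherwise choose for the good
successors `R_γ, w_γ`; `|W| ≤ ℵ_1`, so some `w` occurs for a set `Γ` of `ℵ_2` many `γ`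
(`Cardinal.infinite_pigeonhole_card` or the like, `ℵ_2` is regular).  `R` = the union of the `R_γ`,
`γ ∈ Γ`: a Namba tree with stem `t`, and `ev e R ≤ w` by BAS.den: a Namba tree `R' ⊆ R` with stem `u`
longer than `t` has `u` above some `γ :: t`, so `R' ⊆ R_γ`.  So `t` is good.
(ii) `H` = the nodes of `T` comparable with `s` such that no initial segment above `s` is good: a Namba
tree with stem `s`.  As `W` is maximal there is `w ∈ W` with `ev e H ⊓ w ≠ ⊥`, BAS.below gives `R ⊆ H`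
with stem `u` and `ev e R ≤ w`: so `u ∈ H` is good, a contradiction. -/
def SpecPDN : Prop := ∀ (Ω : Type) (B : Type) [CompleteBooleanAlgebra B] (e : Nam Ω → B), IsBC e →
  ∀ (T : Set (List Ω)) (s : List Ω) (W : Set B), IsNam T s → MaxAnti W → #W ≤ ℵ_ 1 →
  ∃ R : Set (List Ω), R ⊆ T ∧ IsNam R s ∧ ∃ w ∈ W, ev e R ≤ w

/-- FUS (fusion), 160 lines.  Uses: TRE, BAS, PDN.  Recursion on the list: `X [] ` = PDN applied to
the full tree and `W 0`; `X (γ :: t)` = PDN applied to `res (X t) (γ :: t)` and `W (|t| + 1)` if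
`γ :: t ∈ X t` (anything otherwise); `y t ∈ W |t|` the element obtained with `X t`.  `T` = the nodes `t`
all of whose suffixes `γ :: u` are in `X u`.  For `t ∈ T` the successors in `T` are those in `X t`, and
`res T t ⊆ X t` because `X (γ :: u) ⊆ X u`.  (`ev e (res T t) ≤ ev e (X t) ≤ y t`, BAS.mono.) -/
def SpecFUS : Prop := ∀ (Ω : Type) (B : Type) [CompleteBooleanAlgebra B] (e : Nam Ω → B),
  #Ω = ℵ_ 2 → IsBC e → ∀ W : ℕ → Set B, (∀ n, MaxAnti (W n)) → (∀ n, #(W n) ≤ ℵ_ 1) →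
  ∃ (T : Set (List Ω)) (y : List Ω → B), IsNam T [] ∧
    ∀ t ∈ T, y t ∈ W t.length ∧ ev e (res T t) ≤ y t

/-! ### Borel codes -/

/-- Borel codes in the space of branches; `lev n D`: the initial segment of length `n` is in `D`. -/
inductive Cod (Ω : Type) : Type
  | lev (n : ℕ) (D : Set (List Ω)) : Cod Ω
  | or (f : ℕ → Cod Ω) : Cod Ω
  | and (f : ℕ → Cod Ω) : Cod Ω

section codes

variable {Ω : Type}

def Cod.neg : Cod Ω → Cod Ω
  | .lev n D => .lev n Dᶜ
  | .or f => .and fun k => (f k).neg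
  | .and f => .or fun k => (f k).neg

/-- the branch `b` is in the Borel set -/
def Cod.holds (b : ℕ → Ω) : Cod Ω → Prop
  | .lev n D => br b n ∈ D
  | .or f => ∃ k, (f k).holds b
  | .and f => ∀ k, (f k).holds b

/-- the Boolean value of the Borel set below the tree `T` (with empty stem) -/
noncomputable def Cod.val {B : Type} [CompleteBooleanAlgebra B] (e : Nam Ω → B)
    (T : Set (List Ω)) : Cod Ω → B
  | .lev n D => sSup {x | ∃ t, t ∈ T ∧ t.length = n ∧ t ∈ D ∧ x = ev e (res T t)}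
  | .or f => ⨆ k, (f k).val e T
  | .and f => ⨅ k, (f k).val e T

/-- the closed set in (branches) x `ω^ω` whose projection is the Borel set -/
def Cod.clo (b : ℕ → Ω) : Cod Ω → (ℕ → ℕ) → Prop
  | .lev n D, _ => br b n ∈ D
  | .or f, z => (f (z 0)).clo b (fun j => z (j + 1))
  | .and f, z => ∀ k, (f k).clo b (fun j => z (Nat.pair k j))

end codes

/-- VAL, 120 lines.  Uses: TRE, BAS.  Induction on the code.  `neg` for `lev`: the two suprema are disjoint
(BAS.dis, different nodes of the same length; `inf_sSup_eq`, `sSup_inf_sSup`) and their supremum is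
`ev e T` (BAS.den with `k = n`: `R ⊆ res T t` for the initial segment `t` of length `n` of the stem of
`R`); so `y = z ⊓ xᶜ` from `x ⊔ y = z`, `x ⊓ y = ⊥`. -/
structure SpecVAL : Prop where
  holds : ∀ (Ω : Type) (c : Cod Ω) (b : ℕ → Ω), c.neg.holds b ↔ ¬ c.holds b
  le : ∀ (Ω : Type) (B : Type) [CompleteBooleanAlgebra B] (e : Nam Ω → B), IsBC e →
    ∀ (T : Set (List Ω)), IsNam T [] → ∀ c : Cod Ω, c.val e T ≤ ev e T
  neg : ∀ (Ω : Type) (B : Type) [CompleteBooleanAlgebra B] (e : Nam Ω → B), IsBC e →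
    ∀ (T : Set (List Ω)), IsNam T [] → ∀ c : Cod Ω, c.neg.val e T = ev e T ⊓ (c.val e T)ᶜ

/-- CLO, 110 lines.  Induction on the code.  `proj`: for `and` choose `z k` for every `k` and put
`z (Nat.pair k j) = z k j` (`Nat.unpair`).  `closed`: `lev n D`: `n`; `or f`: one more than the bound for
`f (z 0)`; `and f`: some `k` fails, with bound `n`: all the `Nat.pair k j`, `j < n`, and `n`. -/
structure SpecCLO : Prop where
  proj : ∀ (Ω : Type) (c : Cod Ω) (b : ℕ → Ω), c.holds b ↔ ∃ z, c.clo b z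
  closed : ∀ (Ω : Type) (c : Cod Ω) (b : ℕ → Ω) (z : ℕ → ℕ), ¬ c.clo b z →
    ∃ n, ∀ (b' : ℕ → Ω) (z' : ℕ → ℕ), br b' n = br b n → br z' n = br z n → ¬ c.clo b' z'

/-- CON, 180 lines.  Uses: TRE, BAS.  If there is a continuous selector of witnesses on the branches of
`R` then `R` forces the Borel set.  Induction on the code, for all `R`, `Z`.
`lev n D`: BAS.den with `k = n`: for `R' ⊆ R` with stem `u'` the initial segment `t` of length `n` of
`u'` is in `R`, lies on a branch of `R` (TRE.branch), so `t ∈ D`; `R' ⊆ res T t`.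
`or f`: BAS.den: for `R' ⊆ R` with stem `u'` take a branch `b` of `R'` through `u'` and `n ≥ |u'|` such that
`Z b' 0 = Z b 0 = k` for all branches `b'` of `R` with `br b' n = br b n =: t`.  All branches of
`R'' = res R' t` go through `t`, so induction for `f k` and the shifted `Z` gives
`ev e R'' ≤ (f k).val`.  `and f`: `Z b (Nat.pair k ·)` for every `k`. -/
def SpecCON : Prop := ∀ (Ω : Type) (B : Type) [CompleteBooleanAlgebra B] (e : Nam Ω → B), IsBC e →
  ∀ (T : Set (List Ω)), IsNam T [] → ∀ (c : Cod Ω) (R : Set (List Ω)) (u : List Ω), IsNam R u →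
  R ⊆ T → ∀ Z : (ℕ → Ω) → ℕ → ℕ,
  (∀ b, (∀ n, br b n ∈ R) → ∀ j, ∃ n, ∀ b', (∀ m, br b' m ∈ R) → br b' n = br b n →
    Z b' j = Z b j) →
  (∀ b, (∀ n, br b n ∈ R) → c.clo b (Z b)) → ev e R ≤ c.val e T

/-- GSD (the unfolded game, Gale-Stewart), 220 lines.  Uses: TRE.  `dead t z` (`t, z` lists of the same
length): no `(b, z')` with `br b |t| = t`, `br z' |t| = z` is in `C`.  Inductive predicate
`Q t z`: `dead t z → Q t z`; and if `E : Set Ω`, `#E ≤ ℵ_1` and `Q (γ :: t) (m :: z)` for all `m` and all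
`γ ∉ E` with `γ :: t ∈ T` then `Q t z`.
Case `¬ Q [] []`: `lab [] = []`, `lab (γ :: t) = m :: lab t` with `m` such that `¬ Q (γ :: t) (m :: lab t)`
if there is one (0 otherwise); `R` = the `t ∈ T` with `¬ Q v (lab v)` for all `v <:+ t`; it is a Namba
tree with empty stem, as the `E` of the `γ` with `γ :: t ∈ T`, `∃ m, ¬ Q (γ :: t) (m :: lab t)` has
cardinality `ℵ_2` (else `Q t (lab t)`).  `Z b j` = the head of `lab (br b (j+1))`; `br (Z b) n =
lab (br b n)`; `(b, Z b) ∈ C` since otherwise some `br b n, lab (br b n)` is dead (closedness).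
Case `Q [] []`: by induction on `Q t z`: there is `Bad` with values of size `≤ ℵ_1` such that no
`(b, z') ∈ C` with `b` a branch of `T`, `br b |t| = t`, `br z' |t| = z` has `b n ∉ Bad (br b n)` for all
`n ≥ |t|`.  Dead: `Bad = ∅`.  Step: `Bad v = E ∪ ⋃ m, ⋃ γ with (γ :: t) <:+ v, γ ∉ E, γ :: t ∈ T`
of the sets `Bad_(γ,m) v` (there are at most `|v|` such `γ`). -/
def SpecGSD : Prop := ∀ (Ω : Type), #Ω = ℵ_ 2 → ∀ (T : Set (List Ω)), IsNam T [] →
  ∀ C : (ℕ → Ω) → (ℕ → ℕ) → Prop,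
  (∀ b z, ¬ C b z → ∃ n, ∀ (b' : ℕ → Ω) (z' : ℕ → ℕ), br b' n = br b n → br z' n = br z n →
    ¬ C b' z') →
  (∃ (R : Set (List Ω)) (Z : (ℕ → Ω) → ℕ → ℕ), IsNam R [] ∧ R ⊆ T ∧
    (∀ b, (∀ n, br b n ∈ R) → ∀ j, ∃ n, ∀ b', (∀ m, br b' m ∈ R) → br b' n = br b n →
      Z b' j = Z b j) ∧
    ∀ b, (∀ n, br b n ∈ R) → C b (Z b)) ∨
  ∃ Bad : List Ω → Set Ω, (∀ t, #(Bad t) ≤ ℵ_ 1) ∧
    ∀ b, (∀ n, br b n ∈ T) → (∀ n, b n ∉ Bad (br b n)) → ∀ z, ¬ C b z

/-- GAM, 50 lines.  Uses: BAS, VAL, CLO, CON, GSD.  GSD for `C b z = c.neg.clo b z` (CLO.closed).  First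
alternative: CON gives `ev e R ≤ c.neg.val e T = ⊥`, against BAS.pos.  Second alternative: `c.neg` fails
on `b` by CLO.proj, so `c` holds by VAL.holds. -/
def SpecGAM : Prop := ∀ (Ω : Type) (B : Type) [CompleteBooleanAlgebra B] (e : Nam Ω → B),
  #Ω = ℵ_ 2 → IsBC e → ∀ (T : Set (List Ω)), IsNam T [] → ∀ c : Cod Ω, c.neg.val e T = ⊥ →
  ∃ Bad : List Ω → Set Ω, (∀ t, #(Bad t) ≤ ℵ_ 1) ∧
    ∀ b, (∀ n, br b n ∈ T) → (∀ n, b n ∉ Bad (br b n)) → c.holds b

/-- CMB, 70 lines.  Uses: TRE.  `⋃ i, Bad i t` has cardinality `≤ ℵ_1`; choose the branch recursively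
with TRE.avoid. -/
def SpecCMB : Prop := ∀ (Ω : Type) (T : Set (List Ω)), IsNam T [] → ∀ (ι : Type), #ι ≤ ℵ_ 1 →
  ∀ Bad : ι → List Ω → Set Ω, (∀ i t, #(Bad i t) ≤ ℵ_ 1) →
  ∃ b : ℕ → Ω, (∀ n, br b n ∈ T) ∧ ∀ i n, b n ∉ Bad i (br b n)

/-! ### The Borel algebra -/

/-- Cells: the generic sequence starts with `t` (of length `n`), and `w i ∈ W i` for `i < n`.  (Here
`res Set.univ t` is the set of all sequences comparable with `t`.) -/
def Cell {Ω : Type} {B : Type} [CompleteBooleanAlgebra B] (e : Nam Ω → B) (W : ℕ → Set B) (m : B) :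
    Prop :=
  ∃ (t : List Ω) (w : ℕ → B), (∀ i < t.length, w i ∈ W i) ∧
    m = ev e (res Set.univ t) ⊓ ⨅ i : Fin t.length, w i

/-- The Borel algebra of the pair (generic sequence, elements of the `W n`): generated from arbitrary
suprema of cells by complements and countable suprema. -/
inductive Bor {Ω : Type} {B : Type} [CompleteBooleanAlgebra B] (e : Nam Ω → B) (W : ℕ → Set B) :
    B → Prop
  | opn (S : Set B) (h : ∀ m ∈ S, Cell e W m) : Bor e W (sSup S)
  | compl (a : B) (h : Bor e W a) : Bor e W aᶜ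
  | sup (a : ℕ → B) (h : ∀ n, Bor e W (a n)) : Bor e W (⨆ n, a n)

/-- BCD, 180 lines.  Uses: TRE, BAS, VAL.  Induction on `Bor`.  `opn S`, `a = sSup S`: the code
`or (fun n => lev n {t | ev e (res T t) ≤ a})`.  Its value is `≤ ev e T ⊓ a`.  Otherwise, for some `m ∈ S`,
`x = m ⊓ (value)ᶜ` has `ev e T ⊓ x ≠ ⊥`; `m` is the cell of `t0, w`, `n = |t0|`.  BAS.below: `R ⊆ T`
with stem `u`, `|u| ≥ n`, `ev e R ≤ x`.  As `ev e R ≤ ev e (res univ t0)` the initial segment of length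
`n` of `u` is `t0` (BAS.dis), so `t0 ∈ T`; for `i < n` let `v` be the initial segment of length `i` of
`t0`: `ev e R ≤ ev e (res T v) ≤ y v ∈ W i` and `ev e R ≤ w i ∈ W i`, so `y v = w i`.  Hence
`ev e (res T t0) ≤ m ≤ a`, and `ev e R ≤ ev e (res T t0) ≤ value`, a contradiction.
`compl`: `neg` (VAL.neg).  `sup`: `or`. -/
def SpecBCD : Prop := ∀ (Ω : Type) (B : Type) [CompleteBooleanAlgebra B] (e : Nam Ω → B),
  #Ω = ℵ_ 2 → IsBC e → ∀ W : ℕ → Set B, (∀ n, MaxAnti (W n)) →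
  ∀ (T : Set (List Ω)) (y : List Ω → B), IsNam T [] →
  (∀ t ∈ T, y t ∈ W t.length ∧ ev e (res T t) ≤ y t) →
  ∀ a, Bor e W a → ∃ c : Cod Ω, c.val e T = ev e T ⊓ a

/-- MET, 220 lines.  Uses: TRE, BAS, FUS, VAL, GAM, CMB, BCD.  `T, y` from FUS; for `a ∈ Bor` choose the
code `c a` of BCD.  `S = ⋃ i, A i`, `|S| ≤ ℵ_1`.  Codes with value `ev e T` (so `neg` has value `⊥`):
(R1) for `i ∈ ι`, `A i = {a n : n ∈ ℕ}` (nonempty, countable): `K i = or (fun n => c (a n))`; its value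
is `ev e T ⊓ sSup (A i) = ev e T`.
(R2) for a finite `F ⊆ S` and `n`: `D` = the `t` of length `n` with `(inf F) ⊓ ev e (res T t) = ⊥`,
`M` = the conjunction of `lev n D` and the codes `c a`, `a ∈ F` (an enumeration `ℕ → ..` of this finite
family): value `⊥`; the code is `M.neg`, and `M.neg.neg.val = ev e T ⊓ (ev e T ⊓ ⊤)ᶜ = ⊥` by VAL.neg.
GAM gives a `Bad` for each of these at most `ℵ_1` codes and CMB a branch `b` of `T` which satisfies
all.  `G = {x | ∃ F finite ⊆ S with (c a).holds b for all a ∈ F, ∃ n, (inf F) ⊓ ev e (res T (br b n)) ≤ x}`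
is a filter: not `⊥` by (R2) and VAL.holds; closed under meets as `ev e (res T (br b n))` decreases.  It
meets `A i` by (R1) and `W n` as `ev e (res T (br b n)) ≤ y (br b n) ∈ W n`. -/
def SpecMET : Prop := ∀ (Ω : Type) (B : Type) [CompleteBooleanAlgebra B] (e : Nam Ω → B),
  #Ω = ℵ_ 2 → IsBC e → ∀ W : ℕ → Set B, (∀ n, MaxAnti (W n)) → (∀ n, #(W n) ≤ ℵ_ 1) →
  ∀ (ι : Type), #ι ≤ ℵ_ 1 → ∀ A : ι → Set B, (∀ i, MaxAnti (A i)) → (∀ i, (A i).Countable) →
  (∀ i, ∀ a ∈ A i, Bor e W a) →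
  ∃ G : Set B, IsFilt G ∧ (∀ i, (G ∩ A i).Nonempty) ∧ ∀ n, (G ∩ W n).Nonempty

/-- TOP, 80 lines.  Uses: RSK, ULT, LAD, EXB, TRE, BAS, COL, MET.  `B` is nontrivial by TRE.full and
BAS.pos.  (3): if `ℵ_2 ≤ |ι|` there is a surjection `ι → Ω`; `BFA B ι ℵ₀` gives `BFA B Ω ℵ₀`, so
`BFA B Ω ℵ_1` by LAD, against COL. -/
def SpecTOP : Prop := ∀ (Ω : Type), #Ω = ℵ_ 2 →
  (∃ (B : Type) (_ : CompleteBooleanAlgebra B) (e : Nam Ω → B), IsBC e) ∧
  ∀ (B : Type) [CompleteBooleanAlgebra B] (e : Nam Ω → B), IsBC e →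
  (∀ ι : Type, Countable ι → ∀ A : ι → Set B, (∀ i, MaxAnti (A i)) →
    ∃ G : Set B, IsFilt G ∧ ∀ i, (G ∩ A i).Nonempty) ∧
  (∀ (ι : Type) (A : ι → Set B), (∀ i, MaxAnti (A i)) → (∀ i, (A i).Finite) →
    ∃ G : Set B, IsFilt G ∧ ∀ i, (G ∩ A i).Nonempty) ∧
  (∀ ι : Type, ℵ_ 2 ≤ #ι → ¬ BFA B ι ℵ₀) ∧
  (∀ ι : Type, #ι = ℵ_ 1 → (BFA B ι ℵ₀ ↔ BFA B ι (ℵ_ 1))) ∧
  (∀ W : ℕ → Set B, (∀ n, MaxAnti (W n)) → (∀ n, #(W n) ≤ ℵ_ 1) →
    ∀ (ι : Type), #ι ≤ ℵ_ 1 → ∀ A : ι → Set B, (∀ i, MaxAnti (A i)) → (∀ i, (A i).Countable) →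
    (∀ i, ∀ a ∈ A i, Bor e W a) →
    ∃ G : Set B, IsFilt G ∧ (∀ i, (G ∩ A i).Nonempty) ∧ ∀ n, (G ∩ W n).Nonempty)

end Pool.Agent.Lib.MPd89457.NB
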