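import Pool.Agent.Lib.MP_d89457_lc.NB.Spec

/-!
# MP_d89457_lc: the bounded Namba forcing axiom and a polarized partition relation for trees

THEOREM (ZTH).  Suppose BFA(N) (`ℵ_1` maximal antichains of size `≤ ℵ_1` of the completion of Namba
forcing).  Let `Y` be a set of at least `ℵ_2` functions `ω_1 → X` whose tree of initial segments has levels
of size `≤ ℵ_1`, and let `kap : ω_1 × X → {0, 1}` be a colouring.  Then either some infinite subset of
`Y` is coloured 1 at uncountably many levels, or some infinite set of cofinal branches of the tree of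
`Y` is coloured 0 at uncountably many levels.
So BFA(N) fails whenever there is a 2-coloured tree of height `ω_1` with levels of size `≤ ℵ_1` and
`ℵ_2` cofinal branches, such that every infinite set of cofinal branches has both colours at all but
countably many levels (such trees are added by a small σ-closed forcing, so no large cardinal
proves BFA(N)).
Proof: Namba forcing adds an `ω`-sequence of branches `y_(g(n))` which is coloured 0 from some `n` on, at
unboundedly many levels; the names involved are covered by `ℵ_1` antichains of size `≤ ℵ_1`.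

Conventions as in `Spec`; module `XXX` = file `NB/XXX.lean`, imports only `NB.SpecK`, namespace
`Pool.Agent.Lib.MPd89457.NB`, theorem `specXXX (hYYY : SpecYYY) .. : SpecXXX`, own lemmas in `XXXM`.
-/

set_option autoImplicit false

namespace Pool.Agent.Lib.MPd89457.NB

open Cardinal

section defs

variable {O X : Type} [LinearOrder O]

/-- `y` and `z` agree up to `ξ` -/
def Agr (ξ : O) (y z : O → X) : Prop := ∀ ζ ≤ ξ, y ζ = z ζ

/-- `z` is a cofinal branch of the tree of initial segments of the elements of `Y` -/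
def Clo (Y : Set (O → X)) (z : O → X) : Prop := ∀ ξ, ∃ y ∈ Y, Agr ξ y z

/-- the levels of the tree of initial segments of the elements of `Y` have cardinality `≤ ℵ_1` -/
def Thin (Y : Set (O → X)) : Prop :=
  ∀ ξ : O, ∃ S : Set (O → X), #S ≤ ℵ_ 1 ∧ ∀ y ∈ Y, ∃ z ∈ S, Agr ξ y z

end defs

/-- `O` is (order isomorphic to) `ω_1` up to cofinality: size `ℵ_1`, countable initial segments -/
def IsO1 (O : Type) [LinearOrder O] : Prop := #O = ℵ_ 1 ∧ ∀ ξ : O, (Set.Iic ξ).Countable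

/-- `b` is a branch of `T` -/
def Brn {Ω : Type} (T : Set (List Ω)) (b : ℕ → Ω) : Prop := ∀ n, br b n ∈ T

/-- supremum of the conditions all whose branches have the property `Φ` -/
noncomputable def tv {Ω B : Type} [CompleteBooleanAlgebra B] (e : Nam Ω → B)
    (Φ : (ℕ → Ω) → Prop) : B :=
  sSup {x | ∃ T s, IsNam T s ∧ (∀ b, Brn T b → Φ b) ∧ x = ev e T}

/-- LCL, 90 lines.  Uses: BAS.  If `x ≠ ⊥`, `x ≤ tv e Φ` then `x ⊓ ev e T ≠ ⊥` for some tree of the
supremum and BAS.below gives `R ⊆ T` with `ev e R ≤ x`.  `meet`: induction on the list, with a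
statement for all `x ∈ G` (take finally `x` the meet of the finitely many `tv e Φ`, which is in `G`;
restrict successively, properties of all branches pass to subtrees). -/
structure SpecLCL : Prop where
  one : ∀ (Ω : Type) (B : Type) [CompleteBooleanAlgebra B] (e : Nam Ω → B), IsBC e →
    ∀ (x : B) (Φ : (ℕ → Ω) → Prop), x ≠ ⊥ → x ≤ tv e Φ →
    ∃ (R : Set (List Ω)) (u : List Ω), IsNam R u ∧ ev e R ≤ x ∧ ∀ b, Brn R b → Φ b
  meet : ∀ (Ω : Type) (B : Type) [CompleteBooleanAlgebra B] (e : Nam Ω → B), IsBC e →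
    ∀ (G : Set B), IsFilt G → ∀ L : List ((ℕ → Ω) → Prop), (∀ Φ ∈ L, tv e Φ ∈ G) →
    ∃ (R : Set (List Ω)) (u : List Ω), IsNam R u ∧ ∀ Φ ∈ L, ∀ b, Brn R b → Φ b

/-- FAM, 110 lines.  Covers instead of antichains.  Well-order `J`; `a k j = u k j ⊓ (⨆ i < j, u k i)ᶜ`;
`A k = {a k j : j ∈ J} \ {⊥}` is a maximal antichain (the supremum of the `a k j` is `⊤`: well-founded
induction), of size `≤ #J`, and `a k j ≤ u k j`.  Index by `ι` through a surjection `ι → κ`. -/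
def SpecFAM : Prop := ∀ (B : Type) [CompleteBooleanAlgebra B] (ι κ J : Type), #ι = ℵ_ 1 →
  Nonempty κ → #κ ≤ ℵ_ 1 → #J ≤ ℵ_ 1 → BFA B ι (ℵ_ 1) → ∀ u : κ → J → B, (∀ k, ⨆ j, u k j = ⊤) →
  ∃ G : Set B, IsFilt G ∧ ∀ k, ∃ j, u k j ∈ G

/-- DNC, 40 lines.  Uses: BAS.  Otherwise the complement of the supremum is above some `ev e T`
(`IsBC.dense`), and `R ⊆ T` has `ev e R ≤ tv e (Φ j)`, so `ev e R = ⊥`. -/
def SpecDNC : Prop := ∀ (Ω : Type) (B : Type) [CompleteBooleanAlgebra B] (e : Nam Ω → B), IsBC e →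
  ∀ (J : Type) (Φ : J → (ℕ → Ω) → Prop),
  (∀ (T : Set (List Ω)) (s : List Ω), IsNam T s → ∃ (j : J) (R : Set (List Ω)) (u : List Ω),
    IsNam R u ∧ R ⊆ T ∧ ∀ b, Brn R b → Φ j b) → ⨆ j, tv e (Φ j) = ⊤

/-- DCD, 50 lines.  Uses: TRE.  `R = res T t` for a long node `t`; a branch of it passes through `t`
(its initial segment of length `|t|` is comparable with `t`). -/
def SpecDCD : Prop := ∀ (Ω : Type) (T : Set (List Ω)) (s : List Ω) (n : ℕ), IsNam T s →
  ∃ (R : Set (List Ω)) (t : List Ω), IsNam R t ∧ R ⊆ T ∧ n ≤ t.length ∧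
    ∀ b, Brn R b → br b t.length = t

/-- NEW, 90 lines.  `R` = the nodes `t ∈ T` such that `γ ∉ u` whenever `(γ :: u) <:+ t` and
`s <:+ u`.  Only finitely many successors are lost at each node.  (If `b` is a branch, `n ≥ |s|`, then
`b n :: br b n` is in `R` and `s <:+ br b n`, so `b n` is not an entry of `br b n`.) -/
def SpecNEW : Prop := ∀ (Ω : Type) (T : Set (List Ω)) (s : List Ω), IsNam T s →
  ∃ R : Set (List Ω), IsNam R s ∧ R ⊆ T ∧ ∀ b, Brn R b → ∀ n ≥ s.length, ∀ j < n, b n ≠ b j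

/-- SFT, 100 lines.  Moving the stem.  `up`: `R'` = the lists `u ++ s` with `u ∈ R` and the suffixes of
`s`.  A branch `b` of `R'` has `br b (|s| + n) = br (fun k => b (k + |s|)) n ++ s`. -/
structure SpecSFT : Prop where
  down : ∀ (Ω : Type) (T : Set (List Ω)) (s : List Ω), IsNam T s → IsNam {u | u ++ s ∈ T} []
  up : ∀ (Ω : Type) (T : Set (List Ω)) (s : List Ω) (R : Set (List Ω)), IsNam T s →
    R ⊆ {u | u ++ s ∈ T} → IsNam R [] →
    ∃ R' : Set (List Ω), IsNam R' s ∧ R' ⊆ T ∧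
      ∀ b, Brn R' b → Brn R (fun k => b (k + s.length))

/-- ZER, 180 lines.  Uses: TRE, GSD.  For every `ξ > ε` apply GSD to `C b z = ∀ n, ¬ c ξ (b n)`.  If the
first alternative holds for some `ξ > ε`: done.  Otherwise there are `Bad ξ` for all `ξ > ε`;
`X t = ⋃ ξ, Bad ξ t` has size `≤ ℵ_1`, so for each `t ∈ T` there is an injective `q t : ℕ → Ω` with
`q t m :: t ∈ T`, `q t m ∉ X t` (an infinite subset of a set of size `ℵ_2`).  Let `T0` be the countable set
of nodes generated from `[]` by `t ↦ q t m :: t`.  For `t ∈ T0` the set `{ξ : ∀ m, c ξ (q t m)}` is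
countable; so there is `ξ` outside of these countably many countable sets and of `Iic ε`, i.e.
`ξ > ε`.  Choose recursively a branch `b` with `br b n ∈ T0`, `¬ c ξ (b n)`: it is a branch of `T` which avoids
`Bad ξ`, so `¬ C b z`, a contradiction. -/
def SpecZER : Prop := ∀ (Ω : Type), #Ω = ℵ_ 2 → ∀ (O : Type) [LinearOrder O], IsO1 O →
  ∀ c : O → Ω → Prop, (∀ q : ℕ → Ω, Function.Injective q → {ξ | ∀ n, c ξ (q n)}.Countable) →
  ∀ T : Set (List Ω), IsNam T [] → ∀ ε : O, ∃ ξ : O, ε < ξ ∧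
    ∃ R : Set (List Ω), R ⊆ T ∧ IsNam R [] ∧ ∀ b, Brn R b → ∀ n, ¬ c ξ (b n)

/-- ZGF, 200 lines.  Uses: TRE, LCL, FAM, DNC, DCD, NEW, SFT, ZER.  FAM for `J' = J × O × ℕ` and
`κ = (ℕ × O) ⊕ (ℕ × ℕ) ⊕ Unit ⊕ O` (all of size `≤ ℵ_1`).  The suprema are `⊤` by DNC: first kind: DCD
with `n + 1` fixes `b n = γ`.  Second: DCD fixes `b n, b n'`; if they are different then `y` is different at
some `ξ`.  Third: NEW with `m = |s|`.  Fourth: with `s` the stem of `T`, `SFT.down`, ZER for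
`c ξ γ = kap ξ (y γ ξ)`, `SFT.up`, `k = |s|`. -/
def SpecZGF : Prop := ∀ (Ω : Type) (B : Type) [CompleteBooleanAlgebra B] (e : Nam Ω → B),
  #Ω = ℵ_ 2 → IsBC e → ∀ (O X J : Type) [LinearOrder O], IsO1 O → #J ≤ ℵ_ 1 →
  BFA B O (ℵ_ 1) → ∀ (y : Ω → O → X) (r : O → J → O → X) (kap : O → X → Prop),
  Function.Injective y → (∀ ξ γ, ∃ j, Agr ξ (y γ) (r ξ j)) →
  (∀ q : ℕ → Ω, Function.Injective q → {ξ | ∀ n, kap ξ (y (q n) ξ)}.Countable) →
  ∃ G : Set B, IsFilt G ∧ (∀ n ξ, ∃ j, tv e (fun b => Agr ξ (y (b n)) (r ξ j)) ∈ G) ∧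
    (∀ n n', (∃ ξ, tv e (fun b => y (b n) ξ ≠ y (b n') ξ) ∈ G) ∨ tv e (fun b => b n = b n') ∈ G) ∧
    (∃ m, tv e (fun b => ∀ n ≥ m, ∀ j < n, b n ≠ b j) ∈ G) ∧
    ∀ ε, ∃ ξ, ε < ξ ∧ ∃ k, tv e (fun b => ∀ n ≥ k, ¬ kap ξ (y (b n) ξ)) ∈ G

/-- ZEX, 200 lines.  Uses: TRE, LCL.  Extraction.  Choose `j n ξ` and let
`z k ξ = r ξ (j (m + k) ξ) ξ`.  All comparisons by LCL.meet for two or three of the properties and one
branch of `R` (TRE.branch).  For `ζ ≤ ξ`, `n = m + k`: `r ζ (j n ζ) ζ = r ξ (j n ξ) ζ` (both are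
`y (b n) ζ`), so `y (b n)` with `Agr ξ (y (b n)) (r ξ (j n ξ))` agrees with `z k` up to `ξ`: `z k` is in the
closure of the range of `y`.  Injective: for `k ≠ l` the second alternative contradicts the choice of
`m`; the first gives `z k ξ ≠ z l ξ`.  For every `ε` there are `ξ > ε` and `K` with `¬ kap ξ (z k ξ)` for all
`k` with `m + k ≥ K`.  Let `U p` be the set of the `ξ` with `¬ kap ξ (z k ξ)` for all `k ≥ p`: the union of
the `U p` is cofinal in `O`, so uncountable (a countable set in `O` is bounded: otherwise `O` is a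
countable union of sets `Iic ξ`), so some `U p` is uncountable; take `fun k => z (k + p)`. -/
def SpecZEX : Prop := ∀ (Ω : Type) (B : Type) [CompleteBooleanAlgebra B] (e : Nam Ω → B),
  IsBC e → ∀ (O X J : Type) [LinearOrder O], IsO1 O →
  ∀ (y : Ω → O → X) (r : O → J → O → X) (kap : O → X → Prop) (G : Set B), IsFilt G →
  (∀ n ξ, ∃ j, tv e (fun b => Agr ξ (y (b n)) (r ξ j)) ∈ G) →
  (∀ n n', (∃ ξ, tv e (fun b => y (b n) ξ ≠ y (b n') ξ) ∈ G) ∨ tv e (fun b => b n = b n') ∈ G) →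
  (∃ m, tv e (fun b => ∀ n ≥ m, ∀ j < n, b n ≠ b j) ∈ G) →
  (∀ ε, ∃ ξ, ε < ξ ∧ ∃ k, tv e (fun b => ∀ n ≥ k, ¬ kap ξ (y (b n) ξ)) ∈ G) →
  ∃ z : ℕ → O → X, Function.Injective z ∧ (∀ n, Clo (Set.range y) (z n)) ∧
    ¬ {ξ | ∀ n, ¬ kap ξ (z n ξ)}.Countable

/-- ZTH, 80 lines.  Uses: ZGF, ZEX.  An injection `Ω → Y` (`ℵ_2 ≤ #Y`) is `y`; `J = O`, `r ξ` maps `O` onto
the set `S` of `Thin` (nonempty, `#S ≤ ℵ_1 = #O`).  If the first alternative fails then the hypothesis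
of ZGF on `kap` holds (for injective `q` the sequence `y (q n)` is injective in `Y`), and ZEX gives the
second alternative (`Clo (range y) z` implies `Clo Y z`). -/
def SpecZTH : Prop := ∀ (Ω : Type) (B : Type) [CompleteBooleanAlgebra B] (e : Nam Ω → B),
  #Ω = ℵ_ 2 → IsBC e → ∀ (O X : Type) [LinearOrder O], IsO1 O → BFA B O (ℵ_ 1) →
  ∀ (Y : Set (O → X)) (kap : O → X → Prop), ℵ_ 2 ≤ #Y → Thin Y →
  (∃ y : ℕ → O → X, Function.Injective y ∧ (∀ n, y n ∈ Y) ∧
    ¬ {ξ | ∀ n, kap ξ (y n ξ)}.Countable) ∨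
  ∃ z : ℕ → O → X, Function.Injective z ∧ (∀ n, Clo Y (z n)) ∧
    ¬ {ξ | ∀ n, ¬ kap ξ (z n ξ)}.Countable

/-- ZCH, 60 lines.  Uses: ZTH.  Under CH every `Y` is `Thin` if `X` is countable: there are at most
`ℵ_0 ^ ℵ_0 = 2 ^ ℵ_0 = ℵ_1` restrictions of functions `O → X` to the countable set `Iic ξ`; `S` = a set
of representatives. -/
def SpecZCH : Prop := (2 : Cardinal.{0}) ^ ℵ₀ = ℵ_ 1 →
  ∀ (Ω : Type) (B : Type) [CompleteBooleanAlgebra B] (e : Nam Ω → B),
  #Ω = ℵ_ 2 → IsBC e → ∀ (O X : Type) [LinearOrder O], Countable X → IsO1 O → BFA B O (ℵ_ 1) →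
  ∀ (Y : Set (O → X)) (kap : O → X → Prop), ℵ_ 2 ≤ #Y →
  (∃ y : ℕ → O → X, Function.Injective y ∧ (∀ n, y n ∈ Y) ∧
    ¬ {ξ | ∀ n, kap ξ (y n ξ)}.Countable) ∨
  ∃ z : ℕ → O → X, Function.Injective z ∧ (∀ n, Clo Y (z n)) ∧
    ¬ {ξ | ∀ n, ¬ kap ξ (z n ξ)}.Countable

end Pool.Agent.Lib.MPd89457.NB
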