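import Pool.Agent.Lib.MP_d89457_lc.NB.SpecM

/-!
# MP_d89457_lc: the morass theorem without CH

THEOREM.  If BFA(N) holds and there is a simplified `(ω_1, 1)`-morass then the polarized partition
relation `(ω_1, ω) → (ω_1, ω)` holds for two colours: for all subsets `x ξ` (`ξ < ω_1`) of `ω` there is an
infinite `A ⊆ ω` with `A ⊆ x ξ` or `A ∩ x ξ = ∅` for uncountably many `ξ`.  (So CH fails, and even
`non(M) > ℵ_1`.)

PROOF.  In ZFC a morass carries coherent finite-to-one functions `e ξ : φ_ξ → ω`: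
`e η (g x) = e ξ x` for all but finitely many `x < φ_ξ`, for every map `g` of the morass from `ξ` to `η`
(recursion on `ξ`, CES, CEL, CER).  If the `x ξ` are a counterexample then `S ξ = {t < φ_ξ : e ξ t ∈ x ξ}` is a
colouring as in MCO of SpecM (COS), and the proof of MFN gives a contradiction.

Conventions: module `XXX` = file `NB/XXX.lean`, imports only `NB.SpecN`, namespace
`Pool.Agent.Lib.MPd89457.NB`, theorem `specXXX (hYYY : SpecYYY) .. : SpecXXX` (hypotheses in the order of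
Uses), own lemmas in the namespace `XXXM`.
-/

set_option autoImplicit false

namespace Pool.Agent.Lib.MPd89457.NB

open Cardinal

/-- `e'` is a good choice at the level `ξ`, given `e β` for `β < ξ` -/
def Gd {O : Type} [LinearOrder O] (φ : O → O) (F : O → O → Set (O → O)) (e : O → O → ℕ) (ξ : O)
    (e' : O → ℕ) : Prop :=
  (∀ n, {x | x < φ ξ ∧ e' x ≤ n}.Finite) ∧
    ∀ β < ξ, ∀ g ∈ F β ξ, {x | x < φ β ∧ e' (g x) ≠ e β x}.Finite

/-- every infinite subset of `ℕ` is split by all but countably many of the sets `x ξ` -/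
def Spl {O : Type} (x : O → Set ℕ) : Prop :=
  ∀ A : Set ℕ, A.Infinite → {ξ | A ⊆ x ξ ∨ A ⊆ (x ξ)ᶜ}.Countable

/-- CEQ, 150 lines.  `φ ξ` is nonempty: `suc` for `ξ` and its successor (exists, since `O` has no
maximum: `Iic ξ` is countable; least element above `ξ`) gives `σ < φ ξ`; `cov` gives `β < ξ`, `f ∈ F β ξ`.
The pairs `(β', f)`, `β' < ξ`, `f ∈ F β' ξ`, are countably many up to equality below `φ β'` (`Iio ξ` is
countable, `cnt`), so there is a sequence `(b n, f n)` of such pairs with a representative for every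
pair.  `(β 0, g 0)` = any pair; `(β (k+1), g (k+1))` = `(δ, h)` of `dir` for `(β k, g k)` and
`(b k, f k)`. -/
def SpecCEQ : Prop := ∀ (O Ω : Type) [LinearOrder O] [WellFoundedLT O] [LinearOrder Ω], IsO1 O →
  ∀ (φ : O → O) (F : O → O → Set (O → O)) (G : O → Set (O → Ω)), Mor φ F G → ∀ ξ, Lim ξ →
  ∃ (β : ℕ → O) (g : ℕ → O → O), (∀ k, β k < ξ ∧ g k ∈ F (β k) ξ) ∧ (∀ k, β k < β (k + 1)) ∧
    (∀ k, ∃ h ∈ F (β k) (β (k + 1)), ∀ x < φ (β k), g k x = g (k + 1) (h x)) ∧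
    ∀ β' < ξ, ∀ f ∈ F β' ξ, ∃ k, β' < β k ∧ ∃ h ∈ F β' (β k), ∀ x < φ β', f x = g k (h x)

/-- CEL, 220 lines.  Uses: CEQ.  By `com`, for `k < m` there is `h ∈ F (β k) (β m)` with `g k x = g m (h x)` for
`x < φ (β k)`.  Every `x < φ ξ` is in the range of some `g k` on `φ (β k)` (`cov` and the last property of
CEQ); let `k x` be the least such `k`, `x = g k u`, and `e' x = max k (e (β k) u)`.  Finite-to-one:
`e' x ≤ n` implies `k x ≤ n` and `e (β k) u ≤ n`.  For `g m`: let `x = g m v`, `v < φ (β m)`; `k x ≤ m`.  If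
`k x = m` then `u = v` and `e' x = e (β m) v` unless `e (β m) v < m` (finitely many `v`).  If `k x = k < m` then
`v = h u` and `e (β m) (h u) = e (β k) u` for all but finitely many `u`, and `e' x = e (β k) u` unless
`e (β k) u < k`; finitely many `k`.  For `f = g m ∘ h`: `e' (g m (h x)) = e (β m) (h x)` for all but finitely
many `x` (`h` is injective), `= e β' x` for all but finitely many. -/
def SpecCEL : Prop := ∀ (O Ω : Type) [LinearOrder O] [WellFoundedLT O] [LinearOrder Ω], IsO1 O →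
  ∀ (φ : O → O) (F : O → O → Set (O → O)) (G : O → Set (O → Ω)), Mor φ F G → ∀ ξ, Lim ξ →
  ∀ e : O → O → ℕ, (∀ β < ξ, Gd φ F e β (e β)) → ∃ e', Gd φ F e ξ e'

/-- CES, 130 lines.  The levels which are not limits.  If `ξ` is minimal: an injection of the countable
set `Iio (φ ξ)` into `ℕ`.  Otherwise there is `γ < ξ` with nothing in between; `σ`, `s` from `suc`.  Every
`x < φ ξ` is in `Iio (φ γ)` or is `s u` with `u < φ γ` (`cov` gives `β ≤ γ`; for `β < γ` use `fac`).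
`e' x = e γ x` if `x < φ γ`, and `= e γ u` if `φ γ ≤ x = s u`.  For `g ∈ F γ ξ`: `e' (g x) = e γ x` for all
`x < φ γ` (if `g = s` and `s x < φ γ` then `x < σ`, as `s` is increasing and `φ γ ≤ s σ`, so `s x = x`).  For
`β < γ`: `fac`. -/
def SpecCES : Prop := ∀ (O Ω : Type) [LinearOrder O] [WellFoundedLT O] [LinearOrder Ω], IsO1 O →
  ∀ (φ : O → O) (F : O → O → Set (O → O)) (G : O → Set (O → Ω)), Mor φ F G → ∀ ξ, ¬ Lim ξ →
  ∀ e : O → O → ℕ, (∀ β < ξ, Gd φ F e β (e β)) → ∃ e', Gd φ F e ξ e'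

/-- CER, 70 lines.  Pure recursion: `e ξ` = a good choice at `ξ` for the function which is `e` below
`ξ` (and `0` elsewhere), by `WellFounded.fix`; `Gd φ F e ξ` depends only on `e β`, `β < ξ`. -/
def SpecCER : Prop := ∀ (O : Type) [LinearOrder O] [WellFoundedLT O] (φ : O → O)
  (F : O → O → Set (O → O)),
  (∀ ξ (e : O → O → ℕ), (∀ β < ξ, Gd φ F e β (e β)) → ∃ e', Gd φ F e ξ e') →
  ∃ e : O → O → ℕ, ∀ ξ, Gd φ F e ξ (e ξ)

/-- COS, 100 lines.  `S ξ = {t | e ξ t ∈ x ξ}`.  For `A` and `ξ₀` the set `A' = e ξ₀ '' A` is infinite; by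
`Spl` for the infinite sets `A' \ {0, .., n}` (all `n`) for all but countably many `ξ` both `A' ∩ x ξ` and
`A' \ x ξ` are infinite; these exceptions are below some `ζ` (countable sets are bounded in `O`).  For
`g ∈ F ξ₀ ξ` only finitely many `a ∈ A` have `e ξ (g a) ≠ e ξ₀ a`, and infinitely many `a ∈ A` have
`e ξ₀ a ∈ x ξ` (resp. `∉`). -/
def SpecCOS : Prop := ∀ (O : Type) [LinearOrder O], IsO1 O → ∀ (φ : O → O)
  (F : O → O → Set (O → O)) (e : O → O → ℕ), (∀ ξ, Gd φ F e ξ (e ξ)) → ∀ x : O → Set ℕ, Spl x →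
  ∃ S : O → Set O, ∀ (ξ₀ : O) (A : Set O), (∀ a ∈ A, a < φ ξ₀) → A.Infinite →
    ∃ ζ, ∀ ξ, ζ < ξ → ξ₀ < ξ → ∀ g ∈ F ξ₀ ξ, (∃ a ∈ A, g a ∈ S ξ) ∧ ∃ a ∈ A, g a ∉ S ξ

/-- CHS, 80 lines.  Uses: MSP.  The infinite subsets of `ℕ` are `≤ 2 ^ ℵ₀ = ℵ_1` many, so there is an
injection `ν` of them into `O`; `x ξ` splits the countably many `A` with `ν A ≤ ξ`. -/
def SpecCHS : Prop := (2 : Cardinal.{0}) ^ ℵ₀ = ℵ_ 1 → ∀ (O : Type) [LinearOrder O], IsO1 O →
  ∃ x : O → Set ℕ, Spl x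

/-- MFP, 60 lines (captain).  As MFN. -/
def SpecMFP : Prop := ∀ (O Ω : Type) [LinearOrder O] [WellFoundedLT O] [LinearOrder Ω]
  [WellFoundedLT Ω], IsO1 O → IsO2 Ω →
  ∀ (φ : O → O) (F : O → O → Set (O → O)) (G : O → Set (O → Ω)), Mor φ F G →
  ∀ x : O → Set ℕ, Spl x →
  ∀ (B : Type) [CompleteBooleanAlgebra B] (e : Nam Ω → B), IsBC e → ¬ BFA B O (ℵ_ 1)

end Pool.Agent.Lib.MPd89457.NB
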