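import Pool.Agent.Lib.MP_d89457_lc.NB.SpecK

/-!
# MP_d89457_lc: the partition theorem for finite sequences of branches

THEOREM (ZTP).  Suppose BFA(N).  Let `Y` be a set of at least `ℵ_2` functions `ω_1 → X` whose tree of
initial segments has levels of size `≤ ℵ_1`, and for `ξ < ω_1` let `K ξ` be a set of finite sequences
of elements of `X`.  Then
(1) there are a finite sequence `t` of elements of `Y` and `A ⊆ Y` of size `ℵ_2` such that for EVERY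
countable subset `a` of `A` there are uncountably many levels `ξ` at which all one-step extensions of
`t` by elements of `a` are in `K ξ`, or
(2) there are cofinal branches `z 0, z 1, ..` (pairwise different from `k` on) such that at uncountably
many levels all sequences `(z 0, .., z n)`, `n ≥ k`, are outside of `K ξ`.
(So far: `K ξ` depends only on the last entry, and in (1) only one infinite set.)

Each module is an ADAPTATION of the module of the same name without the final `p` (copy the file and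
change it): module `XXX` = file `NB/XXX.lean`, imports only `NB.SpecP`, namespace
`Pool.Agent.Lib.MPd89457.NB`, theorem `specXXX`, own lemmas in `XXXM` (e.g. `ZERpM`).
Lists have the newest entry first; `br b n = [b (n-1), .., b 0]`.
-/

set_option autoImplicit false

namespace Pool.Agent.Lib.MPd89457.NB

open Cardinal

/-- ZERp, 180 lines.  Uses: GSD (`specZERp (hGSD : SpecGSD)`).  As ZER.  GSD for the closed sets
`∀ n, ¬ c ξ (br b (n + 1))`.  `q t` is now chosen by the hypothesis for `t` and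
`A = {γ : γ :: t ∈ T} \ X t`, of size `ℵ_2`. -/
def SpecZERp : Prop := ∀ (Ω : Type), #Ω = ℵ_ 2 → ∀ (O : Type) [LinearOrder O], IsO1 O →
  ∀ c : O → List Ω → Prop, (∀ (t : List Ω) (A : Set Ω), #A = ℵ_ 2 →
    ∃ q : ℕ → Ω, (∀ n, q n ∈ A) ∧ {ξ | ∀ n, c ξ (q n :: t)}.Countable) →
  ∀ T : Set (List Ω), IsNam T [] → ∀ ε : O, ∃ ξ : O, ε < ξ ∧
    ∃ R : Set (List Ω), R ⊆ T ∧ IsNam R [] ∧ ∀ b, Brn R b → ∀ n, ¬ c ξ (br b (n + 1))

/-- ZGFp, 220 lines.  Uses: TRE, LCL, FAM, DNC, DCD, NEW, SFT, ZERp.  As ZGF.  Fourth kind: `s` the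
stem of `T`, ZERp for `c ξ u = K ξ ((u ++ s).map fun γ => y γ ξ)` (hypothesis for `u ++ s`).  A branch
`b` of `R'` has `br b |s| = s` (`R'` has stem `s`), so `br b (n + 1 + |s|) = br b' (n + 1) ++ s` for
`b' k = b (k + |s|)`. -/
def SpecZGFp : Prop := ∀ (Ω : Type) (B : Type) [CompleteBooleanAlgebra B] (e : Nam Ω → B),
  #Ω = ℵ_ 2 → IsBC e → ∀ (O X J : Type) [LinearOrder O], IsO1 O → #J ≤ ℵ_ 1 →
  BFA B O (ℵ_ 1) → ∀ (y : Ω → O → X) (r : O → J → O → X) (K : O → List X → Prop),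
  Function.Injective y → (∀ ξ γ, ∃ j, Agr ξ (y γ) (r ξ j)) →
  (∀ (t : List Ω) (A : Set Ω), #A = ℵ_ 2 → ∃ q : ℕ → Ω, (∀ n, q n ∈ A) ∧
    {ξ | ∀ n, K ξ ((q n :: t).map fun γ => y γ ξ)}.Countable) →
  ∃ G : Set B, IsFilt G ∧ (∀ n ξ, ∃ j, tv e (fun b => Agr ξ (y (b n)) (r ξ j)) ∈ G) ∧
    (∀ n n', (∃ ξ, tv e (fun b => y (b n) ξ ≠ y (b n') ξ) ∈ G) ∨ tv e (fun b => b n = b n') ∈ G) ∧
    (∃ m, tv e (fun b => ∀ n ≥ m, ∀ j < n, b n ≠ b j) ∈ G) ∧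
    ∀ ε, ∃ ξ, ε < ξ ∧ ∃ k, tv e (fun b => ∀ n ≥ k, ¬ K ξ ((br b (n + 1)).map fun γ => y γ ξ)) ∈ G

/-- ZEXp, 220 lines.  Uses: TRE, LCL.  As ZEX, without the shift: `z n ξ = r ξ (j n ξ) ξ` for all `n`.
For `n ≥ k`: LCL.meet for the property of `K` and the `n + 1` properties
`Agr ξ (y (b i)) (r ξ (j i ξ))`, `i ≤ n`, gives a branch `b` with `(br b (n + 1)).map (y · ξ)
= br (fun i => z i ξ) (n + 1)`.  For some `k` the set of levels is uncountable (countable union). -/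
def SpecZEXp : Prop := ∀ (Ω : Type) (B : Type) [CompleteBooleanAlgebra B] (e : Nam Ω → B),
  IsBC e → ∀ (O X J : Type) [LinearOrder O], IsO1 O →
  ∀ (y : Ω → O → X) (r : O → J → O → X) (K : O → List X → Prop) (G : Set B), IsFilt G →
  (∀ n ξ, ∃ j, tv e (fun b => Agr ξ (y (b n)) (r ξ j)) ∈ G) →
  (∀ n n', (∃ ξ, tv e (fun b => y (b n) ξ ≠ y (b n') ξ) ∈ G) ∨ tv e (fun b => b n = b n') ∈ G) →
  (∃ m, tv e (fun b => ∀ n ≥ m, ∀ j < n, b n ≠ b j) ∈ G) →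
  (∀ ε, ∃ ξ, ε < ξ ∧ ∃ k, tv e (fun b => ∀ n ≥ k, ¬ K ξ ((br b (n + 1)).map fun γ => y γ ξ)) ∈ G) →
  ∃ (z : ℕ → O → X) (k : ℕ), (∀ n ≥ k, ∀ j < n, z n ≠ z j) ∧ (∀ n, Clo (Set.range y) (z n)) ∧
    ¬ {ξ | ∀ n ≥ k, ¬ K ξ (br (fun i => z i ξ) (n + 1))}.Countable

/-- the conclusion of ZTP for `Y` and `K` -/
def Alt {O X : Type} [LinearOrder O] (Y : Set (O → X)) (K : O → List X → Prop) : Prop :=
  (∃ (t : List (O → X)) (A : Set (O → X)), (∀ y ∈ t, y ∈ Y) ∧ A ⊆ Y ∧ #A = ℵ_ 2 ∧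
    ∀ q : ℕ → O → X, (∀ n, q n ∈ A) → ¬ {ξ | ∀ n, K ξ ((q n :: t).map fun y => y ξ)}.Countable) ∨
  ∃ (z : ℕ → O → X) (k : ℕ), (∀ n ≥ k, ∀ j < n, z n ≠ z j) ∧ (∀ n, Clo Y (z n)) ∧
    ¬ {ξ | ∀ n ≥ k, ¬ K ξ (br (fun i => z i ξ) (n + 1))}.Countable

/-- ZTP, 100 lines.  Uses: ZGFp, ZEXp.  As ZTH.  If the first alternative fails then the hypothesis
of ZGFp holds: for `t : List Ω` and `A ⊆ Ω` take the list `t.map y` and the set `y '' A` (of size `ℵ_2`, `y`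
is injective); the sequence `q'` in `y '' A` is `y ∘ q`. -/
def SpecZTP : Prop := ∀ (Ω : Type) (B : Type) [CompleteBooleanAlgebra B] (e : Nam Ω → B),
  #Ω = ℵ_ 2 → IsBC e → ∀ (O X : Type) [LinearOrder O], IsO1 O → BFA B O (ℵ_ 1) →
  ∀ (Y : Set (O → X)) (K : O → List X → Prop), ℵ_ 2 ≤ #Y → Thin Y → Alt Y K

/-- ZCP, 60 lines.  Uses: ZTP.  As ZCH. -/
def SpecZCP : Prop := (2 : Cardinal.{0}) ^ ℵ₀ = ℵ_ 1 →
  ∀ (Ω : Type) (B : Type) [CompleteBooleanAlgebra B] (e : Nam Ω → B),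
  #Ω = ℵ_ 2 → IsBC e → ∀ (O X : Type) [LinearOrder O], Countable X → IsO1 O → BFA B O (ℵ_ 1) →
  ∀ (Y : Set (O → X)) (K : O → List X → Prop), ℵ_ 2 ≤ #Y → Alt Y K

end Pool.Agent.Lib.MPd89457.NB
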