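import Pool.Agent.Lib.MP_d89457_lc.NB.SpecN
import Pool.Agent.Lib.MP_d89457_lc.NB.SpecP

/-!
# MP_d89457_lc: BFA(N) and a simplified morass imply `b > ℵ_1`

THEOREM.  If BFA(N) holds and there is a simplified `(ω_1, 1)`-morass then every family of `ℵ_1` functions
`ω → ω` is dominated (modulo finite) by one function.

PROOF.  Let `e ξ : φ_ξ → ω` be the coherent finite-to-one functions of SpecN.  Apply the partition theorem
ZTP of SpecP to `K ξ (.., s, t) : e ξ t ≤ h ξ (e ξ s)`.  Alternative (1) is impossible, since `e ξ` is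
finite-to-one.  Alternative (2) gives branches `z n` with `h ξ (e ξ (z (n-1))) < e ξ (z n)` at uncountably many
levels; the branches are elements of `ω_2` (KCL), caught by one map at a level `ξ₀` (MBD), so
`e ξ (z n ξ) = m n := e ξ₀ (z n ξ₀)` for almost all `n` (BBA).  Such a sequence `m` dominates (BBB).

Conventions as before: module `XXX` = file `NB/XXX.lean`, imports only `NB.SpecQ`, theorem `specXXX`,
own lemmas in the namespace `XXXM`.
-/

set_option autoImplicit false

namespace Pool.Agent.Lib.MPd89457.NB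

open Cardinal

/-- for every `ω_1`-sequence of functions `h ξ : ω → ω` there is a sequence `m` tending to infinity such that
`h ξ (m n) < m (n + 1)` for almost all `n`, for uncountably many `ξ` -/
def LadH (O : Type) : Prop := ∀ h : O → ℕ → ℕ, ∃ (m : ℕ → ℕ) (I : Set O), ¬ I.Countable ∧
  (∀ N, ∃ n₀, ∀ n ≥ n₀, N ≤ m n) ∧ ∀ ξ ∈ I, ∃ N, ∀ n ≥ N, h ξ (m n) < m (n + 1)

/-- BBB, 100 lines.  By recursion on `ξ` (`WellFounded.fix`, or existence of a function with the property by
well-founded recursion; initial segments are countable) choose MONOTONE functions `H ξ : ℕ → ℕ` with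
`h ξ n ≤ H ξ n` for all `n` and `∀ η < ξ, ∃ N, ∀ n ≥ N, H η n ≤ H ξ n` (countably many functions are
dominated by one: enumerate `Iio ξ` by `ℕ`, `H ξ n = max` of `h ξ i` and `H (η j) i` over `i, j ≤ n`).
`LadH` for `H` gives `m`, `I`.  `f j = m (n j + 1)`, `n j` = the least `n` with `j ≤ m n`.  For `ξ ∈ I` and `j` greater
than `m 0, .., m (N - 1)`: `n j ≥ N`, so `H ξ j ≤ H ξ (m (n j)) < f j`.  For any `η` there is `ξ ∈ I`, `η ≤ ξ`
(`I` is uncountable, `Iic η` countable). -/
def SpecBBB : Prop := ∀ (O : Type) [LinearOrder O] [WellFoundedLT O], IsO1 O → LadH O →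
  ∀ h : O → ℕ → ℕ, ∃ f : ℕ → ℕ, ∀ ξ, ∃ N, ∀ n ≥ N, h ξ n ≤ f n

/-- BBA, 150 lines (captain).  Uses: ZTP, MDE, KCL, MBD, CEL, CES, CER. -/
def SpecBBA : Prop := ∀ (O Ω : Type) [LinearOrder O] [WellFoundedLT O] [LinearOrder Ω]
  [WellFoundedLT Ω], IsO1 O → IsO2 Ω →
  ∀ (φ : O → O) (F : O → O → Set (O → O)) (G : O → Set (O → Ω)), Mor φ F G →
  ∀ (B : Type) [CompleteBooleanAlgebra B] (e : Nam Ω → B), IsBC e → BFA B O (ℵ_ 1) → LadH O

end Pool.Agent.Lib.MPd89457.NB
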