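import Pool.Agent.Lib.MP_d89457_lc.NB.SpecM
import Pool.Agent.Lib.MP_d89457_lc.NB.MFN

/-!
# MP_d89457_lc: Silver's principle W refutes BFA(N)

`SilverW O` (for `O = ω_1`): `Y` is the set of all cofinal branches of a tree (the node of the branch `y` at
level `ξ` is `y ξ`; it determines the lower nodes) with countable levels and at least `ℵ_2` cofinal
branches, and `W ξ` is a countable family of subsets of the level `ξ`, such that the trace of every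
countable set of cofinal branches on the level `ξ` is in `W ξ` for all large `ξ`.
-/

set_option autoImplicit false

namespace Pool.Agent.Lib.MPd89457.NB

open Cardinal

/-- Silver's principle `W` -/
def SilverW (O : Type) [LinearOrder O] : Prop :=
  ∃ (X : Type) (Y : Set (O → X)) (W : O → Set (Set X)),
    (∀ y ∈ Y, ∀ z ∈ Y, ∀ ξ, y ξ = z ξ → ∀ ζ ≤ ξ, y ζ = z ζ) ∧
    (∀ z, Clo Y z → z ∈ Y) ∧
    ℵ_ 2 ≤ #Y ∧
    (∀ ξ, {x | ∃ y ∈ Y, y ξ = x}.Countable) ∧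
    (∀ ξ, (W ξ).Countable) ∧
    ∀ q : ℕ → O → X, (∀ n, q n ∈ Y) → ∃ β, ∀ ξ, β < ξ → (Set.range fun n => q n ξ) ∈ W ξ

namespace WSLM

variable {O X : Type} [LinearOrder O]

theorem exists_bound (hO : IsO1 O) (A : Set O) (hA : A.Countable) : ∃ ζ, ∀ a ∈ A, a ≤ ζ := by
  by_contra hcon
  push Not at hcon
  have h1 : (Set.univ : Set O) ⊆ ⋃ a ∈ A, Set.Iic a := by
    intro ζ _
    obtain ⟨a, ha, hlt⟩ := hcon ζ
    exact Set.mem_biUnion ha (le_of_lt hlt)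
  have h2 : (Set.univ : Set O).Countable :=
    (Set.Countable.biUnion hA fun a _ => hO.2 a).mono h1
  have h3 : #O ≤ ℵ₀ := by
    rw [← mk_univ]
    exact Cardinal.le_aleph0_iff_set_countable.2 h2
  rw [hO.1] at h3
  exact absurd h3 (not_le.2 (by rw [← aleph_zero]; exact aleph_lt_aleph.2 (by exact zero_lt_one)))

theorem thin (hO : IsO1 O) (Y : Set (O → X))
    (htree : ∀ y ∈ Y, ∀ z ∈ Y, ∀ ξ, y ξ = z ξ → ∀ ζ ≤ ξ, y ζ = z ζ)
    (hlev : ∀ ξ, {x | ∃ y ∈ Y, y ξ = x}.Countable) : Thin Y := by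
  intro ξ
  refine ⟨Set.range (fun t : {x | ∃ y ∈ Y, y ξ = x} => t.2.choose), ?_, ?_⟩
  · refine mk_range_le.trans ?_
    have h1 : #{x | ∃ y ∈ Y, y ξ = x} ≤ ℵ₀ := Cardinal.le_aleph0_iff_set_countable.2 (hlev ξ)
    exact h1.trans (aleph0_le_aleph 1)
  · intro y hy
    have h : ∃ y' ∈ Y, y' ξ = y ξ := ⟨y, hy, rfl⟩
    refine ⟨_, ⟨⟨y ξ, h⟩, rfl⟩, ?_⟩
    intro ζ hζ
    exact htree y hy h.choose h.choose_spec.1 ξ h.choose_spec.2.symm ζ hζ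

/-- an infinite sequence of branches has infinitely many nodes at all large levels -/
theorem eventually_infinite (hO : IsO1 O) (Y : Set (O → X))
    (htree : ∀ y ∈ Y, ∀ z ∈ Y, ∀ ξ, y ξ = z ξ → ∀ ζ ≤ ξ, y ζ = z ζ)
    (q : ℕ → O → X) (hq : Function.Injective q) (hqY : ∀ n, q n ∈ Y) :
    ∃ β, ∀ ξ, β < ξ → (Set.range fun n => q n ξ).Infinite := by
  have h1 : ∀ p : ℕ × ℕ, ∃ δ, p.1 ≠ p.2 → q p.1 δ ≠ q p.2 δ := by
    intro p
    by_cases hp : p.1 = p.2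
    · have hne : Nonempty O := by
        rw [← mk_ne_zero_iff, hO.1]
        exact (aleph_pos 1).ne'
      exact ⟨hne.some, fun h => absurd hp h⟩
    · have h2 : q p.1 ≠ q p.2 := fun h => hp (hq h)
      obtain ⟨δ, hδ⟩ := Function.ne_iff.1 h2
      exact ⟨δ, fun _ => hδ⟩
  choose δ hδ using h1
  obtain ⟨β, hβ⟩ := exists_bound hO (Set.range δ) (Set.countable_range δ)
  refine ⟨β, fun ξ hξ => Set.infinite_range_of_injective ?_⟩
  intro m n hmn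
  by_contra hne
  exact hδ (m, n) hne (htree _ (hqY m) _ (hqY n) ξ hmn (δ (m, n))
    ((hβ _ ⟨(m, n), rfl⟩).trans hξ.le))

end WSLM

/-- **WSL** -/
theorem silverW_refutes (hZTH : SpecZTH) (hMSP : SpecMSP) (Ω B : Type) [CompleteBooleanAlgebra B]
    (e : Nam Ω → B) (hΩ : #Ω = ℵ_ 2) (he : IsBC e) (O : Type) [LinearOrder O] (hO : IsO1 O)
    (hW : SilverW O) : ¬ BFA B O (ℵ_ 1) := by
  intro hBFA
  obtain ⟨X, Y, W, htree, hclo, hY, hlev, hWc, hWq⟩ := hW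
  have hS : ∀ ξ, ∃ S : Set X, ∀ A ∈ {A | A ∈ W ξ ∧ A.Infinite}, (∃ a ∈ A, a ∈ S) ∧
      ∃ a ∈ A, a ∉ S := by
    intro ξ
    exact hMSP X _ ((hWc ξ).mono fun A hA => hA.1) (fun A hA => hA.2)
  choose S hS using hS
  have core : ∀ q : ℕ → O → X, Function.Injective q → (∀ n, q n ∈ Y) →
      ∃ ζ, ∀ ξ, ζ < ξ → (∃ n, q n ξ ∈ S ξ) ∧ ∃ n, q n ξ ∉ S ξ := by
    intro q hq hqY
    obtain ⟨β1, h1⟩ := WSLM.eventually_infinite hO Y htree q hq hqY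
    obtain ⟨β2, h2⟩ := hWq q hqY
    refine ⟨max β1 β2, fun ξ hξ => ?_⟩
    obtain ⟨⟨_, ⟨m, rfl⟩, hm⟩, _, ⟨n, rfl⟩, hn⟩ := hS ξ _
      ⟨h2 ξ (lt_of_le_of_lt (le_max_right _ _) hξ), h1 ξ (lt_of_le_of_lt (le_max_left _ _) hξ)⟩
    exact ⟨⟨m, hm⟩, n, hn⟩
  rcases hZTH Ω B e hΩ he O X hO hBFA Y (fun ξ x => x ∈ S ξ) hY
    (WSLM.thin hO Y htree hlev) with ⟨q, hq, hqY, hu⟩ | ⟨q, hq, hqY, hu⟩
  · obtain ⟨ζ, hζ⟩ := core q hq hqY
    apply hu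
    refine MFNM.countable_of_bound hO _ ζ ?_
    intro ξ hξ hP
    obtain ⟨n, hn⟩ := (hζ ξ hξ).2
    exact hn (hP n)
  · obtain ⟨ζ, hζ⟩ := core q hq (fun n => hclo _ (hqY n))
    apply hu
    refine MFNM.countable_of_bound hO _ ζ ?_
    intro ξ hξ hP
    obtain ⟨n, hn⟩ := (hζ ξ hξ).1
    exact hP n hn

end Pool.Agent.Lib.MPd89457.NB
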