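import Pool.Agent.Lib.MP_d89457_lc.NB.SpecN
import Pool.Agent.Lib.MP_d89457_lc.NB.SpecP
import Pool.Agent.Lib.MP_d89457_lc.NB.WSL

/-!
# MP_d89457_lc: BFA(N) implies in ZFC that there is no simplified `(ω_1, 1)`-morass

THEOREM.  BFA(N) implies that the covering form of Silver's principle W fails (`CovW`); so W fails
and there is no simplified `(ω_1, 1)`-morass (no CH, no `b = ℵ_1`).

IDEA.  The colouring in the partition theorem may depend also on the bound `ε` of the level (ZTQ).  Let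
`K ε ξ` forbid that the `n`-th branch passes at level `ξ` through one of the first `n + 1` sets `w` of `W ξ` which
are `ε`-separated (contain at most one node above each node of level `ε`).  One-step avoidance: among
infinitely many branches through ONE node of level `ε`, at most one passes through such a `w`.  So BFA(N)
gives branches `z n` such that for every `ε` there is `ξ > ε` at which they are not covered by any
`ε`-separated `w` in `W ξ`: a contradiction to `CovW`.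

Conventions as before: module `XXX` = file `NB/XXX.lean`, imports only `NB.SpecR`, theorem `specXXX`,
own lemmas in the namespace `XXXM`.
-/

set_option autoImplicit false

namespace Pool.Agent.Lib.MPd89457.NB

open Cardinal

/-- ZGFq.  Uses: TRE, LCL, FAM, DNC, DCD, NEW, SFT, ZERp.  COPY of NB/ZGFp.lean with `K ε` in place of `K` (fourth
kind: `ε` is the index). -/
def SpecZGFq : Prop := ∀ (Ω : Type) (B : Type) [CompleteBooleanAlgebra B] (e : Nam Ω → B),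
  #Ω = ℵ_ 2 → IsBC e → ∀ (O X J : Type) [LinearOrder O], IsO1 O → #J ≤ ℵ_ 1 →
  BFA B O (ℵ_ 1) → ∀ (y : Ω → O → X) (r : O → J → O → X) (K : O → O → List X → Prop),
  Function.Injective y → (∀ ξ γ, ∃ j, Agr ξ (y γ) (r ξ j)) →
  (∀ (ε : O) (t : List Ω) (A : Set Ω), #A = ℵ_ 2 → ∃ q : ℕ → Ω, (∀ n, q n ∈ A) ∧
    {ξ | ∀ n, K ε ξ ((q n :: t).map fun γ => y γ ξ)}.Countable) →
  ∃ G : Set B, IsFilt G ∧ (∀ n ξ, ∃ j, tv e (fun b => Agr ξ (y (b n)) (r ξ j)) ∈ G) ∧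
    (∀ n n', (∃ ξ, tv e (fun b => y (b n) ξ ≠ y (b n') ξ) ∈ G) ∨ tv e (fun b => b n = b n') ∈ G) ∧
    (∃ m, tv e (fun b => ∀ n ≥ m, ∀ j < n, b n ≠ b j) ∈ G) ∧
    ∀ ε, ∃ ξ, ε < ξ ∧ ∃ k, tv e (fun b => ∀ n ≥ k, ¬ K ε ξ ((br b (n + 1)).map fun γ => y γ ξ)) ∈ G

/-- ZEXq.  Uses: TRE, LCL.  COPY of NB/ZEXp.lean without the last step (no countable union). -/
def SpecZEXq : Prop := ∀ (Ω : Type) (B : Type) [CompleteBooleanAlgebra B] (e : Nam Ω → B),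
  IsBC e → ∀ (O X J : Type) [LinearOrder O], IsO1 O →
  ∀ (y : Ω → O → X) (r : O → J → O → X) (K : O → O → List X → Prop) (G : Set B), IsFilt G →
  (∀ n ξ, ∃ j, tv e (fun b => Agr ξ (y (b n)) (r ξ j)) ∈ G) →
  (∀ n n', (∃ ξ, tv e (fun b => y (b n) ξ ≠ y (b n') ξ) ∈ G) ∨ tv e (fun b => b n = b n') ∈ G) →
  (∃ m, tv e (fun b => ∀ n ≥ m, ∀ j < n, b n ≠ b j) ∈ G) →
  (∀ ε, ∃ ξ, ε < ξ ∧ ∃ k, tv e (fun b => ∀ n ≥ k, ¬ K ε ξ ((br b (n + 1)).map fun γ => y γ ξ)) ∈ G) →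
  ∃ (z : ℕ → O → X) (m : ℕ), (∀ n ≥ m, ∀ j < n, z n ≠ z j) ∧ (∀ n, Clo (Set.range y) (z n)) ∧
    ∀ ε, ∃ ξ, ε < ξ ∧ ∃ k, ∀ n ≥ k, ¬ K ε ξ (br (fun i => z i ξ) (n + 1))

/-- the conclusion of ZTQ for `Y` and `K` -/
def AltQ {O X : Type} [LinearOrder O] (Y : Set (O → X)) (K : O → O → List X → Prop) : Prop :=
  (∃ (ε : O) (t : List (O → X)) (A : Set (O → X)), (∀ y ∈ t, y ∈ Y) ∧ A ⊆ Y ∧ #A = ℵ_ 2 ∧
    ∀ q : ℕ → O → X, (∀ n, q n ∈ A) →
      ¬ {ξ | ∀ n, K ε ξ ((q n :: t).map fun y => y ξ)}.Countable) ∨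
  ∃ (z : ℕ → O → X) (m : ℕ), (∀ n ≥ m, ∀ j < n, z n ≠ z j) ∧ (∀ n, Clo Y (z n)) ∧
    ∀ ε, ∃ ξ, ε < ξ ∧ ∃ k, ∀ n ≥ k, ¬ K ε ξ (br (fun i => z i ξ) (n + 1))

/-- ZTQ (captain).  Uses: ZGFq, ZEXq.  Copy of NB/ZTP.lean. -/
def SpecZTQ : Prop := ∀ (Ω : Type) (B : Type) [CompleteBooleanAlgebra B] (e : Nam Ω → B),
  #Ω = ℵ_ 2 → IsBC e → ∀ (O X : Type) [LinearOrder O], IsO1 O → BFA B O (ℵ_ 1) →
  ∀ (Y : Set (O → X)) (K : O → O → List X → Prop), ℵ_ 2 ≤ #Y → Thin Y → AltQ Y K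

/-- `w` contains at most one node of level `ξ` above each node of level `ε` -/
def Sep {O X : Type} (Y : Set (O → X)) (ε ξ : O) (w : Set X) : Prop :=
  ∀ y ∈ Y, ∀ y' ∈ Y, y ξ ∈ w → y' ξ ∈ w → y ε = y' ε → y ξ = y' ξ

/-- the covering form of Silver's principle W: every countable set of cofinal branches is covered, for
some `ε` and all `ξ > ε`, by a member of `W ξ` which is separated by the level `ε` -/
def CovW (O : Type) [LinearOrder O] : Prop :=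
  ∃ (X : Type) (Y : Set (O → X)) (W : O → Set (Set X)),
    (∀ y ∈ Y, ∀ z ∈ Y, ∀ ξ, y ξ = z ξ → ∀ ζ ≤ ξ, y ζ = z ζ) ∧
    (∀ z, Clo Y z → z ∈ Y) ∧
    ℵ_ 2 ≤ #Y ∧
    (∀ ξ, {x | ∃ y ∈ Y, y ξ = x}.Countable) ∧
    (∀ ξ, (W ξ).Countable) ∧
    ∀ q : ℕ → O → X, (∀ n, q n ∈ Y) → ∃ ε, ∀ ξ, ε < ξ → ∃ w ∈ W ξ, (∀ n, q n ξ ∈ w) ∧ Sep Y ε ξ w

/-- CVR (captain).  Uses: ZTQ.  `K ε ξ (x :: l)`: `x` is in one of the first `|l| + 1` members of an enumeration of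
the `ε`-separated members of `W ξ`. -/
def SpecCVR : Prop := ∀ (Ω B : Type) [CompleteBooleanAlgebra B] (e : Nam Ω → B), #Ω = ℵ_ 2 →
  IsBC e → ∀ (O : Type) [LinearOrder O], IsO1 O → CovW O → ¬ BFA B O (ℵ_ 1)

/-- SWC, 60 lines.  Uses nothing.  The same `Y`, `W`.  For `q` let `β` be as in `SilverW`; countably many
distinct pairs `q n ≠ q m` are separated at some level, so (`WSLM.exists_bound` in NB/WSL) there is `ε ≥ β`
with `q n ε ≠ q m ε` whenever `q n ≠ q m` (tree property).  For `ξ > ε`: `w = range (q · ξ)`: if `y ξ = q n ξ`,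
`y' ξ = q m ξ`, `y ε = y' ε` then `q n ε = y ε = y' ε = q m ε` by the tree property, so `q n = q m`. -/
def SpecSWC : Prop := ∀ (O : Type) [LinearOrder O], IsO1 O → SilverW O → CovW O

/-- MWC, 140 lines.  Uses: KCL, MBD (of SpecM), for a `Der`.  `X = O`, `Y = range y`,
`W ξ = {D ε ξ t : ε < ξ, t < φ ξ}`, `D ε ξ t = {s | ∃ g ∈ F ε ξ, ∃ τ < φ ε, ∃ σ < τ, g τ = t ∧ g σ = s}`
(countable families since initial segments of `O` are countable).  Tree: `Der.tree`.  Closed: KCL.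
`#Y`: `y` is injective (`Der.dir`).  Covering: `q n = y (i n)`; the set `{i n}` has a strict upper bound `j` in
`Ω` (as in MBD: otherwise `Ω` is a countable union of `Iic`'s; or first any upper bound, then anything
above it); MBD for `{i n} ∪ {j}` gives `ε`, `f ∈ G ε` with `f (y (i n) ε) = i n`, `f (y j ε) = j`, so
`y (i n) ε < y j ε` (`incG`).  For `ξ > ε` `Der.up` gives `g ∈ F ε ξ` with `y (f τ) ξ = g τ`: `w = D ε ξ (y j ξ)`
with `τ = y j ε`, `σ = y (i n) ε`.  Separated: let `y a ξ = g σ`, `y b ξ = g' σ'`, `g τ = t = g' τ'`.  By `pull`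
(for an index `c` with `y c ξ = t`, here `t = y j ξ`, `c = j`) `τ = y j ε = τ'`, so by `bl` `g' σ' = g σ'`; by `pull`
`y a ε = σ`, `y b ε = σ'` (from `y b ξ = g' σ'`); so `y a ε = y b ε` gives `y a ξ = y b ξ`. -/
def SpecMWC : Prop := ∀ (O Ω : Type) [LinearOrder O] [WellFoundedLT O] [LinearOrder Ω]
  [WellFoundedLT Ω], IsO1 O → IsO2 Ω →
  ∀ (φ : O → O) (F : O → O → Set (O → O)) (G : O → Set (O → Ω)) (y : Ω → O → O), Der φ F G y →
  CovW O

end Pool.Agent.Lib.MPd89457.NB
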