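import Pool.Agent.Lib.MP_d89457_lc.NB.Spec

/-!
# MP_d89457_lc: sharp forms

`Opn e W a`: `a` is a supremum of cells (an open set of the pair generic sequence, elements of the
`W n`).  Sharper forms of (3) and (5): for `|ι| ≥ ℵ_2` the axiom fails for countable antichains of open
elements of the generic sequence alone; for `|ι| ≤ ℵ_1` it holds for families of antichains each of which
is countable and Borel, or of ARBITRARY size and open.

Conventions as in `Spec`; module `XXX` = file `NB/XXX.lean`, imports `NB.SpecS` (and the file it adapts if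
this is useful), theorem `specXXX (hYYY : SpecYYY) .. : SpecXXX`.
-/

set_option autoImplicit false

namespace Pool.Agent.Lib.MPd89457.NB

open Cardinal

/-- open elements: suprema of cells -/
def Opn {Ω : Type} {B : Type} [CompleteBooleanAlgebra B] (e : Nam Ω → B) (W : ℕ → Set B) (a : B) :
    Prop :=
  ∃ S : Set B, (∀ m ∈ S, Cell e W m) ∧ a = sSup S

/-- LDP (adapt LAD.lean; 180 lines).  Uses: PRT.  LAD inside a class `P` closed under suprema: the new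
antichains consist of suprema of subsets of the old ones. -/
def SpecLDP : Prop := ∀ (B : Type) [CompleteBooleanAlgebra B] (P : B → Prop),
  (∀ X : Set B, (∀ x ∈ X, P x) → P (sSup X)) → ∀ (ι : Type), ℵ_ 1 ≤ #ι →
  (∀ A : ι → Set B, (∀ i, MaxAnti (A i)) → (∀ i, (A i).Countable) → (∀ i, ∀ a ∈ A i, P a) →
    ∃ G : Set B, IsFilt G ∧ ∀ i, (G ∩ A i).Nonempty) →
  ∀ A : ι → Set B, (∀ i, MaxAnti (A i)) → (∀ i, #(A i) ≤ ℵ_ 1) → (∀ i, ∀ a ∈ A i, P a) →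
    ∃ G : Set B, IsFilt G ∧ ∀ i, (G ∩ A i).Nonempty

/-- CLP (adapt COL.lean; 240 lines).  Uses: TRE, BAS.  The same antichains: `x β k` is the supremum of
the `ev e (res Set.univ t)` for the nodes `t` which decide `F(β) = k` (a tree `T ∈ D β k` with node `t` is
contained in `res Set.univ t`, which is itself in `D β k`).  With `W = fun _ => {⊤}` the cells are exactly
the `ev e (res Set.univ t)` (take `w = fun _ => ⊤`). -/
def SpecCLP : Prop := ∀ (Ω : Type) (B : Type) [CompleteBooleanAlgebra B] (e : Nam Ω → B),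
  #Ω = ℵ_ 2 → IsBC e → ∃ A : Ω → Set B, (∀ β, MaxAnti (A β)) ∧ (∀ β, #(A β) ≤ ℵ_ 1) ∧
    (∀ β, ∀ a ∈ A β, Opn e (fun _ => {⊤}) a) ∧ ¬ ∃ G : Set B, IsFilt G ∧ ∀ β, (G ∩ A β).Nonempty

/-- MTO (adapt MET.lean; 260 lines).  Uses: TRE, BAS, FUS, VAL, GAM, CMB, BCD.  As MET; for an index
`i` with `A i` open (of any size) the code of (R1) is `or (fun n => lev n {t | ∃ a ∈ A i,
ev e (res T t) ≤ a})`.  Its value is `ev e T`: by BAS.den, for `R ⊆ T` some `a ∈ A i` has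
`ev e R ⊓ a ≠ ⊥`, `a = sSup S`, so `ev e R ⊓ m ≠ ⊥` for a cell `m ∈ S` of `t0, w`, and BAS.below gives
`R' ⊆ R` with a stem of length at least `|t0|` and `ev e R' ≤ m`; as in BCD `t0 ∈ T` and
`ev e (res T t0) ≤ m ≤ a`, and `ev e R' ≤ ev e (res T t0) ≤` value.  If the code holds on `b` then
`ev e (res T (br b n)) ≤ a ∈ A i` for some `n`, so `a ∈ G`.  (R2) only for the finite subsets of the union
of the other `A i`. -/
def SpecMTO : Prop := ∀ (Ω : Type) (B : Type) [CompleteBooleanAlgebra B] (e : Nam Ω → B),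
  #Ω = ℵ_ 2 → IsBC e → ∀ W : ℕ → Set B, (∀ n, MaxAnti (W n)) → (∀ n, #(W n) ≤ ℵ_ 1) →
  ∀ (ι : Type), #ι ≤ ℵ_ 1 → ∀ A : ι → Set B, (∀ i, MaxAnti (A i)) →
  (∀ i, ((A i).Countable ∧ ∀ a ∈ A i, Bor e W a) ∨ ∀ a ∈ A i, Opn e W a) →
  ∃ G : Set B, IsFilt G ∧ (∀ i, (G ∩ A i).Nonempty) ∧ ∀ n, (G ∩ W n).Nonempty

/-- TPS (adapt TOP.lean; 90 lines).  Uses: RSK, ULT, LAD, EXB, TRE, BAS, LDP, CLP, MTO.  Third part:
`Opn` is closed under suprema (union of the sets of cells), so LDP for `Ω` and CLP give a family indexed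
by `Ω`; compose with a surjection `ι → Ω`. -/
def SpecTPS : Prop := ∀ (Ω : Type), #Ω = ℵ_ 2 →
  (∃ (B : Type) (_ : CompleteBooleanAlgebra B) (e : Nam Ω → B), IsBC e) ∧
  ∀ (B : Type) [CompleteBooleanAlgebra B] (e : Nam Ω → B), IsBC e →
  (∀ ι : Type, Countable ι → ∀ A : ι → Set B, (∀ i, MaxAnti (A i)) →
    ∃ G : Set B, IsFilt G ∧ ∀ i, (G ∩ A i).Nonempty) ∧
  (∀ (ι : Type) (A : ι → Set B), (∀ i, MaxAnti (A i)) → (∀ i, (A i).Finite) →
    ∃ G : Set B, IsFilt G ∧ ∀ i, (G ∩ A i).Nonempty) ∧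
  (∀ ι : Type, ℵ_ 2 ≤ #ι → ∃ A : ι → Set B, (∀ i, MaxAnti (A i)) ∧ (∀ i, (A i).Countable) ∧
    (∀ i, ∀ a ∈ A i, Opn e (fun _ => {⊤}) a) ∧
    ¬ ∃ G : Set B, IsFilt G ∧ ∀ i, (G ∩ A i).Nonempty) ∧
  (∀ ι : Type, #ι = ℵ_ 1 → (BFA B ι ℵ₀ ↔ BFA B ι (ℵ_ 1))) ∧
  (∀ W : ℕ → Set B, (∀ n, MaxAnti (W n)) → (∀ n, #(W n) ≤ ℵ_ 1) →
    ∀ (ι : Type), #ι ≤ ℵ_ 1 → ∀ A : ι → Set B, (∀ i, MaxAnti (A i)) →
    (∀ i, ((A i).Countable ∧ ∀ a ∈ A i, Bor e W a) ∨ ∀ a ∈ A i, Opn e W a) →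
    ∃ G : Set B, IsFilt G ∧ (∀ i, (G ∩ A i).Nonempty) ∧ ∀ n, (G ∩ W n).Nonempty)

end Pool.Agent.Lib.MPd89457.NB
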