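import Pool.Agent.Lib.MP_d89457_lc.NB.Spec

set_option autoImplicit false

namespace Pool.Agent.Lib.MPd89457.NB

open Cardinal

namespace TOPM

lemma bfa_mono {B : Type} [CompleteBooleanAlgebra B] {ι : Type} {l l' : Cardinal.{0}} (h : l ≤ l')
    (hB : BFA B ι l') : BFA B ι l := fun A hA hl => hB A hA fun i => (hl i).trans h

lemma bfa_surj {B : Type} [CompleteBooleanAlgebra B] {ι κ : Type} {l : Cardinal.{0}} (s : ι → κ)
    (hs : Function.Surjective s) (hB : BFA B ι l) : BFA B κ l := by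
  intro A hA hl
  obtain ⟨G, hG, h⟩ := hB (fun i => A (s i)) (fun i => hA _) (fun i => hl _)
  refine ⟨G, hG, fun k => ?_⟩
  obtain ⟨i, rfl⟩ := hs k
  exact h i

end TOPM

open TOPM in
theorem specTOP (hRSK : SpecRSK) (hULT : SpecULT) (hLAD : SpecLAD) (hEXB : SpecEXB)
    (hTRE : SpecTRE) (hBAS : SpecBAS) (hCOL : SpecCOL) (hMET : SpecMET) : SpecTOP := by
  intro Ω hΩ
  refine ⟨hEXB (Nam Ω), ?_⟩
  intro B _ e he
  have hnt : Nontrivial B :=
    nontrivial_of_ne _ _ (hBAS.pos Ω B e he Set.univ [] (hTRE.full Ω hΩ))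
  have h12 : (ℵ_ 1 : Cardinal.{0}) ≤ ℵ_ 2 := Cardinal.aleph_le_aleph.2 (by norm_num)
  have h01 : (ℵ₀ : Cardinal.{0}) ≤ ℵ_ 1 := Cardinal.aleph0_le_aleph 1
  refine ⟨fun ι hι A hA => hRSK B hnt ι hι A hA, fun ι A hA hf => hULT B hnt ι A hA hf, ?_, ?_, ?_⟩
  · intro ι hι hB
    have hne : Nonempty Ω := by
      rw [← Cardinal.mk_ne_zero_iff, hΩ]
      exact (Cardinal.aleph_pos 2).ne'
    have hle : #Ω ≤ #ι := by rw [hΩ]; exact hι
    obtain ⟨g⟩ := Cardinal.le_def Ω ι |>.1 hle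
    have h1 : BFA B Ω ℵ₀ :=
      bfa_surj (Function.invFun g) (Function.invFun_surjective g.injective) hB
    exact hCOL Ω B e hΩ he (hLAD B Ω (by rw [hΩ]; exact h12) h1)
  · intro ι hι
    exact ⟨hLAD B ι hι.ge, bfa_mono h01⟩
  · intro W hW hWc ι hι A hA hAc hAb
    exact hMET Ω B e hΩ he W hW hWc ι hι A hA hAc hAb

end Pool.Agent.Lib.MPd89457.NB
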