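import Pool.Agent.Lib.MP_d89457_lc.NB.Spec

/-!
# MP_d89457_lc, module TRE: elementary facts on Namba trees
-/

set_option autoImplicit false

namespace Pool.Agent.Lib.MPd89457.NB

open Cardinal

namespace TREM

theorem avoid {Ω : Type} (T : Set (List Ω)) (s t : List Ω) (X : Set Ω) (hT : IsNam T s)
    (ht : t ∈ T) (hs : s <:+ t) (hX : #X ≤ ℵ_ 1) : ∃ γ, γ ∉ X ∧ γ :: t ∈ T := by
  by_contra hcon
  push Not at hcon
  have hsub : {γ : Ω | γ :: t ∈ T} ⊆ X := by
    intro γ hγ
    by_contra hne
    exact hcon γ hne hγ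
  have h1 : #({γ : Ω | γ :: t ∈ T} : Set Ω) ≤ #X := Cardinal.mk_le_mk_of_subset hsub
  have h2 : #({γ : Ω | γ :: t ∈ T} : Set Ω) = ℵ_ 2 := hT.2.2.2 t ht hs
  have h3 : ℵ_ 1 < ℵ_ 2 := Cardinal.aleph_lt_aleph.mpr one_lt_two
  rw [h2] at h1
  exact absurd (h1.trans hX) (not_le.mpr h3)

theorem res_nam {Ω : Type} (T : Set (List Ω)) (s t : List Ω) (hT : IsNam T s) (ht : t ∈ T)
    (hs : s <:+ t) : IsNam (res T t) t := by
  refine ⟨⟨ht, Or.inl List.suffix_rfl⟩, ?_, fun u hu => hu.2, ?_⟩
  · rintro u ⟨huT, hu⟩ v hv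
    refine ⟨hT.2.1 u huT v hv, ?_⟩
    rcases hu with h | h
    · exact Or.inl (hv.trans h)
    · exact List.suffix_or_suffix_of_suffix hv h
  · rintro u ⟨huT, -⟩ htu
    rw [← hT.2.2.2 u huT (hs.trans htu)]
    refine Cardinal.mk_congr (Equiv.subtypeEquivRight fun γ => ?_)
    constructor
    · exact fun h => h.1
    · exact fun h => ⟨h, Or.inr (htu.trans (List.suffix_cons γ u))⟩

theorem brs {Ω : Type} (b : ℕ → Ω) (m n : ℕ) (hmn : m ≤ n) :
    br b m <:+ br b n ∧ (br b n).length = n := by
  have hlen : ∀ k, (br b k).length = k := by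
    intro k
    induction k with
    | zero => rfl
    | succ k ih =>
      show (b k :: br b k).length = k + 1
      rw [List.length_cons, ih]
  refine ⟨?_, hlen n⟩
  induction hmn with
  | refl => exact List.suffix_rfl
  | step _ ih => exact ih.trans (List.suffix_cons _ _)

theorem br_eq {Ω : Type} (b : ℕ → Ω) : ∀ l : List Ω,
    (∀ n, n < l.length → l.reverse[n]? = some (b n)) → br b l.length = l := by
  intro l
  induction l with
  | nil => intro _; rfl
  | cons a l ih =>
    intro h
    have h1 : br b l.length = l := by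
      apply ih
      intro n hn
      have h2 := h n (by rw [List.length_cons]; omega)
      rw [List.reverse_cons, List.getElem?_append_left (by rw [List.length_reverse]; exact hn)] at h2
      exact h2
    have h3 := h l.length (by rw [List.length_cons]; omega)
    have h4 : a = b l.length := by
      rw [List.reverse_cons, List.getElem?_append_right (by rw [List.length_reverse]),
        List.length_reverse, Nat.sub_self] at h3
      exact Option.some_injective _ h3
    show b l.length :: br b l.length = a :: l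
    rw [h1, ← h4]

theorem get_suffix {Ω : Type} {u w : List Ω} (h : u <:+ w) (n : ℕ) (hn : n < u.length) :
    w.reverse[n]? = u.reverse[n]? := by
  obtain ⟨p, rfl⟩ := h
  rw [List.reverse_append, List.getElem?_append_left (by rw [List.length_reverse]; exact hn)]

theorem branch_aux {Ω : Type} (T : Set (List Ω)) (s t' : List Ω) (hT : IsNam T s) (ht : t' ∈ T)
    (hs : s <:+ t') : ∃ b : ℕ → Ω, (∀ n, br b n ∈ T) ∧ br b t'.length = t' := by
  have hstep : ∀ u : {u : List Ω // u ∈ T ∧ s <:+ u}, ∃ γ : Ω, γ :: (u : List Ω) ∈ T := by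
    intro u
    obtain ⟨γ, -, hγ⟩ := avoid T s u ∅ hT u.2.1 u.2.2 (by rw [Cardinal.mk_eq_zero]; exact zero_le)
    exact ⟨γ, hγ⟩
  choose F hF using hstep
  obtain ⟨w, hw0, hws⟩ : ∃ w : ℕ → {u : List Ω // u ∈ T ∧ s <:+ u}, w 0 = ⟨t', ht, hs⟩ ∧
      ∀ n, (w (n + 1) : List Ω) = F (w n) :: (w n : List Ω) :=
    ⟨fun n => Nat.rec ⟨t', ht, hs⟩
      (fun _ u => ⟨F u :: (u : List Ω), hF u, u.2.2.trans (List.suffix_cons _ _)⟩) n, rfl,
      fun _ => rfl⟩
  have hlen : ∀ n, n ≤ (w n : List Ω).length := by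
    intro n
    induction n with
    | zero => exact Nat.zero_le _
    | succ n ih =>
      rw [hws n, List.length_cons]
      omega
  have hmono : ∀ m n, m ≤ n → (w m : List Ω) <:+ (w n : List Ω) := by
    intro m n hmn
    induction hmn with
    | refl => exact List.suffix_rfl
    | step _ ih =>
      rw [hws]
      exact ih.trans (List.suffix_cons _ _)
  have hex : ∀ n : ℕ, ∃ x : Ω, ((w (n + 1) : List Ω)).reverse[n]? = some x := by
    intro n
    have h1 : n < ((w (n + 1) : List Ω)).reverse.length := by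
      rw [List.length_reverse]
      have := hlen (n + 1)
      omega
    exact ⟨_, List.getElem?_eq_getElem h1⟩
  choose b hb using hex
  have hbr : ∀ k, br b (w k : List Ω).length = (w k : List Ω) := by
    intro k
    apply br_eq
    intro n hn
    rcases le_total k (n + 1) with h | h
    · rw [← get_suffix (hmono k (n + 1) h) n hn]
      exact hb n
    · have h2 : n < (w (n + 1) : List Ω).length := by
        have := hlen (n + 1)
        omega
      rw [get_suffix (hmono (n + 1) k h) n h2]
      exact hb n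
  refine ⟨b, ?_, ?_⟩
  · intro n
    have h1 := (brs b n (w n : List Ω).length (hlen n)).1
    rw [hbr n] at h1
    exact hT.2.1 _ (w n).2.1 _ h1
  · have h1 := hbr 0
    rw [hw0] at h1
    exact h1

theorem branch {Ω : Type} (T : Set (List Ω)) (s t : List Ω) (hT : IsNam T s) (ht : t ∈ T) :
    ∃ b : ℕ → Ω, (∀ n, br b n ∈ T) ∧ br b t.length = t := by
  obtain ⟨t', ht', hs', htt⟩ : ∃ t' ∈ T, s <:+ t' ∧ t <:+ t' := by
    rcases hT.2.2.1 t ht with h | h
    · exact ⟨s, hT.1, List.suffix_rfl, h⟩
    · exact ⟨t, ht, h, List.suffix_rfl⟩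
  obtain ⟨b, hb, hbt⟩ := branch_aux T s t' hT ht' hs'
  refine ⟨b, hb, ?_⟩
  have h1 := (brs b t.length t'.length htt.length_le).1
  rw [hbt] at h1
  have h2 : (br b t.length).length = t.length := (brs b t.length t.length le_rfl).2
  rcases List.suffix_or_suffix_of_suffix h1 htt with h | h
  · exact h.eq_of_length h2
  · exact (h.eq_of_length h2.symm).symm

end TREM

theorem specTRE : SpecTRE where
  full Ω hΩ := by
    refine ⟨trivial, fun _ _ _ _ => trivial, fun t _ => Or.inr (List.nil_suffix), ?_⟩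
    intro t _ _
    rw [← hΩ]
    exact Cardinal.mk_congr (Equiv.subtypeUnivEquiv fun _ => trivial)
  res Ω T s t hT ht hs := TREM.res_nam T s t hT ht hs
  avoid Ω T s t X hT ht hs hX := TREM.avoid T s t X hT ht hs hX
  long Ω T s t k hT ht hs := by
    induction k with
    | zero => exact ⟨t, ht, List.suffix_rfl, Nat.zero_le _⟩
    | succ k ih =>
      obtain ⟨u, hu, htu, hk⟩ := ih
      obtain ⟨γ, -, hγ⟩ := TREM.avoid T s u ∅ hT hu (hs.trans htu)
        (by rw [Cardinal.mk_eq_zero]; exact zero_le)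
      refine ⟨γ :: u, hγ, htu.trans (List.suffix_cons _ _), ?_⟩
      rw [List.length_cons]
      omega
  branch Ω T s t hT ht := TREM.branch T s t hT ht
  brs Ω b m n hmn := TREM.brs b m n hmn

end Pool.Agent.Lib.MPd89457.NB
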