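import Pool.Agent.Lib.MP_d89457_lc.NB.SpecK

/-!
# MP_d89457_lc, module ZCH (helper87)
-/

set_option autoImplicit false

namespace Pool.Agent.Lib.MPd89457.NB

open Cardinal

theorem specZCH (hZTH : SpecZTH) : SpecZCH := by
  intro hCH Ω B _ e hΩ hBC O X _ hX hO hBFA Y kap hY
  refine hZTH Ω B e hΩ hBC O X hO hBFA Y kap hY ?_
  have hYne : (#Y) ≠ 0 := by
    intro h0
    rw [h0] at hY
    have h2 := (Cardinal.aleph_pos 2).trans_le hY
    exact lt_irrefl _ h2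
  obtain ⟨⟨y0, hy0⟩⟩ := Cardinal.mk_ne_zero_iff.1 hYne
  classical
  intro ξ
  let ext : (Set.Iic ξ → X) → O → X := fun f ζ => if h : ζ ≤ ξ then f ⟨ζ, h⟩ else y0 ζ
  refine ⟨Set.range ext, ?_, ?_⟩
  · refine le_trans Cardinal.mk_range_le ?_
    have h1 : #(Set.Iic ξ → X) = #X ^ #(Set.Iic ξ) := by
      rw [Cardinal.power_def]
    rw [h1, ← hCH, Cardinal.two_power_aleph0, ← Cardinal.aleph0_power_aleph0]
    have h2 : #X ≤ ℵ₀ := Cardinal.mk_le_aleph0_iff.2 hX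
    have h3 : #(Set.Iic ξ) ≤ ℵ₀ := Cardinal.le_aleph0_iff_set_countable.2 (hO.2 ξ)
    exact le_trans (Cardinal.power_le_power_right h2)
      (Cardinal.power_le_power_left Cardinal.aleph0_ne_zero h3)
  · intro y _
    let f : Set.Iic ξ → X := fun ζ => y ζ.1
    refine ⟨ext f, ⟨f, rfl⟩, ?_⟩
    intro ζ hζ
    have h1 : ext f ζ = y ζ := dif_pos hζ
    exact h1.symm

end Pool.Agent.Lib.MPd89457.NB
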