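import Pool.Agent.Lib.MP_d89457_lc.NB.SpecR

/-!
# MP_d89457_lc, module ZTQ (after ZTP)
-/

set_option autoImplicit false

namespace Pool.Agent.Lib.MPd89457.NB

open Cardinal

theorem specZTQ (hZGF : SpecZGFq) (hZEX : SpecZEXq) : SpecZTQ := by
  intro Ω B _ e hΩ hBC O X _ hO hBFA Y K hY hThin
  by_cases hfirst : ∃ (ε : O) (t : List (O → X)) (A : Set (O → X)), (∀ y ∈ t, y ∈ Y) ∧ A ⊆ Y ∧ #A = ℵ_ 2 ∧
    ∀ q : ℕ → O → X, (∀ n, q n ∈ A) → ¬ {ξ | ∀ n, K ε ξ ((q n :: t).map fun y => y ξ)}.Countable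
  · exact Or.inl hfirst
  · right
    -- an injection into `Y`
    have h1 : #Ω ≤ #Y := by rw [hΩ]; exact hY
    obtain ⟨f⟩ := Cardinal.le_def _ _ |>.1 h1
    let y : Ω → O → X := fun γ => (f γ : O → X)
    have hyinj : Function.Injective y := fun a b hab => f.injective (Subtype.ext hab)
    have hyY : ∀ γ, y γ ∈ Y := fun γ => (f γ).2
    -- the levels
    choose S hS1 hS2 using hThin
    have hne : ∀ ξ, Nonempty (S ξ) := by
      intro ξ
      have hYne : (#Y) ≠ 0 := by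
        intro h0
        rw [h0] at hY
        have h2 := (Cardinal.aleph_pos 2).trans_le hY
        exact lt_irrefl _ h2
      obtain ⟨⟨y0, hy0⟩⟩ := Cardinal.mk_ne_zero_iff.1 hYne
      obtain ⟨z, hz, -⟩ := hS2 ξ y0 hy0
      exact ⟨⟨z, hz⟩⟩
    have hsurj : ∀ ξ, ∃ g : O → S ξ, Function.Surjective g := by
      intro ξ
      have h2 : #(S ξ) ≤ #O := by rw [hO.1]; exact hS1 ξ
      obtain ⟨i⟩ := Cardinal.le_def _ _ |>.1 h2
      have := hne ξ
      exact ⟨Function.invFun i, Function.invFun_surjective i.injective⟩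
    choose g hg using hsurj
    let r : O → O → O → X := fun ξ j => (g ξ j : O → X)
    have hr : ∀ ξ γ, ∃ j, Agr ξ (y γ) (r ξ j) := by
      intro ξ γ
      obtain ⟨z, hz, hag⟩ := hS2 ξ (y γ) (hyY γ)
      obtain ⟨j, hj⟩ := hg ξ ⟨z, hz⟩
      refine ⟨j, ?_⟩
      have h3 : r ξ j = z := congrArg Subtype.val hj
      rw [h3]
      exact hag
    have hcount : ∀ (ε : O) (t : List Ω) (A : Set Ω), #A = ℵ_ 2 → ∃ q : ℕ → Ω, (∀ n, q n ∈ A) ∧
        {ξ | ∀ n, K ε ξ ((q n :: t).map fun γ => y γ ξ)}.Countable := by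
      intro ε t A hA
      by_contra hc
      apply hfirst
      refine ⟨ε, t.map y, y '' A, ?_, ?_, ?_, ?_⟩
      · intro z hz
        obtain ⟨γ, -, rfl⟩ := List.mem_map.1 hz
        exact hyY γ
      · rintro _ ⟨γ, -, rfl⟩
        exact hyY γ
      · rw [Cardinal.mk_image_eq hyinj, hA]
      · intro q' hq' hcon
        choose q hqA hq using hq'
        apply hc
        refine ⟨q, hqA, hcon.mono ?_⟩
        intro ξ hξ n
        have h2 := hξ n
        show K ε ξ ((q' n :: t.map y).map fun y => y ξ)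
        rw [← hq n]
        simpa [List.map_map, Function.comp_def] using h2
    obtain ⟨G, hG, g1, g2, g3, g4⟩ := hZGF Ω B e hΩ hBC O X O hO hO.1.le hBFA y r K hyinj hr hcount
    obtain ⟨z, k, hz1, hz2, hz3⟩ := hZEX Ω B e hBC O X O hO y r K G hG g1 g2 g3 g4
    refine ⟨z, k, hz1, fun n ξ => ?_, hz3⟩
    obtain ⟨y', ⟨γ, rfl⟩, hag⟩ := hz2 n ξ
    exact ⟨y γ, hyY γ, hag⟩

end Pool.Agent.Lib.MPd89457.NB
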